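import Pool.Agent.H19.STAT.Sys

/-!
# The static part: real slopes

If all the slopes are integers, `MaiwStmt` gives a new label; otherwise `NonwStmt` for the first
coordinate whose slope is not an integer.
-/

set_option autoImplicit false

namespace Pool.STAT

open Finset MvPolynomial
open Pool.Agent.H49.Ent Pool.Agent.H32.Dense Pool.STK Pool.KS3
open Pool.BFL (Pl CB Pb P2 MC alt)

namespace NDat

/-- The axioms only depend on the slopes of the coordinates `≤ n`. -/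
theorem Ok.congr {D : NDat} {n K J z M : ℕ} {σ σ' : ℕ → ℝ} {κ C₁ : ℝ} {q : D.Ω → ℝ}
    (h : D.Ok n K J z M σ κ C₁ q) (h1 : ∀ i, 1 ≤ σ' i) (h2 : ∀ i ≤ n, σ' i = σ i) :
    D.Ok n K J z M σ' κ C₁ q where
  isLaw := h.isLaw
  top := h.top
  T_lt := h.T_lt
  X_zero := h.X_zero
  time := h.time
  c_wn := h.c_wn
  c_c := h.c_c
  c_T := h.c_T
  P_deg := h.P_deg
  P_tri := h.P_tri
  P_zero := h.P_zero
  R_deg := h.R_deg
  R_tri := h.R_tri
  σ_zero := by rw [h2 0 (Nat.zero_le _), h.σ_zero]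
  σ_ge := h1
  hom k hk i hi := by
    have := h.hom k hk i hi
    rw [h2 i hi]
    exact this
  hgt := h.hgt
  line := h.line
  full := h.full

/-- Larger defects. -/
theorem Ok.mono {D : NDat} {n K J z M : ℕ} {σ : ℕ → ℝ} {κ κ' C₁ : ℝ} {q : D.Ω → ℝ}
    (h : D.Ok n K J z M σ κ C₁ q) (hκ : κ ≤ κ') : D.Ok n K J z M σ κ' C₁ q where
  isLaw := h.isLaw
  top := h.top
  T_lt := h.T_lt
  X_zero := h.X_zero
  time := by
    have h1 := h.time
    have h2 : κ * (z : ℝ) ≤ κ' * z := mul_le_mul_of_nonneg_right hκ (Nat.cast_nonneg z)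
    linarith
  c_wn := h.c_wn
  c_c := h.c_c
  c_T := h.c_T
  P_deg := h.P_deg
  P_tri := h.P_tri
  P_zero := h.P_zero
  R_deg := h.R_deg
  R_tri := h.R_tri
  σ_zero := h.σ_zero
  σ_ge := h.σ_ge
  hom := h.hom
  hgt := h.hgt
  line := h.line
  full k hk := by
    have h1 := h.full k hk
    have h2 : κ * (z : ℝ) ≤ κ' * z := mul_le_mul_of_nonneg_right hκ (Nat.cast_nonneg z)
    linarith

end NDat

/-- **The static theorem**: real slopes; a new label of some coordinate. -/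
def StaStmt : Prop :=
  ∀ (n K A : ℕ) (σ : ℕ → ℝ) (C₁ C₃ a ρ : ℝ), 1 ≤ n → σ 0 = 1 → (∀ i, 1 ≤ σ i) → 1 ≤ C₁ →
    1 ≤ C₃ → 0 < a → 0 < ρ → ρ ≤ 1 →
    ∃ (U M K' : ℕ) (C₆ η' κ : ℝ) (z₀ : ℕ), 1 ≤ U ∧ 0 < η' ∧ 0 < κ ∧
    ∀ (J z : ℕ) (D : NDat) (q : D.Ω → ℝ), z₀ ≤ z → D.Ok n K J z M σ κ C₁ q →
      ((∀ i ≤ n, (⌈σ i⌉₊ : ℝ) = σ i) → ∀ k, k + 3 * U ≤ M →
        D.Cnt (fun i => ⌈σ i⌉₊) z n (k + U) U ρ a C₃ q) →
      ∃ v v' i, v ≤ v' ∧ v' ≤ M ∧ 1 ≤ i ∧ i ≤ n ∧ D.NewLab J z i v v' A K' C₆ η' q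

theorem sta_of (hM : MaiwStmt) (hN : NonwStmt) (hR : OkrStmt) : StaStmt := by
  classical
  intro n K A σ C₁ C₃ a ρ hn hσ0 hσ hC₁ hC₃ ha hρ hρ1
  set d : ℕ → ℕ := fun i => ⌈σ i⌉₊ with hd
  have hd0 : d 0 = 1 := by rw [hd]; simp [hσ0]
  have hd1 : ∀ i, 1 ≤ d i := fun i => by
    have : 0 < d i := Nat.ceil_pos.2 (lt_of_lt_of_le one_pos (hσ i))
    omega
  by_cases hint : ∀ i ≤ n, (d i : ℝ) = σ i
  · obtain ⟨U, M, K', C₆, η', κ, z₀, hU, hη', hκ, h⟩ :=
      hM n K A d C₁ C₃ a ρ hn hd0 hd1 hC₁ hC₃ ha hρ hρ1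
    refine ⟨U, M, K', C₆, η', κ, z₀, hU, hη', hκ, fun J z D q hz hOk hC => ?_⟩
    obtain ⟨k, i, h1, h2, h3, h4⟩ := h J z D q hz
      (hOk.congr (fun i => by exact_mod_cast hd1 i) hint) (hC hint)
    exact ⟨k + U, k + 3 * U, i, by omega, h1, h2, h3, h4⟩
  · have hex : ∃ i, i ≤ n ∧ (d i : ℝ) ≠ σ i := by
      push Not at hint
      exact hint
    set i := Nat.find hex with hi
    obtain ⟨hin, hid⟩ := Nat.find_spec hex
    rw [← hi] at hin hid
    have hlt : ∀ j < i, (d j : ℝ) = σ j := fun j hj => by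
      by_contra hc
      exact Nat.find_min hex hj ⟨by omega, hc⟩
    have hi1 : 1 ≤ i := by
      by_contra hc
      have h0 : i = 0 := by omega
      rw [h0, hd0, hσ0] at hid
      exact hid (by norm_num)
    have hle : σ i ≤ d i := Nat.le_ceil _
    have hlt2 : σ i < d i := lt_of_le_of_ne hle (Ne.symm hid)
    have hgt : (d i : ℝ) - 1 < σ i := by
      have := Nat.ceil_lt_add_one (le_trans zero_le_one (hσ i))
      simp only [hd]
      linarith
    obtain ⟨v, M, K', C₆, κ, z₀, hv, hκ, h⟩ :=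
      hN i K A d C₁ (σ i) hi1 hd0 hd1 hC₁ hgt hlt2
    refine ⟨1, M, K', C₆, 1 / 2, κ / 2, max (max z₀ 1) ⌈4 * n / κ⌉₊, le_rfl, by norm_num,
      by positivity, fun J z D q hz hOk _ => ?_⟩
    have hz0 : z₀ ≤ z := ((le_max_left _ _).trans (le_max_left _ _)).trans hz
    have hz1 : 1 ≤ z := ((le_max_right _ _).trans (le_max_left _ _)).trans hz
    have hz2 : 4 * n / κ ≤ z := (Nat.le_ceil _).trans (by exact_mod_cast (le_max_right _ _).trans hz)
    have h1 := hR n i K J z M σ (κ / 2) C₁ D q hin hz1 hOk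
    have hzp : (0 : ℝ) < z := by exact_mod_cast hz1
    have h2 : κ / 2 + 2 * n / z ≤ κ := by
      have : 2 * (n : ℝ) / z ≤ κ / 2 := by
        rw [div_le_iff₀ hzp]
        rw [div_le_iff₀ hκ] at hz2
        linarith
      linarith
    have h3 := (h1.mono h2).congr (σ' := Function.update (fun i => (d i : ℝ)) i (σ i))
      (fun j => by
        by_cases hj : j = i
        · rw [hj, Function.update_self]
          exact hσ i
        · rw [Function.update_of_ne hj]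
          exact_mod_cast hd1 j)
      (fun j hj => by
        rcases Nat.lt_or_ge j i with h4 | h4
        · rw [Function.update_of_ne (by omega), hlt j h4]
        · have : j = i := by omega
          rw [this, Function.update_self])
    exact ⟨v, M, i, hv, le_rfl, hi1, hin, h J z D q hz0 h3⟩

end Pool.STAT
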