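import Pool.Agent.H80.STAT.RecN
import Pool.Agent.H75.GEN.IsoK
import Pool.Agent.H82.STAT.Grxy

/-!
# Joint chains whose charts at one window differ by constants

`JatRN`: the joint chains near a point, the charts at one window differ by constants (`recY`).
`jatR_iso`, `jatR_iso_law`, `jatR_rts`: as helper75's `jatN_iso`, `jatN_iso_law`, `jatN_rts`.
-/

set_option autoImplicit false

namespace Pool.ISR

open Finset Real MvPolynomial
open Pool.Agent.H49.Ent Pool.Agent.H32.Dense Pool.STK Pool.KA Pool.KSAT Pool.K2S Pool.PB Pool.S6C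
open Pool.GEN Pool.CHT Pool.ISO
open Pool.FLF (Fam.sub)
open Pool.LEV (Law)
open Pool.ISN
open Pool.STAT.GRD (JatEY recY ChP JatE)

variable {m J : ℕ}

/-- **Joint chains near a point, the charts at one window differ by constants.** -/
def JatRN (S : PCl m) (c : ℕ → Fin m) (r : ℕ) (β : ℕ → ℝ → ℝ → ℝ) (x : ℝ) (Att : Set (ℝ × ℝ))
    (ρ E : ℝ) : Prop :=
  ∀ e' : ℝ, 0 < e' → ∃ ρ' : ℝ, 0 < ρ' ∧ JatEY S c r β x Att ρ E e' ρ' (recY m)

theorem JatRN.mono_rho {S : PCl m} {c : ℕ → Fin m} {r : ℕ} {β : ℕ → ℝ → ℝ → ℝ} {x ρ ρ' E : ℝ}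
    {Att : Set (ℝ × ℝ)} (h : JatRN S c r β x Att ρ E) (hρ : ρ' ≤ ρ) : JatRN S c r β x Att ρ' E := by
  intro e' he'
  obtain ⟨ρ'', h1, h2⟩ := h e' he'
  exact ⟨ρ'', h1, fun N a w haw => h2 N a w fun k hk =>
    ⟨(haw k hk).1, (haw k hk).2.1, (haw k hk).2.2.1.trans hρ, (haw k hk).2.2.2.trans hρ⟩⟩

theorem JatRN.mono_att {S : PCl m} {c : ℕ → Fin m} {r : ℕ} {β : ℕ → ℝ → ℝ → ℝ} {x ρ E : ℝ}
    {Att Att' : Set (ℝ × ℝ)} (h : JatRN S c r β x Att ρ E) (hA : Att' ⊆ Att) :
    JatRN S c r β x Att' ρ E := by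
  intro e' he'
  obtain ⟨ρ'', h1, h2⟩ := h e' he'
  exact ⟨ρ'', h1, fun N a w haw => h2 N a w fun k hk =>
    ⟨hA (haw k hk).1, (haw k hk).2.1, (haw k hk).2.2.1, (haw k hk).2.2.2⟩⟩

/-- The further property may be forgotten. -/
theorem JatRN.jatN {S : PCl m} {c : ℕ → Fin m} {r : ℕ} {β : ℕ → ℝ → ℝ → ℝ} {x ρ E : ℝ}
    {Att : Set (ℝ × ℝ)} (h : JatRN S c r β x Att ρ E) : Pool.TRC.JatN S c r β x Att ρ E := by
  intro e' he'
  obtain ⟨ρ'', h1, h2⟩ := h e' he'
  refine ⟨ρ'', h1, fun N a w haw φ hφ => ?_⟩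
  obtain ⟨K, d, δ, K₁, k1, k2, k3⟩ := h2 N a w haw φ hφ
  refine ⟨K, d, δ, K₁, k1, k2, Bas.mono 0 k3 ?_⟩
  rintro J - F A ⟨B, G, H, q1, q2, q3, q4, -⟩
  exact ⟨B, G, H, q1, q2, q3, q4⟩

/-- **Only the values near the point matter.** -/
theorem jatRN_congr {S : PCl m} {c : ℕ → Fin m} {r : ℕ} {β β' : ℕ → ℝ → ℝ → ℝ} {x ρ E : ℝ}
    {Att : Set (ℝ × ℝ)} (h : JatRN S c r β x Att ρ E)
    (hβ : ∀ l ≤ r, ∀ a w, (a, w) ∈ Att → w ≤ a → |a - x| ≤ ρ → |w - x| ≤ ρ →
      β' l a w = β l a w) : JatRN S c r β' x Att ρ E := by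
  intro e' he'
  obtain ⟨ρ', hρ', h1⟩ := h e' he'
  refine ⟨ρ', hρ', fun N a w haw φ hφ => ?_⟩
  obtain ⟨K, d, δ, K₁, hK₁, hd, hB⟩ := h1 N a w haw φ hφ
  refine ⟨K, d, δ, K₁, hK₁, hd, Bas.mono 0 hB ?_⟩
  rintro J - F A ⟨B, G, H, k1, k2, k3, k4, k5⟩
  have hg : ∀ k < N, ∀ l < r + 1, ⌊(β' l (a k) (w k) - d l) * (J : ℝ)⌋₊ =
      ⌊(β l (a k) (w k) - d l) * (J : ℝ)⌋₊ := fun k hk l hl => by
    obtain ⟨q1, q2, q3, q4⟩ := haw k hk
    rw [hβ l (by omega) _ _ q1 q2 q3 q4]
  exact ⟨B, G, H, k1, k2, mch_g k3 hg, fun k hk h2 h3 =>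
    chOK_g (k4 k hk h2 h3) fun l hl => hg k hk l (by omega), k5⟩

/-- **Joint chains near a point, with the precisions of re-centred balls.** -/
theorem jatR_iso {S : PCl m} (hS : TmH S) {c : ℕ → Fin m} {r : ℕ}
    (hc : Set.InjOn c (Set.Iio (r + 1))) {β : ℕ → ℝ → ℝ → ℝ} {x ρ E κ : ℝ} {Att : Set (ℝ × ℝ)}
    (hJat : Pool.TRC.JatN S c r β x Att ρ E) (hE : 0 < E) (hκ : 0 < κ) (hx0 : 0 ≤ x - ρ)
    (hx1 : x + ρ < 1)
    (hden : ∀ u v, x - ρ ≤ u → u < v → v ≤ x + ρ → ∃ y, u < y ∧ y < v ∧ (y, y) ∈ Att)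
    (hβ : ∀ l ≤ r, ∀ w, |w - x| ≤ ρ → κ ≤ β l w w ∧ E + β l w w + κ ≤ 1)
    (hlaw : ∀ l ≤ r, ∀ w w', |w - x| ≤ ρ → |w' - x| ≤ ρ → w ≤ w' →
      β l w w + (w' - w) ≤ β l w' w') {ρ₁ E' : ℝ} (hρ₁ : ρ₁ ≤ ρ) (hρκ : 4 * ρ₁ ≤ κ)
    (hE' : E < E') :
    JatRN S c r (fun l a w => β l w w + (a - w)) x {z | (z.2, z.2) ∈ Att} ρ₁ E' := by
  intro e' he'
  obtain ⟨ρ'', hρ'', hJ'⟩ := hJat (min (e' / 2) E) (lt_min (by positivity) hE)
  refine ⟨ρ'', hρ'', fun N₂ a w haw φ hφ => ?_⟩
  have hr0 : (0 : ℝ) ≤ r := Nat.cast_nonneg r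
  -- the depths
  obtain ⟨ν, hν, hν'⟩ := fin_pos N₂ (f := fun p => if a p = w p then 1 else a p - w p)
    (fun p hp => by
      by_cases h : a p = w p
      · simp only [if_pos h]; exact one_pos
      · simp only [if_neg h]
        have h1 := (haw p hp).2.1
        have h2 : w p < a p := lt_of_le_of_ne h1 fun e => h e.symm
        linarith only [h2])
  obtain ⟨φν, hφν⟩ : ∃ φν : ℝ, φν = min φ ν := ⟨_, rfl⟩
  have hφν0 : 0 < φν := by rw [hφν]; exact lt_min hφ hν
  have hφν1 : φν ≤ φ := by rw [hφν]; exact min_le_left _ _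
  have hφν2 : φν ≤ ν := by rw [hφν]; exact min_le_right _ _
  obtain ⟨b, hb⟩ : ∃ b : ℝ, b = φν / (4 * (r + 1)) := ⟨_, rfl⟩
  have hb0 : 0 < b := by rw [hb]; positivity
  have hbφ : (r + 1) * b = φν / 4 := by
    rw [hb]
    field_simp
  -- the mesh
  obtain ⟨N, ws, ip, hws, hwlt, hwη, hip⟩ := mesh_ex (Good := {y | (y, y) ∈ Att})
    (lo := x - ρ₁) (hi := x + ρ₁) (η := b / 8) (by positivity)
    (fun u v h1 h2 h3 => hden u v (by linarith only [hρ₁, h1]) h2 (by linarith only [hρ₁, h3])) N₂ w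
    (fun p hp => by
      obtain ⟨h1, h2, h3, h4⟩ := haw p hp
      have h5 := abs_le.1 h4
      exact ⟨h1, by linarith only [h5, h5.1], by linarith only [h5, h5.2]⟩)
  exact by
   have hwx : ∀ s < N, |ws s - x| ≤ ρ₁ := fun s hs => by
     obtain ⟨h1, h2, h3⟩ := hws s hs
     rw [abs_le]
     constructor <;> linarith
   obtain ⟨φi, hφi⟩ : ∃ φi : ℝ, φi = min (min (b / 8) (φ / 2)) (κ / 2) := ⟨_, rfl⟩
   have hφi0 : 0 < φi := by
     rw [hφi]
     exact lt_min (lt_min (by positivity) (by positivity)) (by positivity)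
   have hφi1 : φi ≤ b / 8 := by
     rw [hφi]
     exact (min_le_left _ _).trans (min_le_left _ _)
   have hφi2 : φi ≤ φ / 2 := by
     rw [hφi]
     exact (min_le_left _ _).trans (min_le_right _ _)
   have hφi3 : φi ≤ κ / 2 := by rw [hφi]; exact min_le_right _ _
   obtain ⟨K₀, d, δ, K₁, hK₁, hd, hBas⟩ := hJ' N ws ws (fun s hs =>
     ⟨(hws s hs).1, le_rfl, (hwx s hs).trans hρ₁, (hwx s hs).trans hρ₁⟩) φi hφi0
   obtain ⟨K, hK⟩ : ∃ K, K = max K₀ 1 := ⟨_, rfl⟩
   have hK0 : K₀ ≤ K := by rw [hK]; exact le_max_left _ _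
   have hK1 : 1 ≤ K := by rw [hK]; exact le_max_right _ _
   obtain ⟨C₁, C, hC₁, hmi⟩ := mch_isoR m (r + 1) K hK1
   have hC0 : (0 : ℝ) ≤ C := Nat.cast_nonneg C
   -- the losses
   obtain ⟨M₀, hM₀⟩ : ∃ M₀ : ℝ, M₀ = min (min (min b φ) (min (E' - E) e')) κ := ⟨_, rfl⟩
   have hM0 : 0 < M₀ := by
     rw [hM₀]
     exact lt_min (lt_min (lt_min hb0 hφ) (lt_min (by linarith only [hE']) he')) hκ
   have hM1 : M₀ ≤ b := by
     rw [hM₀]
     exact (min_le_left _ _).trans ((min_le_left _ _).trans (min_le_left _ _))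
   exact by
    have hM2 : M₀ ≤ φ := by
      rw [hM₀]
      exact (min_le_left _ _).trans ((min_le_left _ _).trans (min_le_right _ _))
    have hM3 : M₀ ≤ E' - E := by
      rw [hM₀]
      exact (min_le_left _ _).trans ((min_le_right _ _).trans (min_le_left _ _))
    have hM4 : M₀ ≤ e' := by
      rw [hM₀]
      exact (min_le_left _ _).trans ((min_le_right _ _).trans (min_le_right _ _))
    have hM5 : M₀ ≤ κ := by rw [hM₀]; exact min_le_right _ _
    obtain ⟨L₀, hL₀⟩ : ∃ L₀ : ℝ, L₀ = M₀ / (16 * (C + 1) ^ (r + 2)) := ⟨_, rfl⟩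
    have hL0 : 0 < L₀ := by rw [hL₀]; positivity
    obtain ⟨ℓ, hℓ⟩ : ∃ ℓ : ℕ → ℝ, ℓ = fun l => L₀ * (C + 1) ^ l := ⟨_, rfl⟩
    have hℓ0 : ∀ l, 0 < ℓ l := fun l => by rw [hℓ]; positivity
    have hℓ1 : ∀ l, ℓ (l + 1) = (C + 1) * ℓ l := fun l => by rw [hℓ]; ring
    have hℓm : ∀ l l', l ≤ l' → ℓ l ≤ ℓ l' := by
      intro l l' h
      rw [hℓ]
      exact mul_le_mul_of_nonneg_left (pow_le_pow_right₀ (by linarith only) h) hL0.le
    have hℓr : ∀ l ≤ r, (C + 1) * ℓ l ≤ M₀ / 16 := by
      intro l hl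
      rw [← hℓ1]
      refine (hℓm _ (r + 2) (by omega)).trans (le_of_eq ?_)
      rw [hℓ, hL₀]
      field_simp
    have hL0ℓ : ∀ l, L₀ ≤ ℓ l := fun l => by
      have h1 := hℓm 0 l (Nat.zero_le _)
      have h2 : ℓ 0 = L₀ := by rw [hℓ]; simp
      linarith only [h1, h2]
    obtain ⟨υ, hυ⟩ : ∃ υ : ℝ, υ = min b (L₀ / (4 * (r + 1))) := ⟨_, rfl⟩
    exact by
     have hυ0 : 0 < υ := by rw [hυ]; exact lt_min hb0 (by positivity)
     have hυ1 : υ ≤ b := by rw [hυ]; exact min_le_left _ _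
     have hυ2 : (r + 1) * υ ≤ L₀ / 4 := by
       have h1 : υ ≤ L₀ / (4 * (r + 1)) := by rw [hυ]; exact min_le_right _ _
       rw [le_div_iff₀ (by positivity)] at h1
       linarith only [h1]
     -- the time
     have hlog : 0 < Real.log 2 := Real.log_pos (by norm_num)
     obtain ⟨ζ, hζ⟩ : ∃ ζ : ℝ, ζ = min υ (1 - (x + ρ)) * Real.log 2 := ⟨_, rfl⟩
     have hζ0 : 0 < ζ := by
       rw [hζ]
       exact mul_pos (lt_min hυ0 (by linarith only [hx1])) hlog
     have hζ1 : ζ ≤ υ * Real.log 2 := by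
       rw [hζ]
       exact mul_le_mul_of_nonneg_right (min_le_left _ _) hlog.le
     have hζ2 : ζ ≤ (1 - (x + ρ)) * Real.log 2 := by
       rw [hζ]
       exact mul_le_mul_of_nonneg_right (min_le_right _ _) hlog.le
     obtain ⟨ε, hε⟩ : ∃ ε : ℝ, ε = ζ / (2 * C₁) := ⟨_, rfl⟩
     have hε0 : 0 < ε := by rw [hε]; positivity
     have hεC : C₁ * ε = ζ / 2 := by rw [hε]; field_simp
     obtain ⟨κ', hκ'⟩ : ∃ κ' : ℝ, κ' = 1 / (K₁ * 2 ^ (3 * N₂ + 3)) := ⟨_, rfl⟩
     have hκ'0 : 0 < κ' := by rw [hκ']; positivity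
     have hpA : Bas S (fun J F A => 0 < Pe F.p A) :=
       ⟨1, one_pos, 0, fun J _ F A hA => hS.1 1 J F A hA⟩
     have hall := (hBas.and (bas_ev (hS.2 ε hε0) hκ'0)).and hpA
     -- the large `J`
     obtain ⟨sm, hsm⟩ : ∃ sm : ℝ, sm = min (min b L₀) (min κ (min (E' - E) e')) := ⟨_, rfl⟩
     have hsm0 : 0 < sm := by
       rw [hsm]
       exact lt_min (lt_min hb0 hL0) (lt_min hκ (lt_min (by linarith only [hE']) he'))
     exact by
      obtain ⟨J₂, hJ₂⟩ := big (16 * (C + N + r + 8)) hsm0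
      obtain ⟨J₃, hJ₃⟩ := big (2 * C₁) hζ0
      refine ⟨K, fun l => d l + ℓ l, fun _ => φ, K₁ * 2 ^ (3 * N₂), by positivity, fun l hl => ?_,
        Bas.mono (max J₂ J₃) hall ?_⟩
      · obtain ⟨h1, h2, h3, h4⟩ := hd l hl
        have h5 := hℓr l hl
        have h6 := hℓ0 l
        have h7 : ℓ l ≤ (C + 1) * ℓ l := le_mul_of_one_le_left h6.le (by linarith only)
        refine ⟨by positivity, ?_, hφ.le, le_rfl⟩
        linarith only [hφi2, hM2, h2, h5, h6, h7]
      rintro J hJ F A ⟨⟨⟨B₁, G, H, k1, k2, k3, k4⟩, k5⟩, k6⟩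
      have hbig := hJ₂ J ((le_max_left _ _).trans hJ)
      have hbig₃ := hJ₃ J ((le_max_right _ _).trans hJ)
      have hJ0 : (0 : ℝ) ≤ J := Nat.cast_nonneg J
      have hN0 : (0 : ℝ) ≤ N := Nat.cast_nonneg N
      have hbJ : 16 * (C + N + r + 8) ≤ b * J := hbig.trans (mul_le_mul_of_nonneg_right (by
        rw [hsm]; exact (min_le_left _ _).trans (min_le_left _ _)) hJ0)
      have hLJ : 16 * (C + N + r + 8) ≤ L₀ * J := hbig.trans (mul_le_mul_of_nonneg_right (by
        rw [hsm]; exact (min_le_left _ _).trans (min_le_right _ _)) hJ0)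
      have hκJ : 16 * (C + N + r + 8) ≤ κ * J := hbig.trans (mul_le_mul_of_nonneg_right (by
        rw [hsm]; exact (min_le_right _ _).trans (min_le_left _ _)) hJ0)
      have hEJ : 16 * (C + N + r + 8) ≤ (E' - E) * J := hbig.trans (mul_le_mul_of_nonneg_right (by
        rw [hsm]; exact (min_le_right _ _).trans ((min_le_right _ _).trans (min_le_left _ _))) hJ0)
      have heJ : 16 * (C + N + r + 8) ≤ e' * J := hbig.trans (mul_le_mul_of_nonneg_right (by
        rw [hsm]; exact (min_le_right _ _).trans ((min_le_right _ _).trans (min_le_right _ _))) hJ0)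
      -- the natural numbers
      obtain ⟨Bb, hBb⟩ : ∃ Bb, Bb = ⌊b * J⌋₊ := ⟨_, rfl⟩
      obtain ⟨u, hu⟩ : ∃ u, u = ⌈υ * J⌉₊ := ⟨_, rfl⟩
      obtain ⟨lm, hlm⟩ : ∃ lm : ℕ → ℕ, lm = fun l => if l = 0 then 0 else ⌊ℓ (l - 1) * J⌋₊ + 3 :=
        ⟨_, rfl⟩
      exact by
       have hlm0 : lm 0 = 0 := by rw [hlm]; exact if_pos rfl
       have hlms : ∀ l, lm (l + 1) = ⌊ℓ l * J⌋₊ + 3 := fun l => by
         rw [hlm]
         show (if l + 1 = 0 then 0 else ⌊ℓ (l + 1 - 1) * J⌋₊ + 3) = _
         rw [if_neg (by omega), Nat.add_sub_cancel]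
       have hlmm : Monotone lm := by
         refine monotone_nat_of_le_succ fun l => ?_
         rcases Nat.eq_zero_or_pos l with h0 | h0
         · rw [h0, hlm0]; exact Nat.zero_le _
         · obtain ⟨l', rfl⟩ : ∃ l', l = l' + 1 := ⟨l - 1, by omega⟩
           rw [hlms, hlms]
           exact Nat.add_le_add_right (Nat.floor_le_floor
             (mul_le_mul_of_nonneg_right (hℓm _ _ (by omega)) hJ0)) 3
       have hBb1 : (Bb : ℝ) ≤ b * J := by rw [hBb]; exact Nat.floor_le (by positivity)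
       have hBb2 : b * J < Bb + 1 := by rw [hBb]; exact Nat.lt_floor_add_one _
       have hu1 : υ * J ≤ u := by rw [hu]; exact Nat.le_ceil _
       have hu2 : (u : ℝ) < υ * J + 1 := by rw [hu]; exact Nat.ceil_lt_add_one (by positivity)
       have hlr1 : ∀ l, ((lm (l + 1) : ℕ) : ℝ) ≤ ℓ l * J + 3 := fun l => by
         rw [hlms]
         push_cast
         have := Nat.floor_le (a := ℓ l * (J : ℝ)) (mul_nonneg (hℓ0 l).le hJ0)
         linarith only [this]
       have hlr2 : ∀ l, ℓ l * J + 2 < ((lm (l + 1) : ℕ) : ℝ) := fun l => by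
         rw [hlms]
         push_cast
         have := Nat.lt_floor_add_one (ℓ l * (J : ℝ))
         linarith only [this]
       have hCr : (C : ℝ) * ℓ r * J ≤ M₀ / 16 * J := by
         have h1 := hℓr r le_rfl
         have h2 := (hℓ0 r).le
         exact mul_le_mul_of_nonneg_right (by linarith only [h1, h2]) hJ0
       exact by
        have hCl : (C : ℝ) * (((lm (r + 1) : ℕ) : ℝ) + 1) ≤ M₀ / 16 * J + 4 * C := by
          have h1 := mul_le_mul_of_nonneg_left (hlr1 r) hC0
          linarith only [hCr, h1]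
        have hur : ∀ l ≤ r, ((l : ℝ) + 1) * u ≤ L₀ / 4 * J + (r + 1) := by
          intro l hl
          have h0 : (l : ℝ) ≤ r := by exact_mod_cast hl
          have h1 : ((l : ℝ) + 1) * u ≤ (r + 1) * (υ * J + 1) :=
            mul_le_mul (by linarith only [h0]) hu2.le (Nat.cast_nonneg _) (by positivity)
          have h2 := mul_le_mul_of_nonneg_right hυ2 hJ0
          nlinarith only [h1, h2]
        have hur' : ((r : ℝ) + 1) * u ≤ φν / 4 * J + (r + 1) := by
          have h1 : ((r : ℝ) + 1) * u ≤ (r + 1) * (b * J + 1) := by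
            refine mul_le_mul_of_nonneg_left ?_ (by positivity)
            have := mul_le_mul_of_nonneg_right hυ1 hJ0
            linarith only [hu2, this]
          have h2 : ((r : ℝ) + 1) * (b * J + 1) = φν / 4 * J + (r + 1) := by
            rw [← hbφ]
            ring
          linarith only [h1, h2]
        have hBr' : ((r : ℝ) + 1) * Bb ≤ φν / 4 * J := by
          rw [← hbφ, mul_assoc]
          exact mul_le_mul_of_nonneg_left hBb1 (by positivity)
        have hφνJ : 4 * ((r : ℝ) + 8) ≤ φν / 4 * J := by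
          rw [← hbφ, mul_assoc]
          have h1 : b * J ≤ (r + 1) * (b * J) := le_mul_of_one_le_left (by positivity) (by linarith only)
          linarith only [hbJ, h1]
        have hkey : ∀ l ≤ r, (C : ℝ) + ((l : ℝ) + 1) * u + (lm l : ℝ) * C + 2 ≤ ℓ l * J := by
          intro l hl
          have h1 := hur l hl
          rcases Nat.eq_zero_or_pos l with h0 | h0
          · subst h0
            have h2 := mul_le_mul_of_nonneg_right (hL0ℓ 0) hJ0
            rw [hlm0]
            push_cast at h1 ⊢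
            linarith only [hLJ, h2, h1]
          · obtain ⟨l', rfl⟩ : ∃ l', l = l' + 1 := ⟨l - 1, by omega⟩
            have h2 := mul_le_mul_of_nonneg_right (hL0ℓ l') hJ0
            have h3 := mul_le_mul_of_nonneg_right (hlr1 l') hC0
            have h4 : ℓ (l' + 1) * J = ℓ l' * J * C + ℓ l' * J := by rw [hℓ1]; ring
            rw [h4]
            linarith only [hLJ, h1, h2, h3]
        exact by
         have hbr : (r + 1) * Bb + (r + 1) * u + 2 ≤ ⌊φν * J⌋₊ - 1 := by
           have h1 := Nat.lt_floor_add_one (φν * (J : ℝ))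
           have h2 : (((r + 1) * Bb + (r + 1) * u + 2 + 1 : ℕ) : ℝ) < ((⌊φν * (J : ℝ)⌋₊ + 1 : ℕ) : ℝ) := by
             push_cast
             linarith only [hur', hBr', hφνJ, h1]
           have h3 : (r + 1) * Bb + (r + 1) * u + 2 + 1 < ⌊φν * (J : ℝ)⌋₊ + 1 := by exact_mod_cast h2
           omega
         -- the points
         have hp2 : ∀ p < N₂, |a p - x| ≤ ρ₁ ∧ |w p - x| ≤ ρ₁ ∧ w p ≤ a p ∧ a p - w p ≤ κ / 2 ∧
             ⌊w p * J⌋₊ ≤ ⌊a p * (J : ℝ)⌋₊ := by
           intro p hp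
           obtain ⟨q1, q2, q3, q4⟩ := haw p hp
           have h1 := abs_le.1 q3
           have h2 := abs_le.1 q4
           exact ⟨q3, q4, q2, by linarith only [hρκ, h1, h2, h1.2, h2.1], Nat.floor_le_floor
             (mul_le_mul_of_nonneg_right q2 hJ0)⟩
         have hwp : ∀ p < N₂, 0 ≤ w p := fun p hp => by
           have h1 := abs_le.1 (hp2 p hp).2.1
           linarith only [hx0, hρ₁, h1, h1.1]
         have hv1 : ∀ p < N₂, ((⌊a p * J⌋₊ - ⌊w p * J⌋₊ : ℕ) : ℝ) ≤ (a p - w p) * J + 1 := by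
           intro p hp
           obtain ⟨-, -, q3, -, q5⟩ := hp2 p hp
           rw [Nat.cast_sub q5]
           have h1 := Nat.floor_le (a := a p * (J : ℝ)) (mul_nonneg ((hwp p hp).trans q3) hJ0)
           have h2 := Nat.lt_floor_add_one (w p * (J : ℝ))
           linarith only [h1, h2]
         have hv2 : ∀ p < N₂, (a p - w p) * J - 1 ≤ ((⌊a p * J⌋₊ - ⌊w p * J⌋₊ : ℕ) : ℝ) := by
           intro p hp
           obtain ⟨-, -, q3, -, q5⟩ := hp2 p hp
           rw [Nat.cast_sub q5]
           have h1 := Nat.floor_le (a := w p * (J : ℝ)) (mul_nonneg (hwp p hp) hJ0)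
           have h2 := Nat.lt_floor_add_one (a p * (J : ℝ))
           linarith only [h1, h2]
         exact by
          obtain ⟨g, hg⟩ : ∃ g : ℕ → ℕ → ℕ, g = fun s l => ⌊(β l (ws s) (ws s) - d l) * J⌋₊ := ⟨_, rfl⟩
          obtain ⟨gg, hgg⟩ : ∃ gg : ℕ → ℕ → ℕ, gg = fun p l =>
            ⌊(β l (w p) (w p) + (a p - w p) - (d l + ℓ l)) * J⌋₊ := ⟨_, rfl⟩
          have hgs : ∀ s < N, ∀ l ≤ r, ((g s l : ℕ) : ℝ) ≤ (β l (ws s) (ws s) - d l) * J ∧
              (β l (ws s) (ws s) - d l) * J < g s l + 1 := by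
            intro s hs l hl
            rw [hg]
            refine ⟨Nat.floor_le (mul_nonneg ?_ hJ0), Nat.lt_floor_add_one _⟩
            have h1 := (hβ l hl (ws s) ((hwx s hs).trans hρ₁)).1
            have h2 := (hd l hl).2.1
            linarith only [hφi0, hφi3, h1, h2]
          have hℓκ : ∀ l ≤ r, ℓ l ≤ κ / 2 := by
            intro l hl
            have h1 := hℓr l hl
            have h2 := (hℓ0 l).le
            have h3 : 0 ≤ (C : ℝ) * ℓ l := by positivity
            linarith only [hφi0, hφi3, hM5, h1, h3]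
          have hggs : ∀ p < N₂, ∀ l ≤ r,
              ((gg p l : ℕ) : ℝ) ≤ (β l (w p) (w p) + (a p - w p) - (d l + ℓ l)) * J ∧
              (β l (w p) (w p) + (a p - w p) - (d l + ℓ l)) * J < gg p l + 1 := by
            intro p hp l hl
            rw [hgg]
            refine ⟨Nat.floor_le (mul_nonneg ?_ hJ0), Nat.lt_floor_add_one _⟩
            obtain ⟨q1, q2, q3, q4, q5⟩ := hp2 p hp
            have h1 := (hβ l hl (w p) (q2.trans hρ₁)).1
            have h2 := (hd l hl).2.1
            have h3 := hℓκ l hl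
            linarith only [hφi3, q3, h1, h2, h3]
          have hgip : ∀ p < N₂, ∀ l ≤ r, ((g (ip p) l : ℕ) : ℝ) ≤ (β l (w p) (w p) - d l) * J ∧
              (β l (w p) (w p) - d l) * J < g (ip p) l + 1 := by
            intro p hp l hl
            obtain ⟨q1, q2⟩ := hip p hp
            have h1 := hgs (ip p) q1 l hl
            rw [q2] at h1
            exact h1
          exact by
           have hwle : ∀ s s', s ≤ s' → s' < N → ws s ≤ ws s' := by
             intro s s' h1 h2
             rcases Nat.eq_or_lt_of_le h1 with h3 | h3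
             · rw [h3]
             · exact (hwlt s s' h3 h2).le
           have hws0 : ∀ s < N, 0 ≤ ws s := fun s hs => by
             have := (hws s hs).2.1
             linarith only [hx0, hρ₁, this]
           have hM' := MCh.conv (K' := fun _ => K) (R' := fun k k' => ws k ≤ ws k' ∧ ws k ≤ ws k')
             (w' := fun k => ⌊ws k * (J : ℝ)⌋₊) (e' := ⌊E * (J : ℝ)⌋₊) (δ' := fun _ => ⌊φi * (J : ℝ)⌋₊)
             k3 (fun _ => hK0) (fun _ _ _ _ h => h) (fun _ _ => rfl) le_rfl (fun l hl =>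
               Nat.floor_le_floor (mul_le_mul_of_nonneg_right (hd l (by omega)).2.2.2 hJ0))
           rw [← hg] at hM'
           obtain ⟨B, G', H', m1, m2, m3, m4, m5⟩ := hmi J F c r N N₂ (fun s => ⌊ws s * J⌋₊)
             (fun p => ⌊a p * J⌋₊) ip ⌊E * J⌋₊ ⌊min (e' / 2) E * J⌋₊ ⌊φi * J⌋₊ 3 (⌊b / 8 * J⌋₊ + 1) Bb u
             lm g gg B₁ G H (ε * J) (fun s => |ws s - x| ≤ ρ'')
             (fun k k' => ws k ≤ ws k' ∧ ws k ≤ ws k') (fun k k' => a k ≤ a k' ∧ w k ≤ w k') hc
             (Nat.le_succ r) hM' (fun s hs hn => by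
               have h1 := k4 s hs hn hn
               rw [hg]
               exact h1.mono le_rfl (fun _ => hK0) le_rfl le_rfl)
             (Nat.floor_le_floor (mul_le_mul_of_nonneg_right (min_le_right _ _) hJ0))
             (fun s s' h1 h2 => ⟨hwle s s' h1 h2, hwle s s' h1 h2⟩)
             (fun s s' h1 h2 => Nat.floor_le_floor (mul_le_mul_of_nonneg_right (hwle s s' h1 h2) hJ0))
             (fun s hs => fl_add (by
               have := mul_le_mul_of_nonneg_right (hwη s hs) hJ0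
               linarith only [this]))
             (fun s s' h1 h2 l hl => by
               have q1 := hgs s (by omega) l (by omega)
               have q2 := hgs s' h2 l (by omega)
               have q3 := hlaw l (by omega) (ws s) (ws s') ((hwx s (by omega)).trans hρ₁)
                 ((hwx s' h2).trans hρ₁) (hwle s s' h1 h2)
               have q4 := mul_le_mul_of_nonneg_right q3 hJ0
               have q5 : ⌊ws s * (J : ℝ)⌋₊ ≤ ⌊ws s' * (J : ℝ)⌋₊ := Nat.floor_le_floor
                 (mul_le_mul_of_nonneg_right (hwle s s' h1 h2) hJ0)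
               have q6 := Nat.floor_le (a := ws s' * (J : ℝ)) (mul_nonneg (hws0 s' h2) hJ0)
               have q7 := Nat.lt_floor_add_one (ws s * (J : ℝ))
               have q8 : ((g s l + (⌊ws s' * (J : ℝ)⌋₊ - ⌊ws s * (J : ℝ)⌋₊) : ℕ) : ℝ) ≤
                   ((g s' l + 3 : ℕ) : ℝ) := by
                 push_cast [Nat.cast_sub q5]
                 linarith only [q1, q2, q4, q6, q7, q1.1, q2.2]
               exact_mod_cast q8)
             hlmm
             (fun p hp => by
               obtain ⟨q1, q2⟩ := hip p hp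
               obtain ⟨p1, p2, p3, p4, p5⟩ := hp2 p hp
               refine ⟨q1, by rw [q2]; exact p5, ?_⟩
               rw [q2]
               have h1 := abs_le.1 p2
               have h2 : w p * J ≤ J := mul_le_of_le_one_left hJ0 (by linarith only [hx1, hρ₁, h1, h1.2])
               calc ⌊w p * (J : ℝ)⌋₊ ≤ ⌊(J : ℝ)⌋₊ := Nat.floor_le_floor h2
                 _ = J := Nat.floor_natCast J)
             (fun p hp p' hp' hR => by
               refine ⟨Nat.floor_le_floor (mul_le_mul_of_nonneg_right hR.1 hJ0), ?_⟩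
               by_contra hc'
               rw [not_le] at hc'
               have h1 := hwlt _ _ hc' (hip p hp).1
               rw [(hip p hp).2, (hip p' hp').2] at h1
               exact absurd hR.2 (not_le.2 h1))
             (fun p hp => by
               rw [(hip p hp).2]
               by_cases hap : a p = w p
               · exact Or.inl (by rw [hap])
               · right
                 have h1 := hν' p hp
                 simp only [if_neg hap] at h1
                 have h2 : φν * J ≤ (a p - w p) * J :=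
                   mul_le_mul_of_nonneg_right (hφν2.trans h1) hJ0
                 have h3 := hv2 p hp
                 have h4 := Nat.floor_le (a := φν * (J : ℝ)) (by positivity)
                 have h5 : ((⌊φν * (J : ℝ)⌋₊ : ℕ) : ℝ) ≤
                     ((⌊a p * (J : ℝ)⌋₊ - ⌊w p * (J : ℝ)⌋₊ + 1 : ℕ) : ℝ) := by
                   push_cast
                   linarith only [h2, h3, h4]
                 have h6 : ⌊φν * (J : ℝ)⌋₊ ≤ ⌊a p * (J : ℝ)⌋₊ - ⌊w p * (J : ℝ)⌋₊ + 1 := by
                   exact_mod_cast h5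
                 omega)
             (fun p hp l hl => by
               rw [(hip p hp).2]
               have q1 := (hggs p hp l (by omega)).1
               have q2 := (hgip p hp l (by omega)).2
               have q3 := hv2 p hp
               have q4 := hkey l (by omega)
               have q5 : ((gg p l + C + (l + 1) * u + lm l * C : ℕ) : ℝ) ≤
                   ((g (ip p) l + (⌊a p * (J : ℝ)⌋₊ - ⌊w p * (J : ℝ)⌋₊) : ℕ) : ℝ) := by
                 push_cast at q3 ⊢
                 linarith only [q1, q2, q3, q4]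
               exact_mod_cast q5)
             (fun p hp l hl => by
               rw [(hip p hp).2]
               have q1 := (hggs p hp l (by omega)).2
               have q2 := (hgip p hp l (by omega)).1
               have q3 := hv1 p hp
               have q4 := hlr2 l
               have q5 : ((g (ip p) l + (⌊a p * (J : ℝ)⌋₊ - ⌊w p * (J : ℝ)⌋₊) : ℕ) : ℝ) ≤
                   ((gg p l + lm (l + 1) : ℕ) : ℝ) := by
                 push_cast at q3 ⊢
                 linarith only [q1, q2, q3, q4]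
               exact_mod_cast q5)
             (fun p hp l hl => by
               rw [(hip p hp).2]
               obtain ⟨p1, p2, p3, p4, p5⟩ := hp2 p hp
               have q2 := (hgip p hp l (by omega)).1
               have q3 := hv1 p hp
               have q4 := Nat.floor_le (a := E * (J : ℝ)) (by positivity)
               have q5 := mul_le_mul_of_nonneg_right (hβ l (by omega) (w p) (p2.trans hρ₁)).2 hJ0
               have q6 := mul_le_mul_of_nonneg_right p4 hJ0
               have q7 := mul_nonneg (hd l (by omega)).1.le hJ0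
               have q8 : ((⌊E * (J : ℝ)⌋₊ + g (ip p) l + (⌊a p * (J : ℝ)⌋₊ - ⌊w p * (J : ℝ)⌋₊) + C : ℕ) : ℝ) ≤
                   (J : ℝ) := by
                 push_cast at q3 ⊢
                 linarith only [hκJ, q2, q3, q4, q5, q6, q7]
               exact_mod_cast q8)
             (by
               have q1 := Nat.floor_le (a := φi * (J : ℝ)) (by positivity)
               have q2 := mul_le_mul_of_nonneg_right hφi1 hJ0
               have q3 := Nat.floor_le (a := b / 8 * (J : ℝ)) (by positivity)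
               have q4 := mul_le_mul_of_nonneg_right hM1 hJ0
               have q5 : ((C * (lm (r + 1) + 1) + ⌊φi * (J : ℝ)⌋₊ + (⌊b / 8 * (J : ℝ)⌋₊ + 1) + 3 + N : ℕ) : ℝ) ≤
                   (Bb : ℝ) := by
                 push_cast
                 linarith only [hbJ, hBb2, hCl, q1, q2, q3, q4]
               exact_mod_cast q5)
             (by positivity) (lt_of_lt_of_le (by positivity : 0 < Pe F.p A / K₁) (by
               rw [div_le_iff₀ hK₁]
               linarith only [k2]))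
             (fun B' hB' hP' h => k5 B' (fun ω h => k1 ω (hB' ω h)) (by
               rw [hκ', one_div_mul_eq_div, div_le_iff₀ (by positivity)]
               calc Pe F.p A ≤ K₁ * Pe F.p B₁ := k2
                 _ ≤ K₁ * (2 ^ (3 * N₂ + 3) * Pe F.p B') := mul_le_mul_of_nonneg_left hP' hK₁.le
                 _ = _ := by ring) h)
             (fun p hp => by
               rw [(hip p hp).2]
               obtain ⟨p1, p2, p3, p4, p5⟩ := hp2 p hp
               have h1 := abs_le.1 p2
               have h2 := Nat.floor_le (a := w p * (J : ℝ)) (mul_nonneg (hwp p hp) hJ0)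
               have h3 : (1 - (x + ρ)) * J ≤ (J : ℝ) - (⌊w p * (J : ℝ)⌋₊ : ℕ) := by
                 have h4 : w p * J ≤ (x + ρ) * J := mul_le_mul_of_nonneg_right (by linarith only [hρ₁, h1, h1.2]) hJ0
                 linarith only [h2, h4]
               have h4 := mul_le_mul_of_nonneg_right h3 hlog.le
               have h5 := mul_le_mul_of_nonneg_right hζ2 hJ0
               have h6 : C₁ * (ε * J + 1) = ζ / 2 * J + C₁ := by rw [← hεC]; ring
               rw [h6]
               linarith only [hbig₃, h4, h5])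
             (by
               have h5 := mul_le_mul_of_nonneg_right hζ1 hJ0
               have h6 : C₁ * (ε * J + 1) = ζ / 2 * J + C₁ := by rw [← hεC]; ring
               have h7 := mul_le_mul_of_nonneg_right hu1 hlog.le
               have h8 : C₁ * (ε * J + 1) ≤ u * Real.log 2 := by
                 rw [h6]
                 linarith only [hbig₃, h5, h7]
               refine (Real.exp_le_exp.2 h8).trans (le_of_eq ?_)
               rw [mul_comm, Real.exp_mul, Real.exp_log (by norm_num), Real.rpow_natCast])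
           exact by
            have he2 : ∀ y : ℝ, 0 ≤ y → M₀ ≤ y → 16 * (C + N + r + 8) ≤ y * J → ∀ z : ℝ, 0 ≤ z →
                ⌊z * (J : ℝ)⌋₊ + C * (lm (r + 1) + 1) ≤ ⌊(z + y / 2) * (J : ℝ)⌋₊ := by
              intro y hy h1 h2 z hz
              have q1 := Nat.floor_le (a := z * (J : ℝ)) (by positivity)
              have q2 := mul_le_mul_of_nonneg_right h1 hJ0
              refine Nat.le_floor ?_
              push_cast
              linarith only [hCl, h2, q1, q2]
            refine ⟨B, G', H', fun ω h => k1 ω (m1 ω h), ?_, ?_, fun p hp h1 h2 => ?_,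
              fun p hp p' hp' hww y l => ?_⟩
            · calc Pe F.p A ≤ K₁ * Pe F.p B₁ := k2
                _ ≤ K₁ * (2 ^ (3 * N₂) * Pe F.p B) := mul_le_mul_of_nonneg_left m2 hK₁.le
                _ = _ := by ring
            · have h1 := MCh.conv (K' := fun _ => K) (R' := fun k k' => a k ≤ a k' ∧ w k ≤ w k')
                (w' := fun k => ⌊w k * (J : ℝ)⌋₊) (e' := ⌊E' * (J : ℝ)⌋₊)
                (δ' := fun _ => ⌊φ * (J : ℝ)⌋₊) m3 (fun _ => le_rfl) (fun _ _ _ _ h => h)
                (fun k hk => by rw [(hip k hk).2])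
                ((he2 (E' - E) (by linarith only [hE']) hM3 hEJ E hE.le).trans (Nat.floor_le_floor
                  (mul_le_mul_of_nonneg_right (by linarith only [hE']) hJ0)))
                (fun l hl => by
                  have h2 : ⌊φν * (J : ℝ)⌋₊ ≤ ⌊φ * (J : ℝ)⌋₊ := Nat.floor_le_floor
                    (mul_le_mul_of_nonneg_right hφν1 hJ0)
                  omega)
              rw [hgg] at h1
              exact h1
            · have h3 := m4 p hp (by
                show |ws (ip p) - x| ≤ ρ''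
                rw [(hip p hp).2]
                exact h2)
              simp only [(hip p hp).2] at h3
              rw [hgg] at h3
              exact h3.mono le_rfl (fun _ => le_rfl) le_rfl ((he2 e' he'.le hM4 heJ (min (e' / 2) E)
                (lt_min (by positivity) hE).le).trans (Nat.floor_le_floor
                  (mul_le_mul_of_nonneg_right (by
                    have := min_le_left (e' / 2) E
                    linarith only [this]) hJ0)))
            · obtain ⟨κ₁, q1⟩ := m5 p y l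
              obtain ⟨κ₂, q2⟩ := m5 p' y l
              have q3 : ip p = ip p' := by
                rcases Nat.lt_trichotomy (ip p) (ip p') with q4 | q4 | q4
                · have q5 := hwlt _ _ q4 (hip p' hp').1
                  rw [(hip p hp).2, (hip p' hp').2, hww] at q5
                  exact absurd q5 (lt_irrefl _)
                · exact q4
                · have q5 := hwlt _ _ q4 (hip p hp).1
                  rw [(hip p hp).2, (hip p' hp').2, hww] at q5
                  exact absurd q5 (lt_irrefl _)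
              refine ⟨κ₁ - κ₂, ?_⟩
              rw [q1, q2, q3, add_assoc, ← map_add]
              congr 2
              ring

/-- **Joint chains near a point, with the precisions of re-centred balls**: with the laws of the
thresholds. -/
theorem jatR_iso_law {S : PCl m} (hS : TmH S) {c : ℕ → Fin m} {r : ℕ}
    (hc : Set.InjOn c (Set.Iio (r + 1))) {β : ℕ → ℝ → ℝ → ℝ} {x E : ℝ} {Att : Set (ℝ × ℝ)}
    (hlaw : ∀ l ≤ r, Law (β l)) (hx0 : 0 < x) (hx1 : x < 1)
    (hcon : ∀ l ≤ r, ContinuousAt (fun v => β l v v) x) (hβ0 : ∀ l ≤ r, 0 < β l x x)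
    (hE0 : 0 < E) (hE : ∀ l ≤ r, E + β l x x < 1)
    (hden : ∀ u v : ℝ, 0 < u → u < v → v < 1 → ∃ y, u < y ∧ y < v ∧ (y, y) ∈ Att) {ρ₀ : ℝ}
    (hρ₀ : 0 < ρ₀) (hJat : Pool.TRC.JatN S c r β x Att ρ₀ E) {E' : ℝ} (hE' : E < E') :
    ∃ ρ₁ : ℝ, 0 < ρ₁ ∧ ∀ ρ : ℝ, ρ ≤ ρ₁ →
      JatRN S c r (fun l a w => β l w w + (a - w)) x {z | (z.2, z.2) ∈ Att} ρ E' := by
  obtain ⟨κ, hκ, hκ'⟩ := fin_pos (r + 1) (f := fun l => min (β l x x) (1 - (E + β l x x)) / 4)
    (fun l hl => by
      have h1 := hβ0 l (by omega)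
      have h2 := hE l (by omega)
      have h3 : 0 < min (β l x x) (1 - (E + β l x x)) := lt_min h1 (by linarith only [h2])
      positivity)
  have hκ1 : ∀ l ≤ r, 4 * κ ≤ β l x x ∧ 4 * κ ≤ 1 - (E + β l x x) := by
    intro l hl
    have h1 := hκ' l (by omega)
    have h2 := min_le_left (β l x x) (1 - (E + β l x x))
    have h3 := min_le_right (β l x x) (1 - (E + β l x x))
    constructor <;> linarith
  have hev : ∀ᶠ v in nhds x, ∀ l ∈ range (r + 1), |β l v v - β l x x| < κ := by
    rw [Filter.eventually_all_finset]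
    intro l hl
    have h1 := Metric.tendsto_nhds.1 (hcon l (by rw [mem_range] at hl; omega)) κ hκ
    filter_upwards [h1] with v hv
    rwa [Real.dist_eq] at hv
  obtain ⟨ρc, hρc, hmod⟩ := Metric.eventually_nhds_iff.1 hev
  obtain ⟨ρ, hρ⟩ : ∃ ρ : ℝ, ρ = min (min ρ₀ (ρc / 2)) (min (x / 2) ((1 - x) / 2)) := ⟨_, rfl⟩
  have hρ0 : 0 < ρ := by
    rw [hρ]
    exact lt_min (lt_min hρ₀ (by positivity)) (lt_min (by positivity) (by linarith only [hx1]))
  have r1 : ρ ≤ ρ₀ := by rw [hρ]; exact (min_le_left _ _).trans (min_le_left _ _)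
  have r2 : ρ ≤ ρc / 2 := by rw [hρ]; exact (min_le_left _ _).trans (min_le_right _ _)
  have r3 : ρ ≤ x / 2 := by rw [hρ]; exact (min_le_right _ _).trans (min_le_left _ _)
  have r4 : ρ ≤ (1 - x) / 2 := by rw [hρ]; exact (min_le_right _ _).trans (min_le_right _ _)
  have hval : ∀ l ≤ r, ∀ w, |w - x| ≤ ρ → κ ≤ β l w w ∧ E + β l w w + κ ≤ 1 := by
    intro l hl w hw
    have h1 := abs_lt.1 (hmod (y := w) (by rw [Real.dist_eq]; linarith only [hρ0, r2, hw]) l
      (mem_range.2 (by omega)))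
    obtain ⟨h2, h3⟩ := hκ1 l hl
    constructor <;> linarith [h1.1, h1.2]
  refine ⟨min ρ (κ / 4), lt_min hρ0 (by positivity), fun ρ₁ hρ₁ => JatRN.mono_rho
    (jatR_iso hS hc (JatN.mono_rho hJat r1) hE0 hκ (by linarith only [hρ0, r3]) (by linarith only [hρ0, r4])
      (fun u v h1 h2 h3 => hden u v (by linarith only [hρ0, r3, h1]) h2 (by linarith only [hρ0, r4, h3])) hval
      (fun l hl w w' h1 h2 h3 => ?_) (min_le_left ρ (κ / 4))
      (by have := min_le_right ρ (κ / 4); linarith only [this]) hE') hρ₁⟩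
  have h4 := abs_le.1 h1
  have h5 := abs_le.1 h2
  have h6 := (hlaw l hl).slope w w (w' - w) (by linarith only [hρ0, r3, h4, h4.1]) le_rfl (by linarith only [h3])
    (by linarith only [hρ0, r4, h5, h5.2])
  have h7 := (hlaw l hl).mono_w w' w w' (by linarith only [hρ0, r3, h4, h4.1]) h3 le_rfl (by linarith only [hρ0, r4, h5, h5.2])
  have h8 := (hval l hl w' h2).2
  rw [show w + (w' - w) = w' by ring] at h6
  rcases min_le_iff.1 h6 with h9 | h9
  · linarith only [hE0, hκ, h7, h8, h9]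
  · linarith only [h7, h9]

/-- **Joint chains over the fattest boxes.** -/
theorem jatR_rts {S : PCl m} (hS : TmH S) {c : ℕ → Fin m} {r : ℕ}
    (hc : Set.InjOn c (Set.Iio (r + 1))) {β : ℕ → ℝ → ℝ → ℝ} {x E : ℝ} {Att : Set (ℝ × ℝ)}
    (hlaw : ∀ l ≤ r, Law (β l)) (hx0 : 0 < x) (hx1 : x < 1)
    (hcon : ∀ l ≤ r, ContinuousAt (fun v => β l v v) x) (hβ0 : ∀ l ≤ r, 0 < β l x x)
    (hE0 : 0 < E) (hE : ∀ l ≤ r, E + β l x x < 1)
    (hden : ∀ u v : ℝ, 0 < u → u < v → v < 1 → ∃ y, u < y ∧ y < v ∧ (y, y) ∈ Att) {ρ₀ : ℝ}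
    (hρ₀ : 0 < ρ₀) (hJat : Pool.TRC.JatN S c r β x Att ρ₀ E) {E' : ℝ} (hE' : E < E') :
    ∃ ρ₁ : ℝ, 0 < ρ₁ ∧ ∀ ρ : ℝ, ρ ≤ ρ₁ →
      JatRN S c r (fun l => Pool.RTS.iso fun v => β l v v) x {z | (z.2, z.2) ∈ Att}
        ρ E' := by
  obtain ⟨ρ₁, hρ₁, h1⟩ := jatR_iso_law hS hc hlaw hx0 hx1 hcon hβ0 hE0 hE hden hρ₀ hJat hE'
  obtain ⟨κ, hκ, hκ'⟩ := fin_pos (r + 1) (f := fun l => (1 - β l x x) / 4) (fun l hl => by
      have h2 := hE l (by omega)
      linarith)
  have hev : ∀ᶠ v in nhds x, ∀ l ∈ range (r + 1), |β l v v - β l x x| < κ := by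
    rw [Filter.eventually_all_finset]
    intro l hl
    have h1 := Metric.tendsto_nhds.1 (hcon l (by rw [mem_range] at hl; omega)) κ hκ
    filter_upwards [h1] with v hv
    rwa [Real.dist_eq] at hv
  obtain ⟨ρc, hρc, hmod⟩ := Metric.eventually_nhds_iff.1 hev
  refine ⟨min ρ₁ (min (ρc / 2) κ), lt_min hρ₁ (lt_min (by positivity) hκ), fun ρ hρ => ?_⟩
  have r1 : ρ ≤ ρ₁ := hρ.trans (min_le_left _ _)
  have r2 : ρ ≤ ρc / 2 := hρ.trans ((min_le_right _ _).trans (min_le_left _ _))
  have r3 : ρ ≤ κ := hρ.trans ((min_le_right _ _).trans (min_le_right _ _))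
  refine jatRN_congr (h1 ρ r1) fun l hl a w _ hwa h2 h3 => ?_
  have h4 := abs_lt.1 (hmod (y := w) (by rw [Real.dist_eq]; linarith) l
    (mem_range.2 (by omega)))
  have h5 := hκ' l (by omega)
  have h6 := abs_le.1 h2
  have h7 := abs_le.1 h3
  show min 1 (β l w w + (a - w)) = β l w w + (a - w)
  exact min_eq_right (by linarith [h4.2, h6.2, h7.1])

end Pool.ISR
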