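import Pool.Agent.H80.STAT.Node

/-!
# The labels of a node near the closed labels of a path, with a second raw label

`near_nodeN`: as `near_node`, for a label `PS` which is near the raw label `GD`, where `GD` is near
the raw label of the node of the path.
-/

set_option autoImplicit false

namespace Pool.STAT.GRD

open Finset MvPolynomial
open Pool.Agent.H49.Ent Pool.Agent.H32.Dense Pool.STK Pool.KS3 Pool.KA Pool.KSAT Pool.PB Pool.GEN
open Pool.STAT.CLO Pool.STAT.CDat Pool.TRC Pool.STAT.DPP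

/-- **`GD` is near the raw label of the level `j'`** on the wide boxes of this level. -/
def Clo {m J : ℕ} {F : Fam m J} (π' : Path F) (n j' u h : ℕ) (gD : ℕ → ℕ) (ω : F.Ω)
    (GD : ℕ → PN) : Prop :=
  ∀ l, 1 ≤ l → l ≤ n → ∀ b : ℕ → ℝ, |b 0 - F.t ω| ≤ 2 ^ (u + 1) / 2 ^ π'.a j' →
    (∀ i, 1 ≤ i → i < l →
      |b i - eval b (π'.G j' (ptr F J ω) i)| ≤ 2 ^ (u + 1) / 2 ^ π'.g j' i) →
    |eval b (π'.G j' (ptr F J ω) l) - eval b (GD l)| ≤ 2 ^ h / 2 ^ gD l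

/-- **A label near a raw label which is near the raw label of the end of a path** has the strong
form of the error. -/
theorem er_nodeN {n K' s₁ : ℕ} {d J : ℕ} {F : Fam d J} {π' : Path F} {j' u h : ℕ} {ω : F.Ω}
    {gD : ℕ → ℕ} {PS GD : ℕ → PN} (haJ : π'.a j' ≤ J)
    (hN : Nr K' (2 ^ s₁) (gt0 (π'.a j') gD) PS GD (n + 1))
    (hG0 : GD 0 = MvPolynomial.C (F.t ω)) (hC : Clo π' n j' u h gD ω GD)
    (hg : ∀ l, 1 ≤ l → l ≤ n → gD l ≤ π'.g j' l) :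
    π'.Er n j' u (K' * (K' + s₁ + u + h + 2) + u + h + 3) gD ω
      (fun i => if i = 0 then MvPolynomial.C ((F.T1 (π'.a j') ω : ℝ) / 2 ^ π'.a j') else PS i) := by
  intro i hi1 hi b hb0 hb
  simp only [if_neg (show ¬ i = 0 by omega)]
  have h2 : ∀ {a b : ℕ}, a ≤ b → (2 : ℝ) ^ a ≤ 2 ^ b := fun h =>
    pow_le_pow_right₀ (by norm_num) h
  have hraw : ∀ l, 1 ≤ l → l ≤ i →
      |b l - eval b (π'.G j' (ptr F J ω) l)| ≤ 2 ^ (u + 1) / 2 ^ π'.g j' l := fun l l1 l2 =>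
    hb j' le_rfl l l1 l2
  have hraw' : ∀ l, 1 ≤ l → l ≤ i →
      |b l - eval b (π'.G j' (ptr F J ω) l)| ≤ 2 ^ (u + 1) / 2 ^ gD l := fun l l1 l2 =>
    (hraw l l1 l2).trans (div_le_div_of_nonneg_left (by positivity) (by positivity)
      (h2 (hg l l1 (by omega))))
  have ht := time_near F haJ ω
  have e1 : (2 : ℝ) ≤ 2 ^ (u + 1) := by
    have := h2 (Nat.le_add_left 1 u)
    simpa using this
  have e2 : |b 0 - F.t ω| ≤ 2 / 2 ^ π'.a j' := by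
    have e3 : (2 : ℝ) / 2 ^ π'.a j' = 1 / 2 ^ π'.a j' + 1 / 2 ^ π'.a j' := by ring
    rw [e3]
    rw [abs_le] at hb0 ht ⊢
    constructor <;> linarith [hb0.1, hb0.2, ht.1, ht.2]
  have htt : |b 0 - F.t ω| ≤ 2 ^ (u + 1) / 2 ^ π'.a j' :=
    e2.trans (div_le_div_of_nonneg_right e1 (by positivity))
  have hnear : ∀ l, 1 ≤ l → l ≤ i →
      |eval b (π'.G j' (ptr F J ω) l) - eval b (GD l)| ≤ 2 ^ h / 2 ^ gD l := fun l l1 l2 =>
    hC l l1 (by omega) b htt fun k k1 k2 => hraw k k1 (by omega)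
  have hsum : (2 : ℝ) ^ (u + 1) + 2 ^ h ≤ 2 ^ (u + h + 2) := by
    have e4 : (2 : ℝ) ^ (u + 1) ≤ 2 ^ (u + h + 1) := h2 (by omega)
    have e5 : (2 : ℝ) ^ h ≤ 2 ^ (u + h + 1) := h2 (by omega)
    have e6 : (2 : ℝ) ^ (u + h + 2) = 2 ^ (u + h + 1) + 2 ^ (u + h + 1) := by
      rw [show u + h + 2 = u + h + 1 + 1 from rfl, pow_succ]
      ring
    rw [e6]
    exact add_le_add e4 e5
  have hboth : ∀ l, 1 ≤ l → l ≤ i → |b l - eval b (GD l)| ≤ 2 ^ (u + h + 2) / 2 ^ gD l := by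
    intro l l1 l2
    have e4 : b l - eval b (GD l) = (b l - eval b (π'.G j' (ptr F J ω) l)) +
        (eval b (π'.G j' (ptr F J ω) l) - eval b (GD l)) := by ring
    rw [e4]
    refine (abs_add_le _ _).trans ((add_le_add (hraw' l l1 l2) (hnear l l1 l2)).trans ?_)
    rw [← add_div]
    exact div_le_div_of_nonneg_right hsum (by positivity)
  have hbx : Bxr (2 ^ (u + h + 2)) (gt0 (π'.a j') gD) GD i b := by
    intro l hl
    rcases Nat.eq_zero_or_pos l with rfl | l1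
    · rw [gt0_zero, hG0, eval_C]
      exact htt.trans (div_le_div_of_nonneg_right (h2 (by omega)) (by positivity))
    · rw [gt0_pos _ _ l1]
      exact hboth l l1 hl.le
  have h3 := hN.2 i hi1 (by omega) (2 ^ (u + h + 2)) (one_le_pow₀ (by norm_num)) b hbx
  rw [gt0_pos _ _ hi1] at h3
  have h4 := hboth i hi1 le_rfl
  have h5 : ((K' : ℝ) * 2 ^ s₁ * 2 ^ (u + h + 2)) ^ K' ≤ 2 ^ (K' * (K' + s₁ + u + h + 2)) := by
    have e4 : (K' : ℝ) * 2 ^ s₁ * 2 ^ (u + h + 2) ≤ 2 ^ (K' + s₁ + u + h + 2) := by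
      have e5 : (K' : ℝ) ≤ 2 ^ K' := by exact_mod_cast (Nat.lt_two_pow_self (n := K')).le
      have e6 : (2 : ℝ) ^ (K' + s₁ + u + h + 2) = 2 ^ K' * 2 ^ s₁ * 2 ^ (u + h + 2) := by
        rw [← pow_add, ← pow_add]
        ring_nf
      rw [e6]
      exact mul_le_mul_of_nonneg_right (mul_le_mul_of_nonneg_right e5 (by positivity))
        (by positivity)
    calc ((K' : ℝ) * 2 ^ s₁ * 2 ^ (u + h + 2)) ^ K' ≤ (2 ^ (K' + s₁ + u + h + 2)) ^ K' :=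
          pow_le_pow_left₀ (by positivity) e4 _
      _ = 2 ^ (K' * (K' + s₁ + u + h + 2)) := by rw [← pow_mul, mul_comm]
  have h6 : |b i - eval b (PS i)| ≤ |b i - eval b (GD i)| + |eval b (PS i) - eval b (GD i)| := by
    have e4 : b i - eval b (PS i) = (b i - eval b (GD i)) - (eval b (PS i) - eval b (GD i)) := by
      ring
    rw [e4]
    exact abs_sub _ _
  refine h6.trans ((add_le_add h4 (h3.trans (div_le_div_of_nonneg_right h5
    (by positivity)))).trans ?_)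
  rw [← add_div]
  refine div_le_div_of_nonneg_right ?_ (by positivity)
  obtain ⟨x, hx⟩ : ∃ x, x = K' * (K' + s₁ + u + h + 2) := ⟨_, rfl⟩
  rw [← hx]
  have e4 : (2 : ℝ) ^ (u + h + 2) ≤ 2 ^ (x + u + h + 2) := h2 (by omega)
  have e5 : (2 : ℝ) ^ x ≤ 2 ^ (x + u + h + 2) := h2 (by omega)
  have e6 : (2 : ℝ) ^ (x + u + h + 3) = 2 ^ (x + u + h + 2) + 2 ^ (x + u + h + 2) := by
    rw [show x + u + h + 3 = x + u + h + 2 + 1 from rfl, pow_succ]
    ring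
  rw [e6]
  exact add_le_add e4 e5

/-- **The labels of a node are near the closed labels of a path**, with a second raw label. -/
theorem near_nodeN (n K' s₁ D : ℕ) : ∃ c : ℕ, 1 ≤ c ∧ ∀ {d J : ℕ} {F : Fam d J} {π π' : Path F}
    {j j' u t R r h : ℕ} {A : F.Ω → Prop} {ω : F.Ω} {g₁ gD : ℕ → ℕ} {Φ PS GD : ℕ → PN},
    π.Ok → π'.Ok → Fnr π π' n u j j' A → Fnr π' π' n u j' j' A → A ω → π'.a j' ≤ J →
    π.Er n j u t g₁ ω Φ →
    Nr K' (2 ^ s₁) (gt0 (π'.a j') gD) PS GD (n + 1) →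
    GD 0 = MvPolynomial.C (F.t ω) → Clo π' n j' u h gD ω GD →
    (∀ l, 1 ≤ l → l ≤ n → gD l ≤ π'.g j' l ∧ π'.g j' l ≤ gD l + r) →
    (∀ i ≤ n, (Φ i).vars ⊆ range i) → (∀ i, 1 ≤ i → i ≤ n → (PS i).vars ⊆ range i) →
    (∀ i ≤ n, (Φ i).totalDegree ≤ D) → (∀ i, 1 ≤ i → i ≤ n → (PS i).totalDegree ≤ D) →
    Φ 0 = MvPolynomial.C ((F.T1 (π.a j) ω : ℝ) / 2 ^ π.a j) →
    (∀ l, 1 ≤ l → l ≤ n → g₁ l ≤ π'.g j' l) → (∀ l, 1 ≤ l → l ≤ n → gD l ≤ g₁ l + R) →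
    π'.a j' ≤ π.a j + R →
    ∀ i, 1 ≤ i → i ≤ n → ∀ b : ℕ → ℝ, |b 0 - F.t ω| ≤ 1 / 2 ^ π'.a j' →
      (∀ l, 1 ≤ l → l < i → |b l - eval b (Φ l)| ≤ 1 / 2 ^ g₁ l) →
      |eval b (Φ i) - eval b (PS i)| ≤ 2 ^ (c * (t + u + R + r + h + 1)) / 2 ^ g₁ i := by
  obtain ⟨c, hc, hp⟩ := puni n D
  refine ⟨c * (K' * (K' + s₁ + 4) + K' + 8), Nat.mul_pos hc (by omega), ?_⟩
  intro d J F π π' j j' u t R r h A ω g₁ gD Φ PS GD ho ho' hf hf' hω haJ hE hN hG0 hCl hg hΦv hPv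
    hΦd hPd hΦ0 hg1 hg2 haR i hi1 hi b hb0 hb
  have h2 : ∀ {a b : ℕ}, a ≤ b → (2 : ℝ) ^ a ≤ 2 ^ b := fun h =>
    pow_le_pow_right₀ (by norm_num) h
  obtain ⟨Ψ, hΨ⟩ : ∃ Ψ : ℕ → PN, Ψ = fun i => if i = 0 then
      MvPolynomial.C ((F.T1 (π'.a j') ω : ℝ) / 2 ^ π'.a j') else PS i := ⟨_, rfl⟩
  have hE' := er_nodeN (u := u) haJ hN hG0 hCl fun l l1 l2 => (hg l l1 l2).1
  rw [← hΨ] at hE'
  have hΨi : ∀ i, 1 ≤ i → Ψ i = PS i := fun i h1 => by
    rw [hΨ]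
    exact if_neg (by omega)
  have hΨ0 : Ψ 0 = MvPolynomial.C ((F.T1 (π'.a j') ω : ℝ) / 2 ^ π'.a j') := by
    rw [hΨ]
    exact if_pos rfl
  obtain ⟨t', ht'⟩ : ∃ t', t' = t + (K' * (K' + s₁ + u + h + 2) + u + h + 3) := ⟨_, rfl⟩
  have h3 := hp π π' j j' u t' r R A ω g₁ gD Φ Ψ ho ho' hf hf' hω haJ
    (Er.mono_t hE (by omega)) (Er.mono_t hE' (by omega)) hΦv
    (fun l hl => by
      rcases Nat.eq_zero_or_pos l with rfl | l1
      · rw [hΨ0, vars_C]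
        exact Finset.empty_subset _
      · rw [hΨi l l1]
        exact hPv l l1 hl) hΦd
    (fun l hl => by
      rcases Nat.eq_zero_or_pos l with rfl | l1
      · rw [hΨ0, totalDegree_C]
        exact Nat.zero_le _
      · rw [hΨi l l1]
        exact hPd l l1 hl) hΦ0 hΨ0
    hg1 (fun l l1 l2 => (hg l l1 l2).2) hg2 haR 1 i hi1 hi b (fun l hl => by
      rcases Nat.eq_zero_or_pos l with rfl | l1
      · rw [hΦ0, eval_C, tus_zero]
        have ht := time_near F (hf.a_le.trans haJ) ω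
        have e1 : (1 : ℝ) / 2 ^ π'.a j' ≤ 1 / 2 ^ π.a j :=
          one_div_le_one_div_of_le (by positivity) (h2 hf.a_le)
        have e3 : (2 : ℝ) ^ 1 / 2 ^ π.a j = 1 / 2 ^ π.a j + 1 / 2 ^ π.a j := by ring
        rw [e3]
        rw [abs_le] at hb0 ht ⊢
        constructor <;> linarith [hb0.1, hb0.2, ht.1, ht.2]
      · rw [tus_pos _ _ l1]
        exact (hb l l1 hl).trans (div_le_div_of_nonneg_right (by norm_num) (by positivity)))
  rw [hΨi i hi1, abs_sub_comm] at h3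
  refine h3.trans (div_le_div_of_nonneg_right (h2 ?_) (by positivity))
  rw [mul_assoc]
  refine Nat.mul_le_mul_left c ?_
  rw [ht']
  have e1 : K' * (K' + s₁ + u + h + 2) = K' * (K' + s₁ + 2) + K' * u + K' * h := by ring
  have e2 : (K' * (K' + s₁ + 4) + K' + 8) * (t + u + R + r + h + 1) =
      (K' * (K' + s₁ + 4) + K' + 8) * (t + R + r) + (K' * (K' + s₁ + 4) + K' + 8) * u +
        (K' * (K' + s₁ + 4) + K' + 8) * h + (K' * (K' + s₁ + 4) + K' + 8) := by ring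
  rw [e1, e2]
  have e3 : t + R + r ≤ (K' * (K' + s₁ + 4) + K' + 8) * (t + R + r) :=
    Nat.le_mul_of_pos_left _ (by omega)
  have e4 : K' * u + 2 * u ≤ (K' * (K' + s₁ + 4) + K' + 8) * u := by
    have : K' * u + 2 * u = (K' + 2) * u := by ring
    rw [this]
    exact Nat.mul_le_mul_right u (by omega)
  have e5 : K' * h + 2 * h ≤ (K' * (K' + s₁ + 4) + K' + 8) * h := by
    have : K' * h + 2 * h = (K' + 2) * h := by ring
    rw [this]
    exact Nat.mul_le_mul_right h (by omega)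
  have e6 : K' * (K' + s₁ + 2) ≤ K' * (K' + s₁ + 4) := Nat.mul_le_mul_left _ (by omega)
  omega

end Pool.STAT.GRD
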