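import Pool.Agent.H80.STAT.FibD
import Pool.Agent.H80.STAT.NodeN

/-!
# The labels of a node near the closed labels of a path, the raw labels near on natural boxes

`near_nodeU`: as `near_nodeN`; the raw label `GD` is near the raw label of the node of the path on
the natural boxes of this raw label, whose degree is arbitrary.
-/

set_option autoImplicit false

namespace Pool.STAT.GRD

open Finset MvPolynomial
open Pool.Agent.H49.Ent Pool.Agent.H32.Dense Pool.STK Pool.KS3 Pool.KA Pool.KSAT Pool.PB Pool.GEN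
open Pool.STAT.CLO Pool.STAT.CDat Pool.TRC Pool.STAT.DPP

/-- **`GD` is near the raw label of the level `j'`** on the natural boxes of this level. -/
def CloU {m J : ℕ} {F : Fam m J} (π' : Path F) (n j' h : ℕ) (gD : ℕ → ℕ) (ω : F.Ω)
    (GD : ℕ → PN) : Prop :=
  ∀ l, 1 ≤ l → l ≤ n → ∀ b : ℕ → ℝ, Bx (tus (π'.a j') (π'.g j')) (π'.G j' (ptr F J ω)) l b →
    |eval b (π'.G j' (ptr F J ω) l) - eval b (GD l)| ≤ 2 ^ h / 2 ^ gD l

/-- **The labels of a node are near the closed labels of a path**, the raw labels are near on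
natural boxes. -/
theorem near_nodeU (n K' s₁ D : ℕ) : ∃ c : ℕ, 1 ≤ c ∧ ∀ {d J : ℕ} {F : Fam d J} {π π' : Path F}
    {j j' u t R r h : ℕ} {A : F.Ω → Prop} {ω : F.Ω} {g₁ gD : ℕ → ℕ} {Φ PS GD : ℕ → PN},
    π.Ok → π'.Ok → Fnr π π' n u j j' A → A ω → π'.a j' ≤ J →
    π.Er n j u t g₁ ω Φ →
    Nr K' (2 ^ s₁) (gt0 (π'.a j') gD) PS GD (n + 1) →
    GD 0 = MvPolynomial.C (F.t ω) → CloU π' n j' h gD ω GD →
    (∀ l, 1 ≤ l → l ≤ n → gD l ≤ π'.g j' l ∧ π'.g j' l ≤ gD l + r) →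
    (∀ i ≤ n, (Φ i).vars ⊆ range i) → (∀ i, 1 ≤ i → i ≤ n → (PS i).vars ⊆ range i) →
    (∀ i ≤ n, (Φ i).totalDegree ≤ D) → (∀ i, 1 ≤ i → i ≤ n → (PS i).totalDegree ≤ D) →
    (∀ l, 1 ≤ l → l ≤ n → g₁ l ≤ π'.g j' l) → (∀ l, 1 ≤ l → l ≤ n → gD l ≤ g₁ l + R) →
    ∀ i, 1 ≤ i → i ≤ n → ∀ b : ℕ → ℝ, |b 0 - F.t ω| ≤ 1 / 2 ^ π'.a j' →
      (∀ l, 1 ≤ l → l < i → |b l - eval b (Φ l)| ≤ 1 / 2 ^ g₁ l) →
      |eval b (Φ i) - eval b (PS i)| ≤ 2 ^ (c * (t + R + r + h + 1)) / 2 ^ g₁ i := by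
  obtain ⟨C, hC, hfib⟩ := fib_dil n D
  refine ⟨2 * C + K' * (K' + s₁ + 2) + 3, by omega, ?_⟩
  intro d J F π π' j j' u t R r h A ω g₁ gD Φ PS GD ho ho' hf hω haJ hE hN hG0 hCl hg hΦv hPv
    hΦd hPd hg1 hg2 i hi1 hi b hb0 hb
  have h2 : ∀ {a b : ℕ}, a ≤ b → (2 : ℝ) ^ a ≤ 2 ^ b := fun h =>
    pow_le_pow_right₀ (by norm_num) h
  obtain ⟨G', hG'⟩ : ∃ G', G' = π'.G j' (ptr F J ω) := ⟨_, rfl⟩
  obtain ⟨γ, hγ⟩ : ∃ γ, γ = tus (π'.a j') (π'.g j') := ⟨_, rfl⟩
  have hG'0 : G' 0 = MvPolynomial.C ((F.T1 (π'.a j') ω : ℝ) / 2 ^ π'.a j') := by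
    rw [hG', ho'.zero, tp_eq]
  have hG't : TriN G' := by
    rw [hG']
    exact ho'.tri j' _
  obtain ⟨Ψ, hΨ⟩ : ∃ Ψ : ℕ → PN, Ψ = fun i => if i = 0 then G' 0 else cut n Φ i := ⟨_, rfl⟩
  have hΨ0 : Ψ 0 = G' 0 := by rw [hΨ]; exact if_pos rfl
  have hΨi : ∀ i, 1 ≤ i → i ≤ n → Ψ i = Φ i := fun i h1 h3 => by
    rw [hΨ]
    simp only
    rw [if_neg (by omega), cut_of_le h3]
  have hΨt : TriN Ψ := by
    intro l
    rcases Nat.eq_zero_or_pos l with rfl | l1
    · rw [hΨ0, hG'0, vars_C]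
      exact Finset.empty_subset _
    · rw [hΨ]
      simp only
      rw [if_neg (by omega)]
      exact cut_tri hΦv l
  have hΨd : ∀ l, (Ψ l).totalDegree ≤ D := by
    intro l
    rcases Nat.eq_zero_or_pos l with rfl | l1
    · rw [hΨ0, hG'0, totalDegree_C]
      exact Nat.zero_le _
    · rw [hΨ]
      simp only
      rw [if_neg (by omega)]
      by_cases hl : l ≤ n
      · rw [cut_of_le hl]
        exact hΦd l hl
      · unfold cut
        rw [if_neg hl, totalDegree_zero]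
        exact Nat.zero_le _
  have htt := time_near F haJ ω
  -- the closed label of the path near the raw system
  have hΦG : ∀ l, 1 ≤ l → l ≤ n → ∀ b : ℕ → ℝ, Bx γ G' l b →
      |eval b (G' l) - eval b (Φ l)| ≤ 2 ^ t / 2 ^ g₁ l := by
    intro l l1 l2 b hb
    have h3 := er_near (hE.congr fun i hi => (cut_of_le hi).symm) (cut_tri hΦv)
      (fun k _ => ho.tri k _) (G' := G') (a' := π'.a j') (g' := π'.g j') hG't
      (fun b hb => by
        rw [hG'0, eval_C] at hb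
        exact nest_t F hf.a_le haJ ω _ hb) hf.g_le
      (fun k hk l l1 l2 b hb => by
        rw [hG'] at hb ⊢
        exact hf.uni ω hω k hk l l1 l2 b hb) l l1 l2 b (by rw [← hγ]; exact hb)
    rwa [cut_of_le l2] at h3
  -- the numbers
  have hgr : ∀ l, 1 ≤ l → l ≤ n → (1 : ℝ) / 2 ^ gD l ≤ 2 ^ r / 2 ^ g₁ l := by
    intro l l1 l2
    rw [div_le_div_iff₀ (by positivity) (by positivity), one_mul, ← pow_add]
    have := hg1 l l1 l2
    have := (hg l l1 l2).2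
    exact h2 (by omega)
  have hcl : ∀ l < i, ∀ b : ℕ → ℝ, Bx γ G' l b →
      |eval b (G' l) - eval b (Ψ l)| ≤ 2 ^ (t + R + r) / 2 ^ γ l := by
    intro l hl b hb
    rcases Nat.eq_zero_or_pos l with rfl | l1
    · rw [hΨ0, sub_self, abs_zero]
      positivity
    · rw [hΨi l l1 (by omega)]
      refine (hΦG l l1 (by omega) b hb).trans ?_
      have e1 : γ l = π'.g j' l := by rw [hγ, tus_pos _ _ l1]
      rw [e1, div_le_div_iff₀ (by positivity) (by positivity), ← pow_add, ← pow_add]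
      have := (hg l l1 (by omega)).2
      have := hg2 l l1 (by omega)
      exact h2 (by omega)
  have hboth : ∀ l, 1 ≤ l → l ≤ n → ∀ b : ℕ → ℝ, Bx γ G' l b →
      |eval b (G' l) - eval b (GD l)| ≤ 2 ^ h / 2 ^ gD l := by
    intro l l1 l2 b hb
    rw [hG'] at hb ⊢
    rw [hγ] at hb
    exact hCl l l1 l2 b hb
  have hs : ∀ b : ℕ → ℝ, Bx γ G' i b → |eval b (Φ i - PS i)| ≤
      2 ^ (t + h + r + K' * (K' + s₁ + h + 1) + 2) / 2 ^ g₁ i := by
    intro b hb
    have hbx : Bxr (2 ^ (h + 1)) (gt0 (π'.a j') gD) GD i b := by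
      intro l hl
      have h1 : (2 : ℝ) ^ (h + 1) = 2 ^ h + 2 ^ h := by
        rw [pow_succ]
        ring
      have h3 : (1 : ℝ) ≤ 2 ^ h := one_le_pow₀ (by norm_num)
      rcases Nat.eq_zero_or_pos l with rfl | l1
      · have h4 := hb 0 hl
        rw [hG'0, eval_C, hγ, tus_zero] at h4
        rw [gt0_zero, hG0, eval_C]
        have h5 : (2 : ℝ) / 2 ^ π'.a j' ≤ 2 ^ (h + 1) / 2 ^ π'.a j' :=
          div_le_div_of_nonneg_right (by linarith) (by positivity)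
        have e3 : (2 : ℝ) / 2 ^ π'.a j' = 1 / 2 ^ π'.a j' + 1 / 2 ^ π'.a j' := by ring
        refine le_trans ?_ h5
        rw [e3]
        rw [abs_le] at h4 htt ⊢
        constructor <;> linarith [h4.1, h4.2, htt.1, htt.2]
      · rw [gt0_pos _ _ l1]
        have h4 := hb l hl
        have h5 := hboth l l1 (by omega) b fun k hk => hb k (by omega)
        have e1 : γ l = π'.g j' l := by rw [hγ, tus_pos _ _ l1]
        rw [e1] at h4
        have h6 : (1 : ℝ) / 2 ^ π'.g j' l ≤ 1 / 2 ^ gD l :=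
          one_div_le_one_div_of_le (by positivity) (h2 (hg l l1 (by omega)).1)
        have e2 : b l - eval b (GD l) = (b l - eval b (G' l)) +
            (eval b (G' l) - eval b (GD l)) := by ring
        rw [e2]
        refine (abs_add_le _ _).trans ((add_le_add (h4.trans h6) h5).trans ?_)
        rw [← add_div]
        exact div_le_div_of_nonneg_right (by linarith) (by positivity)
    have h3 := hN.2 i hi1 (by omega) (2 ^ (h + 1)) (one_le_pow₀ (by norm_num)) b hbx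
    rw [gt0_pos _ _ hi1] at h3
    have h4 := hboth i hi1 hi b hb
    have h5 := hΦG i hi1 hi b hb
    have h6 : ((K' : ℝ) * 2 ^ s₁ * 2 ^ (h + 1)) ^ K' ≤ 2 ^ (K' * (K' + s₁ + h + 1)) := by
      have e1 : (K' : ℝ) * 2 ^ s₁ * 2 ^ (h + 1) ≤ 2 ^ (K' + s₁ + h + 1) := by
        have e2 : (K' : ℝ) ≤ 2 ^ K' := by exact_mod_cast (Nat.lt_two_pow_self (n := K')).le
        have e3 : (2 : ℝ) ^ (K' + s₁ + h + 1) = 2 ^ K' * 2 ^ s₁ * 2 ^ (h + 1) := by
          rw [← pow_add, ← pow_add]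
          ring_nf
        rw [e3]
        exact mul_le_mul_of_nonneg_right (mul_le_mul_of_nonneg_right e2 (by positivity))
          (by positivity)
      calc ((K' : ℝ) * 2 ^ s₁ * 2 ^ (h + 1)) ^ K' ≤ (2 ^ (K' + s₁ + h + 1)) ^ K' :=
            pow_le_pow_left₀ (by positivity) e1 _
        _ = 2 ^ (K' * (K' + s₁ + h + 1)) := by rw [← pow_mul, mul_comm]
    obtain ⟨x, hx⟩ : ∃ x, x = K' * (K' + s₁ + h + 1) := ⟨_, rfl⟩
    rw [← hx] at h6 ⊢
    have h7 : ∀ y : ℕ, (2 : ℝ) ^ y / 2 ^ gD i ≤ 2 ^ (y + r) / 2 ^ g₁ i := by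
      intro y
      have e1 := mul_le_mul_of_nonneg_left (hgr i hi1 hi) (show (0 : ℝ) ≤ 2 ^ y by positivity)
      rw [mul_one_div] at e1
      refine e1.trans (le_of_eq ?_)
      rw [pow_add]
      ring
    have h8 : |eval b (PS i) - eval b (GD i)| ≤ 2 ^ (x + r) / 2 ^ g₁ i :=
      (h3.trans (div_le_div_of_nonneg_right h6 (by positivity))).trans (h7 x)
    have h9 : |eval b (G' i) - eval b (GD i)| ≤ 2 ^ (h + r) / 2 ^ g₁ i := h4.trans (h7 h)
    obtain ⟨M, hM⟩ : ∃ M, M = t + h + r + x := ⟨_, rfl⟩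
    have e1 : (2 : ℝ) ^ t / 2 ^ g₁ i ≤ 2 ^ M / 2 ^ g₁ i :=
      div_le_div_of_nonneg_right (h2 (by omega)) (by positivity)
    have e2 : (2 : ℝ) ^ (x + r) / 2 ^ g₁ i ≤ 2 ^ M / 2 ^ g₁ i :=
      div_le_div_of_nonneg_right (h2 (by omega)) (by positivity)
    have e3 : (2 : ℝ) ^ (h + r) / 2 ^ g₁ i ≤ 2 ^ M / 2 ^ g₁ i :=
      div_le_div_of_nonneg_right (h2 (by omega)) (by positivity)
    have e4 : (2 : ℝ) ^ (t + h + r + x + 2) / 2 ^ g₁ i = 4 * (2 ^ M / 2 ^ g₁ i) := by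
      rw [← hM, pow_add]
      ring
    rw [map_sub, e4]
    have e5 : (0 : ℝ) ≤ 2 ^ M / 2 ^ g₁ i := by positivity
    have h5' := h5.trans e1
    have h8' := h8.trans e2
    have h9' := h9.trans e3
    rw [abs_le] at h5' h8' h9' ⊢
    constructor <;> linarith [h5'.1, h5'.2, h8'.1, h8'.2, h9'.1, h9'.2]
  have hbΨ : Bxr (2 ^ (R + r + 1)) γ Ψ i b := by
    intro l hl
    rcases Nat.eq_zero_or_pos l with rfl | l1
    · rw [hΨ0, hG'0, eval_C, hγ, tus_zero]
      have h5 : (2 : ℝ) / 2 ^ π'.a j' ≤ 2 ^ (R + r + 1) / 2 ^ π'.a j' :=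
        div_le_div_of_nonneg_right (by
          have := h2 (show 1 ≤ R + r + 1 by omega)
          rwa [pow_one] at this) (by positivity)
      refine le_trans ?_ h5
      have e3 : (2 : ℝ) / 2 ^ π'.a j' = 1 / 2 ^ π'.a j' + 1 / 2 ^ π'.a j' := by ring
      rw [e3]
      rw [abs_le] at hb0 htt ⊢
      constructor <;> linarith [hb0.1, hb0.2, htt.1, htt.2]
    · rw [hΨi l l1 (by omega)]
      refine (hb l l1 hl).trans ?_
      have e1 : γ l = π'.g j' l := by rw [hγ, tus_pos _ _ l1]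
      rw [e1, div_le_div_iff₀ (by positivity) (by positivity), one_mul, ← pow_add]
      have := (hg l l1 (by omega)).2
      have := hg2 l l1 (by omega)
      exact h2 (by omega)
  have h3 := hfib G' Ψ γ (Φ i - PS i) i (t + R + r) (R + r + 1) _ hG't hΨt hΨd hi
    (AdxRow.vars_sub_le (hΦv i hi) (hPv i hi1 hi))
    ((totalDegree_sub _ _).trans (max_le (hΦd i hi) (hPd i hi1 hi))) (by positivity) hcl hs b hbΨ
  rw [map_sub] at h3
  refine h3.trans ?_
  rw [mul_div_assoc', ← pow_add]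
  refine div_le_div_of_nonneg_right (h2 ?_) (by positivity)
  have e1 : (2 * C + K' * (K' + s₁ + 2) + 3) * (t + R + r + h + 1) =
      2 * (C * (t + R + r + h + 1)) + K' * (K' + s₁ + 2) * (t + R + r + h + 1) +
        3 * (t + R + r + h + 1) := by ring
  have e2 : C * (t + R + r + (R + r + 1) + 1) ≤ 2 * (C * (t + R + r + h + 1)) := by
    have : 2 * (C * (t + R + r + h + 1)) = C * (2 * (t + R + r + h + 1)) := by ring
    rw [this]
    exact Nat.mul_le_mul_left C (by omega)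
  have e3 : K' * (K' + s₁ + h + 1) ≤ K' * (K' + s₁ + 2) * (t + R + r + h + 1) := by
    rw [mul_assoc]
    refine Nat.mul_le_mul_left K' ?_
    have : (K' + s₁ + 2) * (t + R + r + h + 1) =
        (K' + s₁ + 2) * (t + R + r) + (K' + s₁ + 2) * h + (K' + s₁ + 2) := by ring
    rw [this]
    have e4 : h ≤ (K' + s₁ + 2) * h := Nat.le_mul_of_pos_left _ (by omega)
    omega
  rw [e1]
  omega

end Pool.STAT.GRD
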