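import Pool.Agent.H2.GEN.Iso
import Pool.Agent.H63.STAT.Lab2M
import Pool.Agent.H80.STAT.NodeU

/-!
# Ball charts near raw ball charts

* `clo_nbx`: from the boxes around the cell of the time to the natural boxes;
* `clo_rec`: two charts of a ball which are near each other, re-centred at a smaller radius. The
  degree of the first one enters only through a constant.
-/

set_option autoImplicit false

namespace Pool.STAT.BAL

open Finset MvPolynomial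
open Pool.Agent.H49.Ent Pool.Agent.H32.Dense Pool.STK Pool.KS3 Pool.KA Pool.KSAT Pool.PB Pool.GEN
open Pool.STAT.CLO Pool.STAT.CDat Pool.TRC Pool.STAT.DPP Pool.K2S Pool.S6C Pool.ISO

variable {m J : ℕ}

/-- The system of a chain at a point in the coordinates of the chain. -/
theorem eval_pb {c : ℕ → Fin m} {n : ℕ} (hc : Inj c n) {t : ℝ}
    {G : ℕ → MvPolynomial (Option (Fin m)) ℝ} (hGd : ∀ l, DepC c l (G l)) {l : ℕ} (hl : l < n)
    (b : Option (Fin m) → ℝ) : eval (pb c b) (sy c n t G (l + 1)) = eval b (G l) := by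
  rw [sy_succ hl]
  exact eval_tr hc hl.le (hGd l) (pb_zero c b).symm fun l' _ => (pb_succ c b l').symm

/-- The natural boxes in the coordinates of the chain. -/
theorem bxr_pb {c : ℕ → Fin m} {n : ℕ} (hc : Inj c n) {t : ℝ}
    {G : ℕ → MvPolynomial (Option (Fin m)) ℝ} (hGd : ∀ l, DepC c l (G l)) {ρ : ℝ} {a i : ℕ}
    {g : ℕ → ℕ} (hi : i < n) {b : Option (Fin m) → ℝ} (h0 : |b none - t| ≤ ρ / 2 ^ a)
    (h : ∀ l < i, |b (some (c l)) - eval b (G l)| ≤ ρ / 2 ^ g l) :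
    Bxr ρ (gg a g) (sy c n t G) (i + 1) (pb c b) := by
  intro l hl
  rcases Nat.eq_zero_or_pos l with rfl | l1
  · have h5 : gg a g 0 = a := if_pos rfl
    rw [sy_zero, eval_C, pb_zero, h5]
    exact h0
  · obtain ⟨l, rfl⟩ : ∃ l', l = l' + 1 := ⟨l - 1, by omega⟩
    have h5 : gg a g (l + 1) = g l := if_neg (by omega)
    rw [eval_pb hc hGd (by omega), pb_succ, h5]
    exact h l (by omega)

/-- **From the boxes around the cell of the time to the natural boxes.** -/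
theorem clo_nbx (n K : ℕ) : ∃ s₁ : ℕ, ∀ {m J : ℕ} (F : Fam m J) (c : ℕ → Fin m) (a : ℕ)
    (g : ℕ → ℕ) (G : ℕ → MvPolynomial (Option (Fin m)) ℝ) (U : MvPolynomial (Option (Fin m)) ℝ)
    (ω : F.Ω) (i : ℕ) (S : ℝ), a ≤ J → Inj c n → (∀ l < n, (G l).totalDegree ≤ K) →
    (∀ l, DepC c l (G l)) → U.totalDegree ≤ K → DepC c i U → i < n → 0 ≤ S →
    (∀ b : Option (Fin m) → ℝ, NBx c G g a (tp a (ptr F J ω)) i b →
      |eval b (G i) - eval b U| ≤ S) →
    ∀ b : Option (Fin m) → ℝ, NBx c G g a (F.t ω) i b →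
      |eval b (G i) - eval b U| ≤ 2 ^ s₁ * S := by
  obtain ⟨C, hC, hdil⟩ := dil n K
  obtain ⟨K₁, hK₁⟩ : ∃ K₁, K₁ = K * (K + 1) ^ (n + 1) := ⟨_, rfl⟩
  rw [← hK₁] at hdil
  obtain ⟨s₁, hs₁⟩ := pow_unbounded_of_one_lt (C * 2 ^ K₁) (one_lt_two (α := ℝ))
  refine ⟨s₁, ?_⟩
  intro m J F c a g G U ω i S ha hc hGK hGd hUK hUd hi hS h b hb
  obtain ⟨Φ, hΦ⟩ : ∃ Φ, Φ = sy c n (tp a (ptr F J ω)) G := ⟨_, rfl⟩
  have htr : ∀ {P : MvPolynomial (Option (Fin m)) ℝ}, DepC c i P → ∀ x : ℕ → ℝ,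
      eval x (tr c i P) = eval (fun o => eval x (vr c i o)) P := fun {P} hP x =>
    eval_tr hc hi.le hP (by
      show eval x (X 0) = _
      rw [eval_X]) fun l hl => by
      show eval x (vr c i (some (c l))) = _
      rw [vr_some hc hi.le hl, eval_X]
  have htb : ∀ {P : MvPolynomial (Option (Fin m)) ℝ}, DepC c i P →
      eval (pb c b) (tr c i P) = eval b P := fun {P} hP =>
    eval_tr hc hi.le hP (pb_zero c b).symm fun l' _ => (pb_succ c b l').symm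
  have hbx : Bxr 2 (gg a g) Φ (i + 1) (pb c b) := by
    rw [hΦ]
    refine bxr_pb hc hGd hi ?_ fun l hl => (hb.2 l hl).trans
      (div_le_div_of_nonneg_right (by norm_num) (by positivity))
    have h2 := t_cell F ha ω
    have h3 := hb.1
    rw [tp_eq]
    have h6 : (2 : ℝ) / 2 ^ a = 1 / 2 ^ a + 1 / 2 ^ a := by ring
    rw [h6]
    rw [abs_le] at h2 h3 ⊢
    constructor <;> linarith [h2.1, h2.2, h3.1, h3.2]
  have h1 := hdil Φ (gg a g) (tr c i (G i) - tr c i U) (i + 1) S 2 (by rw [hΦ]; exact sy_tri)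
    (by rw [hΦ]; exact sy_deg hGK) (by omega)
    (AdxRow.vars_sub_le (tr_vars _ _ _) (tr_vars _ _ _))
    ((totalDegree_sub _ _).trans (max_le ((tr_deg _ _ _).trans (hGK i hi))
      ((tr_deg _ _ _).trans hUK)))
    (by norm_num) (fun x hx => by
      rw [map_sub, htr (hGd i), htr hUd]
      rw [hΦ] at hx
      exact h _ (nbx_of_bxr hc hGd hi hx)) (pb c b) hbx
  rw [map_sub, htb (hGd i), htb hUd] at h1
  refine h1.trans ?_
  have e1 : C * S * 2 ^ K₁ = C * 2 ^ K₁ * S := by ring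
  rw [e1]
  exact mul_le_mul_of_nonneg_right hs₁.le hS

/-- **Two charts of a ball, re-centred at a smaller radius.** `G`: the chart of the ball, `U`: a
polynomial which is near on the natural boxes, `G₁` and `U₂`: the re-centred ones. -/
theorem clo_rec (n K : ℕ) : ∃ c₀ : ℕ, ∀ {m J : ℕ} {F : Fam m J} {c : ℕ → Fin m}
    {i a w v N g₂ : ℕ} {g g₁ : ℕ → ℕ} {M : ℝ} {ω : F.Ω}
    {G G₁ : ℕ → MvPolynomial (Option (Fin m)) ℝ} {U U₂ : MvPolynomial (Option (Fin m)) ℝ},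
    i < n → Set.InjOn c (Set.Iio i) → (∀ l, (G l).totalDegree ≤ K) → (∀ l, DepC c l (G l)) →
    U.totalDegree ≤ K → DepC c i U →
    (∀ l ≤ i, ∃ κ : ℝ, G₁ l = G l + MvPolynomial.C κ) → (∃ κ : ℝ, U₂ = U + MvPolynomial.C κ) →
    (∀ l ≤ i, |F.x ω (c l) - eval (bt F ω) (G₁ l)| ≤ 1 / 2 ^ g₁ l) →
    |F.x ω (c i) - eval (bt F ω) U₂| ≤ 1 / 2 ^ g₂ →
    (∀ l < i, |F.x ω (c l) - eval (bt F ω) (G l)| ≤ 1 / 2 ^ g l) → 0 ≤ M →
    (∀ b, NBx c G g w (F.t ω) i b → |eval b (G i) - eval b U| ≤ M) →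
    1 ≤ N → N ≤ v → w + v ≤ a → (∀ l < i, g l + v + 1 ≤ g₁ l + N) →
    ∀ b : Option (Fin m) → ℝ, |b none - F.t ω| ≤ 2 / 2 ^ a →
      (∀ l < i, |b (some (c l)) - eval b (G₁ l)| ≤ 1 / 2 ^ g₁ l) →
      |eval b (G₁ i) - eval b U₂| ≤ 2 ^ (c₀ + N) / 2 ^ v * M + 1 / 2 ^ g₁ i + 1 / 2 ^ g₂ := by
  obtain ⟨c₀, hscl⟩ := scl n K (fun _ => K)
  refine ⟨c₀, ?_⟩
  intro m J F c i a w v N g₂ g g₁ M ω G G₁ U U₂ hi hc hGK hGd hUK hUd hG₁ hU₂ hp₁ hp₂ hp hM hcl hN
    hNv hwa hgg b hb0 hb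
  have hx0 : bt F ω none = F.t ω := rfl
  have hxl : ∀ l, bt F ω (some (c l)) = F.x ω (c l) := fun l => rfl
  have h2 : ∀ {a b : ℕ}, a ≤ b → (2 : ℝ) ^ a ≤ 2 ^ b := fun h =>
    pow_le_pow_right₀ (by norm_num) h
  have h1 := hscl (c := c) (i := i) (G := G) (Q := G i - U) (g := g) (a := w) (n := N) (v := v)
    (M := M) (x := bt F ω) (b := b) hi hc hGK hGd
    (fun y y' hn hy => by rw [map_sub, map_sub, hGd i y y' hn hy, hUd y y' hn hy])
    ((totalDegree_sub _ _).trans (max_le (hGK i) hUK)) hM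
    (fun b hb => by
      rw [map_sub]
      exact hcl b (by rwa [hx0] at hb)) (fun l hl => by rw [hxl]; exact hp l hl) hNv (by
      rw [hx0]
      refine hb0.trans ?_
      have e1 : (2 : ℝ) ≤ 2 ^ N := by
        have := h2 hN
        rwa [pow_one] at this
      exact div_le_div₀ (by positivity) e1 (by positivity) (h2 hwa))
    (fun l hl => by
      obtain ⟨κ, hκ⟩ := hG₁ l hl.le
      have e1 := hb l hl
      have e2 := hp₁ l hl.le
      rw [hκ, map_add, eval_C] at e1 e2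
      rw [hxl]
      have e3 : (1 : ℝ) / 2 ^ g₁ l + 1 / 2 ^ g₁ l ≤ 2 ^ N / 2 ^ (g l + v) := by
        have e4 : (1 : ℝ) / 2 ^ g₁ l + 1 / 2 ^ g₁ l = 2 ^ 1 / 2 ^ g₁ l := by ring
        rw [e4, div_le_div_iff₀ (by positivity) (by positivity), ← pow_add, ← pow_add]
        have := hgg l hl
        exact h2 (by omega)
      refine le_trans ?_ e3
      rw [abs_le] at e1 e2 ⊢
      constructor <;> linarith [e1.1, e1.2, e2.1, e2.2])
  rw [map_sub, map_sub] at h1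
  obtain ⟨κ, hκ⟩ := hG₁ i le_rfl
  obtain ⟨κ₂, hκ₂⟩ := hU₂
  have e2 := hp₁ i le_rfl
  rw [hκ, map_add, eval_C] at e2 ⊢
  rw [hκ₂, map_add, eval_C] at hp₂ ⊢
  rw [abs_le] at h1 e2 hp₂ ⊢
  constructor <;> linarith [h1.1, h1.2, e2.1, e2.2, hp₂.1, hp₂.2]

end Pool.STAT.BAL
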