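import Pool.Agent.H80.STAT.BalG
import Pool.Agent.H82.STAT.Grxy

/-!
# The grid of a class with labels near the raw labels of a list

`grd_bas`: the class form of `grd_fam`, for the lists of `JatEY` with the property `recY`.
`pth_mesh`: the paths of balls.
-/

set_option autoImplicit false

namespace Pool.STAT.BAL

open Finset MvPolynomial
open Pool.Agent.H49.Ent Pool.Agent.H32.Dense Pool.STK Pool.KS3 Pool.KA Pool.KSAT Pool.PB Pool.GEN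
open Pool.STAT.CLO Pool.STAT.CDat Pool.STAT.DPP Pool.K2S Pool.S6C Pool.ISO
open Pool.CHT (fl_add big MCh iter_ex TmH bas_ev)
open Pool.FLF (Fam.sub)
open Pool.TRC (Jat tus tus_zero tus_pos jat_of_mch)
open Pool.STAT.GRD (recY ChP)

/-- The path of balls of length `κ₀` with `N` steps. -/
noncomputable def mshP (κ₀ : ℝ) (N k : ℕ) : ℝ := κ₀ * ((N - k) / N)

theorem mshP_rat (κ₀ : ℚ) (N k : ℕ) : ∃ q : ℚ, mshP κ₀ N k = q :=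
  ⟨κ₀ * ((N - k) / N), by unfold mshP; push_cast; rfl⟩

theorem mshP_mem {κ₀ : ℝ} (h0 : 0 ≤ κ₀) {N k : ℕ} (hk : k ≤ N) :
    0 ≤ mshP κ₀ N k ∧ mshP κ₀ N k ≤ κ₀ := by
  unfold mshP
  have hN : (0 : ℝ) ≤ N := Nat.cast_nonneg N
  have hk0 : (0 : ℝ) ≤ k := Nat.cast_nonneg k
  have hkN : (k : ℝ) ≤ N := by exact_mod_cast hk
  have h1 : 0 ≤ ((N : ℝ) - k) / N := div_nonneg (by linarith) hN
  have h2 : ((N : ℝ) - k) / N ≤ 1 := div_le_one_of_le₀ (by linarith) hN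
  exact ⟨mul_nonneg h0 h1, mul_le_of_le_one_right h0 h2⟩

/-- **The paths of balls** to the windows of a grid, one mesh. The levels are known on the intervals
of length `κ₀` below the windows. -/
theorem pth_mesh {n S M : ℕ} {v₀ ε μ ϖ ζ κ₀ : ℝ} {Ld : ℕ → ℝ → ℝ} (hμ : 0 < μ) (hκ0 : 0 < κ₀)
    (hζ : 0 ≤ ζ) (hκv : κ₀ ≤ ϖ - v₀) (hκS : 1 ≤ S * κ₀)
    (hlow : ∀ z, ϖ - κ₀ ≤ z → z ≤ ϖ + M * ζ → ∀ l < n, z ≤ Ld l z)
    (hmono : ∀ z z', ϖ - κ₀ ≤ z → z ≤ z' → z' ≤ ϖ + M * ζ → ∀ l < n, Ld l z + (z' - z) ≤ Ld l z')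
    (hlip : ∀ j ≤ M, ∀ κ, 0 ≤ κ → κ ≤ κ₀ → ∀ l < n,
      Ld l (ϖ + j * ζ) ≤ Ld l (ϖ + j * ζ - κ) + S * κ + ε) :
    ∃ N : ℕ, 1 ≤ N ∧ ∀ j ≤ M, Pth n S v₀ ε μ Ld (ϖ + j * ζ) N (mshP κ₀ N) := by
  obtain ⟨N, hN⟩ := exists_nat_gt (κ₀ / μ)
  have hN0 : (0 : ℝ) < N := (div_pos hκ0 hμ).trans hN
  have hN1 : 1 ≤ N := by exact_mod_cast hN0
  have hst : κ₀ / N ≤ μ := by
    rw [div_le_iff₀ hN0]
    rw [div_lt_iff₀ hμ] at hN
    linarith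
  refine ⟨N, hN1, fun j hj => ?_⟩
  have hjM : 0 ≤ (j : ℝ) * ζ ∧ (j : ℝ) * ζ ≤ M * ζ :=
    ⟨by positivity, mul_le_mul_of_nonneg_right (by exact_mod_cast hj) hζ⟩
  have hm0 : mshP κ₀ N 0 = κ₀ := by
    unfold mshP
    rw [Nat.cast_zero, sub_zero, div_self hN0.ne', mul_one]
  have hanti : ∀ k' k : ℕ, k' ≤ k → mshP κ₀ N k ≤ mshP κ₀ N k' := by
    intro k' k h
    unfold mshP
    refine mul_le_mul_of_nonneg_left (div_le_div_of_nonneg_right ?_ hN0.le) hκ0.le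
    have : (k' : ℝ) ≤ k := by exact_mod_cast h
    linarith
  refine ⟨?_, ?_, ?_, fun k hk => ⟨hanti k (k + 1) (Nat.le_succ k), ?_⟩, fun k hk l hl => ?_,
    fun k hk k' hk' l hl => ?_, fun k hk l hl => ?_⟩
  · unfold mshP
    rw [sub_self, zero_div, mul_zero]
  · rw [hm0]
    linarith [hjM.1]
  · rw [hm0]
    exact hκS
  · have e1 : mshP κ₀ N k = mshP κ₀ N (k + 1) + κ₀ / N := by
      unfold mshP
      push_cast
      field_simp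
      ring
    rw [e1]
    linarith
  · obtain ⟨h1, h2⟩ := mshP_mem hκ0.le hk
    exact hlow _ (by linarith [hjM.1]) (by linarith [hjM.2]) l hl
  · obtain ⟨h1, h2⟩ := mshP_mem hκ0.le hk
    obtain ⟨h3, h4⟩ := mshP_mem hκ0.le (hk'.trans hk)
    have h5 := hanti k' k hk'
    have h6 := hmono (ϖ + j * ζ - mshP κ₀ N k') (ϖ + j * ζ - mshP κ₀ N k)
      (by linarith [hjM.1]) (by linarith) (by linarith [hjM.2]) l hl
    have e1 : ϖ + j * ζ - mshP κ₀ N k - (ϖ + j * ζ - mshP κ₀ N k') =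
        mshP κ₀ N k' - mshP κ₀ N k := by ring
    rwa [e1] at h6
  · obtain ⟨h1, h2⟩ := mshP_mem hκ0.le hk
    exact hlip j hj _ h1 h2 l hl

/-- **The grid of a class with labels near the raw labels of a list.** `β`: the levels. -/
theorem grd_bas (m n S : ℕ) (hn : 1 ≤ n) (hS : 1 ≤ S) : ∃ (D : ℕ) (sh : ℕ → ℕ) (K' s₁ : ℕ)
    (C : ℝ), 1 ≤ D ∧ 1 ≤ K' ∧ 1 ≤ C ∧ ∀ {α ϖ ζ v₀ E ε θ : ℝ} {β : ℕ → ℝ → ℝ → ℝ} (M : ℕ),
    GrR n α ϖ ζ v₀ E ε θ (fun l y => β l y y) M → C * ε < θ →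
    ∃ (φ μ e₀ e₁ : ℝ) (de τ : ℕ → ℝ), 0 < φ ∧ 0 < μ ∧
    (∀ l < n, φ ≤ τ l ∧ 2 * τ l ≤ θ) ∧ (∀ l < n, 0 < de l ∧ de l ≤ τ l) ∧ 0 ≤ e₁ ∧ e₁ ≤ e₀ ∧
    e₀ ≤ θ ∧
    ∀ (Np : ℕ → ℕ) (κ : ℕ → ℕ → ℝ),
      (∀ j ≤ M, Pth n S v₀ ε μ (fun l y => β l y y) (ϖ + j * ζ) (Np j) (κ j)) →
    ∀ (K : ℕ) (Ka : ℝ), 0 < Ka → ∃ K₁ : ℝ, 1 ≤ K₁ ∧
    ∀ {Sc : PCl m} {c : ℕ → Fin m} {N : ℕ} {a w dl dsl : ℕ → ℝ} {idxb : ℕ → ℕ → ℕ}
      {idxn : ℕ → ℕ}, TmH Sc → Inj c n → (∀ l < n, 0 ≤ dl l ∧ dl l ≤ φ ∧ dsl l ≤ φ) →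
      (∀ j ≤ M, ∀ k ≤ Np j, idxb j k < N ∧ a (idxb j k) = ϖ + j * ζ - κ j k ∧
        w (idxb j k) = ϖ + j * ζ - κ j k) →
      (∀ v < M, idxn v < N ∧ a (idxn v) = α + v * ζ ∧ w (idxn v) = ϖ + v * ζ) →
      (∀ v < M, ∀ l < n, β l (α + v * ζ) (ϖ + v * ζ) =
        β l (ϖ + v * ζ) (ϖ + v * ζ) + (α + v * ζ - (ϖ + v * ζ))) →
      Bas Sc (fun J F A₀ => ∀ (A : F.Ω → Prop)
        (G : ℕ → PtT F → ℕ → MvPolynomial (Option (Fin m)) ℝ)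
        (H : ℕ → LnT F → ℕ → MvPolynomial (Option (Fin m)) ℝ), (∀ ω, A ω → A₀ ω) →
        Pe F.p A₀ ≤ Ka * Pe F.p A →
        MCh F c n (fun _ => K) N (fun k k' => a k ≤ a k' ∧ w k ≤ w k')
          (fun k => ⌊a k * J⌋₊) (fun k => ⌊w k * J⌋₊) ⌊E * J⌋₊
          (fun k l => ⌊(β l (a k) (w k) - dl l) * J⌋₊) (fun l => ⌊dsl l * J⌋₊) A G H →
        recY m J F N a w G →
        up ϖ J + (M + 1) * up ζ J ≤ up α J ∧ up α J + (M + 1) * up ζ J ≤ J ∧ 1 ≤ up ζ J ∧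
        ∃ (Dt : GDat F) (B : F.Ω → Prop) (G₀ : ℕ → PtT F → ℕ → MvPolynomial (Option (Fin m)) ℝ)
          (H₀ : ℕ → LnT F → ℕ → MvPolynomial (Option (Fin m)) ℝ), Sub B A ∧
          Pe F.p A ≤ K₁ * Pe F.p B ∧
          Dt.Ok c n D K' s₁ sh (up α J) (up ϖ J) (up ζ J) M (fun _ _ => ⌊(E + e₀) * J⌋₊)
            (gdS α ϖ ζ (fun l y => β l y y) τ J) B ∧
          BalG Dt.G Dt.H c n D M (up ϖ J) (up ζ J)
            (fun j l => (β l (ϖ + j * ζ) (ϖ + j * ζ) - θ) * J)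
            (fun j l => β l (ϖ + j * ζ) (ϖ + j * ζ) * J) (fun _ => ⌊(E + e₁) * J⌋₊)
            (fun j l => ⌊(β l (ϖ + j * ζ) (ϖ + j * ζ) - de l) * J⌋₊) G₀ H₀ B ∧
          ∀ v < M, ∀ a', ⌊(α + v * ζ) * J⌋₊ ≤ a' → a' ≤ J → ∀ ω, B ω → ∀ l, 1 ≤ l → l ≤ n →
            ∀ b : ℕ → ℝ,
            Bx (tus a' (fun l => ⌊(β (l - 1) (α + v * ζ) (ϖ + v * ζ) - dl (l - 1)) * J⌋₊))
              (Gs c n a' (G (idxn v)) (ptr F J ω)) l b →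
            |eval b (Gs c n a' (G (idxn v)) (ptr F J ω) l) -
              eval b (Gx c n (Dt.G v v) (ptr F J ω) l)| ≤
              2 ^ ⌊θ * J⌋₊ / 2 ^ gdS α ϖ ζ (fun l y => β l y y) τ J v v (l - 1)) := by
  obtain ⟨D, sh, K', s₁, C, hD, hK', hC, hfam⟩ := grd_fam m n S hn hS
  refine ⟨D, sh, K', s₁, C, hD, hK', hC, ?_⟩
  intro α ϖ ζ v₀ E ε θ β M hR hCε
  obtain ⟨φ, μ, e₀, e₁, de, τ, h1, h2, h3, h4, h5, h6, h7, hfam⟩ := hfam M hR hCε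
  refine ⟨φ, μ, e₀, e₁, de, τ, h1, h2, h3, h4, h5, h6, h7, ?_⟩
  intro Np κ hP K Ka hKa
  obtain ⟨η, K₁, J₀, hη, hK₁, hfam⟩ := hfam Np κ hP K
  refine ⟨K₁, hK₁, ?_⟩
  intro Sc c N a w dl dsl idxb idxn hTm hinj hdl hb hn' hβ
  have hK₁0 : 0 < K₁ := one_pos.trans_le hK₁
  have hpos : Bas Sc (fun _ F A => 0 < Pe F.p A) := ⟨1, one_pos, 0, fun J _ F A hA =>
    hTm.1 1 J F A hA⟩
  refine Bas.mono J₀ ((bas_ev (hTm.2 η hη) (κ := 1 / (Ka * K₁)) (by positivity)).and hpos) ?_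
  rintro J hJ F A₀ ⟨hev, hA₀⟩ A G H hA hPA hM hRec
  have hPe : 0 < Pe F.p A := by
    by_contra h
    push Not at h
    have h8 : Ka * Pe F.p A ≤ 0 := mul_nonpos_of_nonneg_of_nonpos hKa.le h
    linarith
  have hJ0 : (0 : ℝ) ≤ J := Nat.cast_nonneg J
  obtain ⟨k1, k2, k3, Dt, B, G₀, H₀, k4, k5, k6, k7, k8⟩ := hfam hJ (F := F) (c := c) (N := N)
    (R := fun k k' => a k ≤ a k' ∧ w k ≤ w k') (dl := dl) (A := A) (G := G) (H := H)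
    (idxb := idxb) (idxn := idxn) hinj
    (fun l hl => ⟨(hdl l hl).1, (hdl l hl).2.1⟩)
    (fun l hl => Nat.floor_le_floor (mul_le_mul_of_nonneg_right (hdl l hl).2.2 hJ0)) hM
    (fun j hj k hk => by
      obtain ⟨g1, g2, g3⟩ := hb j hj k hk
      refine ⟨g1, ?_, ?_, fun l => ?_⟩
      · show ⌊a (idxb j k) * J⌋₊ = _
        rw [g2]
      · show ⌊w (idxb j k) * J⌋₊ = _
        rw [g3]
      · show ⌊(β l (a (idxb j k)) (w (idxb j k)) - dl l) * J⌋₊ = _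
        rw [g2, g3])
    (fun j hj k' hk' k hk => by
      obtain ⟨-, g2, g3⟩ := hb j hj k' hk'
      obtain ⟨-, g2', g3'⟩ := hb j hj k (hk.le.trans hk')
      show a (idxb j k) ≤ a (idxb j k') ∧ w (idxb j k) ≤ w (idxb j k')
      rw [g2, g3, g2', g3']
      have h8 : ∀ i, k + i ≤ Np j → κ j (k + i) ≤ κ j k := by
        intro i
        induction i with
        | zero => exact fun _ => le_rfl
        | succ i ih =>
          intro hi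
          exact ((hP j hj).step (k + i) (by omega)).1.trans (ih (by omega))
      have h9 := h8 (k' - k) (by omega)
      rw [show k + (k' - k) = k' by omega] at h9
      exact ⟨by linarith, by linarith⟩)
    (fun v hv => by
      obtain ⟨g1, g2, g3⟩ := hn' v hv
      refine ⟨g1, fun l hl => ?_⟩
      show ⌊(β l (a (idxn v)) (w (idxn v)) - dl l) * J⌋₊ = _
      rw [g2, g3, hβ v hv l hl])
    (fun v hv y l _ => hRec _ (hn' v hv).1 _ (hb v hv.le (Np v) le_rfl).1 (by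
      rw [(hn' v hv).2.2, (hb v hv.le (Np v) le_rfl).2.2, (hP v hv.le).last, sub_zero]) y l)
    hPe (fun B'' hB'' hP'' h'' => hev B'' (fun ω h => hA ω (hB'' ω h)) (by
      rw [div_mul_eq_mul_div, one_mul, div_le_iff₀ (by positivity)]
      calc Pe F.p A₀ ≤ Ka * Pe F.p A := hPA
        _ ≤ Ka * (K₁ * Pe F.p B'') := mul_le_mul_of_nonneg_left hP'' hKa.le
        _ = Pe F.p B'' * (Ka * K₁) := by ring) h'')
  refine ⟨k1, k2, k3, Dt, B, G₀, H₀, k4, k5, k6, k7, ?_⟩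
  intro v hv a' ha' ha'J ω hω l hl1 hl b hbx
  refine k8 v hv a' ha' ha'J ω hω l hl1 hl b ?_
  obtain ⟨-, g2, g3⟩ := hn' v hv
  have e1 : (fun l => ⌊(β (l - 1) (a (idxn v)) (w (idxn v)) - dl (l - 1)) * (J : ℝ)⌋₊) =
      fun l => ⌊(β (l - 1) (α + v * ζ) (ϖ + v * ζ) - dl (l - 1)) * (J : ℝ)⌋₊ := by
    rw [g2, g3]
  show Bx (tus a' (fun l => ⌊(β (l - 1) (a (idxn v)) (w (idxn v)) - dl (l - 1)) * (J : ℝ)⌋₊))
    (Gs c n a' (G (idxn v)) (ptr F J ω)) l b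
  rw [e1]
  exact hbx

end Pool.STAT.BAL
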