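import Pool.Agent.H80.STAT.BalS
import Pool.Agent.H40.MIC.Grd2

/-!
# The labels of the grid at a node

`clo_node`: the re-centred ball chart of universal degree is near the raw chart of the node, on the
natural boxes of the raw chart.
-/

set_option autoImplicit false

namespace Pool.STAT.BAL

open Finset MvPolynomial
open Pool.Agent.H49.Ent Pool.Agent.H32.Dense Pool.STK Pool.KS3 Pool.KA Pool.KSAT Pool.PB Pool.GEN
open Pool.STAT.CLO Pool.STAT.CDat Pool.STAT.DPP Pool.K2S Pool.S6C Pool.ISO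
open Pool.CHT (fl_add big)
open Pool.FLF (Fam.sub)
open Pool.TRC (Jat tus tus_zero tus_pos)

/-- **The re-centred ball chart near the raw chart of a node.** `Gb`: the raw chart of the ball,
`Gn`: the raw chart of the node, `G₀`: the chart of the ball of universal degree, `GD`: the
re-centred one. -/
theorem clo_node (n K : ℕ) : ∃ c₀ : ℕ, ∀ {m J : ℕ} {F : Fam m J} {c : ℕ → Fin m}
    {w a v h₀ h : ℕ} {g g' gD : ℕ → ℕ} {ω : F.Ω}
    {Gb Gn GD G₀ : PtT F → ℕ → MvPolynomial (Option (Fin m)) ℝ},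
    Inj c n → a ≤ J → w + v ≤ a → 1 ≤ v →
    (∀ l, (Gb (ptr F J ω) l).totalDegree ≤ K) → (∀ l, DepC c l (Gb (ptr F J ω) l)) →
    (∀ l < n, |F.x ω (c l) - eval (bt F ω) (Gb (ptr F J ω) l)| ≤ 1 / 2 ^ g l) →
    (∀ l, (G₀ (ptr F J ω) l).totalDegree ≤ K) → (∀ l, DepC c l (G₀ (ptr F J ω) l)) →
    (∀ i < n, ∀ b : Option (Fin m) → ℝ, NBx c (Gb (ptr F J ω)) g w (F.t ω) i b →
      |eval b (Gb (ptr F J ω) i) - eval b (G₀ (ptr F J ω) i)| ≤ 2 ^ h₀ / 2 ^ g i) →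
    (∀ l < n, ∃ κ : ℝ, Gn (ptr F J ω) l = Gb (ptr F J ω) l + MvPolynomial.C κ) →
    (∀ l < n, |F.x ω (c l) - eval (bt F ω) (Gn (ptr F J ω) l)| ≤ 1 / 2 ^ g' l) →
    (∀ l, DepC c l (Gn (ptr F J ω) l)) →
    (∀ l < n, ∃ κ : ℝ, GD (ptr F J ω) l = G₀ (ptr F J ω) l + MvPolynomial.C κ) →
    (∀ l < n, |F.x ω (c l) - eval (bt F ω) (GD (ptr F J ω) l)| ≤ 1 / 2 ^ gD l) →
    (∀ l, DepC c l (GD (ptr F J ω) l)) →
    (∀ l < n, gD l ≤ g' l ∧ g l + v ≤ g' l ∧ g' l ≤ g l + v + 1) → c₀ + h₀ + 4 ≤ h →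
    ∀ l, 1 ≤ l → l ≤ n → ∀ b : ℕ → ℝ, Bx (tus a (fun l => g' (l - 1))) (Gs c n a Gn (ptr F J ω)) l b →
      |eval b (Gs c n a Gn (ptr F J ω) l) - eval b (Gx c n GD (ptr F J ω) l)| ≤
        2 ^ h / 2 ^ gD (l - 1) := by
  obtain ⟨c₀, hclo⟩ := clo_rec n K
  refine ⟨c₀, ?_⟩
  intro m J F c w a v h₀ h g g' gD ω Gb Gn GD G₀ hinj haJ hwa hv hbK hbd hbp h0K h0d hcl hGn hnp hnd
    hGD hDp hDd hg hh l hl1 hl b hb
  obtain ⟨i, rfl⟩ : ∃ i, l = i + 1 := ⟨l - 1, by omega⟩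
  have hi : i < n := hl
  have h2 : ∀ {a b : ℕ}, a ≤ b → (2 : ℝ) ^ a ≤ 2 ^ b := fun h =>
    pow_le_pow_right₀ (by norm_num) h
  obtain ⟨z, hz⟩ : ∃ z : Option (Fin m) → ℝ, z = fun o => eval b (vr c i o) := ⟨_, rfl⟩
  have hz0 : z none = b 0 := by
    rw [hz]
    show eval b (X 0) = _
    rw [eval_X]
  have hzl : ∀ l < i, z (some (c l)) = b (l + 1) := fun l hl => by
    rw [hz]
    show eval b (vr c i (some (c l))) = _
    rw [vr_some hinj hi.le hl, eval_X]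
  have e1 : eval b (Gs c n a Gn (ptr F J ω) (i + 1)) = eval z (Gn (ptr F J ω) i) := by
    rw [hz]
    exact eval_sy hinj hnd hi b
  have e2 : eval b (Gx c n GD (ptr F J ω) (i + 1)) = eval z (GD (ptr F J ω) i) := by
    rw [hz]
    exact eval_sy hinj hDd hi b
  have hb0 : |z none - F.t ω| ≤ 2 / 2 ^ a := by
    have h3 := hb 0 (Nat.succ_pos i)
    have h4 : Gs c n a Gn (ptr F J ω) 0 = MvPolynomial.C (tp a (ptr F J ω)) := sy_zero
    rw [h4, eval_C, tp_eq, tus_zero] at h3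
    have h5 := t_cell F haJ ω
    rw [hz0]
    have h6 : (2 : ℝ) / 2 ^ a = 1 / 2 ^ a + 1 / 2 ^ a := by ring
    rw [h6]
    rw [abs_le] at h3 h5 ⊢
    constructor <;> linarith [h3.1, h3.2, h5.1, h5.2]
  have hbl : ∀ l < i, |z (some (c l)) - eval z (Gn (ptr F J ω) l)| ≤ 1 / 2 ^ g' l := by
    intro l hl'
    have h3 := hb (l + 1) (by omega)
    rw [tus_pos _ _ (by omega)] at h3
    have h4 : eval b (Gs c n a Gn (ptr F J ω) (l + 1)) = eval z (Gn (ptr F J ω) l) := by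
      show eval b (sy c n _ _ (l + 1)) = _
      rw [sy_succ (by omega)]
      refine eval_tr hinj (by omega) (hnd l) hz0 fun l' hl'' => hzl l' (by omega)
    rw [h4] at h3
    rw [hzl l hl']
    exact h3
  have h3 := hclo (F := F) (c := c) (i := i) (a := a) (w := w) (v := v) (N := 1) (g₂ := gD i)
    (g := g) (g₁ := g') (M := 2 ^ h₀ / 2 ^ g i) (ω := ω) (G := Gb (ptr F J ω))
    (G₁ := Gn (ptr F J ω)) (U := G₀ (ptr F J ω) i) (U₂ := GD (ptr F J ω) i) hi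
    (fun l hl l' hl' h => hinj l (lt_trans hl hi) l' (lt_trans hl' hi) h) hbK hbd (h0K i) (h0d i)
    (fun l hl => hGn l (by omega)) (hGD i hi) (fun l hl => hnp l (by omega)) (hDp i hi)
    (fun l hl => hbp l (by omega)) (by positivity) (fun b hb => hcl i hi b hb) le_rfl hv hwa
    (fun l hl => by
      have := (hg l (by omega)).2.1
      omega) z hb0 hbl
  rw [e1, e2, Nat.add_sub_cancel]
  refine h3.trans ?_
  obtain ⟨g1, g2, g3⟩ := hg i hi
  have f1 : (2 : ℝ) ^ (c₀ + 1) / 2 ^ v * (2 ^ h₀ / 2 ^ g i) ≤ 2 ^ (c₀ + h₀ + 2) / 2 ^ gD i := by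
    have e3 : (2 : ℝ) ^ (c₀ + 1) / 2 ^ v * (2 ^ h₀ / 2 ^ g i) =
        2 ^ (c₀ + h₀ + 1) / 2 ^ (g i + v) := by
      rw [pow_add 2 (g i) v, show c₀ + h₀ + 1 = c₀ + 1 + h₀ by omega, pow_add 2 (c₀ + 1) h₀]
      field_simp
    rw [e3, div_le_div_iff₀ (by positivity) (by positivity), ← pow_add, ← pow_add]
    exact h2 (by omega)
  have f2 : (1 : ℝ) / 2 ^ g' i ≤ 1 / 2 ^ gD i :=
    one_div_le_one_div_of_le (by positivity) (h2 g1)
  have f3 : (2 : ℝ) ^ (c₀ + h₀ + 2) / 2 ^ gD i + 1 / 2 ^ gD i + 1 / 2 ^ gD i ≤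
      2 ^ h / 2 ^ gD i := by
    rw [← add_div, ← add_div]
    refine div_le_div_of_nonneg_right ?_ (by positivity)
    have e3 := h2 hh
    have e4 : (2 : ℝ) ^ (c₀ + h₀ + 4) = 4 * 2 ^ (c₀ + h₀ + 2) := by
      rw [show c₀ + h₀ + 4 = (c₀ + h₀ + 2) + 2 by omega, pow_add]
      ring
    have e5 : (1 : ℝ) ≤ 2 ^ (c₀ + h₀ + 2) := one_le_pow₀ (by norm_num)
    linarith
  linarith

/-- Other numbers of a path of chains. -/
theorem jat_congr {m J : ℕ} {F : Fam m J} {c : ℕ → Fin m} {n K N : ℕ} {al al' om om' : ℕ → ℕ}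
    {ee : ℕ} {g g' : ℕ → ℕ → ℕ} {u u' : ℕ} {A : F.Ω → Prop}
    {G : ℕ → PtT F → ℕ → MvPolynomial (Option (Fin m)) ℝ}
    {H : ℕ → LnT F → ℕ → MvPolynomial (Option (Fin m)) ℝ}
    (h : Jat F c n K N al om ee g u A G H) (hu : u ≤ u') (ha : ∀ k < N, al k = al' k)
    (ho : ∀ k < N, om k = om' k) (hg : ∀ k < N, g k = g' k) :
    Jat F c n K N al' om' ee g' u' A G H where
  ok k hk := by
    have := h.ok k hk
    rwa [ha k hk, ho k hk, hg k hk] at this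
  uni ω hω k' hk' k hk l hl b hb := by
    have h1 := h.uni ω hω k' hk' k hk l hl b (by rwa [ha k' hk', hg k' hk'])
    rw [hg k (hk.trans hk')] at h1
    exact h1.trans (div_le_div_of_nonneg_right (pow_le_pow_right₀ (by norm_num) hu)
      (by positivity))
  two ω hω k' hk' k hk l hl b hb := by
    have h1 := h.two ω hω k' hk' k hk l hl b (by rwa [ha k' hk', hg k' hk'])
    rw [hg k (hk.trans hk'), ho k (hk.trans hk')] at h1
    exact h1.trans (div_le_div_of_nonneg_right (pow_le_pow_right₀ (by norm_num) hu)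
      (by positivity))
  size ω hω k hk l hl b hb := (h.size ω hω k hk l hl b (by rwa [ha k hk, hg k hk])).trans
    (pow_le_pow_right₀ (by norm_num) hu)

end Pool.STAT.BAL
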