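import Pool.Agent.H80.STAT.BalC
import Pool.Agent.H2.GEN.GrdI

/-!
# The grid of a family with labels near the raw labels of a list

`grd_fam`: from a list of raw chains which contains the balls of the paths to the windows of the
grid, and the nodes: the data of a grid whose raw labels are re-centred ball charts of universal
degree, near the raw charts of the nodes.
-/

set_option autoImplicit false

namespace Pool.STAT.BAL

open Finset MvPolynomial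
open Pool.Agent.H49.Ent Pool.Agent.H32.Dense Pool.STK Pool.KS3 Pool.KA Pool.KSAT Pool.PB Pool.GEN
open Pool.STAT.CLO Pool.STAT.CDat Pool.STAT.DPP Pool.K2S Pool.S6C Pool.ISO
open Pool.CHT (fl_add big MCh iter_ex)
open Pool.FLF (Fam.sub)
open Pool.TRC (Jat tus tus_zero tus_pos jat_of_mch)

/-- **A path of balls** which ends at the window `y`; `Ld l`: the levels on the diagonal. -/
structure Pth (n S : ℕ) (v₀ ε μ : ℝ) (Ld : ℕ → ℝ → ℝ) (y : ℝ) (N : ℕ) (κ : ℕ → ℝ) : Prop where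
  last : κ N = 0
  beg : κ 0 ≤ y - v₀
  long : 1 ≤ S * κ 0
  step : ∀ k < N, κ (k + 1) ≤ κ k ∧ κ k ≤ κ (k + 1) + μ
  low : ∀ k ≤ N, ∀ l < n, y - κ k ≤ Ld l (y - κ k)
  mono : ∀ k ≤ N, ∀ k' ≤ k, ∀ l < n, Ld l (y - κ k') + (κ k' - κ k) ≤ Ld l (y - κ k)
  lip : ∀ k ≤ N, ∀ l < n, Ld l y ≤ Ld l (y - κ k) + S * κ k + ε

/-- **The numbers of the grid.** Radii `α + i ζ`, windows `ϖ + j ζ`; `E`: the exponent of the
gradients, `θ`: the loss. -/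
structure GrR (n : ℕ) (α ϖ ζ v₀ E ε θ : ℝ) (Ld : ℕ → ℝ → ℝ) (M : ℕ) : Prop where
  v0 : 0 < v₀
  v1 : v₀ < ϖ
  z0 : 0 < ζ
  thin : ϖ + (M + 1) * ζ < α
  top : α + (M + 1) * ζ < 1
  E0 : 0 ≤ E
  ep : 0 ≤ ε
  th : 0 < θ
  thw : θ < ϖ
  lev : ∀ j ≤ M, ∀ l < n, ϖ + j * ζ ≤ Ld l (ϖ + j * ζ) ∧ Ld l (ϖ + j * ζ) ≤ 1
  fit : ∀ i ≤ M, ∀ j ≤ M, ∀ l < n, E + Ld l (ϖ + j * ζ) + θ + (α + i * ζ - (ϖ + j * ζ)) < 1

theorem min_ex (M : ℕ) {f : ℕ → ℝ} (hf : ∀ j, 0 < f j) : ∃ x : ℝ, 0 < x ∧ ∀ j ≤ M, x ≤ f j := by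
  induction M with
  | zero => exact ⟨f 0, hf 0, fun j hj => by rw [Nat.le_zero.1 hj]⟩
  | succ M ih =>
    obtain ⟨x, h1, h2⟩ := ih
    refine ⟨min x (f (M + 1)), lt_min h1 (hf _), fun j hj => ?_⟩
    rcases Nat.lt_or_ge j (M + 1) with h3 | h3
    · exact (min_le_left _ _).trans (h2 j (by omega))
    · rw [show j = M + 1 by omega]
      exact min_le_right _ _

theorem max_ex (M : ℕ) (f : ℕ → ℕ) : ∃ x : ℕ, ∀ j ≤ M, f j ≤ x :=
  ⟨∑ j ∈ range (M + 1), f j, fun j hj =>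
    Finset.single_le_sum (f := f) (fun _ _ => Nat.zero_le _) (mem_range.2 (by omega))⟩

/-- The sides of the grid. -/
noncomputable def gdS (α ϖ ζ : ℝ) (Ld : ℕ → ℝ → ℝ) (τ : ℕ → ℝ) (J i j l : ℕ) : ℕ :=
  ⌊(Ld l (ϖ + j * ζ) + (α + i * ζ - (ϖ + j * ζ)) - τ l) * J⌋₊

/-- **The grid of a family with labels near the raw labels of a list.** -/
theorem grd_fam (m n S : ℕ) (hn : 1 ≤ n) (hS : 1 ≤ S) : ∃ (D : ℕ) (sh : ℕ → ℕ) (K' s₁ : ℕ)
    (C : ℝ), 1 ≤ D ∧ 1 ≤ K' ∧ 1 ≤ C ∧ ∀ {α ϖ ζ v₀ E ε θ : ℝ} {Ld : ℕ → ℝ → ℝ} (M : ℕ),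
    GrR n α ϖ ζ v₀ E ε θ Ld M → C * ε < θ → ∃ (φ μ e₀ e₁ : ℝ) (de τ : ℕ → ℝ), 0 < φ ∧ 0 < μ ∧
    (∀ l < n, φ ≤ τ l ∧ 2 * τ l ≤ θ) ∧ (∀ l < n, 0 < de l ∧ de l ≤ τ l) ∧ 0 ≤ e₁ ∧ e₁ ≤ e₀ ∧
    e₀ ≤ θ ∧
    ∀ (Np : ℕ → ℕ) (κ : ℕ → ℕ → ℝ),
      (∀ j ≤ M, Pth n S v₀ ε μ Ld (ϖ + j * ζ) (Np j) (κ j)) → ∀ K : ℕ,
    ∃ (η K₁ : ℝ) (J₀ : ℕ), 0 < η ∧ 1 ≤ K₁ ∧ ∀ {J : ℕ}, J₀ ≤ J → ∀ {F : Fam m J} {c : ℕ → Fin m}
      {N : ℕ} {R : ℕ → ℕ → Prop} {aN wN : ℕ → ℕ} {g : ℕ → ℕ → ℕ} {δ : ℕ → ℕ} {dl : ℕ → ℝ}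
      {A : F.Ω → Prop} {G : ℕ → PtT F → ℕ → MvPolynomial (Option (Fin m)) ℝ}
      {H : ℕ → LnT F → ℕ → MvPolynomial (Option (Fin m)) ℝ} {idxb : ℕ → ℕ → ℕ} {idxn : ℕ → ℕ},
      Inj c n → (∀ l < n, 0 ≤ dl l ∧ dl l ≤ φ) → (∀ l < n, δ l ≤ ⌊φ * J⌋₊) →
      MCh F c n (fun _ => K) N R aN wN ⌊E * J⌋₊ g δ A G H →
      (∀ j ≤ M, ∀ k ≤ Np j, idxb j k < N ∧ aN (idxb j k) = ⌊(ϖ + j * ζ - κ j k) * J⌋₊ ∧
        wN (idxb j k) = ⌊(ϖ + j * ζ - κ j k) * J⌋₊ ∧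
        ∀ l, g (idxb j k) l = ⌊(Ld l (ϖ + j * ζ - κ j k) - dl l) * J⌋₊) →
      (∀ j ≤ M, ∀ k' ≤ Np j, ∀ k < k', R (idxb j k) (idxb j k')) →
      (∀ v < M, idxn v < N ∧
        ∀ l < n, g (idxn v) l =
          ⌊(Ld l (ϖ + v * ζ) + (α + v * ζ - (ϖ + v * ζ)) - dl l) * J⌋₊) →
      (∀ v < M, ∀ y, ∀ l < n, ∃ κ' : ℝ,
        G (idxn v) y l = G (idxb v (Np v)) y l + MvPolynomial.C κ') →
      0 < Pe F.p A → (∀ B'' : F.Ω → Prop, Sub B'' A → Pe F.p A ≤ K₁ * Pe F.p B'' →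
        ∀ h : 0 < Pe F.p B'', (Fam.sub F B'' h).Tm (η * J)) →
      up ϖ J + (M + 1) * up ζ J ≤ up α J ∧ up α J + (M + 1) * up ζ J ≤ J ∧ 1 ≤ up ζ J ∧
      ∃ (Dt : GDat F) (B : F.Ω → Prop) (G₀ : ℕ → PtT F → ℕ → MvPolynomial (Option (Fin m)) ℝ)
        (H₀ : ℕ → LnT F → ℕ → MvPolynomial (Option (Fin m)) ℝ), Sub B A ∧
        Pe F.p A ≤ K₁ * Pe F.p B ∧
        Dt.Ok c n D K' s₁ sh (up α J) (up ϖ J) (up ζ J) M (fun _ _ => ⌊(E + e₀) * J⌋₊)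
          (gdS α ϖ ζ Ld τ J) B ∧
        BalG Dt.G Dt.H c n D M (up ϖ J) (up ζ J) (fun j l => (Ld l (ϖ + j * ζ) - θ) * J)
          (fun j l => Ld l (ϖ + j * ζ) * J) (fun _ => ⌊(E + e₁) * J⌋₊)
          (fun j l => ⌊(Ld l (ϖ + j * ζ) - de l) * J⌋₊) G₀ H₀ B ∧
        ∀ v < M, ∀ a', ⌊(α + v * ζ) * J⌋₊ ≤ a' → a' ≤ J → ∀ ω, B ω → ∀ l, 1 ≤ l → l ≤ n →
          ∀ b : ℕ → ℝ,
          Bx (tus a' (fun l => g (idxn v) (l - 1))) (Gs c n a' (G (idxn v)) (ptr F J ω)) l b →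
          |eval b (Gs c n a' (G (idxn v)) (ptr F J ω) l) -
            eval b (Gx c n (Dt.G v v) (ptr F J ω) l)| ≤
            2 ^ ⌊θ * J⌋₊ / 2 ^ gdS α ϖ ζ Ld τ J v v (l - 1) := by
  obtain ⟨D, C₁, C₂, hD, hC₁, hC₂, hone⟩ := bal_one m n S hn hS
  obtain ⟨C, hC, hloss⟩ := loss_ex n hn hC₁ hC₂
  obtain ⟨sh, K', s₁, hK', hcd⟩ := cd2 n D
  refine ⟨D, sh, K', s₁, C, hD, hK', hC, ?_⟩
  intro α ϖ ζ v₀ E ε θ Ld M hR hCε
  obtain ⟨de, x, σ, hde0, hdeε, hdes, hσ, hx0, hxs, hxp, hlos, hsum, hσθ⟩ := hloss hR.th hCε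
  have hC₁0 : 0 < C₁ := by linarith
  have hC₂0 : 0 < C₂ := by linarith
  have hMr : (0 : ℝ) ≤ M := Nat.cast_nonneg M
  have hϖ0 : 0 < ϖ := hR.v0.trans hR.v1
  have hζ := hR.z0
  have hθ := hR.th
  have hE := hR.E0
  have hMζ : 0 ≤ (M : ℝ) * ζ := by positivity
  have hthin := hR.thin
  have htop := hR.top
  have hjζ : ∀ j ≤ M, 0 ≤ (j : ℝ) * ζ ∧ (j : ℝ) * ζ ≤ M * ζ := fun j hj =>
    ⟨by positivity, mul_le_mul_of_nonneg_right (by exact_mod_cast hj) hζ.le⟩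
  have hdep : ∀ l < n, 0 < de l := fun l hl => hde0.trans_le (hlos l hl).1
  have hde1 : 0 ≤ de (n - 1) := (hdep _ (by omega)).le
  have hx1 : 0 ≤ x (n - 1) := (hxp _).le
  obtain ⟨e₁, he₁⟩ : ∃ e₁ : ℝ, e₁ = C₁ * de (n - 1) := ⟨_, rfl⟩
  obtain ⟨e₂, he₂⟩ : ∃ e₂ : ℝ, e₂ = C₂ * x (n - 1) := ⟨_, rfl⟩
  have he₁0 : 0 ≤ e₁ := by rw [he₁]; positivity
  have he₂0 : 0 ≤ e₂ := by rw [he₂]; positivity
  have he12 : 8 * (e₁ + e₂) ≤ θ := by rw [he₁, he₂]; exact hsum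
  have hde8 : 8 * de 0 ≤ θ := by
    have h1 := (hlos 0 (by omega)).2.1
    have h2 := (hxp 0).le
    linarith
  -- the windows one by one
  have h1 : ∀ j : ℕ, ∃ φ μ s : ℝ, 0 < φ ∧ 0 < μ ∧ 0 < s ∧ φ ≤ de 0 / 8 ∧ s ≤ de 0 / 2 ∧
      (j ≤ M → ∀ (N : ℕ) (κ : ℕ → ℝ), Pth n S v₀ ε μ Ld (ϖ + j * ζ) N κ →
      ∀ K : ℕ, ∃ (η : ℝ) (J₀ s₂ : ℕ), 0 < η ∧ ∀ {J : ℕ}, J₀ ≤ J → ∀ (F : Fam m J)
      (c : ℕ → Fin m) (dl : ℕ → ℝ) (B : F.Ω → Prop)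
      (G : ℕ → PtT F → ℕ → MvPolynomial (Option (Fin m)) ℝ)
      (H : ℕ → LnT F → ℕ → MvPolynomial (Option (Fin m)) ℝ), Inj c n →
      (∀ l < n, 0 ≤ dl l ∧ dl l ≤ φ) →
      Jat F c n K (N + 1) (fun k => ⌊(ϖ + j * ζ - κ k) * J⌋₊)
        (fun k => ⌊(ϖ + j * ζ - κ k) * J⌋₊) ⌊E * J⌋₊
        (fun k l => ⌊(Ld l (ϖ + j * ζ - κ k) - dl l) * J⌋₊) ⌊φ * J⌋₊ B G H →
      0 < Pe F.p B → (∀ B'' : F.Ω → Prop, Sub B'' B → Pe F.p B ≤ 2 ^ (M + 1) * Pe F.p B'' →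
        ∀ h : 0 < Pe F.p B'', (Fam.sub F B'' h).Tm (η * J)) →
      ∀ (w' : ℕ) (a' : ℕ → ℕ) (gg : ℕ → ℕ → ℕ), ⌊(ϖ + j * ζ) * J⌋₊ ≤ w' → (w' : ℝ) ≤ α * J →
      (∀ i ≤ M, (w' : ℝ) + ζ / 2 * J ≤ a' i) →
      (∀ i ≤ M, ∀ l < n,
        (gg i l : ℝ) ≤ (Ld l (ϖ + j * ζ) - de l - x l) * J + (a' i - w') + σ * J) →
      (∀ i ≤ M, ∀ l < n,
        (Ld l (ϖ + j * ζ) - de l - x l) * J + (a' i - w') ≤ gg i l + σ * J) →
      (∀ i ≤ M, ∀ l < n,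
        (E + e₁ + (Ld l (ϖ + j * ζ) - de l) + σ) * J + (a' i - w') ≤ J) →
      ∃ (B' : F.Ω → Prop) (G₀ : PtT F → ℕ → MvPolynomial (Option (Fin m)) ℝ)
        (H₀ : LnT F → ℕ → MvPolynomial (Option (Fin m)) ℝ), Sub B' B ∧
        Pe F.p B ≤ 2 ^ (M + 2) * Pe F.p B' ∧
        ChOK F c n (fun _ => D) w' w' ⌊(E + e₁) * J⌋₊
          (fun l => ⌊(Ld l (ϖ + j * ζ) - de l) * J⌋₊) B' G₀ H₀ ∧
        (∀ i ≤ M, ChOK F c n (fun _ => D) (a' i) w'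
          ⌊(E + e₁ + e₂) * J⌋₊ (gg i) B'
          (fun y l => Gno (c l) J J (fun y => G₀ y l) y)
          (fun s l => Hno (c l) (fun s => H₀ s l) s)) ∧
        (∀ ω, B' ω → ∀ l < n, ∀ b : Option (Fin m) → ℝ,
          |eval b (Gno (c l) J J (fun y => G₀ y l) (ptr F J ω)) - eval b (G₀ (ptr F J ω) l)| ≤
            2 / 2 ^ ⌊(Ld l (ϖ + j * ζ) - de l) * J⌋₊) ∧
        ∀ ω, B' ω → ∀ i < n, ∀ b : Option (Fin m) → ℝ,
          NBx c (G N (ptr F J ω)) (fun l => ⌊(Ld l (ϖ + j * ζ) - dl l) * J⌋₊)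
            ⌊(ϖ + j * ζ) * J⌋₊ (F.t ω) i b →
          |eval b (G N (ptr F J ω) i) - eval b (G₀ (ptr F J ω) i)| ≤
            2 ^ (s₂ + ⌊s * J⌋₊) / 2 ^ ⌊(Ld i (ϖ + j * ζ) - dl i) * J⌋₊) := by
    intro j
    by_cases hj : j ≤ M
    · obtain ⟨hj0, hjM⟩ := hjζ j hj
      have hyϖ : ϖ ≤ ϖ + j * ζ := by linarith
      obtain ⟨φ, μ, s, h2, h3, h4, h5, h6, h7⟩ := hone (y := ϖ + j * ζ) (v₀ := v₀) (E := E)
        (ε := ε) (w₁ := α) (q₀ := ζ / 2) (σ := σ) (β := fun l => Ld l (ϖ + j * ζ)) (de := de)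
        (x := x) M hR.v0 (hR.v1.trans_le hyϖ) (by nlinarith) (by nlinarith) (by positivity) hE
        hR.ep hde0 hdeε hdes (fun l hl => by
          have h8 := (hlos l hl).2.1
          have h9 := (hxp l).le
          have h10 := hR.thw
          have h11 := hdep l hl
          linarith) (fun l hl => hR.lev j hj l hl) hσ hx0 hxs
      refine ⟨φ, μ, s, h2, h3, h4, h5, h6, fun _ N κ hP K => ?_⟩
      have h8 := h7 N κ (fun k l => Ld l (ϖ + j * ζ - κ k)) hP.last hP.beg hP.long hP.step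
        (fun l hl => by
          show Ld l (ϖ + j * ζ - κ N) = _
          rw [hP.last, sub_zero]) hP.low hP.mono (fun k hk l hl => by
          show Ld l (ϖ + j * ζ - κ N) ≤ _
          rw [hP.last, sub_zero]
          exact hP.lip k hk l hl) K
      rw [← he₁, ← he₂] at h8
      exact h8
    · exact ⟨de 0 / 8, 1, de 0 / 2, by positivity, one_pos, by positivity, le_rfl, le_rfl,
        fun h => absurd h hj⟩
  choose φf μf sf hφf hμf hsf hφ8 hs2 hone' using h1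
  obtain ⟨φ, hφ0, hφ⟩ := min_ex M hφf
  obtain ⟨μ, hμ0, hμ⟩ := min_ex M hμf
  have hφd : φ ≤ de 0 / 8 := (hφ 0 (Nat.zero_le M)).trans (hφ8 0)
  refine ⟨φ, μ, e₁ + e₂, e₁, de, fun l => de l + x l, hφ0, hμ0, fun l hl => ⟨?_, ?_⟩,
    fun l hl => ⟨hdep l hl, ?_⟩, he₁0, by linarith, by linarith, ?_⟩
  · show φ ≤ de l + x l
    have h2 := (hlos l hl).1
    have h3 := (hxp l).le
    linarith
  · show 2 * (de l + x l) ≤ θ
    have h2 := (hlos l hl).2.1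
    have h3 := (hxp l).le
    have h4 := (hdep l hl).le
    linarith
  · show de l ≤ de l + x l
    have h3 := (hxp l).le
    linarith
  intro Np κ hP K
  have h2 : ∀ j : ℕ, ∃ (η : ℝ) (J₀ s₂ : ℕ), 0 < η ∧ (j ≤ M → ∀ {J : ℕ}, J₀ ≤ J →
      ∀ (F : Fam m J) (c : ℕ → Fin m) (dl : ℕ → ℝ) (B : F.Ω → Prop)
      (G : ℕ → PtT F → ℕ → MvPolynomial (Option (Fin m)) ℝ)
      (H : ℕ → LnT F → ℕ → MvPolynomial (Option (Fin m)) ℝ), Inj c n →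
      (∀ l < n, 0 ≤ dl l ∧ dl l ≤ φf j) →
      Jat F c n K (Np j + 1) (fun k => ⌊(ϖ + j * ζ - κ j k) * J⌋₊)
        (fun k => ⌊(ϖ + j * ζ - κ j k) * J⌋₊) ⌊E * J⌋₊
        (fun k l => ⌊(Ld l (ϖ + j * ζ - κ j k) - dl l) * J⌋₊) ⌊φf j * J⌋₊ B G H →
      0 < Pe F.p B → (∀ B'' : F.Ω → Prop, Sub B'' B → Pe F.p B ≤ 2 ^ (M + 1) * Pe F.p B'' →
        ∀ h : 0 < Pe F.p B'', (Fam.sub F B'' h).Tm (η * J)) →
      ∀ (w' : ℕ) (a' : ℕ → ℕ) (gg : ℕ → ℕ → ℕ), ⌊(ϖ + j * ζ) * J⌋₊ ≤ w' → (w' : ℝ) ≤ α * J →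
      (∀ i ≤ M, (w' : ℝ) + ζ / 2 * J ≤ a' i) →
      (∀ i ≤ M, ∀ l < n,
        (gg i l : ℝ) ≤ (Ld l (ϖ + j * ζ) - de l - x l) * J + (a' i - w') + σ * J) →
      (∀ i ≤ M, ∀ l < n,
        (Ld l (ϖ + j * ζ) - de l - x l) * J + (a' i - w') ≤ gg i l + σ * J) →
      (∀ i ≤ M, ∀ l < n,
        (E + e₁ + (Ld l (ϖ + j * ζ) - de l) + σ) * J + (a' i - w') ≤ J) →
      ∃ (B' : F.Ω → Prop) (G₀ : PtT F → ℕ → MvPolynomial (Option (Fin m)) ℝ)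
        (H₀ : LnT F → ℕ → MvPolynomial (Option (Fin m)) ℝ), Sub B' B ∧
        Pe F.p B ≤ 2 ^ (M + 2) * Pe F.p B' ∧
        ChOK F c n (fun _ => D) w' w' ⌊(E + e₁) * J⌋₊
          (fun l => ⌊(Ld l (ϖ + j * ζ) - de l) * J⌋₊) B' G₀ H₀ ∧
        (∀ i ≤ M, ChOK F c n (fun _ => D) (a' i) w'
          ⌊(E + e₁ + e₂) * J⌋₊ (gg i) B'
          (fun y l => Gno (c l) J J (fun y => G₀ y l) y)
          (fun s l => Hno (c l) (fun s => H₀ s l) s)) ∧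
        (∀ ω, B' ω → ∀ l < n, ∀ b : Option (Fin m) → ℝ,
          |eval b (Gno (c l) J J (fun y => G₀ y l) (ptr F J ω)) - eval b (G₀ (ptr F J ω) l)| ≤
            2 / 2 ^ ⌊(Ld l (ϖ + j * ζ) - de l) * J⌋₊) ∧
        ∀ ω, B' ω → ∀ i < n, ∀ b : Option (Fin m) → ℝ,
          NBx c (G (Np j) (ptr F J ω)) (fun l => ⌊(Ld l (ϖ + j * ζ) - dl l) * J⌋₊)
            ⌊(ϖ + j * ζ) * J⌋₊ (F.t ω) i b →
          |eval b (G (Np j) (ptr F J ω) i) - eval b (G₀ (ptr F J ω) i)| ≤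
            2 ^ (s₂ + ⌊sf j * J⌋₊) / 2 ^ ⌊(Ld i (ϖ + j * ζ) - dl i) * J⌋₊) := by
    intro j
    by_cases hj : j ≤ M
    · have hPj := hP j hj
      obtain ⟨η, J₀, s₂, h3, h4⟩ := hone' j hj (Np j) (κ j) ⟨hPj.last, hPj.beg, hPj.long,
        fun k hk => ⟨(hPj.step k hk).1, (hPj.step k hk).2.trans
          (add_le_add le_rfl (hμ j hj))⟩, hPj.low, hPj.mono, hPj.lip⟩ K
      exact ⟨η, J₀, s₂, h3, fun _ => h4⟩
    · exact ⟨1, 0, 0, one_pos, fun h => absurd h hj⟩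
  choose ηf Jf s₂f hηf hone'' using h2
  obtain ⟨η, hη0, hη⟩ := min_ex M hηf
  obtain ⟨Jm, hJm⟩ := max_ex M Jf
  obtain ⟨s₂, hs₂⟩ := max_ex M s₂f
  obtain ⟨c₀, hnode⟩ := clo_node n (max K D)
  obtain ⟨J₁, hJ₁⟩ := grid_ev (M := M) hϖ0.le hζ hthin htop
  obtain ⟨b, hb⟩ : ∃ b : ℕ → ℕ → ℕ → ℝ, b = fun (i j l : ℕ) =>
      Ld l (ϖ + j * ζ) + (α + i * ζ - (ϖ + j * ζ)) - (de l + x l) := ⟨_, rfl⟩
  have hτ : ∀ l < n, de l + x l ≤ θ / 2 := by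
    intro l hl
    have h2 := (hlos l hl).2.1
    have h3 := (hxp l).le
    have h4 := (hdep l hl).le
    linarith
  have hij : ∀ i ≤ M, ∀ j ≤ M, ζ ≤ α + i * ζ - (ϖ + j * ζ) := by
    intro i hi j hj
    have h2 := (hjζ i hi).1
    have h3 := (hjζ j hj).2
    nlinarith
  obtain ⟨J₂, hJ₂⟩ := flo_ev (n := n) (M := M) (b := b) (fun i hi j hj l hl => by
    rw [hb]
    show 0 < Ld l (ϖ + j * ζ) + (α + i * ζ - (ϖ + j * ζ)) - (de l + x l)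
    have h3 := (hR.lev j hj l hl).1
    have h4 := hij i hi j hj
    have h5 := hτ l hl
    have h6 := hR.thw
    have h7 := (hjζ j hj).1
    linarith) sh
  obtain ⟨J₃, hJ₃⟩ := big ((M : ℝ) + 3) hσ
  obtain ⟨J₄, hJ₄⟩ := big ((M : ℝ) + 3) (show 0 < ζ / 2 by positivity)
  obtain ⟨J₅, hJ₅⟩ := big ((M : ℝ) + 3 + c₀ + s₂ + 4) (show 0 < θ / 4 by positivity)
  obtain ⟨κ₀, hκ₀⟩ : ∃ κ₀ : ℝ, κ₀ = 1 / 2 ^ ((M + 2) * (M + 1)) := ⟨_, rfl⟩
  have hκ₀0 : 0 < κ₀ := by rw [hκ₀]; positivity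
  have hκ₀1 : κ₀ * 2 ^ ((M + 2) * (M + 1)) = 1 := by
    rw [hκ₀]
    field_simp
  have hK'1 : (1 : ℝ) ≤ (K' : ℝ) ^ ((M + 1) ^ 2) :=
    one_le_pow₀ (by exact_mod_cast hK')
  refine ⟨η, 2 ^ ((M + 2) * (M + 1)) * (2 ^ (M + 1) * (K' : ℝ) ^ ((M + 1) ^ 2)),
    max (max Jm (max J₁ J₂)) (max J₃ (max J₄ J₅)), hη0, ?_, ?_⟩
  · have h3 : (1 : ℝ) ≤ 2 ^ ((M + 2) * (M + 1)) := one_le_pow₀ (by norm_num)
    have h4 : (1 : ℝ) ≤ 2 ^ (M + 1) := one_le_pow₀ (by norm_num)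
    exact one_le_mul_of_one_le_of_one_le h3 (one_le_mul_of_one_le_of_one_le h4 hK'1)
  intro J hJ F c N R aN wN g δ dl A G H idxb idxn hinj hdl hδ hM hib hRb hin hRec hA hTm
  have hJ0 : (0 : ℝ) ≤ J := Nat.cast_nonneg J
  have hJJm : Jm ≤ J := (le_max_left _ _).trans ((le_max_left _ _).trans hJ)
  have hJ12 : max J₁ J₂ ≤ J := (le_max_right _ _).trans ((le_max_left _ _).trans hJ)
  obtain ⟨hev1, hev2, hev3⟩ := hJ₁ J ((le_max_left _ _).trans hJ12)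
  have hsh := hJ₂ J ((le_max_right _ _).trans hJ12)
  have hJ345 : max J₃ (max J₄ J₅) ≤ J := (le_max_right _ _).trans hJ
  have hJσ := hJ₃ J ((le_max_left _ _).trans hJ345)
  have hJζ := hJ₄ J ((le_max_left _ _).trans ((le_max_right _ _).trans hJ345))
  have hJθ := hJ₅ J ((le_max_right _ _).trans ((le_max_right _ _).trans hJ345))
  have hc₀0 : (0 : ℝ) ≤ c₀ := Nat.cast_nonneg _
  have hs₂0 : (0 : ℝ) ≤ s₂ := Nat.cast_nonneg _
  refine ⟨hev1, hev2, hev3, ?_⟩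
  -- the numbers of the grid
  have hup : ∀ {x : ℝ}, 0 ≤ x → ∀ i ≤ M, (x + i * ζ) * J ≤ ((up x J + i * up ζ J : ℕ) : ℝ) ∧
      ((up x J + i * up ζ J : ℕ) : ℝ) ≤ (x + i * ζ) * J + (M + 1) := by
    intro x hx i hi
    have h3 := up_ge x J
    have h4 := up_le hx J
    have h5 := up_ge ζ J
    have h6 := up_le hζ.le J
    have h7 : (i : ℝ) ≤ M := by exact_mod_cast hi
    have h8 : (0 : ℝ) ≤ i := Nat.cast_nonneg i
    push_cast
    constructor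
    · nlinarith [mul_le_mul_of_nonneg_left h5 h8]
    · nlinarith [mul_le_mul_of_nonneg_left h6 h8]
  have hα0 : 0 ≤ α := by nlinarith
  obtain ⟨wj, hwj⟩ : ∃ wj : ℕ → ℕ, wj = fun j => up ϖ J + j * up ζ J := ⟨_, rfl⟩
  obtain ⟨ai, hai⟩ : ∃ ai : ℕ → ℕ, ai = fun i => up α J + i * up ζ J := ⟨_, rfl⟩
  have hw1 : ∀ j ≤ M, (ϖ + j * ζ) * J ≤ wj j ∧ (wj j : ℝ) ≤ (ϖ + j * ζ) * J + (M + 1) := by
    intro j hj
    rw [hwj]
    exact hup hϖ0.le j hj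
  have ha1 : ∀ i ≤ M, (α + i * ζ) * J ≤ ai i ∧ (ai i : ℝ) ≤ (α + i * ζ) * J + (M + 1) := by
    intro i hi
    rw [hai]
    exact hup hα0 i hi
  have hwJ : ∀ j ≤ M, (wj j : ℝ) ≤ α * J := by
    intro j hj
    have h3 := (hw1 j hj).2
    have h4 := hij 0 (Nat.zero_le M) j hj
    rw [Nat.cast_zero, zero_mul, add_zero] at h4
    have h5 := mul_le_mul_of_nonneg_right h4 hJ0
    have e1 : (α - (ϖ + j * ζ)) * (J : ℝ) = α * J - (ϖ + j * ζ) * J := by ring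
    have e2 : ζ / 2 * (J : ℝ) = ζ * J / 2 := by ring
    rw [e2] at hJζ
    linarith
  have hwa : ∀ i ≤ M, ∀ j ≤ M, (wj j : ℝ) + ζ / 2 * J ≤ ai i := by
    intro i hi j hj
    have h3 := (hw1 j hj).2
    have h4 := mul_le_mul_of_nonneg_right (hij i hi j hj) hJ0
    have h5 := (ha1 i hi).1
    have e1 : (α + i * ζ - (ϖ + j * ζ)) * (J : ℝ) = (α + i * ζ) * J - (ϖ + j * ζ) * J := by ring
    have e2 : ζ / 2 * (J : ℝ) = ζ * J / 2 := by ring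
    rw [e2] at hJζ ⊢
    linarith
  have hgd : ∀ i j l : ℕ, gdS α ϖ ζ Ld (fun l => de l + x l) J i j l = ⌊b i j l * J⌋₊ := by
    intro i j l
    rw [hb]
    rfl
  have hb0 : ∀ i ≤ M, ∀ j ≤ M, ∀ l < n, 0 ≤ b i j l * J := by
    intro i hi j hj l hl
    refine mul_nonneg ?_ hJ0
    rw [hb]
    show 0 ≤ Ld l (ϖ + j * ζ) + (α + i * ζ - (ϖ + j * ζ)) - (de l + x l)
    have h3 := (hR.lev j hj l hl).1
    have h4 := hij i hi j hj
    have h5 := hτ l hl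
    have h6 := hR.thw
    have h7 := (hjζ j hj).1
    linarith
  have hbe : ∀ i j l : ℕ, b i j l * J = (Ld l (ϖ + j * ζ) - de l - x l) * J +
      ((α + i * ζ) * J - (ϖ + j * ζ) * J) := by
    intro i j l
    rw [hb]
    ring
  -- the path as a path of levels
  have hjat : ∀ j ≤ M, ∀ B' : F.Ω → Prop, Sub B' A →
      Jat F c n K (Np j + 1) (fun k => ⌊(ϖ + j * ζ - κ j k) * J⌋₊)
        (fun k => ⌊(ϖ + j * ζ - κ j k) * J⌋₊) ⌊E * J⌋₊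
        (fun k l => ⌊(Ld l (ϖ + j * ζ - κ j k) - dl l) * J⌋₊) ⌊φf j * J⌋₊ B'
        (fun k => G (idxb j k)) (fun k => H (idxb j k)) := by
    intro j hj B' hB'
    refine jat_congr (jat_of_mch (hM.sub hB') (N' := Np j + 1) (idx := idxb j)
      (fun k hk => (hib j hj k (by omega)).1)
      (fun k' hk' k hk => hRb j hj k' (by omega) k hk) (u := ⌊φ * J⌋₊) hδ) ?_ ?_ ?_ ?_
    · exact Nat.floor_le_floor (mul_le_mul_of_nonneg_right (hφ j hj) hJ0)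
    · exact fun k hk => (hib j hj k (by omega)).2.1
    · exact fun k hk => (hib j hj k (by omega)).2.2.1
    · intro k hk
      funext l
      exact (hib j hj k (by omega)).2.2.2 l
  -- the iteration over the windows
  obtain ⟨B, hBA, hPB, X, hX⟩ := iter_ex (p := F.p)
    (τ := (PtT F → ℕ → MvPolynomial (Option (Fin m)) ℝ) ×
      (LnT F → ℕ → MvPolynomial (Option (Fin m)) ℝ))
    (fun A => Pe_nonneg F.isLaw A) (M + 2) (M + 1) (B₀ := A) (κ := κ₀)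
    (Ψ := fun j X B =>
      ChOK F c n (fun _ => D) (wj j) (wj j) ⌊(E + e₁) * J⌋₊
        (fun l => ⌊(Ld l (ϖ + j * ζ) - de l) * J⌋₊) B X.1 X.2 ∧
      (∀ i ≤ M, ChOK F c n (fun _ => D) (ai i) (wj j) ⌊(E + e₁ + e₂) * J⌋₊
        (gdS α ϖ ζ Ld (fun l => de l + x l) J i j) B
        (fun y l => Gno (c l) J J (fun y => X.1 y l) y)
        (fun s l => Hno (c l) (fun s => X.2 s l) s)) ∧
      (∀ ω, B ω → ∀ l < n, ∀ b : Option (Fin m) → ℝ,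
        |eval b (Gno (c l) J J (fun y => X.1 y l) (ptr F J ω)) - eval b (X.1 (ptr F J ω) l)| ≤
          2 / 2 ^ ⌊(Ld l (ϖ + j * ζ) - de l) * J⌋₊) ∧
      ∀ ω, B ω → ∀ i < n, ∀ b : Option (Fin m) → ℝ,
        NBx c (G (idxb j (Np j)) (ptr F J ω)) (fun l => ⌊(Ld l (ϖ + j * ζ) - dl l) * J⌋₊)
          ⌊(ϖ + j * ζ) * J⌋₊ (F.t ω) i b →
        |eval b (G (idxb j (Np j)) (ptr F J ω) i) - eval b (X.1 (ptr F J ω) i)| ≤
          2 ^ (s₂f j + ⌊sf j * J⌋₊) / 2 ^ ⌊(Ld i (ϖ + j * ζ) - dl i) * J⌋₊)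
    (fun j X B B' hB h => ⟨h.1.sub hB, fun i hi => (h.2.1 i hi).sub hB,
      fun ω hω => h.2.2.1 ω (hB ω hω), fun ω hω => h.2.2.2 ω (hB ω hω)⟩)
    hκ₀0.le hκ₀1.le
    (fun j hj B' hB' hP' => by
      have hj' : j ≤ M := by omega
      have hPe : 0 < Pe F.p B' := (mul_pos hκ₀0 hA).trans_le hP'
      obtain ⟨B'', G₀, H₀, k1, k2, k3, k4, k5, k6⟩ := hone'' j hj' ((hJm j hj').trans hJJm) F c dl B'
        (fun k => G (idxb j k)) (fun k => H (idxb j k)) hinj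
        (fun l hl => ⟨(hdl l hl).1, (hdl l hl).2.trans (hφ j hj')⟩) (hjat j hj' B' hB') hPe
        (fun B₂ hB₂ hP₂ h₂ => Pool.KA.AP5.Tm_mono (hTm B₂ (fun ω h => hB' ω (hB₂ ω h)) (by
          have hPe2 := h₂.le
          calc Pe F.p A = 2 ^ ((M + 2) * (M + 1)) * (κ₀ * Pe F.p A) := by
                rw [← mul_assoc, mul_comm _ κ₀, hκ₀1, one_mul]
            _ ≤ 2 ^ ((M + 2) * (M + 1)) * Pe F.p B' :=
                mul_le_mul_of_nonneg_left hP' (by positivity)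
            _ ≤ 2 ^ ((M + 2) * (M + 1)) * (2 ^ (M + 1) * Pe F.p B₂) :=
                mul_le_mul_of_nonneg_left hP₂ (by positivity)
            _ ≤ 2 ^ ((M + 2) * (M + 1)) * ((2 ^ (M + 1) * (K' : ℝ) ^ ((M + 1) ^ 2)) *
                  Pe F.p B₂) := by
                refine mul_le_mul_of_nonneg_left ?_ (by positivity)
                refine mul_le_mul_of_nonneg_right ?_ hPe2
                exact le_mul_of_one_le_right (by positivity) hK'1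
            _ = 2 ^ ((M + 2) * (M + 1)) * (2 ^ (M + 1) * (K' : ℝ) ^ ((M + 1) ^ 2)) *
                  Pe F.p B₂ := by ring) h₂)
          (mul_le_mul_of_nonneg_right (hη j hj') hJ0))
        (wj j) ai (fun i l => gdS α ϖ ζ Ld (fun l => de l + x l) J i j l) (by
          rw [hwj]
          exact flo_grid j J) (hwJ j hj') (fun i hi => hwa i hi j hj')
        (fun i hi l hl => by
          rw [hgd]
          have h3 := Nat.floor_le (hb0 i hi j hj' l hl)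
          have h4 := (hw1 j hj').2
          have h5 := (ha1 i hi).1
          refine h3.trans ?_
          rw [hbe]
          linarith)
        (fun i hi l hl => by
          rw [hgd]
          have h3 := (Nat.lt_floor_add_one (b i j l * (J : ℝ))).le
          have h4 := (hw1 j hj').1
          have h5 := (ha1 i hi).2
          have h6 : (Ld l (ϖ + j * ζ) - de l - x l) * J + ((ai i : ℝ) - wj j) ≤
              b i j l * J + (M + 1) := by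
            rw [hbe]
            linarith
          linarith)
        (fun i hi l hl => by
          have h3 := mul_le_mul_of_nonneg_right (hR.fit i hi j hj' l hl).le hJ0
          have h4 := (hw1 j hj').1
          have h5 := (ha1 i hi).2
          have e1 : (E + Ld l (ϖ + j * ζ) + θ + (α + i * ζ - (ϖ + j * ζ))) * (J : ℝ) =
              E * J + Ld l (ϖ + j * ζ) * J + θ * J + ((α + i * ζ) * J - (ϖ + j * ζ) * J) := by
            ring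
          rw [e1, one_mul] at h3
          have e2 : (E + e₁ + (Ld l (ϖ + j * ζ) - de l) + σ) * (J : ℝ) =
              E * J + Ld l (ϖ + j * ζ) * J + (e₁ + σ - de l) * J := by ring
          have h6 : (e₁ + σ - de l) * (J : ℝ) ≤ (3 / 4 * θ) * J := by
            refine mul_le_mul_of_nonneg_right ?_ hJ0
            have := (hdep l hl).le
            linarith
          have e3 : θ / 4 * (J : ℝ) = θ * J / 4 := by ring
          have e4 : 3 / 4 * θ * (J : ℝ) = 3 * (θ * J) / 4 := by ring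
          rw [e3] at hJθ
          rw [e4] at h6
          rw [e2]
          linarith)
      exact ⟨B'', k1, k2, (G₀, H₀), k3, fun i hi => k4 i hi, k5, k6⟩)
  -- the exact labels
  obtain ⟨zL, PL, zS, zS', PS, B₂, hB₂, hPB₂, hout⟩ := hcd m J M (up α J) (up ϖ J) (up ζ J) F c
    (fun _ _ _ => D) (fun _ _ => ⌊(E + (e₁ + e₂)) * J⌋₊)
    (gdS α ϖ ζ Ld (fun l => de l + x l) J) B
    (fun _ j y l => Gno (c l) J J (fun y => (X j).1 y l) y)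
    (fun _ j s l => Hno (c l) (fun s => (X j).2 s l) s)
    (le_trans (Nat.add_le_add_left (Nat.mul_le_mul_right _ (Nat.le_succ M)) _) hev1)
    (by omega) hinj (fun _ _ _ _ _ _ => le_rfl)
    (fun i hi j hj l hl => by
      rw [hgd]
      exact hsh i hi j hj l hl)
    (fun i hi j hj => by
      have h3 := (hX j (by omega)).2.1 i hi
      rw [hai, hwj, ← add_assoc] at *
      exact h3)
  refine ⟨⟨fun _ j y l => Gno (c l) J J (fun y => (X j).1 y l) y,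
    fun _ j s l => Hno (c l) (fun s => (X j).2 s l) s, zL, PL, zS, zS', PS⟩, B₂,
    fun j => (X j).1, fun j => (X j).2, fun ω h => hBA ω (hB₂ ω h), ?_, ⟨?_, hout⟩, ⟨?_, ?_, ?_,
    ?_, ?_⟩, ?_⟩
  · have h3 := Pe_nonneg F.isLaw B₂
    calc Pe F.p A ≤ 2 ^ ((M + 2) * (M + 1)) * Pe F.p B := hPB
      _ ≤ 2 ^ ((M + 2) * (M + 1)) * ((K' : ℝ) ^ ((M + 1) ^ 2) * Pe F.p B₂) :=
          mul_le_mul_of_nonneg_left hPB₂ (by positivity)
      _ ≤ 2 ^ ((M + 2) * (M + 1)) * (2 ^ (M + 1) * (K' : ℝ) ^ ((M + 1) ^ 2) * Pe F.p B₂) := by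
          refine mul_le_mul_of_nonneg_left (mul_le_mul_of_nonneg_right ?_ h3) (by positivity)
          exact le_mul_of_one_le_left (by positivity) (one_le_pow₀ (by norm_num))
      _ = _ := by ring
  · intro i hi j hj
    have h3 := (hX j (by omega)).2.1 i hi
    rw [hai, hwj, add_assoc] at h3
    exact h3.sub hB₂
  · intro j hj l hl
    have h3 := (hR.lev j hj l hl).1
    have h4 := (hjζ j hj).1
    have h5 := hτ l hl
    have h6 := hR.thw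
    have h7 := (hdep l hl).le
    have h8 := (hxp l).le
    have h9 := (Nat.lt_floor_add_one ((Ld l (ϖ + j * ζ) - de l) * (J : ℝ))).le
    have h10 := Nat.floor_le (show 0 ≤ (Ld l (ϖ + j * ζ) - de l) * (J : ℝ) from
      mul_nonneg (by linarith) hJ0)
    have h11 : de l * (J : ℝ) ≤ θ / 2 * J := mul_le_mul_of_nonneg_right (by linarith) hJ0
    have h12 : 0 ≤ de l * (J : ℝ) := mul_nonneg h7 hJ0
    have e1 : (Ld l (ϖ + j * ζ) - de l) * (J : ℝ) = Ld l (ϖ + j * ζ) * J - de l * J := by ring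
    have e2 : (Ld l (ϖ + j * ζ) - θ) * (J : ℝ) = Ld l (ϖ + j * ζ) * J - θ * J := by ring
    have e3 : θ / 2 * (J : ℝ) = θ * J / 2 := by ring
    have e4 : θ / 4 * (J : ℝ) = θ * J / 4 := by ring
    rw [e1] at h9 h10
    rw [e3] at h11
    rw [e4] at hJθ
    constructor
    · show (Ld l (ϖ + j * ζ) - θ) * (J : ℝ) ≤ (⌊(Ld l (ϖ + j * ζ) - de l) * (J : ℝ)⌋₊ : ℝ)
      rw [e2, e1]
      linarith
    · show (⌊(Ld l (ϖ + j * ζ) - de l) * (J : ℝ)⌋₊ : ℝ) ≤ Ld l (ϖ + j * ζ) * (J : ℝ)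
      rw [e1]
      linarith
  · intro j hj
    have h3 := (hX j (by omega)).1
    rw [hwj] at h3
    exact h3.sub hB₂
  · intro i hi j hj
    rfl
  · intro i hi j hj
    rfl
  · intro j hj ω hω l hl b
    exact (hX j (by omega)).2.2.1 ω (hB₂ ω hω) l hl b
  · intro v hv a' ha' ha'J ω hω l hl1 hl b hb
    have hv' : v ≤ M := hv.le
    have hΔ := hij v hv' v hv'
    obtain ⟨Δ, hΔe⟩ : ∃ Δ : ℝ, Δ = α + v * ζ - (ϖ + v * ζ) := ⟨_, rfl⟩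
    rw [← hΔe] at hΔ
    have hΔ0 : 0 ≤ Δ := hζ.le.trans hΔ
    have hyv : 0 ≤ ϖ + v * ζ := by
      have := (hjζ v hv').1
      linarith
    have hokb := hM.ok _ (hib v hv' (Np v) le_rfl).1
    have hgb : g (idxb v (Np v)) = fun l => ⌊(Ld l (ϖ + v * ζ) - dl l) * J⌋₊ := by
      funext l
      rw [(hib v hv' (Np v) le_rfl).2.2.2 l, (hP v hv').last, sub_zero]
    rw [hgb] at hokb
    have hokn := hM.ok _ (hin v hv).1
    have hωA : A ω := hBA ω (hB₂ ω hω)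
    obtain ⟨x1, x2, x3, x4⟩ := hX v (by omega)
    have hx2 := x2 v hv'
    have hΔJ : ζ / 2 * (J : ℝ) ≤ Δ * J := mul_le_mul_of_nonneg_right (by linarith) hJ0
    refine hnode (F := F) (c := c) (w := ⌊(ϖ + v * ζ) * J⌋₊) (a := a') (v := ⌊Δ * J⌋₊)
      (h₀ := s₂f v + ⌊sf v * J⌋₊) (h := ⌊θ * J⌋₊)
      (g := fun l => ⌊(Ld l (ϖ + v * ζ) - dl l) * J⌋₊) (g' := g (idxn v))
      (gD := gdS α ϖ ζ Ld (fun l => de l + x l) J v v) (ω := ω)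
      (Gb := G (idxb v (Np v))) (Gn := G (idxn v))
      (GD := fun y l => Gno (c l) J J (fun y => (X v).1 y l) y) (G₀ := (X v).1) hinj ha'J ?_ ?_
      (fun l => (hokb.degG _ l).trans (le_max_left _ _)) (hokb.depG _)
      (fun l hl => hokb.pos ω hωA l hl)
      (fun l => (x1.degG _ l).trans (le_max_right _ _)) (x1.depG _)
      (fun i hi b hb => x4 ω (hB₂ ω hω) i hi b hb)
      (fun l hl => hRec v hv _ l hl) (fun l hl => hokn.pos ω hωA l hl) (hokn.depG _)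
      (fun l hl => ⟨_, rfl⟩) (fun l hl => hx2.pos ω (hB₂ ω hω) l hl) (hx2.depG _) ?_ ?_ l hl1 hl
      b hb
    · refine le_trans ?_ ha'
      refine (Nat.le_floor ?_)
      have h3 := Nat.floor_le (mul_nonneg hyv hJ0)
      have h4 := Nat.floor_le (mul_nonneg hΔ0 hJ0)
      push_cast
      have e1 : (α + v * ζ) * (J : ℝ) = (ϖ + v * ζ) * J + Δ * J := by
        rw [hΔe]
        ring
      linarith
    · refine Nat.le_floor ?_
      push_cast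
      linarith
    · intro l hl
      rw [(hin v hv).2 l hl, ← hΔe]
      have h3 := (hR.lev v hv' l hl).1
      have h5 := hdl l hl
      have h6 := hR.thw
      have h7 := (hdep l hl).le
      have h8 := (hxp l).le
      have h9 := (hlos l hl).1
      have h10 : dl l ≤ de l + x l := by linarith
      have h11 : 0 ≤ Ld l (ϖ + v * ζ) - dl l := by
        have := (hjζ v hv').1
        have := hτ l hl
        linarith
      have e1 : (Ld l (ϖ + v * ζ) + Δ - dl l) * (J : ℝ) =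
          (Ld l (ϖ + v * ζ) - dl l) * J + Δ * J := by ring
      refine ⟨?_, ?_, ?_⟩
      · unfold gdS
        rw [← hΔe]
        refine Nat.floor_le_floor (mul_le_mul_of_nonneg_right ?_ hJ0)
        show Ld l (ϖ + v * ζ) + Δ - (de l + x l) ≤ _
        linarith
      · refine Nat.le_floor ?_
        push_cast
        have h12 := Nat.floor_le (mul_nonneg h11 hJ0)
        have h13 := Nat.floor_le (mul_nonneg hΔ0 hJ0)
        rw [e1]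
        linarith
      · have h12 := (Nat.lt_floor_add_one ((Ld l (ϖ + v * ζ) - dl l) * (J : ℝ)))
        have h13 := (Nat.lt_floor_add_one (Δ * (J : ℝ)))
        have h14 : ⌊(Ld l (ϖ + v * ζ) + Δ - dl l) * (J : ℝ)⌋₊ <
            ⌊(Ld l (ϖ + v * ζ) - dl l) * (J : ℝ)⌋₊ + ⌊Δ * (J : ℝ)⌋₊ + 1 + 1 := by
          rw [Nat.floor_lt' (by omega)]
          push_cast
          rw [e1]
          linarith
        omega
    · have h3 := hs₂ v hv'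
      have h4 : sf v * (J : ℝ) ≤ θ / 4 * J := mul_le_mul_of_nonneg_right (by
        have := hs2 v
        linarith) hJ0
      have h5 := Nat.floor_le (mul_nonneg (hsf v).le hJ0)
      refine Nat.le_floor ?_
      push_cast
      have h6 : (s₂f v : ℝ) ≤ s₂ := by exact_mod_cast h3
      have e4 : θ / 4 * (J : ℝ) = θ * J / 4 := by ring
      rw [e4] at hJθ h4
      have h7 : 0 ≤ θ * (J : ℝ) := by positivity
      linarith

end Pool.STAT.BAL
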