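import Pool.Agent.H80.STAT.BalR

/-!
# The losses of the ball charts

`loss_ex`: the losses of the labels of universal degree and of the re-centring.
-/

set_option autoImplicit false

namespace Pool.STAT.BAL

open Finset

/-- **The losses.** `de`: of the labels of universal degree, `x`: of the re-centring. -/
theorem loss_ex (n : ℕ) (hn : 1 ≤ n) {C₁ C₂ : ℝ} (h1 : 1 ≤ C₁) (h2 : 1 ≤ C₂) :
    ∃ C : ℝ, 1 ≤ C ∧ ∀ {ε θ : ℝ}, 0 < θ → C * ε < θ →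
    ∃ (de x : ℕ → ℝ) (σ : ℝ), 0 < de 0 ∧ C₁ * ε < de 0 ∧ (∀ l, C₁ * de l < de (l + 1)) ∧
      0 < σ ∧ C₂ * σ ≤ x 0 ∧ (∀ l, C₂ * x l ≤ x (l + 1)) ∧ (∀ l, 0 < x l) ∧
      (∀ l < n, de 0 ≤ de l ∧ 8 * (de l + x l) ≤ θ ∧ σ ≤ x l) ∧
      8 * (C₁ * de (n - 1) + C₂ * x (n - 1)) ≤ θ ∧ 8 * σ ≤ θ := by
  -- the constants
  obtain ⟨U, hU⟩ : ∃ U : ℝ, U = (C₁ + 1) ^ n := ⟨_, rfl⟩
  obtain ⟨V, hV⟩ : ∃ V : ℝ, V = C₂ ^ (n + 1) := ⟨_, rfl⟩
  have hU1 : 1 ≤ U := by rw [hU]; exact one_le_pow₀ (by linarith)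
  have hV1 : 1 ≤ V := by rw [hV]; exact one_le_pow₀ h2
  obtain ⟨W, hW⟩ : ∃ W : ℝ, W = 32 * C₁ * C₂ * U := ⟨_, rfl⟩
  have hC₁0 : 0 < C₁ := by linarith
  have hC₂0 : 0 < C₂ := by linarith
  have hCC : 1 ≤ C₁ * C₂ := by nlinarith
  have hW32 : 32 * (C₁ * C₂) ≤ W := by
    rw [hW]
    have : 32 * (C₁ * C₂) * 1 ≤ 32 * (C₁ * C₂) * U :=
      mul_le_mul_of_nonneg_left hU1 (by positivity)
    linarith
  have hW0 : 0 < W := by linarith
  refine ⟨W * C₁, by nlinarith, ?_⟩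
  intro ε θ hθ hεθ
  obtain ⟨d, hd⟩ : ∃ d : ℝ, d = θ / W := ⟨_, rfl⟩
  have hd0 : 0 < d := by rw [hd]; positivity
  have hdW : W * d = θ := by rw [hd]; field_simp
  have hdε : C₁ * ε < d := by
    rw [hd, lt_div_iff₀ hW0]
    linarith
  obtain ⟨μ, hμ⟩ : ∃ μ : ℝ, μ = d / V := ⟨_, rfl⟩
  have hμ0 : 0 < μ := by rw [hμ]; positivity
  have hμV : V * μ = d := by rw [hμ]; field_simp
  have hμd : μ ≤ d := by nlinarith
  have hden : ∀ l < n, d ≤ (C₁ + 1) ^ l * d ∧ (C₁ + 1) ^ l * d ≤ U * d := by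
    intro l hl
    rw [hU]
    constructor
    · exact le_mul_of_one_le_left hd0.le (one_le_pow₀ (by linarith))
    · exact mul_le_mul_of_nonneg_right (pow_le_pow_right₀ (by linarith) hl.le) hd0.le
  have hxn : ∀ l < n, μ ≤ C₂ ^ (l + 1) * μ ∧ C₂ ^ (l + 1) * μ ≤ d := by
    intro l hl
    constructor
    · exact le_mul_of_one_le_left hμ0.le (one_le_pow₀ h2)
    · rw [← hμV, hV]
      exact mul_le_mul_of_nonneg_right (pow_le_pow_right₀ h2 (by omega)) hμ0.le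
  have hUd : 0 < U * d := by positivity
  have hdU : d ≤ U * d := le_mul_of_one_le_left hd0.le hU1
  have hC1U : C₁ * (U * d) * 32 ≤ θ := by
    rw [← hdW, hW]
    have e1 : C₁ * (U * d) * 32 * 1 ≤ C₁ * (U * d) * 32 * C₂ :=
      mul_le_mul_of_nonneg_left h2 (by positivity)
    linarith
  have hC2d : C₂ * d * 32 ≤ θ := by
    rw [← hdW]
    have e1 : 32 * C₂ ≤ W := by
      have : 32 * C₂ * 1 ≤ 32 * C₂ * C₁ := mul_le_mul_of_nonneg_left h1 (by positivity)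
      linarith
    nlinarith
  have hUθ : U * d * 32 ≤ θ := by
    have : 1 * (U * d) * 32 ≤ C₁ * (U * d) * 32 := by
      have := mul_le_mul_of_nonneg_right h1 hUd.le
      linarith
    linarith
  have hdθ : d * 32 ≤ θ := by linarith
  refine ⟨fun l => (C₁ + 1) ^ l * d, fun l => C₂ ^ (l + 1) * μ, μ, ?_, ?_, fun l => ?_, hμ0, ?_,
    fun l => ?_, fun l => by positivity, fun l hl => ⟨?_, ?_, (hxn l hl).1⟩, ?_, by linarith⟩
  · simpa using hd0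
  · simpa using hdε
  · show C₁ * ((C₁ + 1) ^ l * d) < (C₁ + 1) ^ (l + 1) * d
    have : 0 < (C₁ + 1) ^ l * d := by positivity
    rw [pow_succ]
    nlinarith
  · show C₂ * μ ≤ C₂ ^ (0 + 1) * μ
    rw [zero_add, pow_one]
  · show C₂ * (C₂ ^ (l + 1) * μ) ≤ C₂ ^ (l + 1 + 1) * μ
    rw [pow_succ _ (l + 1)]
    linarith
  · show (C₁ + 1) ^ 0 * d ≤ (C₁ + 1) ^ l * d
    rw [pow_zero, one_mul]
    exact (hden l hl).1
  · show 8 * ((C₁ + 1) ^ l * d + C₂ ^ (l + 1) * μ) ≤ θ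
    have e1 := (hden l hl).2
    have e2 := (hxn l hl).2
    linarith
  · show 8 * (C₁ * ((C₁ + 1) ^ (n - 1) * d) + C₂ * (C₂ ^ (n - 1 + 1) * μ)) ≤ θ
    have e1 := mul_le_mul_of_nonneg_left (hden (n - 1) (by omega)).2 hC₁0.le
    have e2 := mul_le_mul_of_nonneg_left (hxn (n - 1) (by omega)).2 hC₂0.le
    linarith

end Pool.STAT.BAL
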