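import Pool.Agent.H2.GEN.IsoM
import Pool.Agent.H80.STAT.BalA

/-!
# Re-centred ball charts for several radii, one family

`rec_fam`: the family level of `iso_labs`.
-/

set_option autoImplicit false

namespace Pool.STAT.BAL

open Finset Real MvPolynomial
open Pool.Agent.H49.Ent Pool.Agent.H32.Dense Pool.STK Pool.KA Pool.KSAT Pool.K2S Pool.PB Pool.S6C
open Pool.GEN Pool.CHT Pool.CHX Pool.ISO
open Pool.LBT (LSys Slo Tri ThrOf fl_le' bas_false)
open Pool.LEV (Law)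
open Pool.FLF (Fam.sub)

variable {m J : ℕ}

/-- **Re-centred balls of a family**: one ball for several radii, at all windows near the given
window, with prescribed sides. `β l`: the precisions of the ball; `x l`: the losses, increasing. -/
theorem rec_fam (m n D : ℕ) (hD : 1 ≤ D) : ∃ C : ℝ, 1 ≤ C ∧ ∀ {w₁ e σ q₀ : ℝ} {β x : ℕ → ℝ}
    (M : ℕ), w₁ < 1 → 0 ≤ e → 0 < σ → 0 < q₀ → (∀ l < n, 0 ≤ β l) → C * σ ≤ x 0 →
    (∀ l, l + 1 < n → C * x l ≤ x (l + 1)) → ∃ (ε : ℝ) (J₁ : ℕ), 0 < ε ∧ ∀ J ≥ J₁,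
    ∀ {F : Fam m J} {c : ℕ → Fin m} {B : F.Ω → Prop} {w₀ : ℕ}
      {G : PtT F → ℕ → MvPolynomial (Option (Fin m)) ℝ}
      {H : LnT F → ℕ → MvPolynomial (Option (Fin m)) ℝ}, Set.InjOn c (Set.Iio n) →
      0 < Pe F.p B → (∀ B'' : F.Ω → Prop, Sub B'' B → Pe F.p B ≤ 2 ^ M * Pe F.p B'' →
        ∀ hB : 0 < Pe F.p B'', (Fam.sub F B'' hB).Tm (ε * J)) →
      ChOK F c n (fun _ => D) w₀ w₀ ⌊e * J⌋₊ (fun l => ⌊β l * J⌋₊) B G H →
    ∀ (w' : ℕ) (a' : ℕ → ℕ) (gg : ℕ → ℕ → ℕ), w₀ ≤ w' →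
      (w' : ℝ) ≤ w₁ * J → (∀ i ≤ M, (w' : ℝ) + q₀ * J ≤ a' i) →
      (∀ i ≤ M, ∀ l < n, (gg i l : ℝ) ≤ (β l - x l) * J + (a' i - w') + σ * J) →
      (∀ i ≤ M, ∀ l < n, (β l - x l) * J + (a' i - w') ≤ gg i l + σ * J) →
      (∀ i ≤ M, ∀ l < n, (e + β l + σ) * J + (a' i - w') ≤ J) →
      ∃ B' : F.Ω → Prop, Sub B' B ∧ Pe F.p B ≤ 2 ^ (M + 1) * Pe F.p B' ∧
        ChOK F c n (fun _ => D) w' w' ⌊e * J⌋₊ (fun l => ⌊β l * J⌋₊) B' G (cwn w₀ w' H) ∧
        (∀ i ≤ M, ChOK F c n (fun _ => D) (a' i) w' ⌊(e + C * x (n - 1)) * J⌋₊ (gg i) B'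
          (fun y l => Gno (c l) J J (fun y => G y l) y)
          (fun s l => Hno (c l) (fun s => cwn w₀ w' H s l) s)) ∧
        ∀ ω, B' ω → ∀ l < n, ∀ b : Option (Fin m) → ℝ,
          |eval b (Gno (c l) J J (fun y => G y l) (ptr F J ω)) - eval b (G (ptr F J ω) l)| ≤
            2 / 2 ^ ⌊β l * J⌋₊ := by
  obtain ⟨C₁, C₀, hC₁, hrec⟩ := rec_labs m n D hD
  obtain ⟨C, hC⟩ : ∃ C : ℝ, C = 4 + C₀ * (2 * n + 1) := ⟨_, rfl⟩
  have hC₀ : (0 : ℝ) ≤ C₀ := Nat.cast_nonneg _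
  have hn0 : (0 : ℝ) ≤ n := Nat.cast_nonneg _
  have hC4 : 4 ≤ C := by
    rw [hC]
    have : 0 ≤ (C₀ : ℝ) * (2 * n + 1) := by positivity
    linarith
  refine ⟨C, by linarith, ?_⟩
  intro w₁ e σ q₀ β x M hw₁ he hσ hq₀ hβ hx0 hxs
  have hlog : 0 < Real.log 2 := Real.log_pos (by norm_num)
  have hx00 : 4 * σ ≤ x 0 := (mul_le_mul_of_nonneg_right hC4 hσ.le).trans hx0
  -- the losses
  have hxm : ∀ l < n, 4 * σ ≤ x l ∧ ∀ j ≤ l, x j ≤ x l := by
    intro l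
    induction l with
    | zero =>
      intro _
      exact ⟨hx00, fun j hj => by rw [Nat.le_zero.1 hj]⟩
    | succ l ih =>
      intro hl
      obtain ⟨h1, h2⟩ := ih (by omega)
      have h3 := hxs l hl
      have h4 : x l ≤ x (l + 1) := by nlinarith
      refine ⟨h1.trans h4, fun j hj => ?_⟩
      rcases Nat.lt_or_ge j (l + 1) with h5 | h5
      · exact (h2 j (by omega)).trans h4
      · rw [show j = l + 1 by omega]
  have hxn : 4 * σ ≤ x (n - 1) ∧ ∀ j < n, x j ≤ x (n - 1) := by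
    rcases Nat.eq_zero_or_pos n with h0 | h0
    · subst h0
      exact ⟨hx00, fun j hj => absurd hj (Nat.not_lt_zero j)⟩
    · obtain ⟨h1, h2⟩ := hxm (n - 1) (by omega)
      exact ⟨h1, fun j hj => h2 j (by omega)⟩
  obtain ⟨s, hs⟩ : ∃ s : ℝ, s = min (min σ q₀) ((1 - w₁) * Real.log 2) := ⟨_, rfl⟩
  have hs0 : 0 < s := by
    rw [hs]
    exact lt_min (lt_min hσ hq₀) (mul_pos (by linarith) hlog)
  have hs1 : s ≤ σ := by rw [hs]; exact (min_le_left _ _).trans (min_le_left _ _)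
  have hs2 : s ≤ q₀ := by rw [hs]; exact (min_le_left _ _).trans (min_le_right _ _)
  have hs3 : s ≤ (1 - w₁) * Real.log 2 := by rw [hs]; exact min_le_right _ _
  obtain ⟨ε, J₁, hε, hdig⟩ := dig n hC₁ hs0
  obtain ⟨J₂, hJ₂⟩ := big (C₀ + 1 : ℝ) hσ
  refine ⟨ε, max J₁ J₂, hε, ?_⟩
  intro J hJ F c B w₀ G H hinj hB0 ht hch w' a' gg hw' hw₁' ha' hg1 hg2 hv
  have hJ0 : (0 : ℝ) ≤ J := Nat.cast_nonneg J
  obtain ⟨u, hu1, hu2, hu3⟩ := hdig J ((le_max_left _ _).trans hJ)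
  have hJ2 := hJ₂ J ((le_max_right _ _).trans hJ)
  have hw'J : w' ≤ J := by
    have h1 : (w' : ℝ) ≤ J := by nlinarith
    exact_mod_cast h1
  have hwa : ∀ i ≤ M, w' ≤ a' i := fun i hi => by
    have h1 := ha' i hi
    have h2 : 0 ≤ q₀ * (J : ℝ) := by positivity
    have h3 : (w' : ℝ) ≤ a' i := by linarith
    exact_mod_cast h3
  obtain ⟨v, hv'⟩ : ∃ v : ℕ → ℕ, v = fun i => a' i - w' := ⟨_, rfl⟩
  have hav : ∀ i ≤ M, w' + v i = a' i := fun i hi => by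
    rw [hv']
    have := hwa i hi
    show w' + (a' i - w') = a' i
    omega
  have hvr : ∀ i ≤ M, (v i : ℝ) = a' i - w' := fun i hi => by
    rw [← hav i hi]
    push_cast
    ring
  have hu0 : (0 : ℝ) ≤ u := Nat.cast_nonneg u
  have hun : ((n : ℝ) + 1) * u + 1 ≤ s * J := by
    push_cast at hu3
    exact hu3
  have hsJ : s * J ≤ σ * J := mul_le_mul_of_nonneg_right hs1 hJ0
  have hC₀J : (C₀ : ℝ) + 1 ≤ σ * J := hJ2
  have hfl : ∀ l < n, (⌊β l * J⌋₊ : ℝ) ≤ β l * J := fun l hl =>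
    Nat.floor_le (mul_nonneg (hβ l hl) hJ0)
  have hfl' : ∀ l, β l * J ≤ (⌊β l * J⌋₊ : ℝ) + 1 := fun l => (Nat.lt_floor_add_one _).le
  have heJ : (⌊e * J⌋₊ : ℝ) ≤ e * J := Nat.floor_le (by positivity)
  have hlu : ∀ l < n, ((l : ℝ) + 1) * u ≤ (n + 1) * u := fun l hl => by
    refine mul_le_mul_of_nonneg_right ?_ hu0
    have : (l : ℝ) ≤ n := by exact_mod_cast hl.le
    linarith
  -- the sides
  have hsub : ∀ i ≤ M, ∀ j < n, ((⌊β j * J⌋₊ + v i - gg i j : ℕ) : ℝ) ≤ (x j + σ) * J := by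
    intro i hi j hj
    have h1 := hg2 i hi j hj
    have h2 := hfl j hj
    have h3 : 0 ≤ (x j + σ) * J := mul_nonneg (by linarith [(hxm j hj).1]) hJ0
    rcases Nat.lt_or_ge (gg i j) (⌊β j * J⌋₊ + v i) with h4 | h4
    · rw [Nat.cast_sub h4.le]
      push_cast
      rw [hvr i hi]
      have e1 : (x j + σ) * J = β j * J - (β j - x j) * J + σ * J := by ring
      linarith
    · rw [Nat.sub_eq_zero_of_le h4]
      simpa using h3
  have hsum : ∀ i ≤ M, ∀ l ≤ n, ∀ X : ℝ, (∀ j < l, x j ≤ X) → 4 * σ ≤ X →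
      ((∑ j ∈ range l, (⌊β j * J⌋₊ + v i - gg i j) : ℕ) : ℝ) ≤ 2 * n * (X * J) := by
    intro i hi l hl X hX hX4
    push_cast
    have hX0 : 0 ≤ X * J := mul_nonneg (by linarith) hJ0
    have h1 : ∀ j ∈ range l, ((⌊β j * J⌋₊ + v i - gg i j : ℕ) : ℝ) ≤ 2 * (X * J) := by
      intro j hj
      have hj' := mem_range.1 hj
      refine (hsub i hi j (by omega)).trans ?_
      have h2 := hX j hj'
      have h3 : (x j + σ) * J ≤ (2 * X) * J := mul_le_mul_of_nonneg_right (by linarith) hJ0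
      linarith
    refine (Finset.sum_le_sum h1).trans ?_
    rw [Finset.sum_const, card_range, nsmul_eq_mul]
    have h4 : (l : ℝ) ≤ n := by exact_mod_cast hl
    have h5 := mul_le_mul_of_nonneg_right h4 (show 0 ≤ 2 * (X * J) by positivity)
    linarith
  have hlow : ∀ i ≤ M, ∀ l < n, (gg i l : ℝ) + 3 * σ * J + (l + 1) * u + 1 ≤
      ⌊β l * J⌋₊ + v i + 1 + (5 * σ - x l) * J := by
    intro i hi l hl
    have h1 := hg1 i hi l hl
    have h2 := hfl' l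
    have h3 := hlu l hl
    rw [hvr i hi]
    have e1 : (β l - x l) * (J : ℝ) = β l * J - x l * J := by ring
    have e2 : (5 * σ - x l) * (J : ℝ) = 5 * (σ * J) - x l * J := by ring
    have e3 : 3 * σ * (J : ℝ) = 3 * (σ * J) := by ring
    linarith
  obtain ⟨B', k1, k2, k3, k4⟩ := hrec M J F c w' w' ⌊e * J⌋₊ ⌊(e + C * x (n - 1)) * J⌋₊ u v
    (fun l => ⌊β l * J⌋₊) gg B G (cwn w₀ w' H) (ε * J) hB0 hinj le_rfl hw'J
    (fun i hi => ⟨fun l hl => by
      have h1 := hv i hi l hl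
      have h2 := hfl l hl
      have h3 : ((⌊e * J⌋₊ + ⌊β l * J⌋₊ + v i + C₀ : ℕ) : ℝ) ≤ (J : ℝ) := by
        push_cast
        rw [hvr i hi]
        linarith
      exact_mod_cast h3, by
      have h1 : (q₀ : ℝ) * J ≤ v i := by
        rw [hvr i hi]
        linarith [ha' i hi]
      have h2 : s * J ≤ q₀ * J := mul_le_mul_of_nonneg_right hs2 hJ0
      have h3 : ((n * u + 1 : ℕ) : ℝ) ≤ (v i : ℝ) := by
        push_cast
        linarith
      exact_mod_cast h3, fun l hl => by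
      have h1 := hlow i hi l hl
      have h2 := (hxm l hl).1
      have h3 : (5 * σ - x l) * (J : ℝ) ≤ σ * J := mul_le_mul_of_nonneg_right (by linarith) hJ0
      have h4 : ((gg i l + (l + 1) * u : ℕ) : ℝ) ≤ ((⌊β l * J⌋₊ + v i : ℕ) : ℝ) := by
        push_cast
        have e3 : 3 * σ * (J : ℝ) = 3 * (σ * J) := by ring
        linarith
      exact_mod_cast h4, fun l hl hl0 => by
      have h1 := hlow i hi l hl
      obtain ⟨h5, h6⟩ := hxm (l - 1) (by omega)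
      have h7 := hxs (l - 1) (by omega)
      rw [show l - 1 + 1 = l by omega] at h7
      have h8 := hsum i hi l hl.le (x (l - 1)) (fun j hj => h6 j (by omega)) h5
      obtain ⟨Sg, hSg⟩ : ∃ Sg : ℕ, Sg = ∑ j ∈ range l, (⌊β j * J⌋₊ + v i - gg i j) := ⟨_, rfl⟩
      have h9 : ((gg i l + C₀ * (1 + Sg) + (l + 1) * u : ℕ) : ℝ) ≤
          ((⌊β l * J⌋₊ + v i : ℕ) : ℝ) := by
        push_cast
        rw [← hSg] at h8
        have e3 : 3 * σ * (J : ℝ) = 3 * (σ * J) := by ring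
        have h10 : (C₀ : ℝ) * (1 + Sg) ≤ C₀ * ((2 * n + 1) * (x (l - 1) * J)) := by
          refine mul_le_mul_of_nonneg_left ?_ hC₀
          have h11 : 4 * σ * J ≤ x (l - 1) * J := mul_le_mul_of_nonneg_right h5 hJ0
          linarith
        have h12 : x l * J ≥ C * x (l - 1) * J := mul_le_mul_of_nonneg_right h7 hJ0
        have h13 : C * x (l - 1) * J = 4 * (x (l - 1) * J) +
            C₀ * ((2 * n + 1) * (x (l - 1) * J)) := by
          rw [hC]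
          ring
        have h14 : 4 * σ * J ≤ x (l - 1) * J := mul_le_mul_of_nonneg_right h5 hJ0
        have e4 : (5 * σ - x l) * (J : ℝ) = 5 * (σ * J) - x l * J := by ring
        linarith
      rw [hSg] at h9
      exact_mod_cast h9, by
      refine Nat.le_floor ?_
      have h8 := hsum i hi n le_rfl (x (n - 1)) hxn.2 hxn.1
      obtain ⟨Sg, hSg⟩ : ∃ Sg : ℕ, Sg = ∑ j ∈ range n, (⌊β j * J⌋₊ + v i - gg i j) := ⟨_, rfl⟩
      rw [← hSg] at h8 ⊢
      push_cast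
      have h14 : 4 * σ * J ≤ x (n - 1) * J := mul_le_mul_of_nonneg_right hxn.1 hJ0
      have h10 : (C₀ : ℝ) * (1 + Sg) ≤ C₀ * ((2 * n + 1) * (x (n - 1) * J)) := by
        refine mul_le_mul_of_nonneg_left ?_ hC₀
        linarith
      have h13 : (e + C * x (n - 1)) * J = e * J + 4 * (x (n - 1) * J) +
          C₀ * ((2 * n + 1) * (x (n - 1) * J)) := by
        rw [hC]
        ring
      have h15 : 0 ≤ σ * (J : ℝ) := by positivity
      linarith⟩) (by positivity)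
    (fun B'' hB'' hP'' hB''0 => ht B'' hB'' hP'' hB''0) (by
      have h1 : s * J ≤ (1 - w₁) * Real.log 2 * J := mul_le_mul_of_nonneg_right hs3 hJ0
      have h2 := mul_le_mul_of_nonneg_right hw₁' hlog.le
      linarith) hu1
    (chOK_win (hch.mono le_rfl (fun _ => le_rfl) hw' le_rfl) hw' hw'J)
  refine ⟨B', k1, k2,
    (chOK_win (hch.mono le_rfl (fun _ => le_rfl) hw' le_rfl) hw' hw'J).sub k1, fun i hi => ?_, k4⟩
  have h1 := k3 i hi
  rw [hav i hi] at h1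
  exact h1

end Pool.STAT.BAL
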