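import Pool.Agent.H80.STAT.BalN
import Pool.Agent.H97.K2.AP5

/-!
# The ball chart of universal degree at one window

`bal_one`: from raw chains on a path of balls which ends at the window `y`: the ball chart of
universal degree, its re-centring at several radii, near the raw ball chart.
-/

set_option autoImplicit false

namespace Pool.STAT.BAL

open Finset MvPolynomial
open Pool.Agent.H49.Ent Pool.Agent.H32.Dense Pool.STK Pool.KS3 Pool.KA Pool.KSAT Pool.PB Pool.GEN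
open Pool.STAT.CLO Pool.STAT.CDat Pool.STAT.DPP Pool.K2S Pool.S6C Pool.ISO
open Pool.CHT (fl_add big)
open Pool.FLF (Fam.sub)
open Pool.TRC (Jat)

theorem injOn_of {m n : ℕ} {c : ℕ → Fin m} (hc : Inj c n) : Set.InjOn c (Set.Iio n) :=
  fun l hl l' hl' h => hc l hl l' hl' h

/-- **The ball chart of universal degree at one window.** -/
theorem bal_one (m n S : ℕ) (hn : 1 ≤ n) (hS : 1 ≤ S) : ∃ (D : ℕ) (C₁ C₂ : ℝ), 1 ≤ D ∧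
    1 ≤ C₁ ∧ 1 ≤ C₂ ∧ ∀ {y v₀ E ε w₁ q₀ σ : ℝ} {β de x : ℕ → ℝ} (M : ℕ), 0 < v₀ → v₀ < y →
    w₁ < 1 → y < 1 → 0 < q₀ → 0 ≤ E → 0 ≤ ε → 0 < de 0 → C₁ * ε < de 0 →
    (∀ l, C₁ * de l < de (l + 1)) → (∀ l < n, de l < y) → (∀ l < n, y ≤ β l ∧ β l ≤ 1) →
    0 < σ → C₂ * σ ≤ x 0 → (∀ l, C₂ * x l ≤ x (l + 1)) →
    ∃ φ μ s : ℝ, 0 < φ ∧ 0 < μ ∧ 0 < s ∧ φ ≤ de 0 / 8 ∧ s ≤ de 0 / 2 ∧
    ∀ (N : ℕ) (κ : ℕ → ℝ) (b : ℕ → ℕ → ℝ), κ N = 0 → κ 0 ≤ y - v₀ → 1 ≤ S * κ 0 →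
    (∀ k < N, κ (k + 1) ≤ κ k ∧ κ k ≤ κ (k + 1) + μ) → (∀ l < n, b N l = β l) →
    (∀ k ≤ N, ∀ l < n, y - κ k ≤ b k l) →
    (∀ k ≤ N, ∀ k' ≤ k, ∀ l < n, b k' l + (κ k' - κ k) ≤ b k l) →
    (∀ k ≤ N, ∀ l < n, b N l ≤ b k l + S * κ k + ε) →
    ∀ K : ℕ, ∃ (η : ℝ) (J₀ s₂ : ℕ), 0 < η ∧ ∀ {J : ℕ}, J₀ ≤ J → ∀ (F : Fam m J)
      (c : ℕ → Fin m) (dl : ℕ → ℝ) (B : F.Ω → Prop)
      (G : ℕ → PtT F → ℕ → MvPolynomial (Option (Fin m)) ℝ)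
      (H : ℕ → LnT F → ℕ → MvPolynomial (Option (Fin m)) ℝ), Inj c n →
      (∀ l < n, 0 ≤ dl l ∧ dl l ≤ φ) →
      Jat F c n K (N + 1) (fun k => ⌊(y - κ k) * J⌋₊) (fun k => ⌊(y - κ k) * J⌋₊) ⌊E * J⌋₊
        (fun k l => ⌊(b k l - dl l) * J⌋₊) ⌊φ * J⌋₊ B G H →
      0 < Pe F.p B → (∀ B'' : F.Ω → Prop, Sub B'' B → Pe F.p B ≤ 2 ^ (M + 1) * Pe F.p B'' →
        ∀ h : 0 < Pe F.p B'', (Fam.sub F B'' h).Tm (η * J)) →
      ∀ (w' : ℕ) (a' : ℕ → ℕ) (gg : ℕ → ℕ → ℕ), ⌊y * J⌋₊ ≤ w' → (w' : ℝ) ≤ w₁ * J →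
      (∀ i ≤ M, (w' : ℝ) + q₀ * J ≤ a' i) →
      (∀ i ≤ M, ∀ l < n, (gg i l : ℝ) ≤ (β l - de l - x l) * J + (a' i - w') + σ * J) →
      (∀ i ≤ M, ∀ l < n, (β l - de l - x l) * J + (a' i - w') ≤ gg i l + σ * J) →
      (∀ i ≤ M, ∀ l < n, (E + C₁ * de (n - 1) + (β l - de l) + σ) * J + (a' i - w') ≤ J) →
      ∃ (B' : F.Ω → Prop) (G₀ : PtT F → ℕ → MvPolynomial (Option (Fin m)) ℝ)
        (H₀ : LnT F → ℕ → MvPolynomial (Option (Fin m)) ℝ), Sub B' B ∧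
        Pe F.p B ≤ 2 ^ (M + 2) * Pe F.p B' ∧
        ChOK F c n (fun _ => D) w' w' ⌊(E + C₁ * de (n - 1)) * J⌋₊
          (fun l => ⌊(β l - de l) * J⌋₊) B' G₀ H₀ ∧
        (∀ i ≤ M, ChOK F c n (fun _ => D) (a' i) w'
          ⌊(E + C₁ * de (n - 1) + C₂ * x (n - 1)) * J⌋₊ (gg i) B'
          (fun y l => Gno (c l) J J (fun y => G₀ y l) y)
          (fun s l => Hno (c l) (fun s => H₀ s l) s)) ∧
        (∀ ω, B' ω → ∀ l < n, ∀ b : Option (Fin m) → ℝ,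
          |eval b (Gno (c l) J J (fun y => G₀ y l) (ptr F J ω)) - eval b (G₀ (ptr F J ω) l)| ≤
            2 / 2 ^ ⌊(β l - de l) * J⌋₊) ∧
        ∀ ω, B' ω → ∀ i < n, ∀ b : Option (Fin m) → ℝ,
          NBx c (G N (ptr F J ω)) (fun l => ⌊(β l - dl l) * J⌋₊) ⌊y * J⌋₊ (F.t ω) i b →
          |eval b (G N (ptr F J ω) i) - eval b (G₀ (ptr F J ω) i)| ≤
            2 ^ (s₂ + ⌊s * J⌋₊) / 2 ^ ⌊(β i - dl i) * J⌋₊ := by
  obtain ⟨D₀, C₁, hC₁, hlab⟩ := lab2_mem n S hn hS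
  obtain ⟨D, hD⟩ : ∃ D, D = max D₀ 1 := ⟨_, rfl⟩
  have hDD : D₀ ≤ D := by rw [hD]; exact le_max_left _ _
  have hD1 : 1 ≤ D := by rw [hD]; exact le_max_right _ _
  obtain ⟨C₂, hC₂, hrec⟩ := rec_fam m n D hD1
  refine ⟨D, C₁, C₂, hD1, hC₁, hC₂, ?_⟩
  intro y v₀ E ε w₁ q₀ σ β de x M hv0 hvy hw1 hy1 hq₀ hE hε hde0 hdeε hdes hdey hβ hσ hx0 hxs
  have hC₁0 : 0 < C₁ := by linarith
  have hdep : ∀ l, 0 < de l := by
    intro l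
    induction l with
    | zero => exact hde0
    | succ l ih =>
      have := hdes l
      nlinarith
  obtain ⟨φ, μ, s, hφ0, hμ0, hs0, -, hφ8, hs2, hlab⟩ := hlab (a := y) (w := y) (v := v₀) (ε := ε)
    hv0 hvy le_rfl hy1 hε de hde0 hdeε (fun l _ => hdes l) hdey
  refine ⟨φ, μ, s, hφ0, hμ0, hs0, hφ8, hs2, ?_⟩
  intro N κ b hκN hκ0 hκS hκs hbN hlow hmono hlip K
  obtain ⟨η₁, J₁, hη₁, hlab⟩ := hlab N κ hκN hκ0 hκS hκs b (fun k hk l hl => hlow k hk l hl)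
    (fun l hl => by rw [hbN l hl]; exact (hβ l hl).2) hmono hlip K
  obtain ⟨η₂, J₂, hη₂, hrec⟩ := hrec (w₁ := w₁) (e := E + C₁ * de (n - 1)) (σ := σ) (q₀ := q₀)
    (β := fun l => β l - de l) (x := x) M hw1
    (add_nonneg hE (mul_nonneg hC₁0.le (hdep _).le)) hσ hq₀ (fun l hl => by
      have h1 := (hβ l hl).1
      have h2 := hdey l hl
      show 0 ≤ β l - de l
      linarith) hx0 (fun l _ => hxs l)
  obtain ⟨s₁, hclo⟩ := clo_nbx n (max K D)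
  refine ⟨min η₁ η₂, max J₁ J₂, s₁, lt_min hη₁ hη₂, ?_⟩
  intro J hJ F c dl B G H hinj hdl hJat hB hTm w' a' gg hw' hw₁' ha' hg1 hg2 hv
  have hJ0 : (0 : ℝ) ≤ J := Nat.cast_nonneg J
  have hJ1 : J₁ ≤ J := (le_max_left _ _).trans hJ
  have hJ2 : J₂ ≤ J := (le_max_right _ _).trans hJ
  have hm1 : min η₁ η₂ * (J : ℝ) ≤ η₁ * J := mul_le_mul_of_nonneg_right (min_le_left _ _) hJ0
  have hm2 : min η₁ η₂ * (J : ℝ) ≤ η₂ * J := mul_le_mul_of_nonneg_right (min_le_right _ _) hJ0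
  have hMp : (1 : ℝ) ≤ 2 ^ (M + 1) := one_le_pow₀ (by norm_num)
  have hyJ : ⌊y * J⌋₊ ≤ J := Pool.LBT.fl_le' hy1.le J
  obtain ⟨B₁, Gt, R, k1, k2, k3, k4⟩ := hlab hJ1 F c dl E B G H hinj hE hdl hJat hB
    (Pool.KA.AP5.Tm_mono (hTm B (fun _ h => h) (by nlinarith) hB) hm1)
  have hB₁ : 0 < Pe F.p B₁ := by
    by_contra h
    push Not at h
    linarith
  obtain ⟨G₀, hG₀⟩ : ∃ G₀ : PtT F → ℕ → MvPolynomial (Option (Fin m)) ℝ,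
      G₀ = fun y i => tb c (Gt y (i + 1)) := ⟨_, rfl⟩
  obtain ⟨R₀, hR₀⟩ : ∃ R₀ : LnT F → ℕ → MvPolynomial (Option (Fin m)) ℝ,
      R₀ = fun l i => tb c (R l (i + 1)) := ⟨_, rfl⟩
  rw [← hG₀, ← hR₀] at k3
  have hch : ChOK F c n (fun _ => D) ⌊y * J⌋₊ ⌊y * J⌋₊ ⌊(E + C₁ * de (n - 1)) * J⌋₊
      (fun l => ⌊(β l - de l) * J⌋₊) B₁ G₀ R₀ :=
    chok_congr (k3.mono le_rfl (fun _ => hDD) le_rfl le_rfl) fun l hl => by rw [hbN l hl]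
  obtain ⟨B₂, l1, l2, l3, l4, l5⟩ := hrec J hJ2 (injOn_of hinj) hB₁ (fun B'' h1 h2 h3 =>
    Pool.KA.AP5.Tm_mono (hTm B'' (fun ω h => k1 ω (h1 ω h)) (by
      calc Pe F.p B ≤ 2 * Pe F.p B₁ := k2
        _ ≤ 2 * (2 ^ M * Pe F.p B'') := mul_le_mul_of_nonneg_left h2 (by norm_num)
        _ = 2 ^ (M + 1) * Pe F.p B'' := by ring) h3) hm2) hch w' a' gg hw' hw₁' ha' hg1 hg2 hv
  refine ⟨B₂, G₀, cwn ⌊y * J⌋₊ w' R₀, fun ω h => k1 ω (l1 ω h), ?_, l3, l4, l5, ?_⟩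
  · calc Pe F.p B ≤ 2 * Pe F.p B₁ := k2
      _ ≤ 2 * (2 ^ (M + 1) * Pe F.p B₂) := mul_le_mul_of_nonneg_left l2 (by norm_num)
      _ = 2 ^ (M + 2) * Pe F.p B₂ := by ring
  · intro ω hω i hi z hz
    have hok := hJat.ok N (Nat.lt_succ_self N)
    have h1 := hclo F c ⌊y * J⌋₊ (fun l => ⌊(β l - dl l) * J⌋₊) (G N (ptr F J ω))
      (G₀ (ptr F J ω) i) ω i (2 ^ ⌊s * J⌋₊ / 2 ^ ⌊(β i - dl i) * J⌋₊) hyJ hinj
      (fun l _ => (hok.degG _ l).trans (le_max_left _ _)) (hok.depG _)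
      ((hch.degG _ i).trans (le_max_right _ _)) (hch.depG _ i) hi (by positivity)
      (fun z hz => by
        have h2 := k4 ω (l1 ω hω) i hi (pb c z) (by
          have h3 : (fun l => ⌊(b N l - dl l) * J⌋₊) = fun l => ⌊(b N l - dl l) * J⌋₊ := rfl
          have h4 := bxr_pb (ρ := 1) (t := tp ⌊y * J⌋₊ (ptr F J ω)) (a := ⌊y * J⌋₊)
            (g := fun l => ⌊(b N l - dl l) * J⌋₊) hinj (hok.depG (ptr F J ω)) hi hz.1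
            fun l hl => by
              have h5 := hz.2 l hl
              rw [hbN l (by omega)]
              exact h5
          exact Bxr_one.1 h4)
        have h5 : eval (pb c z) (Gs c n ⌊y * J⌋₊ (G N) (ptr F J ω) (i + 1)) =
            eval z (G N (ptr F J ω) i) := eval_pb hinj (hok.depG (ptr F J ω)) hi z
        rw [h5, hbN i hi, ← eval_tb] at h2
        rw [hG₀]
        exact h2) z hz
    refine h1.trans (le_of_eq ?_)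
    rw [mul_div_assoc', ← pow_add]

end Pool.STAT.BAL
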