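import Pool.Agent.H80.STAT.BalB
import Pool.Agent.H82.STAT.Grz

/-!
# The node condition of the fat line

`cloU_nod`: the last conclusion of `grd_bas`, as the condition `CloU` of `NdF` (helper82).
-/

set_option autoImplicit false

namespace Pool.STAT.BAL

open Finset MvPolynomial
open Pool.Agent.H49.Ent Pool.Agent.H32.Dense Pool.STK Pool.KS3 Pool.KA Pool.KSAT Pool.PB Pool.GEN
open Pool.STAT.CLO Pool.STAT.CDat Pool.STAT.DPP Pool.K2S Pool.S6C Pool.ISO Pool.TRC Pool.STAT.GRD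

theorem cloU_nod {m J : ℕ} {F : Fam m J} {co : ℕ → Fin m} {n T M P a₀ h v aN : ℕ} {W : ℕ → ℝ}
    {b η : ℝ} {L : ℕ → ℝ → ℝ → ℝ} {dl : ℕ → ℝ} {al : ℕ → ℕ}
    {G : ℕ → PtT F → ℕ → MvPolynomial (Option (Fin m)) ℝ}
    {GD : PtT F → ℕ → MvPolynomial (Option (Fin m)) ℝ} {gD : ℕ → ℕ} {ω : F.Ω} (hv : v < M)
    (hP : 1 ≤ P)
    (h3 : ∀ l, 1 ≤ l → l ≤ n → ∀ b' : ℕ → ℝ,
      Bx (tus aN (fun l => ⌊(L (l - 1 + 1) (b + v * (P * η)) (W 0 + v * (P * η)) -
        dl (l - 1)) * J⌋₊)) (Gs co n aN (G (T + v * P)) (ptr F J ω)) l b' →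
      |eval b' (Gs co n aN (G (T + v * P)) (ptr F J ω) l) -
        eval b' (Gx co n GD (ptr F J ω) l)| ≤ 2 ^ h / 2 ^ gD (l - 1)) :
    CloU (pthN F co n (T + v * P) a₀ aN al (grn L W b η T (T + M * P) J dl) G) n
      (T + v * P + 1) h (fun l => gD (l - 1)) ω (Gx co n GD (ptr F J ω)) := by
  have hlt : T + v * P < T + M * P := by
    have : v * P < M * P := Nat.mul_lt_mul_of_pos_right hv (by omega)
    omega
  intro l hl1 hl b' hb
  obtain ⟨π, hπ⟩ : ∃ π, π = pthN F co n (T + v * P) a₀ aN al (grn L W b η T (T + M * P) J dl) G :=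
    ⟨_, rfl⟩
  have ea : π.a (T + v * P + 1) = aN := by
    rw [hπ]
    exact nal_eq
  have eG : π.G (T + v * P + 1) = Gs co n aN (G (T + v * P)) := by
    rw [hπ]
    show jG F co n (T + v * P + 1) a₀ (nal (T + v * P) aN al) G (T + v * P + 1) = _
    rw [jG_succ (Nat.lt_succ_self _), nal_eq]
  have eg : π.g (T + v * P + 1) = fun l => ⌊(L (l - 1 + 1) (b + v * (P * η))
      (W 0 + v * (P * η)) - dl (l - 1)) * J⌋₊ := by
    rw [hπ]
    funext i
    show grn L W b η T (T + M * P) J dl (T + v * P) (i - 1) = _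
    unfold grn
    rw [gra_lt hlt, grw_lt hlt, xo_node]
  rw [← hπ] at hb ⊢
  rw [ea, eG, eg] at hb
  rw [eG]
  exact h3 l hl1 hl b' hb

end Pool.STAT.BAL
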