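import Pool.Agent.H80.STAT.NfFat

/-!
# Few values of the label at the point

`few_net`: if the systems `Φ`, which are functions of `lab` and of the time, are near the point
side of the labels of the cell at `(v, j)` on the natural boxes around the samples, then `lab` and
the time determine the label at the point up to `C z` nats. This is the field `net` of the cell.
-/

set_option autoImplicit false

namespace Pool.STAT

open Finset MvPolynomial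
open Pool.Agent.H49.Ent Pool.Agent.H32.Dense Pool.STK Pool.KS3

namespace RR

/-- The system with the time centred at `t`. -/
noncomputable def cs (N : ℕ) (t : ℝ) (Φ : ℕ → PN) (j : ℕ) : PN :=
  if j = 0 then C t else if j ≤ N + 1 then Φ j else 0

theorem cs_tri {N : ℕ} {t : ℝ} {Φ : ℕ → PN} (h : ∀ l, 1 ≤ l → l ≤ N + 1 → (Φ l).vars ⊆ range l) :
    TriN (cs N t Φ) := by
  intro j
  unfold cs
  split_ifs with h1 h2
  · rw [vars_C]
    exact Finset.empty_subset _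
  · exact h j (by omega) h2
  · rw [vars_0]
    exact Finset.empty_subset _

theorem cs_deg {N K : ℕ} {t : ℝ} {Φ : ℕ → PN}
    (h : ∀ l, 1 ≤ l → l ≤ N + 1 → (Φ l).totalDegree ≤ K) (j : ℕ) :
    (cs N t Φ j).totalDegree ≤ K := by
  unfold cs
  split_ifs with h1 h2
  · rw [totalDegree_C]
    exact Nat.zero_le _
  · exact h j (by omega) h2
  · rw [totalDegree_zero]
    exact Nat.zero_le _

theorem cs_pos {N : ℕ} {t : ℝ} {Φ : ℕ → PN} {j : ℕ} (h1 : 1 ≤ j) (h2 : j ≤ N + 1) :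
    cs N t Φ j = Φ j := by
  unfold cs
  rw [if_neg (by omega), if_pos h2]

/-- The dilations. -/
noncomputable def dc (C₀ C₁ K₁ : ℝ) : ℕ → ℝ
  | 0 => 0
  | i + 1 => 2 * C₀ + 2 * C₁ + K₁ * dc C₀ C₁ K₁ i

theorem dc_nonneg {C₀ C₁ K₁ : ℝ} (h0 : 0 ≤ C₀) (h1 : 0 ≤ C₁) (hK : 0 ≤ K₁) :
    ∀ i, 0 ≤ dc C₀ C₁ K₁ i
  | 0 => le_rfl
  | i + 1 => by
    have := dc_nonneg h0 h1 hK i
    unfold dc
    positivity

theorem dc_mono {C₀ C₁ K₁ : ℝ} (h0 : 0 ≤ C₀) (h1 : 0 ≤ C₁) (hK : 1 ≤ K₁) :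
    ∀ i, dc C₀ C₁ K₁ i ≤ dc C₀ C₁ K₁ (i + 1) := by
  intro i
  have := dc_nonneg h0 h1 (zero_le_one.trans hK) i
  show _ ≤ 2 * C₀ + 2 * C₁ + K₁ * dc C₀ C₁ K₁ i
  nlinarith

/-- **Near on the box of one side, near on the box of the other side.** -/
theorem dil_side (N K : ℕ) (C₁ : ℝ) (hC₁ : 0 ≤ C₁) : ∃ C₄ : ℝ, 1 ≤ C₄ ∧
    ∀ (t : ℝ) (Φ Ψ : ℕ → PN) (g g' : ℕ → ℕ) (ρ z : ℕ), 1 ≤ z →
    (∀ l, 1 ≤ l → l ≤ N + 1 → (Φ l).totalDegree ≤ K ∧ (Φ l).vars ⊆ range l) →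
    (∀ l, 1 ≤ l → l ≤ N + 1 → (Ψ l).totalDegree ≤ K ∧ (Ψ l).vars ⊆ range l) →
    (∀ l, 1 ≤ l → l ≤ N + 1 → |(g l : ℝ) - g' l| ≤ C₁ * z) →
    (∀ l, 1 ≤ l → l ≤ N + 1 → ∀ b : ℕ → ℝ, |b 0 - t| ≤ 1 / 2 ^ ρ →
      (∀ i, 1 ≤ i → i < l → |b i - eval b (Φ i)| ≤ 1 / 2 ^ g i) →
      |eval b (Φ l) - eval b (Ψ l)| ≤ Real.exp (C₁ * z) / 2 ^ g l) →
    ∀ (b : ℕ → ℝ) (l : ℕ), 1 ≤ l → l ≤ N + 1 → |b 0 - t| ≤ 1 / 2 ^ ρ →
      (∀ i, 1 ≤ i → i < l → |b i - eval b (Ψ i)| ≤ 1 / 2 ^ g' i) →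
      (∀ Ψ' : ℕ → PN, (∀ l, 1 ≤ l → l ≤ N + 1 → (Ψ' l).totalDegree ≤ K ∧
          (Ψ' l).vars ⊆ range l) →
        (∀ l, 1 ≤ l → l ≤ N + 1 → ∀ b : ℕ → ℝ, |b 0 - t| ≤ 1 / 2 ^ ρ →
          (∀ i, 1 ≤ i → i < l → |b i - eval b (Φ i)| ≤ 1 / 2 ^ g i) →
          |eval b (Φ l) - eval b (Ψ' l)| ≤ Real.exp (C₁ * z) / 2 ^ g l) →
        |eval b (Φ l) - eval b (Ψ' l)| ≤ Real.exp (C₄ * z) / 2 ^ g' l) := by
  classical
  obtain ⟨C₀, hC₀, hdil⟩ := CLO.dil (N + 1) K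
  obtain ⟨K₁, hK₁⟩ : ∃ K₁, K₁ = K * (K + 1) ^ (N + 1 + 1) := ⟨_, rfl⟩
  obtain ⟨c, hc⟩ : ∃ c : ℕ → ℝ, c = dc C₀ C₁ (K₁ + 1) := ⟨_, rfl⟩
  have hC₀' : (0 : ℝ) ≤ C₀ := zero_le_one.trans hC₀
  have hc0 : ∀ i, 0 ≤ c i := fun i => by
    rw [hc]
    exact dc_nonneg hC₀' hC₁ (by positivity) i
  have hcm : ∀ i, c i ≤ c (i + 1) := fun i => by
    rw [hc]
    exact dc_mono hC₀' hC₁ (by linarith [(Nat.cast_nonneg K₁ : (0:ℝ) ≤ K₁)]) i
  have hcs : ∀ i, c (i + 1) = 2 * C₀ + 2 * C₁ + (K₁ + 1) * c i := fun i => by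
    rw [hc]
    rfl
  have hcM : Monotone c := monotone_nat_of_le_succ hcm
  refine ⟨c (N + 2) + 1, by linarith [hc0 (N + 2)], ?_⟩
  intro t Φ Ψ g g' ρ z hz hΦ hΨ hgg hnear b l hl1 hl hb0 hb Ψ' hΨ' hnear'
  have hzR : (1 : ℝ) ≤ z := by exact_mod_cast hz
  have l2 : 0 < Real.log 2 := Real.log_pos (by norm_num)
  have l2' : Real.log 2 ≤ 1 := by linarith [Real.log_two_lt_d9]
  obtain ⟨e₁, he₁⟩ : ∃ e₁, e₁ = Real.exp (C₁ * z) := ⟨_, rfl⟩
  have he1 : 1 ≤ e₁ := by rw [he₁]; exact Real.one_le_exp (by positivity)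
  have hratio : ∀ l, 1 ≤ l → l ≤ N + 1 → (2 : ℝ) ^ g' l ≤ e₁ * 2 ^ g l ∧
      (2 : ℝ) ^ g l ≤ e₁ * 2 ^ g' l := by
    intro l h1 h2
    have h3 := abs_le.1 (hgg l h1 h2)
    rw [he₁]
    constructor
    · rw [Cnt12.pow_two_exp, Cnt12.pow_two_exp, ← Real.exp_add]
      refine Real.exp_le_exp.2 ?_
      have h4 : ((g' l : ℝ) - g l) * Real.log 2 ≤ C₁ * z * Real.log 2 :=
        mul_le_mul_of_nonneg_right (by linarith) l2.le
      have h5 : C₁ * z * Real.log 2 ≤ C₁ * z * 1 := mul_le_mul_of_nonneg_left l2' (by positivity)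
      nlinarith
    · rw [Cnt12.pow_two_exp, Cnt12.pow_two_exp, ← Real.exp_add]
      refine Real.exp_le_exp.2 ?_
      have h4 : ((g l : ℝ) - g' l) * Real.log 2 ≤ C₁ * z * Real.log 2 :=
        mul_le_mul_of_nonneg_right (by linarith) l2.le
      have h5 : C₁ * z * Real.log 2 ≤ C₁ * z * 1 := mul_le_mul_of_nonneg_left l2' (by positivity)
      nlinarith
  -- the shifted system
  obtain ⟨Φt, hΦt⟩ : ∃ Φt : ℕ → PN, Φt = cs N t Φ := ⟨_, rfl⟩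
  obtain ⟨gt, hgt⟩ : ∃ gt : ℕ → ℕ, gt = fun j => if j = 0 then ρ else g j := ⟨_, rfl⟩
  have hgt0 : gt 0 = ρ := by rw [hgt]; simp
  have hgtp : ∀ j, 1 ≤ j → gt j = g j := fun j hj => by
    rw [hgt]
    simp only
    rw [if_neg (by omega)]
  have hΦt0 : Φt 0 = MvPolynomial.C t := by rw [hΦt]; unfold cs; simp
  have hΦtp : ∀ j, 1 ≤ j → j ≤ N + 1 → Φt j = Φ j := fun j h1 h2 => by rw [hΦt, cs_pos h1 h2]
  have htri : TriN Φt := by
    rw [hΦt]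
    exact cs_tri fun l h1 h2 => (hΦ l h1 h2).2
  have hdeg : ∀ j, (Φt j).totalDegree ≤ K := by
    rw [hΦt]
    exact cs_deg fun l h1 h2 => (hΦ l h1 h2).1
  -- the dilation of a difference
  have hdiff : ∀ (Ψ₁ : ℕ → PN), (∀ l, 1 ≤ l → l ≤ N + 1 → (Ψ₁ l).totalDegree ≤ K ∧
        (Ψ₁ l).vars ⊆ range l) →
      (∀ l, 1 ≤ l → l ≤ N + 1 → ∀ b : ℕ → ℝ, |b 0 - t| ≤ 1 / 2 ^ ρ →
        (∀ i, 1 ≤ i → i < l → |b i - eval b (Φ i)| ≤ 1 / 2 ^ g i) →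
        |eval b (Φ l) - eval b (Ψ₁ l)| ≤ Real.exp (C₁ * z) / 2 ^ g l) →
      ∀ i, 1 ≤ i → i ≤ N + 1 → ∀ (m : ℝ), 0 ≤ m → CLO.Bxr (Real.exp (m * z)) gt Φt i b →
        |eval b (Φ i) - eval b (Ψ₁ i)| ≤ C₀ * (e₁ / 2 ^ g i) * Real.exp (m * z) ^ K₁ := by
    intro Ψ₁ hΨ₁ hn₁ i h1 h2 m hm hB
    have h3 := hdil Φt gt (Φ i - Ψ₁ i) i (e₁ / 2 ^ g i) (Real.exp (m * z)) htri hdeg h2
      ((vars_sub_subset _).trans (Finset.union_subset (hΦ i h1 h2).2 (hΨ₁ i h1 h2).2))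
      ((totalDegree_sub _ _).trans (max_le (hΦ i h1 h2).1 (hΨ₁ i h1 h2).1))
      (Real.one_le_exp (by positivity)) (fun y hy => by
        rw [map_sub, he₁]
        refine hn₁ i h1 h2 y ?_ fun k hk1 hk => ?_
        · have := hy 0 (by omega)
          rwa [hΦt0, eval_C, hgt0] at this
        · have := hy k hk
          rwa [hΦtp k hk1 (by omega), hgtp k hk1] at this) b hB
    rw [map_sub, ← hK₁] at h3
    exact h3
  -- the point is in the dilated boxes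
  have hbox : ∀ i, i ≤ l → CLO.Bxr (Real.exp (c i * z)) gt Φt i b := by
    intro i
    induction i with
    | zero => intro _ j hj; omega
    | succ i ih =>
      intro hi
      have h1 := ih (by omega)
      have hm : Real.exp (c i * z) ≤ Real.exp (c (i + 1) * z) :=
        Real.exp_le_exp.2 (mul_le_mul_of_nonneg_right (hcm i) (by positivity))
      intro j hj
      rcases Nat.lt_succ_iff_lt_or_eq.1 hj with hj | rfl
      · exact (h1.mono hm le_rfl) j hj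
      · rcases Nat.eq_zero_or_pos j with rfl | hj1
        · rw [hΦt0, eval_C, hgt0]
          refine hb0.trans (div_le_div_of_nonneg_right ?_ (by positivity))
          exact Real.one_le_exp (mul_nonneg (hc0 _) (by positivity))
        · rw [hΦtp j hj1 (by omega), hgtp j hj1]
          have h2 := hb j hj1 (by omega)
          have h3 := hdiff Ψ hΨ hnear j hj1 (by omega) (c j) (hc0 j) h1
          have h4 := (hratio j hj1 (by omega)).2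
          have hE : 1 ≤ Real.exp (c j * z) ^ K₁ :=
            one_le_pow₀ (Real.one_le_exp (mul_nonneg (hc0 _) (by positivity)))
          have hg : (0 : ℝ) < 2 ^ g j := by positivity
          have hg' : (0 : ℝ) < 2 ^ g' j := by positivity
          have h5 : 1 / (2 : ℝ) ^ g' j ≤ e₁ / 2 ^ g j := by
            rw [div_le_div_iff₀ hg' hg, one_mul]
            exact h4
          have h6 : |b j - eval b (Φ j)| ≤ |b j - eval b (Ψ j)| +
              |eval b (Φ j) - eval b (Ψ j)| := by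
            have e1 : b j - eval b (Φ j) = (b j - eval b (Ψ j)) -
              (eval b (Φ j) - eval b (Ψ j)) := by ring
            rw [e1]
            exact abs_sub _ _
          have h7 : |b j - eval b (Φ j)| ≤
              (2 * C₀ * e₁ * Real.exp (c j * z) ^ K₁) / 2 ^ g j := by
            refine h6.trans ((add_le_add (h2.trans h5) h3).trans (le_of_eq_of_le
              (show _ = (e₁ + C₀ * e₁ * Real.exp (c j * z) ^ K₁) / 2 ^ g j by ring)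
              (div_le_div_of_nonneg_right ?_ hg.le)))
            have : 1 ≤ C₀ * Real.exp (c j * z) ^ K₁ := one_le_mul_of_one_le_of_one_le hC₀ hE
            nlinarith
          refine h7.trans (div_le_div_of_nonneg_right ?_ hg.le)
          rw [he₁, ← Real.exp_nat_mul]
          have h8 : 2 * C₀ ≤ Real.exp (2 * C₀ * z) := by
            have a1 := Real.add_one_le_exp (2 * C₀ * z)
            have a2 : 2 * C₀ ≤ 2 * C₀ * z := le_mul_of_one_le_right (by positivity) hzR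
            linarith
          calc 2 * C₀ * Real.exp (C₁ * z) * Real.exp (K₁ * (c j * z)) ≤
                Real.exp (2 * C₀ * z) * Real.exp (C₁ * z) * Real.exp (K₁ * (c j * z)) := by
                gcongr
            _ = Real.exp ((2 * C₀ + C₁ + K₁ * c j) * z) := by
                rw [← Real.exp_add, ← Real.exp_add]
                congr 1
                ring
            _ ≤ Real.exp (c (j + 1) * z) := by
                refine Real.exp_le_exp.2 (mul_le_mul_of_nonneg_right ?_ (by positivity))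
                rw [hcs]
                linarith [hc0 j]
  have h1 := hdiff Ψ' hΨ' hnear' l hl1 hl (c l) (hc0 l) (hbox l le_rfl)
  have hg : (0 : ℝ) < 2 ^ g l := by positivity
  have hg' : (0 : ℝ) < 2 ^ g' l := by positivity
  have h2 : 1 / (2 : ℝ) ^ g l ≤ e₁ / 2 ^ g' l := by
    rw [div_le_div_iff₀ hg hg', one_mul]
    exact (hratio l hl1 hl).1
  have h3 : C₀ * (e₁ / 2 ^ g l) * Real.exp (c l * z) ^ K₁ =
      (C₀ * e₁ * Real.exp (c l * z) ^ K₁) * (1 / 2 ^ g l) := by ring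
  rw [h3] at h1
  have h0 : 0 ≤ C₀ * e₁ * Real.exp (c l * z) ^ K₁ := by positivity
  have h4 := h1.trans (mul_le_mul_of_nonneg_left h2 h0)
  refine h4.trans ?_
  rw [← mul_div_assoc]
  refine div_le_div_of_nonneg_right ?_ hg'.le
  rw [he₁, ← Real.exp_nat_mul]
  have h8 : C₀ ≤ Real.exp (2 * C₀ * z) := by
    have a1 := Real.add_one_le_exp (2 * C₀ * z)
    have a2 : 2 * C₀ ≤ 2 * C₀ * z := le_mul_of_one_le_right (by positivity) hzR
    linarith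
  calc C₀ * Real.exp (C₁ * z) * Real.exp (K₁ * (c l * z)) * Real.exp (C₁ * z) ≤
        Real.exp (2 * C₀ * z) * Real.exp (C₁ * z) * Real.exp (K₁ * (c l * z)) *
          Real.exp (C₁ * z) := by gcongr
    _ = Real.exp ((2 * C₀ + 2 * C₁ + K₁ * c l) * z) := by
        rw [← Real.exp_add, ← Real.exp_add, ← Real.exp_add]
        congr 1
        ring
    _ ≤ Real.exp ((c (N + 2) + 1) * z) := by
        refine Real.exp_le_exp.2 (mul_le_mul_of_nonneg_right ?_ (by positivity))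
        have a1 := hcM (show l + 1 ≤ N + 2 by omega)
        rw [hcs] at a1
        linarith [hc0 l]

/-- **Few values of the label at the point**, from the field `net` of the cell. -/
theorem few_net (N K : ℕ) (C₁ : ℝ) (hC₁ : 0 ≤ C₁) : ∃ C₄ : ℝ, 1 ≤ C₄ ∧
    ∀ (D : NDat2) (q : D.Ω → ℝ) (J a₀ w₀ z M v j : ℕ) (lam gam : ℕ → ℝ)
      (κ C₁' : ℝ) (Λ : Type) (lab : D.Ω → Λ) (Φ : D.Ω → ℕ → PN) (g : ℕ → ℕ),
      D.Ok2 (N + 1) K J a₀ w₀ z M lam gam κ C₁' q → 1 ≤ z → v ≤ M → j ≤ M → 0 ≤ C₁' →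
      Det q (fun ω => (lab ω, D.T ω)) Φ →
      (∀ ω, 0 < q ω → ∀ l, 1 ≤ l → l ≤ N + 1 →
        (Φ ω l).totalDegree ≤ K ∧ (Φ ω l).vars ⊆ range l) →
      (∀ l, 1 ≤ l → l ≤ N + 1 → |(g l : ℝ) - D.g v j l| ≤ C₁ * z) →
      (∀ ω, 0 < q ω → ∀ l, 1 ≤ l → l ≤ N + 1 → ∀ b : ℕ → ℝ,
        |b 0 - D.X ω 0| ≤ 1 / 2 ^ (a₀ + v * z) →
        (∀ i, 1 ≤ i → i < l → |b i - eval b (Φ ω i)| ≤ 1 / 2 ^ g i) →
        |eval b (Φ ω l) - eval b (D.Ψ v j ω l)| ≤ Real.exp (C₁ * z) / 2 ^ g l) →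
      CH q (D.s v j) (fun ω => (lab ω, D.T ω)) ≤ C₁' * C₄ * z := by
  obtain ⟨C₄, hC₄, hdil⟩ := dil_side N K C₁ hC₁
  refine ⟨C₄ + 1 + 1, by linarith, ?_⟩
  intro D q J a₀ w₀ z M v j lam gam κ C₁' Λ lab Φ g hOk hz hv hj hC₁' hΦd hΦ hgg hnear
  have hzR : (1 : ℝ) ≤ z := by exact_mod_cast hz
  refine hOk.net v hv j hj (C₄ + 1) (by linarith) (Λ × ℕ) (fun ω => (lab ω, D.T ω))
    (fun ω ω' _ _ e => congrArg Prod.snd e) ?_
  intro ω ω' hω hω' e l hl1 hl b hb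
  have hΦe : Φ ω = Φ ω' := hΦd ω ω' hω hω' e
  have hX0 : D.X ω 0 = D.X ω' 0 := by
    rw [hOk.X_zero, hOk.X_zero, show D.T ω = D.T ω' from congrArg Prod.snd e]
  have hGd : ∀ ω, ∀ l, 1 ≤ l → l ≤ N + 1 →
      (D.Ψ v j ω l).totalDegree ≤ K ∧ (D.Ψ v j ω l).vars ⊆ range l := fun ω l _ _ =>
    ⟨hOk.G_deg v j _ l, hOk.G_tri v j _ l⟩
  have h := hdil (D.X ω 0) (Φ ω) (D.Ψ v j ω) g (D.g v j) (a₀ + v * z) z hz (hΦ ω hω)
    (hGd ω) hgg (hnear ω hω) b l hl1 hl hb.1 hb.2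
  have h1 := h (D.Ψ v j ω) (hGd ω) (hnear ω hω)
  have h2 := h (D.Ψ v j ω') (hGd ω') (by
    rw [hΦe, hX0]
    exact hnear ω' hω')
  have hg' : (0 : ℝ) < 2 ^ D.g v j l := by positivity
  have e1 : eval b (D.Ψ v j ω l) - eval b (D.Ψ v j ω' l) =
      (eval b (Φ ω l) - eval b (D.Ψ v j ω' l)) - (eval b (Φ ω l) - eval b (D.Ψ v j ω l)) := by
    ring
  rw [e1]
  refine (abs_sub _ _).trans ((add_le_add h2 h1).trans ?_)
  rw [← add_div]
  refine div_le_div_of_nonneg_right ?_ hg'.le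
  have h3 : (2 : ℝ) ≤ Real.exp (1 * z) := by
    have := Real.add_one_le_exp (1 * (z : ℝ))
    linarith
  calc Real.exp (C₄ * z) + Real.exp (C₄ * z) = 2 * Real.exp (C₄ * z) := by ring
    _ ≤ Real.exp (1 * z) * Real.exp (C₄ * z) := by gcongr
    _ = Real.exp ((C₄ + 1) * z) := by
        rw [← Real.exp_add]
        congr 1
        ring

/-- **The rows of a chain from the rows of a cell**, the systems being near the point side of the
labels of the cell on the natural boxes around the samples. -/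
theorem nf_net (N K B : ℕ) (h C₁ : ℝ) (hB : 1 ≤ B) (hh0 : 0 ≤ h) (hh1 : h ≤ 1) (hC₁ : 1 ≤ C₁) :
    ∃ C₃ : ℝ, 1 ≤ C₃ ∧ ∀ (D : NDat2) (q : D.Ω → ℝ) (J a₀ w₀ z M v U : ℕ) (lam gam : ℕ → ℝ)
      (κ : ℝ) (Λ : Type) (lab : D.Ω → Λ) (Φ : D.Ω → ℕ → PN) (g : ℕ → ℕ),
      D.Ok2 (N + 1) K J a₀ w₀ z M lam gam κ C₁ q → 1 ≤ z → v ≤ M →
      Row0 D N v B U z h C₁ q →
      Det q (fun ω => (lab ω, D.T ω)) Φ →
      (∀ ω, 0 < q ω → ∀ l, 1 ≤ l → l ≤ N + 1 →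
        (Φ ω l).totalDegree ≤ K ∧ (Φ ω l).vars ⊆ range l) →
      (∀ l, 1 ≤ l → l ≤ N + 1 → |(g l : ℝ) - D.g v 0 l| ≤ C₁ * z) →
      (∀ ω, 0 < q ω → ∀ l, 1 ≤ l → l ≤ N → |D.X ω l - eval (D.X ω) (Φ ω l)| ≤ 1 / 2 ^ g l) →
      (∀ ω, 0 < q ω → ∀ l, 1 ≤ l → l ≤ N + 1 → ∀ b : ℕ → ℝ,
        |b 0 - D.X ω 0| ≤ 1 / 2 ^ (a₀ + v * z) →
        (∀ i, 1 ≤ i → i < l → |b i - eval b (Φ ω i)| ≤ 1 / 2 ^ g i) →
        |eval b (Φ ω l) - eval b (D.Ψ v 0 ω l)| ≤ Real.exp (C₁ * z) / 2 ^ g l) →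
      ∀ P : ℕ, (P : ℝ) ≤ 1 / (2 * B) * (U * z) →
        CH q (fun ω => ⌊(2 : ℝ) ^ P * hh D.X Φ g ω (N + 1)⌋)
          (fun ω => (lab ω, ((fun j : Fin N => ⌊(2 : ℝ) ^ (U * z) * hh D.X Φ g ω (j + 1)⌋),
            D.T ω))) ≤ (1 - h) * (P * Real.log 2) + C₃ * z := by
  obtain ⟨C₄, hC₄, hfew⟩ := few_net N K C₁ (by linarith)
  have hC₁C₄ : C₁ ≤ C₁ * C₄ := le_mul_of_one_le_right (by linarith) hC₄
  obtain ⟨C₃, hC₃, hnf⟩ := nf_fat N K B h (C₁ * C₄) hB hh0 hh1 (by positivity)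
  refine ⟨C₃, hC₃, ?_⟩
  intro D q J a₀ w₀ z M v U lam gam κ Λ lab Φ g hOk hz hv hrow hΦd hΦ hgg hpos hnear
  have hzR : (1 : ℝ) ≤ z := by exact_mod_cast hz
  have hm : C₁ * (z : ℝ) ≤ C₁ * C₄ * z := mul_le_mul_of_nonneg_right hC₁C₄ (by positivity)
  refine hnf D q J a₀ w₀ z M v U lam gam κ C₁ Λ lab Φ g hOk hz hv
    (fun V hV1 hV => (hrow V hV1 hV).trans (by linarith)) hΦd hΦ
    (fun l h1 h2 => (hgg l h1 h2).trans hm) hpos
    (fun ω hω l h1 h2 b hb0 hb => (hnear ω hω l h1 h2 b (by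
      rw [hb0, sub_self, abs_zero]
      positivity) hb).trans (div_le_div_of_nonneg_right (Real.exp_le_exp.2 hm) (by positivity)))
    (hfew D q J a₀ w₀ z M v 0 lam gam κ C₁ Λ lab Φ g hOk hz hv (Nat.zero_le _) (by linarith)
      hΦd hΦ hgg hnear)

end RR

end Pool.STAT
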