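import Pool.Agent.H82.STAT.Gre

/-!
# Dilation over the boxes of a system of arbitrary degree

The system `G'` has arbitrary degree, the system `Ψ` has a fixed degree and is near `G'` on the
boxes of `G'`. A polynomial of fixed degree which is small on the boxes of `G'` is small on the
dilated boxes of `Ψ`: the boxes of `G'` are fibered by intervals, one coordinate after the other.
-/

set_option autoImplicit false

namespace Pool.STAT.GRD

open Finset MvPolynomial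
open Pool.Agent.H49.Ent Pool.Agent.H32.Dense Pool.STK Pool.KS3 Pool.KA Pool.KSAT Pool.PB Pool.GEN
open Pool.STAT.CLO Pool.STAT.CDat Pool.TRC Pool.STAT.DPP

/-- **One variable**: from an interval to a point. -/
theorem dil1 (d : ℕ) : ∃ C : ℝ, 1 ≤ C ∧ ∀ (q : PN) (ξ : ℕ → ℝ) (k : ℕ) (c ε x : ℝ),
    q.totalDegree ≤ d → (∀ s : ℝ, |s - c| ≤ 1 → |eval (Function.update ξ k s) q| ≤ ε) →
    |eval (Function.update ξ k x) q| ≤ C * ε * (1 + |x - c|) ^ d := by
  obtain ⟨C, hC, h⟩ := n1_of_cube 1 d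
  refine ⟨C, hC, fun q ξ k c ε x hq hs => ?_⟩
  obtain ⟨f, hf⟩ : ∃ f : ℕ → PN, f = fun j => if j = k then X 0 + MvPolynomial.C c
    else MvPolynomial.C (ξ j) := ⟨_, rfl⟩
  have hev : ∀ y : ℕ → ℝ, eval y (bind₁ f q) = eval (Function.update ξ k (y 0 + c)) q := by
    intro y
    rw [Pool.SYS35.eval_bind]
    congr 2
    funext j
    rw [hf]
    by_cases hj : j = k
    · subst hj
      simp only [if_true]
      rw [Function.update_self, map_add, eval_X, eval_C]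
    · simp only [if_neg hj]
      rw [Function.update_of_ne hj, eval_C]
  have hfv : ∀ j, (f j).vars ⊆ range 1 := by
    intro j
    rw [hf]
    by_cases hj : j = k
    · simp only [if_pos hj]
      refine (vars_add_subset _ _).trans (Finset.union_subset ?_ ?_)
      · rw [vars_X]
        exact Finset.singleton_subset_iff.2 (mem_range.2 Nat.one_pos)
      · rw [vars_C]
        exact Finset.empty_subset _
    · simp only [if_neg hj]
      rw [vars_C]
      exact Finset.empty_subset _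
  have hfd : ∀ j, (f j).totalDegree ≤ 1 := by
    intro j
    rw [hf]
    by_cases hj : j = k
    · simp only [if_pos hj]
      refine (totalDegree_add _ _).trans (max_le ?_ ?_)
      · rw [totalDegree_X]
      · rw [totalDegree_C]
        exact Nat.zero_le _
    · simp only [if_neg hj]
      rw [totalDegree_C]
      exact Nat.zero_le _
  have hv : (bind₁ f q).vars ⊆ range 1 := by
    intro j hj
    obtain ⟨i, -, hi⟩ := mem_vars_bind₁ f q hj
    exact hfv i hi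
  have hd : (bind₁ f q).totalDegree ≤ d := by
    refine (Dgb.deg_bind (B := 1) fun j _ => hfd j).trans ?_
    rw [Nat.mul_one]
    exact hq
  have h1 := h (bind₁ f q) ε hv hd fun y hy => by
    rw [hev]
    refine hs _ ?_
    have := hy 0 Nat.one_pos
    rwa [add_sub_cancel_right]
  have h2 := eval_le (y := fun _ => x - c) (ρ := 1 + |x - c|)
    (by linarith [abs_nonneg (x - c)]) hv hd fun j _ => by linarith
  rw [hev] at h2
  simp only [sub_add_cancel] at h2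
  exact h2.trans (mul_le_mul_of_nonneg_right h1 (by positivity))

/-- **Boxes fibered by intervals.** -/
theorem fib (d : ℕ) : ∃ C : ℝ, 1 ≤ C ∧ ∀ (q : PN) (l : ℕ) (c : ℕ → (ℕ → ℝ) → ℝ) (E R ε : ℝ),
    q.totalDegree ≤ d → 0 ≤ E → 0 ≤ R → 0 ≤ ε →
    (∀ i (ξ ξ' : ℕ → ℝ), (∀ j < i, ξ j = ξ' j) → c i ξ = c i ξ') →
    (∀ i < l, ∀ ξ : ℕ → ℝ, (∀ j < i, |ξ j - c j ξ| ≤ 1) → |c i ξ| ≤ E) →
    (∀ ξ : ℕ → ℝ, (∀ j < l, |ξ j - c j ξ| ≤ 1) → |eval ξ q| ≤ ε) →
    ∀ ξ : ℕ → ℝ, (∀ j < l, |ξ j| ≤ R) → |eval ξ q| ≤ (C * (1 + R + E) ^ d) ^ l * ε := by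
  obtain ⟨C, hC, h⟩ := dil1 d
  refine ⟨C, hC, fun q l c E R ε hq hE hR hε hcc hcE hs => ?_⟩
  have key : ∀ k ≤ l, ∀ ξ : ℕ → ℝ, (∀ j < l - k, |ξ j - c j ξ| ≤ 1) →
      (∀ j, l - k ≤ j → j < l → |ξ j| ≤ R) → |eval ξ q| ≤ (C * (1 + R + E) ^ d) ^ k * ε := by
    intro k
    induction k with
    | zero =>
      intro _ ξ h1 _
      rw [pow_zero, one_mul]
      exact hs ξ h1
    | succ k ih =>
      intro hk ξ h1 h2
      obtain ⟨i, hi⟩ : ∃ i, i = l - (k + 1) := ⟨_, rfl⟩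
      rw [← hi] at h1 h2
      have hi1 : l - k = i + 1 := by omega
      have e1 : Function.update ξ i (ξ i) = ξ := Function.update_eq_self i ξ
      have e2 : ∀ s : ℝ, ∀ j ≤ i, c j (Function.update ξ i s) = c j ξ := fun s j hj =>
        hcc j _ _ fun j' hj' => Function.update_of_ne (by omega) _ _
      have h3 := h q ξ i (c i ξ) ((C * (1 + R + E) ^ d) ^ k * ε) (ξ i) hq fun s hs' => by
        refine ih (by omega) _ (fun j hj => ?_) fun j hj1 hj2 => ?_
        · rw [hi1] at hj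
          rcases Nat.lt_succ_iff_lt_or_eq.1 hj with h4 | h4
          · rw [e2 s j h4.le, Function.update_of_ne (by omega)]
            exact h1 j h4
          · subst h4
            rw [e2 s j le_rfl, Function.update_self]
            exact hs'
        · rw [Function.update_of_ne (by omega)]
          exact h2 j (by omega) hj2
      rw [e1] at h3
      refine h3.trans ?_
      have h4 : 1 + |ξ i - c i ξ| ≤ 1 + R + E := by
        have h5 := abs_sub (ξ i) (c i ξ)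
        have h6 := h2 i le_rfl (by omega)
        have h7 := hcE i (by omega) ξ h1
        linarith
      have h5 : (1 + |ξ i - c i ξ|) ^ d ≤ (1 + R + E) ^ d :=
        pow_le_pow_left₀ (by positivity) h4 d
      have h6 : 0 ≤ C * ((C * (1 + R + E) ^ d) ^ k * ε) := by
        have : (0 : ℝ) ≤ C := by linarith
        positivity
      refine (mul_le_mul_of_nonneg_left h5 h6).trans (le_of_eq ?_)
      rw [pow_succ]
      ring
  intro ξ hξ
  exact key l le_rfl ξ (fun j hj => absurd hj (by omega)) fun j _ hj => hξ j hj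

/-- **Dilation over the boxes of a system of arbitrary degree.** -/
theorem fib_dil (n K : ℕ) : ∃ C : ℕ, 1 ≤ C ∧ ∀ (G' Ψ : ℕ → PN) (γ : ℕ → ℕ) (F : PN) (l e r : ℕ)
    (S : ℝ), TriN G' → TriN Ψ → (∀ j, (Ψ j).totalDegree ≤ K) → l ≤ n → F.vars ⊆ range l →
    F.totalDegree ≤ K → 0 ≤ S →
    (∀ i < l, ∀ b : ℕ → ℝ, Bx γ G' i b → |eval b (G' i) - eval b (Ψ i)| ≤ 2 ^ e / 2 ^ γ i) →
    (∀ b : ℕ → ℝ, Bx γ G' l b → |eval b F| ≤ S) →
    ∀ b : ℕ → ℝ, Bxr (2 ^ r) γ Ψ l b → |eval b F| ≤ 2 ^ (C * (e + r + 1)) * S := by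
  obtain ⟨K₁, hK₁⟩ : ∃ K₁, K₁ = K * (K + 1) ^ (n + 1) := ⟨_, rfl⟩
  obtain ⟨C, hC, h⟩ := fib K₁
  obtain ⟨a, ha⟩ := pow_unbounded_of_one_lt C (one_lt_two (α := ℝ))
  refine ⟨(a + 2 * K₁) * n + 1, by omega, ?_⟩
  intro G' Ψ γ F l e r S hG hΨ hΨK hl hF hFK hS hcl hs b hb
  obtain ⟨c, hc⟩ : ∃ c : ℕ → (ℕ → ℝ) → ℝ, c = fun i ξ =>
    (2 : ℝ) ^ γ i * (eval (fun j => eval ξ (nuc γ Ψ j)) (G' i) -
      eval (fun j => eval ξ (nuc γ Ψ j)) (Ψ i)) := ⟨_, rfl⟩
  have hnc : ∀ (ξ : ℕ → ℝ) (i : ℕ), ξ i - c i ξ =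
      (2 : ℝ) ^ γ i * (eval ξ (nuc γ Ψ i) - eval (fun j => eval ξ (nuc γ Ψ j)) (G' i)) := by
    intro ξ i
    have h1 := congrFun (nc_nuc hΨ γ ξ) i
    unfold nc at h1
    rw [hc]
    simp only
    rw [← h1]
    ring
  have hbx : ∀ (ξ : ℕ → ℝ) (i : ℕ), |ξ i - c i ξ| ≤ 1 ↔
      |eval ξ (nuc γ Ψ i) - eval (fun j => eval ξ (nuc γ Ψ j)) (G' i)| ≤ 1 / 2 ^ γ i := by
    intro ξ i
    have h2 : (0 : ℝ) < 2 ^ γ i := by positivity
    rw [hnc, abs_mul, abs_of_pos h2, le_div_iff₀ h2, mul_comm]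
  have hBx : ∀ (ξ : ℕ → ℝ) (i : ℕ), (∀ j < i, |ξ j - c j ξ| ≤ 1) →
      Bx γ G' i (fun j => eval ξ (nuc γ Ψ j)) := fun ξ i hi j hj => (hbx ξ j).1 (hi j hj)
  have hq := nat_deg hΨ hΨK γ hl hF hFK
  have h3 := h (bind₁ (nuc γ Ψ) F) l c (2 ^ e) (2 ^ r) S (by rw [hK₁]; exact hq.2)
    (by positivity) (by positivity) hS
    (fun i ξ ξ' hξ => by
      have h4 : ∀ j < i, eval ξ (nuc γ Ψ j) = eval ξ' (nuc γ Ψ j) := fun j hj =>
        Pool.SYS35.eval_congr (AdxRow.nuc_vars hΨ γ j) fun k hk => hξ k (by omega)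
      rw [hc]
      simp only
      rw [Pool.SYS35.eval_congr (hG i) h4, Pool.SYS35.eval_congr (hΨ i) h4])
    (fun i hi ξ hξ => by
      have h4 := hcl i hi _ (hBx ξ i hξ)
      have h2 : (0 : ℝ) < 2 ^ γ i := by positivity
      rw [hc]
      simp only
      rw [abs_mul, abs_of_pos h2, mul_comm]
      rwa [le_div_iff₀ h2] at h4)
    (fun ξ hξ => by
      rw [Pool.SYS35.eval_bind]
      exact hs _ (hBx ξ l hξ))
    (nc γ Ψ b) fun j hj => nc_le.2 (hb j hj)
  rw [← eval_nat hΨ γ b F] at h3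
  refine h3.trans (mul_le_mul_of_nonneg_right ?_ hS)
  have h4 : (1 : ℝ) + 2 ^ r + 2 ^ e ≤ 2 ^ (e + r + 2) := by
    have e1 : (1 : ℝ) ≤ 2 ^ r := one_le_pow₀ (by norm_num)
    have e2 : (1 : ℝ) ≤ 2 ^ e := one_le_pow₀ (by norm_num)
    have e3 : (2 : ℝ) ^ (e + r + 2) = 4 * (2 ^ e * 2 ^ r) := by
      rw [pow_add, pow_add]
      ring
    rw [e3]
    nlinarith [mul_nonneg (sub_nonneg.2 e1) (sub_nonneg.2 e2)]
  have h5 : C * (1 + 2 ^ r + 2 ^ e) ^ K₁ ≤ 2 ^ (a + K₁ * (e + r + 2)) := by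
    have e1 : ((1 : ℝ) + 2 ^ r + 2 ^ e) ^ K₁ ≤ (2 ^ (e + r + 2)) ^ K₁ :=
      pow_le_pow_left₀ (by positivity) h4 _
    rw [pow_add, mul_comm K₁, pow_mul]
    exact mul_le_mul ha.le e1 (by positivity) (by positivity)
  calc (C * (1 + 2 ^ r + 2 ^ e) ^ K₁) ^ l ≤ (2 ^ (a + K₁ * (e + r + 2))) ^ l :=
        pow_le_pow_left₀ (by
          have : (0 : ℝ) ≤ C := by linarith
          positivity) h5 _
    _ = 2 ^ ((a + K₁ * (e + r + 2)) * l) := by rw [← pow_mul]
    _ ≤ 2 ^ (((a + 2 * K₁) * n + 1) * (e + r + 1)) := by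
        refine pow_le_pow_right₀ (by norm_num) ?_
        have e1 : (a + K₁ * (e + r + 2)) * l ≤ (a + K₁ * (e + r + 2)) * n :=
          Nat.mul_le_mul_left _ hl
        have e2 : a + K₁ * (e + r + 2) ≤ (a + 2 * K₁) * (e + r + 1) := by
          have e3 : (a + 2 * K₁) * (e + r + 1) = a * (e + r) + a + K₁ * (e + r) +
              K₁ * (e + r + 2) := by ring
          rw [e3]
          have := Nat.zero_le (a * (e + r))
          have := Nat.zero_le (K₁ * (e + r))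
          omega
        have e3 : (a + K₁ * (e + r + 2)) * n ≤ (a + 2 * K₁) * (e + r + 1) * n :=
          Nat.mul_le_mul_right _ e2
        have e4 : ((a + 2 * K₁) * n + 1) * (e + r + 1) =
            (a + 2 * K₁) * (e + r + 1) * n + (e + r + 1) := by ring
        rw [e4]
        omega

end Pool.STAT.GRD
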