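import Pool.Agent.H80.STAT.FewNet

/-!
# The rows of a chain from the nonfull rows of a cell, any window

`nf_fatJ`, `nf_netJ`: the input of `rat_dd` for the label `lab` with the systems `Φ`, from the rows
of a cell `D` at `(v, j)`, if the systems are near the point side of the labels of the cell. The
levels of the fat chain may be at different windows `j = j v`.
-/

set_option autoImplicit false

namespace Pool.STAT

open Finset MvPolynomial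
open Pool.Agent.H49.Ent Pool.Agent.H32.Dense Pool.STK Pool.KS3

namespace RR

/-- The rows at `(v, j)` which are used. -/
def RowJ (D : NDat2) (N v j B U z : ℕ) (h C₁ : ℝ) (q : D.Ω → ℝ) : Prop :=
  ∀ V : ℕ, 1 ≤ V → B * V ≤ U → CH q (D.nd (N + 1) v j (V * z))
    (fun ω => (D.nd (N + 1) v j 0 ω, (D.vd (N + 1) v j (B * (V * z)) ω,
      (D.s v j ω, D.T ω)))) ≤ (1 - h) * (V * z) * Real.log 2 + C₁ * z

theorem rowJ_of {D : NDat2} {N v j B U z M : ℕ} {h C₁ : ℝ} {q : D.Ω → ℝ} (hU : v + U ≤ M)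
    (hB : 1 ≤ B)
    (hr : ∀ r V : ℕ, v + (r + V) ≤ M → CH q (D.nd (N + 1) v j ((r + V) * z))
      (fun ω => (D.nd (N + 1) v j (r * z) ω, (D.vd (N + 1) v j (B * ((r + V) * z)) ω,
        (D.s v j ω, D.T ω)))) ≤ (1 - h) * (V * z) * Real.log 2 + C₁ * z) :
    RowJ D N v j B U z h C₁ q := by
  intro V _ hV
  have h1 : V ≤ U := by nlinarith
  have h2 := hr 0 V (by omega)
  simp only [Nat.zero_add, Nat.zero_mul] at h2
  exact h2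

/-- **The rows of a chain from the rows of a cell.** -/
theorem nf_fatJ (N K B : ℕ) (h C₁ : ℝ) (hB : 1 ≤ B) (hh0 : 0 ≤ h) (hh1 : h ≤ 1) (hC₁ : 0 ≤ C₁) :
    ∃ C₃ : ℝ, 1 ≤ C₃ ∧ ∀ (D : NDat2) (q : D.Ω → ℝ) (J a₀ w₀ z M v j U : ℕ) (lam gam : ℕ → ℝ)
      (κ C₁' : ℝ) (Λ : Type) (lab : D.Ω → Λ) (Φ : D.Ω → ℕ → PN) (g : ℕ → ℕ),
      D.Ok2 (N + 1) K J a₀ w₀ z M lam gam κ C₁' q → 1 ≤ z → v ≤ M → j ≤ M →
      RowJ D N v j B U z h C₁ q →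
      Det q (fun ω => (lab ω, D.T ω)) Φ →
      (∀ ω, 0 < q ω → ∀ l, 1 ≤ l → l ≤ N + 1 →
        (Φ ω l).totalDegree ≤ K ∧ (Φ ω l).vars ⊆ range l) →
      (∀ l, 1 ≤ l → l ≤ N + 1 → |(g l : ℝ) - D.g v j l| ≤ C₁ * z) →
      (∀ ω, 0 < q ω → ∀ l, 1 ≤ l → l ≤ N → |D.X ω l - eval (D.X ω) (Φ ω l)| ≤ 1 / 2 ^ g l) →
      (∀ ω, 0 < q ω → ∀ l, 1 ≤ l → l ≤ N + 1 → ∀ b : ℕ → ℝ, b 0 = D.X ω 0 →
        (∀ i, 1 ≤ i → i < l → |b i - eval b (Φ ω i)| ≤ 1 / 2 ^ g i) →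
        |eval b (Φ ω l) - eval b (D.Ψ v j ω l)| ≤ Real.exp (C₁ * z) / 2 ^ g l) →
      CH q (D.s v j) (fun ω => (lab ω, D.T ω)) ≤ C₁ * z →
      ∀ P : ℕ, (P : ℝ) ≤ 1 / (2 * B) * (U * z) →
        CH q (fun ω => ⌊(2 : ℝ) ^ P * hh D.X Φ g ω (N + 1)⌋)
          (fun ω => (lab ω, ((fun i : Fin N => ⌊(2 : ℝ) ^ (U * z) * hh D.X Φ g ω (i + 1)⌋),
            D.T ω))) ≤ (1 - h) * (P * Real.log 2) + C₃ * z := by
  classical
  obtain ⟨C₃, hC₃, hside⟩ := side N K C₁ hC₁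
  refine ⟨C₃ + C₁ + 4, by linarith, ?_⟩
  intro D q J a₀ w₀ z M v j U lam gam κ C₁' Λ lab Φ g hOk hz hv hj hrow hΦd hΦ hgg hpos hnear
    hfew P hP
  have hp := hOk.isLaw
  have hBR : (1 : ℝ) ≤ B := by exact_mod_cast hB
  have hzR : (1 : ℝ) ≤ z := by exact_mod_cast hz
  have hPU : P ≤ U * z := by
    have h4 : (P : ℝ) ≤ U * z := hP.trans (by
      have h5 : 1 / (2 * (B : ℝ)) ≤ 1 := by
        rw [div_le_one (by positivity)]
        linarith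
      have : 0 ≤ (U : ℝ) * z := by positivity
      nlinarith)
    exact_mod_cast h4
  have h1 := hside hp D.X D.T lab (D.s v j) Φ (D.Ψ v j) g (D.g v j) z U P hz hPU
    (fun ω ω' _ _ e => by
      simp only
      rw [hOk.X_zero, hOk.X_zero, e])
    hΦd (fun ω ω' _ _ e => by
      unfold NDat2.Ψ
      have := congrArg Prod.fst e
      simp only at this
      rw [this]) hΦ
    (fun ω _ l _ _ => ⟨hOk.G_deg v j _ l, hOk.G_tri v j _ l⟩) hgg hpos hnear hfew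
  -- the natural heights over the point side
  have e1 : ∀ (r : ℕ) (ω : D.Ω), ⌊(2 : ℝ) ^ r * hh D.X (D.Ψ v j) (D.g v j) ω (N + 1)⌋ =
      D.nd (N + 1) v j r ω := by
    intro r ω
    unfold hh NDat2.nd NDat2.sh
    rw [← mul_assoc, ← pow_add, add_comm r]
  have e2 : ∀ (r : ℕ) (ω : D.Ω), (fun i : Fin N =>
      ⌊(2 : ℝ) ^ r * hh D.X (D.Ψ v j) (D.g v j) ω (i + 1)⌋) = D.vd (N + 1) v j r ω := by
    intro r ω
    funext i
    unfold hh NDat2.vd NDat2.sh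
    rw [← mul_assoc, ← pow_add, add_comm r]
  have e3 : ∀ ω : D.Ω, ⌊hh D.X (D.Ψ v j) (D.g v j) ω (N + 1)⌋ = D.nd (N + 1) v j 0 ω := by
    intro ω
    rw [← e1 0 ω, pow_zero, one_mul]
  have h2 := nf_rat hp hB hz hh0 hh1 hC₁ (D.s v j)
    (fun ω (i : Fin N) => hh D.X (D.Ψ v j) (D.g v j) ω (i + 1))
    (fun ω => hh D.X (D.Ψ v j) (D.g v j) ω (N + 1)) D.T
    (fun ω hω => by
      have h3 := hOk.pos v hv j hj ω hω (N + 1) (by omega) le_rfl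
      unfold hh
      rw [abs_mul, abs_of_pos (by positivity)]
      unfold NDat2.sh at h3
      rwa [le_div_iff₀ (by positivity), mul_comm] at h3)
    (fun V hV1 hV => by
      simp only [e1, e2, e3]
      exact hrow V hV1 hV) P hP
  have h3 : (C₃ + C₁ + 4) * (z : ℝ) = C₃ * z + (C₁ + 4) * z := by ring
  rw [h3]
  linarith

/-- **The rows of a chain from the rows of a cell**, the systems being near the point side of the
labels of the cell on the natural boxes around the samples. -/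
theorem nf_netJ (N K B : ℕ) (h C₁ : ℝ) (hB : 1 ≤ B) (hh0 : 0 ≤ h) (hh1 : h ≤ 1) (hC₁ : 1 ≤ C₁) :
    ∃ C₃ : ℝ, 1 ≤ C₃ ∧ ∀ (D : NDat2) (q : D.Ω → ℝ) (J a₀ w₀ z M v j U : ℕ) (lam gam : ℕ → ℝ)
      (κ : ℝ) (Λ : Type) (lab : D.Ω → Λ) (Φ : D.Ω → ℕ → PN) (g : ℕ → ℕ),
      D.Ok2 (N + 1) K J a₀ w₀ z M lam gam κ C₁ q → 1 ≤ z → v ≤ M → j ≤ M →
      RowJ D N v j B U z h C₁ q →
      Det q (fun ω => (lab ω, D.T ω)) Φ →
      (∀ ω, 0 < q ω → ∀ l, 1 ≤ l → l ≤ N + 1 →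
        (Φ ω l).totalDegree ≤ K ∧ (Φ ω l).vars ⊆ range l) →
      (∀ l, 1 ≤ l → l ≤ N + 1 → |(g l : ℝ) - D.g v j l| ≤ C₁ * z) →
      (∀ ω, 0 < q ω → ∀ l, 1 ≤ l → l ≤ N → |D.X ω l - eval (D.X ω) (Φ ω l)| ≤ 1 / 2 ^ g l) →
      (∀ ω, 0 < q ω → ∀ l, 1 ≤ l → l ≤ N + 1 → ∀ b : ℕ → ℝ,
        |b 0 - D.X ω 0| ≤ 1 / 2 ^ (a₀ + v * z) →
        (∀ i, 1 ≤ i → i < l → |b i - eval b (Φ ω i)| ≤ 1 / 2 ^ g i) →
        |eval b (Φ ω l) - eval b (D.Ψ v j ω l)| ≤ Real.exp (C₁ * z) / 2 ^ g l) →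
      ∀ P : ℕ, (P : ℝ) ≤ 1 / (2 * B) * (U * z) →
        CH q (fun ω => ⌊(2 : ℝ) ^ P * hh D.X Φ g ω (N + 1)⌋)
          (fun ω => (lab ω, ((fun i : Fin N => ⌊(2 : ℝ) ^ (U * z) * hh D.X Φ g ω (i + 1)⌋),
            D.T ω))) ≤ (1 - h) * (P * Real.log 2) + C₃ * z := by
  obtain ⟨C₄, hC₄, hfew⟩ := few_net N K C₁ (by linarith)
  have hC₁C₄ : C₁ ≤ C₁ * C₄ := le_mul_of_one_le_right (by linarith) hC₄
  obtain ⟨C₃, hC₃, hnf⟩ := nf_fatJ N K B h (C₁ * C₄) hB hh0 hh1 (by positivity)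
  refine ⟨C₃, hC₃, ?_⟩
  intro D q J a₀ w₀ z M v j U lam gam κ Λ lab Φ g hOk hz hv hj hrow hΦd hΦ hgg hpos hnear
  have hzR : (1 : ℝ) ≤ z := by exact_mod_cast hz
  have hm : C₁ * (z : ℝ) ≤ C₁ * C₄ * z := mul_le_mul_of_nonneg_right hC₁C₄ (by positivity)
  refine hnf D q J a₀ w₀ z M v j U lam gam κ C₁ Λ lab Φ g hOk hz hv hj
    (fun V hV1 hV => (hrow V hV1 hV).trans (by linarith)) hΦd hΦ
    (fun l h1 h2 => (hgg l h1 h2).trans hm) hpos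
    (fun ω hω l h1 h2 b hb0 hb => (hnear ω hω l h1 h2 b (by
      rw [hb0, sub_self, abs_zero]
      positivity) hb).trans (div_le_div_of_nonneg_right (Real.exp_le_exp.2 hm) (by positivity)))
    (hfew D q J a₀ w₀ z M v j lam gam κ C₁ Λ lab Φ g hOk hz hv hj (by linarith)
      hΦd hΦ hgg hnear)

end RR

end Pool.STAT
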