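import Pool.Agent.H82.STAT.Grj
import Pool.Agent.H40.MIC.Grd2

/-!
# The labels of a node near the closed labels of a path

`near_node`: the closed label `Φ` with the strong form of the error over the path `π` and a label
`PS` which is near the raw label of a finer node are near each other on the boxes of `Φ`.
-/

set_option autoImplicit false

namespace Pool.STAT.GRD

open Finset MvPolynomial
open Pool.Agent.H49.Ent Pool.Agent.H32.Dense Pool.STK Pool.KS3 Pool.KA Pool.KSAT Pool.PB Pool.GEN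
open Pool.STAT.CLO Pool.STAT.CDat Pool.TRC Pool.STAT.DPP

theorem Er.mono_t {n j : ℕ} {a : ℕ → ℕ} {g : ℕ → ℕ → ℕ} {u t t' : ℕ} {G : ℕ → ℕ → PN} {T : ℝ}
    {g₁ : ℕ → ℕ} {P : ℕ → PN} (h : Er n j a g u t G T g₁ P) (ht : t ≤ t') :
    Er n j a g u t' G T g₁ P := fun i h1 h2 b hb0 hb =>
  (h i h1 h2 b hb0 hb).trans (div_le_div_of_nonneg_right
    (pow_le_pow_right₀ (by norm_num) ht) (by positivity))

/-- **A label which is near the raw label of the end of a path** has the strong form of the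
error. -/
theorem er_node {n K' s₁ : ℕ} {d J : ℕ} {F : Fam d J} {π' : Path F} {j' u : ℕ} {ω : F.Ω}
    {g' : ℕ → ℕ} {PS Gx : ℕ → PN} (haJ : π'.a j' ≤ J)
    (hN : Nr K' (2 ^ s₁) (gt0 (π'.a j') g') PS Gx (n + 1))
    (hG0 : Gx 0 = MvPolynomial.C (F.t ω))
    (hG : ∀ l, 1 ≤ l → l ≤ n → Gx l = π'.G j' (ptr F J ω) l)
    (hg : ∀ l, 1 ≤ l → l ≤ n → g' l = π'.g j' l) :
    π'.Er n j' u (K' * (K' + s₁ + u + 1) + u + 2) g' ω
      (fun i => if i = 0 then MvPolynomial.C ((F.T1 (π'.a j') ω : ℝ) / 2 ^ π'.a j') else PS i) := by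
  intro i hi1 hi b hb0 hb
  simp only [if_neg (show ¬ i = 0 by omega)]
  have h2 : ∀ {a b : ℕ}, a ≤ b → (2 : ℝ) ^ a ≤ 2 ^ b := fun h =>
    pow_le_pow_right₀ (by norm_num) h
  have hbox : ∀ l, 1 ≤ l → l ≤ i → |b l - eval b (Gx l)| ≤ 2 ^ (u + 1) / 2 ^ g' l := by
    intro l l1 l2
    rw [hG l l1 (by omega), hg l l1 (by omega)]
    exact hb j' le_rfl l l1 l2
  have ht := time_near F haJ ω
  have hbx : Bxr (2 ^ (u + 1)) (gt0 (π'.a j') g') Gx i b := by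
    intro l hl
    rcases Nat.eq_zero_or_pos l with rfl | l1
    · rw [gt0_zero, hG0, eval_C]
      have e1 : (2 : ℝ) ≤ 2 ^ (u + 1) := by
        have := h2 (Nat.le_add_left 1 u)
        simpa using this
      have e2 : |b 0 - F.t ω| ≤ 2 / 2 ^ π'.a j' := by
        have e3 : (2 : ℝ) / 2 ^ π'.a j' = 1 / 2 ^ π'.a j' + 1 / 2 ^ π'.a j' := by ring
        rw [e3]
        rw [abs_le] at hb0 ht ⊢
        constructor <;> linarith [hb0.1, hb0.2, ht.1, ht.2]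
      exact e2.trans (div_le_div_of_nonneg_right e1 (by positivity))
    · rw [gt0_pos _ _ l1]
      exact hbox l l1 (by omega)
  have h3 := hN.2 i hi1 (by omega) (2 ^ (u + 1)) (one_le_pow₀ (by norm_num)) b hbx
  rw [gt0_pos _ _ hi1] at h3
  have h4 := hbox i hi1 le_rfl
  have h5 : ((K' : ℝ) * 2 ^ s₁ * 2 ^ (u + 1)) ^ K' ≤ 2 ^ (K' * (K' + s₁ + u + 1)) := by
    have e1 : (K' : ℝ) * 2 ^ s₁ * 2 ^ (u + 1) ≤ 2 ^ (K' + s₁ + u + 1) := by
      have e2 : (K' : ℝ) ≤ 2 ^ K' := by exact_mod_cast (Nat.lt_two_pow_self (n := K')).le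
      have e3 : (2 : ℝ) ^ (K' + s₁ + u + 1) = 2 ^ K' * 2 ^ s₁ * 2 ^ (u + 1) := by
        rw [← pow_add, ← pow_add]
        ring_nf
      rw [e3]
      exact mul_le_mul_of_nonneg_right (mul_le_mul_of_nonneg_right e2 (by positivity))
        (by positivity)
    calc ((K' : ℝ) * 2 ^ s₁ * 2 ^ (u + 1)) ^ K' ≤ (2 ^ (K' + s₁ + u + 1)) ^ K' :=
          pow_le_pow_left₀ (by positivity) e1 _
      _ = 2 ^ (K' * (K' + s₁ + u + 1)) := by rw [← pow_mul, mul_comm]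
  have h6 : |b i - eval b (PS i)| ≤ |b i - eval b (Gx i)| + |eval b (PS i) - eval b (Gx i)| := by
    have e1 : b i - eval b (PS i) = (b i - eval b (Gx i)) - (eval b (PS i) - eval b (Gx i)) := by
      ring
    rw [e1]
    exact abs_sub _ _
  refine h6.trans ((add_le_add h4 (h3.trans (div_le_div_of_nonneg_right h5
    (by positivity)))).trans ?_)
  rw [← add_div]
  refine div_le_div_of_nonneg_right ?_ (by positivity)
  have e1 : (2 : ℝ) ^ (u + 1) ≤ 2 ^ (K' * (K' + s₁ + u + 1) + u + 1) := h2 (by omega)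
  have e2 : (2 : ℝ) ^ (K' * (K' + s₁ + u + 1)) ≤ 2 ^ (K' * (K' + s₁ + u + 1) + u + 1) :=
    h2 (by omega)
  have e3 : (2 : ℝ) ^ (K' * (K' + s₁ + u + 1) + u + 2) =
      2 ^ (K' * (K' + s₁ + u + 1) + u + 1) + 2 ^ (K' * (K' + s₁ + u + 1) + u + 1) := by
    rw [show K' * (K' + s₁ + u + 1) + u + 2 = K' * (K' + s₁ + u + 1) + u + 1 + 1 from rfl, pow_succ]
    ring
  rw [e3]
  exact add_le_add e1 e2

/-- **The labels of a node are near the closed labels of a path.** -/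
theorem near_node (n K' s₁ D : ℕ) : ∃ c : ℕ, 1 ≤ c ∧ ∀ {d J : ℕ} {F : Fam d J} {π π' : Path F}
    {j j' u t R : ℕ} {A : F.Ω → Prop} {ω : F.Ω} {g₁ g' : ℕ → ℕ} {Φ PS Gx : ℕ → PN},
    π.Ok → π'.Ok → Fnr π π' n u j j' A → Fnr π' π' n u j' j' A → A ω → π'.a j' ≤ J →
    π.Er n j u t g₁ ω Φ →
    Nr K' (2 ^ s₁) (gt0 (π'.a j') g') PS Gx (n + 1) →
    Gx 0 = MvPolynomial.C (F.t ω) →
    (∀ l, 1 ≤ l → l ≤ n → Gx l = π'.G j' (ptr F J ω) l) →
    (∀ l, 1 ≤ l → l ≤ n → g' l = π'.g j' l) →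
    (∀ i ≤ n, (Φ i).vars ⊆ range i) → (∀ i, 1 ≤ i → i ≤ n → (PS i).vars ⊆ range i) →
    (∀ i ≤ n, (Φ i).totalDegree ≤ D) → (∀ i, 1 ≤ i → i ≤ n → (PS i).totalDegree ≤ D) →
    Φ 0 = MvPolynomial.C ((F.T1 (π.a j) ω : ℝ) / 2 ^ π.a j) →
    (∀ l, 1 ≤ l → l ≤ n → g₁ l ≤ g' l) → (∀ l, 1 ≤ l → l ≤ n → g' l ≤ g₁ l + R) →
    π'.a j' ≤ π.a j + R →
    ∀ i, 1 ≤ i → i ≤ n → ∀ b : ℕ → ℝ, |b 0 - F.t ω| ≤ 1 / 2 ^ π'.a j' →
      (∀ l, 1 ≤ l → l < i → |b l - eval b (Φ l)| ≤ 1 / 2 ^ g₁ l) →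
      |eval b (Φ i) - eval b (PS i)| ≤ 2 ^ (c * (t + u + R + 1)) / 2 ^ g₁ i := by
  obtain ⟨c, hc, hp⟩ := puni n D
  refine ⟨c * (K' * (K' + s₁ + 2) + K' + 4), Nat.mul_pos hc (by omega), ?_⟩
  intro d J F π π' j j' u t R A ω g₁ g' Φ PS Gx ho ho' hf hf' hω haJ hE hN hG0 hG hg hΦv hPv hΦd
    hPd hΦ0 hg1 hg2 haR i hi1 hi b hb0 hb
  have h2 : ∀ {a b : ℕ}, a ≤ b → (2 : ℝ) ^ a ≤ 2 ^ b := fun h =>
    pow_le_pow_right₀ (by norm_num) h
  obtain ⟨Ψ, hΨ⟩ : ∃ Ψ : ℕ → PN, Ψ = fun i => if i = 0 then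
      MvPolynomial.C ((F.T1 (π'.a j') ω : ℝ) / 2 ^ π'.a j') else PS i := ⟨_, rfl⟩
  have hE' := er_node (u := u) haJ hN hG0 hG hg
  rw [← hΨ] at hE'
  have hΨi : ∀ i, 1 ≤ i → Ψ i = PS i := fun i h1 => by
    rw [hΨ]
    exact if_neg (by omega)
  have hΨ0 : Ψ 0 = MvPolynomial.C ((F.T1 (π'.a j') ω : ℝ) / 2 ^ π'.a j') := by
    rw [hΨ]
    exact if_pos rfl
  obtain ⟨t', ht'⟩ : ∃ t', t' = t + (K' * (K' + s₁ + u + 1) + u + 2) := ⟨_, rfl⟩
  have h3 := hp π π' j j' u t' 0 R A ω g₁ g' Φ Ψ ho ho' hf hf' hω haJ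
    (Er.mono_t hE (by omega)) (Er.mono_t hE' (by omega)) hΦv
    (fun l hl => by
      rcases Nat.eq_zero_or_pos l with rfl | l1
      · rw [hΨ0, vars_C]
        exact Finset.empty_subset _
      · rw [hΨi l l1]
        exact hPv l l1 hl) hΦd
    (fun l hl => by
      rcases Nat.eq_zero_or_pos l with rfl | l1
      · rw [hΨ0, totalDegree_C]
        exact Nat.zero_le _
      · rw [hΨi l l1]
        exact hPd l l1 hl) hΦ0 hΨ0
    (fun l l1 l2 => by rw [← hg l l1 l2]; exact hg1 l l1 l2)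
    (fun l l1 l2 => by rw [← hg l l1 l2]; omega) hg2 haR 1 i hi1 hi b (fun l hl => by
      rcases Nat.eq_zero_or_pos l with rfl | l1
      · rw [hΦ0, eval_C, tus_zero]
        have ht := time_near F (hf.a_le.trans haJ) ω
        have e1 : (1 : ℝ) / 2 ^ π'.a j' ≤ 1 / 2 ^ π.a j :=
          one_div_le_one_div_of_le (by positivity) (h2 hf.a_le)
        have e3 : (2 : ℝ) ^ 1 / 2 ^ π.a j = 1 / 2 ^ π.a j + 1 / 2 ^ π.a j := by ring
        rw [e3]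
        rw [abs_le] at hb0 ht ⊢
        constructor <;> linarith [hb0.1, hb0.2, ht.1, ht.2]
      · rw [tus_pos _ _ l1]
        exact (hb l l1 hl).trans (div_le_div_of_nonneg_right (by norm_num) (by positivity)))
  rw [hΨi i hi1, abs_sub_comm] at h3
  refine h3.trans (div_le_div_of_nonneg_right (h2 ?_) (by positivity))
  rw [mul_assoc]
  refine Nat.mul_le_mul_left c ?_
  rw [ht']
  have e1 : K' * (K' + s₁ + u + 1) = K' * (K' + s₁ + 1) + K' * u := by ring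
  have e2 : (K' * (K' + s₁ + 2) + K' + 4) * (t + u + R + 1) =
      (K' * (K' + s₁ + 2) + K' + 4) * (t + R) + (K' * (K' + s₁ + 2) + K' + 4) * u +
        (K' * (K' + s₁ + 2) + K' + 4) := by ring
  rw [e1, e2]
  have e3 : t + R ≤ (K' * (K' + s₁ + 2) + K' + 4) * (t + R) :=
    Nat.le_mul_of_pos_left _ (by omega)
  have e4 : K' * u + u ≤ (K' * (K' + s₁ + 2) + K' + 4) * u := by
    have : K' * u + u = (K' + 1) * u := by ring
    rw [this]
    exact Nat.mul_le_mul_right u (by omega)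
  have e5 : K' * (K' + s₁ + 1) ≤ K' * (K' + s₁ + 2) := Nat.mul_le_mul_left _ (by omega)
  omega

end Pool.STAT.GRD
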