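import Pool.Agent.H80.STAT.BalB
import Pool.Agent.H77.STAT.GmI

/-!
# The paths of balls in an affine cell

`pth_cell`: the paths of balls to the windows of the grid of an affine cell `CellI`.
-/

set_option autoImplicit false

namespace Pool.STAT.BAL

open Pool.LEV Pool.STAT

/-- **The paths of balls in an affine cell.** The windows `ϖ + j ζ`, `j ≤ M`, between `b - r / 8`
and `b`. -/
theorem pth_cell {L : ℕ → ℝ → ℝ → ℝ} {n s S M : ℕ} {σ : ℕ → ℝ} {b r ε v₀ μ ϖ ζ κ₀ : ℝ}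
    (H : CellI L n σ s b r ε) (hlaw : ∀ i ≤ n, Law (L i))
    (hge : ∀ i ≤ n, ∀ z, 0 ≤ z → z ≤ b → z ≤ L i z z) (hlt : ∀ i ≤ n, L i b b < 1)
    (hr : 0 < r) (hμ : 0 < μ) (hϖ : b - r / 8 ≤ ϖ) (hζ : 0 ≤ ζ)
    (hMζ : ϖ + M * ζ ≤ b) (hσ : ∀ i ≤ n, 1 ≤ σ i ∧ σ i ≤ s) (hS : 2 * s ≤ S) (hv0 : 0 ≤ v₀)
    (hκ0 : 0 < κ₀) (hκv : κ₀ ≤ ϖ - v₀) (hκS : 1 ≤ S * κ₀) :
    ∃ N : ℕ, 1 ≤ N ∧ ∀ j ≤ M, Pth (n + 1) S v₀ (2 * ε * r) μ (fun l y => L l y y) (ϖ + j * ζ) N
      (mshP κ₀ N) := by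
  have hr0 := H.lo
  have hr1 := H.hi
  have hMζ0 : 0 ≤ (M : ℝ) * ζ := by positivity
  have hb1 : b ≤ 1 := by linarith
  -- the diagonal in the box
  have hdg : ∀ i ≤ n, ∀ w, b - r ≤ w → w ≤ b → |L i w w - L i b b - σ i * (w - b)| ≤ ε * r := by
    intro i hi w h1 h2
    rcases Nat.lt_or_ge i n with h3 | h3
    · have h4 := H.bas i h3 w w h1 le_rfl (by linarith)
      have e1 : L i w w - L i b b - (w - b) - (σ i - 1) * (w - b) =
        L i w w - L i b b - σ i * (w - b) := by ring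
      rwa [e1] at h4
    · have e1 : i = n := by omega
      rw [e1]
      exact H.tgt w w h1 le_rfl (by linarith)
  refine pth_mesh hμ hκ0 hζ hκv hκS (fun z h1 h2 l hl => hge l (by omega) z (by linarith)
    (by linarith)) (fun z z' h1 h2 h3 l hl => ?_) fun j hj κ h1 h2 l hl => ?_
  · have hz0 : 0 ≤ z := by linarith
    have hl' : l ≤ n := by omega
    have h6 := (hlaw l hl').slope z z (z' - z) hz0 le_rfl (by linarith) (by linarith)
    rw [show z + (z' - z) = z' by ring] at h6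
    have h7 := (hlaw l hl').mono_w z' z z' hz0 h2 le_rfl (by linarith)
    have h8 := (hlaw l hl').mono_w b z' b (by linarith) (by linarith) le_rfl hb1
    have h9 := (hlaw l hl').mono_a z' b z' (by linarith) le_rfl (by linarith) hb1
    have h10 := hlt l hl'
    show L l z z + (z' - z) ≤ L l z' z'
    rcases min_le_iff.1 h6 with h11 | h11
    · linarith
    · linarith
  · have hl' : l ≤ n := by omega
    obtain ⟨hs1, hs2⟩ := hσ l hl'
    obtain ⟨w, hw⟩ : ∃ w, w = ϖ + j * ζ := ⟨_, rfl⟩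
    have hj0 : 0 ≤ (j : ℝ) * ζ := by positivity
    have hjM : (j : ℝ) * ζ ≤ M * ζ := mul_le_mul_of_nonneg_right (by exact_mod_cast hj) hζ
    have hw1 : b - r / 8 ≤ w := by rw [hw]; linarith
    have hw2 : w ≤ b := by rw [hw]; linarith
    rw [← hw]
    have hSr : (2 : ℝ) * s ≤ S := by exact_mod_cast hS
    have hs0 : (1 : ℝ) ≤ s := hs1.trans hs2
    have h3 := abs_le.1 (hdg l hl' w (by linarith) hw2)
    show L l w w ≤ L l (w - κ) (w - κ) + S * κ + 2 * ε * r
    have hSκ : (s + s) * κ ≤ S * κ := mul_le_mul_of_nonneg_right (by linarith) h1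
    have hsκ : 0 ≤ (s : ℝ) * κ := by positivity
    rcases le_total κ (7 * r / 8) with h4 | h4
    · have h5 := abs_le.1 (hdg l hl' (w - κ) (by linarith) (by linarith))
      have h6 : σ l * κ ≤ s * κ := mul_le_mul_of_nonneg_right hs2 h1
      have e1 : σ l * (w - κ - b) = σ l * (w - b) - σ l * κ := by ring
      rw [e1] at h5
      linarith [h3.2, h5.1]
    · have h5 := H.sl l hl' (b - w + κ) (by linarith) (by
        have : κ₀ ≤ w - v₀ := by rw [hw]; linarith
        linarith)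
      rw [show b - (b - w + κ) = w - κ by ring] at h5
      have h6 : σ l * (w - b) ≤ 0 := mul_nonpos_of_nonneg_of_nonpos (by linarith) (by linarith)
      have h7 : (s : ℝ) * (b - w) ≤ s * κ := mul_le_mul_of_nonneg_left (by linarith) (by linarith)
      have e1 : (s : ℝ) * (b - w + κ) = s * (b - w) + s * κ := by ring
      rw [e1] at h5
      linarith [h3.2]

end Pool.STAT.BAL
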