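import Pool.Agent.H80.STAT.RowN5
import Pool.Agent.H82.STAT.Dpf

/-!
# The digits of the height of the drop-out system

`rat_dd`: 12's `RatN` for 82's drop-out system, from the rows of the fat chain given the exact time.
-/

set_option autoImplicit false

namespace Pool.STAT.RR

open Finset MvPolynomial
open Pool.Agent.H49.Ent Pool.Agent.H32.Dense Pool.STK Pool.KS3 Pool.KA Pool.KSAT Pool.K2S Pool.PB
  Pool.GEN
open Pool.STAT.CLO Pool.STAT.CDat Pool.STAT.DPP
open Pool.FLF (Fam.sub)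

/-- The natural heights over the fat chain. -/
noncomputable def fh {m J : ℕ} {F : Fam m J} (C : CDat F) (e : ℕ → Fin m) (w₀ z : ℕ)
    (g : ℕ → ℕ → ℕ) (v : ℕ) (ω : F.Ω) (j : ℕ) : ℝ :=
  2 ^ g v j * (F.x ω (e j) - eval (cx F e ω) (C.Ph w₀ z v ω j))

open Classical in
/-- The natural heights of the fat chain as polynomials of the label of the drop-out system. -/
noncomputable def psi {m J : ℕ} {F : Fam m J} (C B : CDat F) (T : TDat F) (p : ℕ → Prop)
    [DecidablePred p] (N w₀ z : ℕ) (g : ℕ → ℕ → ℕ) (v : ℕ)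
    (x : ((k' : ℕ) → Option ((dd C B T p (N + 1) w₀ z g).V k')) × ℕ) (j : Fin N) : PN :=
  match x.1 v with
  | some V => MvPolynomial.C ((2 : ℝ) ^ g v (j + 1)) *
      bind₁ (frm C T p (N + 1) w₀ z g V.1 V.2.2.2) (X ((j : ℕ) + 1) - C.G v V.2.1 (j + 1))
  | none => 0

variable {m J : ℕ} {F : Fam m J} {C B : CDat F} {T : TDat F} {p : ℕ → Prop}
  {e : ℕ → Fin m} {N K w₀ z M : ℕ} {g h : ℕ → ℕ → ℕ} {C₁ S Q ε : ℝ} {A : F.Ω → Prop}

theorem psi_pol [DecidablePred p] (H : Hyp C B T p e (N + 1) K w₀ z M g h C₁ S Q ε A) {v : ℕ}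
    (hv : v ≤ M) (x : ((k' : ℕ) → Option ((dd C B T p (N + 1) w₀ z g).V k')) × ℕ) (j : Fin N) :
    (psi C B T p N w₀ z g v x j).vars ⊆ range (Nat.count p (N + 1)) ∧
      (psi C B T p N w₀ z g v x j).totalDegree ≤ (K + 1) * (K + 2) ^ (N + 2) * (K + 1) := by
  unfold psi
  have hj := j.2
  split
  · rename_i V hV
    have tri0 : TriN (cut (N + 1) (Ph0 C w₀ z V.1)) := cut_tri fun i hi => by
      unfold Ph0
      split_ifs with h0
      · rw [vars_C]
        exact Finset.empty_subset _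
      · exact H.fat.tri 0 (Nat.zero_le M) V.1.1 i (by omega) hi
    have deg0 : ∀ i : ℕ, (cut (N + 1) (Ph0 C w₀ z V.1) i).totalDegree ≤ K :=
      cut_deg fun i hi => by
        unfold Ph0
        split_ifs with h0
        · rw [totalDegree_C]
          exact Nat.zero_le K
        · exact H.fat.deg 0 (Nat.zero_le M) V.1.1 i (by omega) hi
    have hlast := H.stc.st_last
    have h1 := fr_bind (p := p) (γ := g0 w₀ z g 0) (Φ := cut (N + 1) (Ph0 C w₀ z V.1))
      (Θ := T.P V.2.2.2) (K := K + 1) (D := K + 1) (N := N + 1) (i := Nat.count p (N + 1))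
      (F := X ((j : ℕ) + 1) - C.G v V.2.1 (j + 1)) H.stc tri0
      (fun i => (deg0 i).trans (Nat.le_succ K)) (by omega) hlast.le (by
        rw [hlast]
        refine AdxRow.vars_sub_le (AdxRow.vars_X_le (by omega)) ?_
        exact (H.fat.tri v hv V.2.1 (j + 1) (by omega) (by omega)).trans
          (Finset.range_mono (by omega)))
      ((totalDegree_sub _ _).trans (max_le (by rw [totalDegree_X]; omega)
        ((H.fat.deg v hv V.2.1 (j + 1) (by omega) (by omega)).trans (Nat.le_succ K))))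
      (fun i _ hi => H.Tvars _ i hi) (fun i _ hi => (H.Tdeg _ i hi).trans (Nat.le_succ K))
    constructor
    · exact AdxRow.vars_mul_le (AdxRow.vars_C_le _) h1.1
    · refine (totalDegree_mul _ _).trans ?_
      rw [totalDegree_C, zero_add]
      exact h1.2
  · constructor
    · rw [vars_0]
      exact Finset.empty_subset _
    · rw [totalDegree_zero]
      exact Nat.zero_le _

/-- **The natural heights of the fat chain** are almost polynomials of the label of the drop-out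
system. -/
theorem psi_near (N K : ℕ) : ∃ (c : ℕ) (T₀ : ℝ), 2 ≤ T₀ ∧ ∀ {m J : ℕ} {F : Fam m J}
    (C B : CDat F) (T : TDat F) (p : ℕ → Prop) [DecidablePred p] (e : ℕ → Fin m)
    (w₀ z M : ℕ) (g h : ℕ → ℕ → ℕ) (C₁ S Q ε : ℝ) (A : F.Ω → Prop),
    Hyp C B T p e (N + 1) K w₀ z M g h C₁ S Q ε A → 0 ≤ S → T₀ ≤ Q → 0 ≤ ε → ε ≤ 1 →
    ∀ v ≤ M, ∀ ω, A ω → ∀ j : Fin N,
      |fh C e w₀ z g v ω (j + 1) - eval (dx C p e (N + 1) w₀ z ω)
        (psi C B T p N w₀ z g v ((dd C B T p (N + 1) w₀ z g).lab w₀ z v ω) j)| ≤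
      Q ^ c * ε := by
  obtain ⟨d, T₁, hT₁, h1⟩ := dif (N + 1) K 1
  refine ⟨d + 2, T₁ + 1, by linarith, ?_⟩
  intro m J F C B T p _ e w₀ z M g h C₁ S Q ε A H hS hQ hε hε1 v hv ω hω j
  have hj := j.2
  have hQ2 : 2 ≤ Q := by linarith
  have hQ1 : 1 ≤ Q := by linarith
  have hQ0 : 0 ≤ Q := by linarith
  have hL := H.lev hS hQ2 hω hv
  have h2 := h1 p _ _ _ _ _ _ _ S Q ε hL (by linarith) (j + 1) (by omega)
    (fp p (g0 w₀ z g 0) (cut (N + 1) (C.Ph w₀ z 0 ω)) (T.P (T.li (slam F w₀ ω)))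
      (dx C p e (N + 1) w₀ z ω)) (cx F e ω) ε hε
    (fun l hl => by
      rw [pow_one]
      exact ((H.nat_near hε hε1 hω (show l < N + 1 by omega)).2.1).trans hQ2)
    (fun l hl => by
      rw [pow_one]
      exact ((H.nat_near hε hε1 hω (show l < N + 1 by omega)).1).trans (by linarith))
    (fun l hl => (H.nat_near hε hε1 hω (show l < N + 1 by omega)).2.2)
  have h3 := (H.nat_near hε hε1 hω (show (j : ℕ) + 1 < N + 1 by omega)).2.2
  obtain ⟨P, hP⟩ : ∃ P, P = fp p (g0 w₀ z g 0) (cut (N + 1) (C.Ph w₀ z 0 ω))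
      (T.P (T.li (slam F w₀ ω))) (dx C p e (N + 1) w₀ z ω) := ⟨_, rfl⟩
  rw [← hP] at h2 h3
  -- the value of `psi`
  have hval : eval (dx C p e (N + 1) w₀ z ω)
      (psi C B T p N w₀ z g v ((dd C B T p (N + 1) w₀ z g).lab w₀ z v ω) j) =
      2 ^ g v (j + 1) * (P (j + 1) - eval P (C.Ph w₀ z v ω (j + 1))) := by
    unfold psi
    have e1 : ((dd C B T p (N + 1) w₀ z g).lab w₀ z v ω).1 v =
        some ((dd C B T p (N + 1) w₀ z g).li v (slam F (w₀ + v * z) ω)) := if_pos le_rfl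
    rw [e1]
    show eval (dx C p e (N + 1) w₀ z ω) (MvPolynomial.C ((2 : ℝ) ^ g v (j + 1)) *
      bind₁ (frm C T p (N + 1) w₀ z g (C.li 0 (co z v (slam F (w₀ + v * z) ω)),
        (co z v (slam F (w₀ + v * z) ω)).2.2) (T.li (co z v (slam F (w₀ + v * z) ω))))
        (X ((j : ℕ) + 1) - C.G v (C.li v (slam F (w₀ + v * z) ω)) (j + 1))) = _
    rw [co_slam (H.wk hv)]
    unfold frm
    rw [Ph0_slam, map_mul, eval_C, eval_fr, ← hP, map_sub, eval_X]
    unfold CDat.Ph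
    rw [if_neg (by omega)]
  rw [hval]
  unfold fh
  rw [← mul_sub, abs_mul, abs_of_pos (by positivity), ← Hyp.cx_pos F e ω (show 1 ≤ (j : ℕ) + 1 by omega)]
  -- the difference
  have h4 : cx F e ω (j + 1) - eval (cx F e ω) (C.Ph w₀ z v ω (j + 1)) -
      (P (j + 1) - eval P (C.Ph w₀ z v ω (j + 1))) =
      ((cx F e ω (j + 1) - eval (cx F e ω) (cut (N + 1) (C.Ph w₀ z 0 ω) (j + 1))) -
        (P (j + 1) - eval P (cut (N + 1) (C.Ph w₀ z 0 ω) (j + 1)))) -
      (eval (cx F e ω) (cut (N + 1) (C.Ph w₀ z v ω) (j + 1) -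
        cut (N + 1) (C.Ph w₀ z 0 ω) (j + 1)) -
      eval P (cut (N + 1) (C.Ph w₀ z v ω) (j + 1) -
        cut (N + 1) (C.Ph w₀ z 0 ω) (j + 1))) := by
    rw [cut_of_le (show (j : ℕ) + 1 ≤ N + 1 by omega), cut_of_le (show (j : ℕ) + 1 ≤ N + 1 by omega),
      map_sub, map_sub]
    ring
  have h5 : |(cx F e ω (j + 1) - eval (cx F e ω) (cut (N + 1) (C.Ph w₀ z 0 ω) (j + 1))) -
      (P (j + 1) - eval P (cut (N + 1) (C.Ph w₀ z 0 ω) (j + 1)))| ≤
      ε / 2 ^ g0 w₀ z g 0 (j + 1) := by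
    rw [le_div_iff₀ (by positivity), mul_comm]
    unfold nc at h3
    rw [← mul_sub, abs_mul, abs_of_pos (by positivity)] at h3
    exact h3
  have h6 : (2 : ℝ) ^ g v (j + 1) ≤ Q * 2 ^ g0 w₀ z g 0 (j + 1) := by
    rw [g0_pos (by omega)]
    exact H.ratio v hv (j + 1) (by omega) (by omega)
  rw [h4]
  have h7 := (abs_sub (((cx F e ω (j + 1) - eval (cx F e ω) (cut (N + 1) (C.Ph w₀ z 0 ω) (j + 1))) -
      (P (j + 1) - eval P (cut (N + 1) (C.Ph w₀ z 0 ω) (j + 1)))))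
      (eval (cx F e ω) (cut (N + 1) (C.Ph w₀ z v ω) (j + 1) -
        cut (N + 1) (C.Ph w₀ z 0 ω) (j + 1)) -
      eval P (cut (N + 1) (C.Ph w₀ z v ω) (j + 1) -
        cut (N + 1) (C.Ph w₀ z 0 ω) (j + 1)))).trans (add_le_add h5 h2)
  calc (2 : ℝ) ^ g v (j + 1) * |_| ≤ (Q * 2 ^ g0 w₀ z g 0 (j + 1)) *
        (ε / 2 ^ g0 w₀ z g 0 (j + 1) + Q ^ d * ε / 2 ^ g0 w₀ z g 0 (j + 1)) :=
        mul_le_mul h6 h7 (abs_nonneg _) (by positivity)
    _ = Q * (1 + Q ^ d) * ε := by field_simp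
    _ ≤ Q ^ (d + 2) * ε := by
        refine mul_le_mul_of_nonneg_right ?_ hε
        have h8 : (1 : ℝ) ≤ Q ^ d := one_le_pow₀ hQ1
        calc Q * (1 + Q ^ d) ≤ Q * (2 * Q ^ d) := mul_le_mul_of_nonneg_left (by linarith) hQ0
          _ = 2 * (Q * Q ^ d) := by ring
          _ ≤ Q * (Q * Q ^ d) := mul_le_mul_of_nonneg_right hQ2 (by positivity)
          _ = Q ^ (d + 2) := by ring

/-! ### The digits of the heights given the line and the near digits of the time -/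

/-- The path of a line as polynomials of the time. -/
noncomputable def pth {m J : ℕ} {F : Fam m J} (e : ℕ → Fin m) (x : LnT F) (i : ℕ) : PN :=
  if i = 0 then X 0 else MvPolynomial.C (x.1.1 (e i)) + MvPolynomial.C (x.1.2 (e i)) * X 0

/-- The natural heights of the path over the label of level `v`. -/
noncomputable def phx {m J : ℕ} {F : Fam m J} (C : CDat F) (e : ℕ → Fin m) (N v : ℕ)
    (g : ℕ → ℕ → ℕ) (x : LnT F × ℕ) (j : Fin (N + 1)) : PN :=
  MvPolynomial.C ((2 : ℝ) ^ g v (j + 1)) *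
    bind₁ (pth e x.1) (X ((j : ℕ) + 1) - C.G v (C.li v (x.1.1, x.1.2.1, x.2)) (j + 1))

theorem pth_vars {m J : ℕ} {F : Fam m J} (e : ℕ → Fin m) (x : LnT F) (i : ℕ) :
    (pth e x i).vars ⊆ range 1 := by
  unfold pth
  split_ifs
  · exact AdxRow.vars_X_le (by omega)
  · exact AdxRow.vars_add_le (AdxRow.vars_C_le _) (AdxRow.vars_mul_le (AdxRow.vars_C_le _)
      (AdxRow.vars_X_le (by omega)))

theorem pth_deg {m J : ℕ} {F : Fam m J} (e : ℕ → Fin m) (x : LnT F) (i : ℕ) :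
    (pth e x i).totalDegree ≤ 1 := by
  unfold pth
  split_ifs
  · rw [totalDegree_X]
  · refine (totalDegree_add _ _).trans (max_le ?_ ?_)
    · rw [totalDegree_C]
      exact Nat.zero_le 1
    · refine (totalDegree_mul _ _).trans ?_
      rw [totalDegree_C, totalDegree_X]

open Classical in
/-- **The digits of the heights given the line and the near digits of the time.** -/
theorem var_cd (N K : ℕ) : ∃ C₃ : ℝ, 1 ≤ C₃ ∧ ∀ U : ℕ, 1 ≤ U → ∃ κ : ℝ, 0 < κ ∧ ∃ z₀ : ℕ,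
    ∀ {m J : ℕ} {F : Fam m J} (C : CDat F) (e : ℕ → Fin m) (w₀ z M : ℕ) (g : ℕ → ℕ → ℕ)
      (C₁ : ℝ) (A E : F.Ω → Prop) (v : ℕ), z₀ ≤ z → v + U ≤ M → w₀ + (M + 1) * z ≤ J →
      C.Cnd e (N + 1) K w₀ z M g C₁ A → 0 < Pe F.p E → (∀ ω, E ω → A ω) →
      ((J - w₀ : ℕ) : ℝ) * Real.log 2 - κ * z ≤
        CH (Pool.Agent.H49.Ent.cond F.p E True) F.T (slam F w₀) →
      ∀ P : ℕ, P ≤ U * z →
        CH (Pool.Agent.H49.Ent.cond F.p E True)
          (fun ω => (⌊(2 : ℝ) ^ P * fh C e w₀ z g v ω (N + 1)⌋,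
            ((fun j : Fin N => ⌊(2 : ℝ) ^ (U * z) * fh C e w₀ z g v ω (j + 1)⌋),
              C.lab w₀ z v ω)))
          (fun ω => (slam F w₀ ω, F.T ω / 2 ^ (J - (w₀ + (v + U) * z)))) ≤ C₃ * z := by
  classical
  obtain ⟨C₃, hC₃, hdom⟩ := domR 1 (K + 1) (N + 1) 0 le_rfl
  refine ⟨C₃, hC₃, fun U hU => ?_⟩
  obtain ⟨κ, hκ, z₀, hdom⟩ := hdom U hU
  obtain ⟨z₁, hz₁⟩ := exists_nat_ge (8 / κ)
  refine ⟨κ / 2, by positivity, max z₀ z₁, ?_⟩
  intro m J F C e w₀ z M g C₁ A E v hz hvU htop hC hE hEA htime P hP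
  have hz0 : z₀ ≤ z := (le_max_left _ _).trans hz
  have hz1 : 8 ≤ κ * z := by
    have h1 : (z₁ : ℝ) ≤ z := by exact_mod_cast (le_max_right _ _).trans hz
    have h2 : 8 / κ ≤ z := hz₁.trans h1
    rwa [div_le_iff₀' hκ] at h2
  have hv : v ≤ M := by omega
  have hJvU : w₀ + (v + U) * z ≤ J := by
    have : (v + U) * z ≤ (M + 1) * z := Nat.mul_le_mul_right _ (by omega)
    omega
  have hJv : w₀ + v * z ≤ J := by
    have : v * z ≤ (v + U) * z := Nat.mul_le_mul_right _ (by omega)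
    omega
  have hJv1 : w₀ + (v * z + z) ≤ J := by
    have h1 : v * z + z ≤ (v + U) * z := by
      have : (v + 1) * z ≤ (v + U) * z := Nat.mul_le_mul_right _ (by omega)
      linarith [Nat.succ_mul v z]
    omega
  obtain ⟨q, hq⟩ : ∃ q, q = Pool.Agent.H49.Ent.cond F.p E True := ⟨_, rfl⟩
  have hp : IsLaw q := by rw [hq]; exact isLaw_cond F.isLaw hE
  have hqn := hp.nonneg
  have hsupp : ∀ ω, 0 < q ω → A ω := fun ω hω => hEA ω (cond_supp (hq ▸ hω))
  rw [← hq] at htime ⊢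
  have l2 : 0 < Real.log 2 := Real.log_pos (by norm_num)
  -- the system of the time
  obtain ⟨c, hc⟩ : ∃ c : F.Ω → LnT F × ℕ, c = fun ω => (slam F w₀ ω, F.T1 (w₀ + v * z) ω) :=
    ⟨_, rfl⟩
  obtain ⟨Pt, hPt⟩ : ∃ Pt : LnT F × ℕ → ℕ → PN, Pt = fun x i =>
    if i = 0 then MvPolynomial.C ((x.2 : ℝ) / 2 ^ (w₀ + v * z)) else 0 := ⟨_, rfl⟩
  obtain ⟨γ, hγ⟩ : ∃ γ : ℕ → ℕ, γ = fun i => if i = 0 then w₀ + v * z else 0 := ⟨_, rfl⟩
  obtain ⟨X', hX'⟩ : ∃ X' : F.Ω → ℕ → ℝ, X' = fun ω i => if i = 0 then F.t ω else 0 := ⟨_, rfl⟩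
  have hh0 : ∀ ω, ht X' c Pt ω 0 = F.t ω - (F.T1 (w₀ + v * z) ω : ℝ) / 2 ^ (w₀ + v * z) := by
    intro ω
    unfold ht
    rw [hX', hPt, hc]
    simp only [if_true, eval_C]
  have hL : Lvl q X' 1 (K + 1) c Pt γ := by
    refine ⟨fun x i => ?_, fun x i => ?_, fun ω _ i hi => ?_⟩
    · rw [hPt]
      simp only
      split_ifs
      · rw [totalDegree_C]; exact Nat.zero_le _
      · rw [totalDegree_zero]; exact Nat.zero_le _
    · rw [hPt]
      simp only
      split_ifs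
      · rw [vars_C]; exact Finset.empty_subset _
      · rw [vars_0]; exact Finset.empty_subset _
    · rcases Nat.eq_zero_or_pos i with h0 | h0
      · subst h0
        rw [hh0, hγ]
        simp only [if_true]
        exact DPP.time_near F hJv ω
      · unfold ht
        rw [hX', hPt, hγ]
        simp only [if_neg (show i ≠ 0 by omega), map_zero, sub_zero, abs_zero]
        positivity
  -- the time is full
  have hfull : ((1 : ℕ) : ℝ) * (z * Real.log 2) - κ * z ≤ CH q (nd 1 γ z (ht X' c Pt)) c := by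
    have hln : Det q (slam F w₀) (fun ω => F.T ω / 2 ^ (J - w₀)) := fun ω ω' _ _ ee =>
      congrArg (·.2.2) ee
    have h1 := time_cell hp F.T (slam F w₀) (y := v * z) hJv hln htime
    have h2 : (fun ω => (slam F w₀ ω, F.T ω / 2 ^ (J - (w₀ + v * z)))) = c := by
      rw [hc]
      rfl
    rw [h2] at h1
    have h3 := CH_le_add hqn F.T (nd 1 γ z (ht X' c Pt)) c
    have h4 := CH_le_int hqn hp.sum_one (fun ω => ((F.T ω : ℕ) : ℤ))
      (fun ω => (nd 1 γ z (ht X' c Pt) ω, c ω))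
      (fun _ => ((2 ^ (J - (w₀ + (v * z + z))) : ℕ) : ℝ)) (fun ω ω' _ _ ee => by
        simp only [Prod.mk.injEq] at ee
        have h5 := congrFun ee.1 0
        unfold nd at h5
        have h6 := Cnt12.cell_near (by positivity) h5
        simp only [Fin.val_zero] at h6
        rw [hh0, hh0, hγ] at h6
        have h7 : F.T1 (w₀ + v * z) ω = F.T1 (w₀ + v * z) ω' := by
          have := ee.2
          rw [hc] at this
          exact congrArg Prod.snd this
        rw [h7] at h6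
        simp only [if_true] at h6
        have h8 : F.t ω' - (F.T1 (w₀ + v * z) ω' : ℝ) / 2 ^ (w₀ + v * z) -
            (F.t ω - (F.T1 (w₀ + v * z) ω' : ℝ) / 2 ^ (w₀ + v * z)) = F.t ω' - F.t ω := by ring
        have h6' : |F.t ω - F.t ω'| ≤ 1 / 2 ^ (w₀ + (v * z + z)) := by
          rw [← add_assoc]
          rw [abs_sub_comm] at h6
          first
          | (rw [h8, abs_sub_comm] at h6; exact h6)
          | (rw [abs_sub_comm, h8, abs_sub_comm] at h6; exact h6)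
        have h9 : (((F.T ω : ℕ) : ℤ) - ((F.T ω' : ℕ) : ℤ) : ℝ) = 2 ^ J * (F.t ω - F.t ω') := by
          unfold Fam.t
          push_cast
          field_simp
        push_cast at h9 ⊢
        rw [h9, abs_mul, abs_of_pos (by positivity)]
        calc (2 : ℝ) ^ J * |F.t ω - F.t ω'| ≤ 2 ^ J * (1 / 2 ^ (w₀ + (v * z + z))) :=
              mul_le_mul_of_nonneg_left h6' (by positivity)
          _ = 2 ^ (J - (w₀ + (v * z + z))) := by
              rw [mul_one_div, div_eq_iff (by positivity), ← pow_add]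
              congr 1
              omega)
    have h5 : CH q F.T (fun ω => (nd 1 γ z (ht X' c Pt) ω, c ω)) ≤
        CH q (fun ω => ((F.T ω : ℕ) : ℤ)) (fun ω => (nd 1 γ z (ht X' c Pt) ω, c ω)) :=
      CH_mono_left hqn fun ω ω' _ _ ee => by
        simp only [Prod.mk.injEq] at ee
        exact_mod_cast ee.1
    rw [Ex_const hp.sum_one] at h4
    have h6 : Real.log (2 * ((2 ^ (J - (w₀ + (v * z + z))) : ℕ) : ℝ) + 1) ≤
        ((J - (w₀ + (v * z + z)) : ℕ) : ℝ) * Real.log 2 + 2 := by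
      have h3 : (1 : ℝ) ≤ 2 ^ (J - (w₀ + (v * z + z))) := one_le_pow₀ (by norm_num)
      push_cast
      refine (Real.log_le_log (by positivity)
        (by linarith : 2 * (2 : ℝ) ^ (J - (w₀ + (v * z + z))) + 1 ≤
          2 ^ (J - (w₀ + (v * z + z))) * 7)).trans ?_
      rw [Real.log_mul (by positivity) (by norm_num), Real.log_pow]
      have := log7
      linarith
    have h7 : ((J - (w₀ + v * z) : ℕ) : ℝ) = ((J - (w₀ + (v * z + z)) : ℕ) : ℝ) + z := by
      have : J - (w₀ + v * z) = J - (w₀ + (v * z + z)) + z := by omega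
      rw [this]
      push_cast
      ring
    rw [h7] at h1
    push_cast
    nlinarith
  -- the heights
  have hval : ∀ ω, A ω → ∀ j : Fin (N + 1), fh C e w₀ z g v ω (j + 1) =
      eval (X' ω) (phx C e N v g (c ω) j) := by
    intro ω hω j
    unfold phx fh
    rw [map_mul, eval_C, Pool.SYS35.eval_bind]
    have h1 : (fun i => eval (X' ω) (pth e (c ω).1 i)) = cx F e ω := by
      funext i
      unfold pth cx
      rw [hX', hc]
      by_cases h0 : i = 0
      · rw [if_pos h0, if_pos h0, eval_X]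
        exact if_pos rfl
      · rw [if_neg h0, if_neg h0, map_add, map_mul, eval_C, eval_C, eval_X]
        unfold Fam.x
        show F.u ω (e i) + F.d ω (e i) * (if (0 : ℕ) = 0 then F.t ω else 0) = _
        rw [if_pos rfl]
        ring
    rw [h1, map_sub, eval_X, Hyp.cx_pos F e ω (by omega)]
    have h2 : C.Ph w₀ z v ω ((j : ℕ) + 1) = C.G v (C.li v (slam F (w₀ + v * z) ω)) (j + 1) :=
      if_neg (by omega)
    rw [h2, hc]
    rfl
  have hd := hdom F.Ω (LnT F × ℕ) q z X' c Pt γ (fun ω j => fh C e w₀ z g v ω (j + 1))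
    (phx C e N v g) hz0 hp hL (fun x j => by
      unfold phx
      have hj := j.2
      refine (totalDegree_mul _ _).trans ?_
      rw [totalDegree_C, zero_add]
      refine (Dgb.deg_bind (B := 1) fun k _ => pth_deg e x.1 k).trans ?_
      rw [mul_one]
      exact (totalDegree_sub _ _).trans (max_le (by rw [totalDegree_X]; omega)
        ((hC.deg v hv _ (j + 1) (by omega) (by omega)).trans (Nat.le_succ K))))
    (fun x j => by
      unfold phx
      refine AdxRow.vars_mul_le (AdxRow.vars_C_le _) ?_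
      intro k hk
      obtain ⟨l, _, hkl⟩ := mem_vars_bind₁ _ _ hk
      exact pth_vars e x.1 l hkl)
    (fun ω hω j => by
      have hj := j.2
      have h3 := hC.pos v hv ω (hsupp ω hω) (j + 1) (by omega) (by omega)
      unfold fh
      rw [abs_mul, abs_of_pos (by positivity)]
      rwa [le_div_iff₀ (by positivity), mul_comm] at h3)
    (fun ω hω j => by
      rw [hval ω (hsupp ω hω) j, sub_self, abs_zero]
      positivity) hfull
  refine le_trans ?_ hd
  refine (CH_mono_left hqn fun ω ω' _ _ ee => ?_).trans (CH_mono_cond hqn fun ω ω' _ _ ee => ?_)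
  · -- the digits determine the variable
    simp only [Prod.mk.injEq] at ee ⊢
    obtain ⟨e1, e2, e3⟩ := ee
    have hT1 : F.T1 (w₀ + (v + U) * z) ω = F.T1 (w₀ + (v + U) * z) ω' := e3
    have hT2 := T1_of_slam F (w := w₀ + v * z) (by
      have : v * z ≤ (v + U) * z := Nat.mul_le_mul_right _ (by omega)
      omega) hJvU hT1
    refine ⟨?_, ?_, lab_slam C hJv ?_⟩
    · have h1 := congrFun e1 (Fin.last N)
      simp only [Fin.val_last] at h1
      rw [Pool.BFL.floor_coarse hP, Pool.BFL.floor_coarse hP, h1]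
    · funext j
      exact congrFun e1 j.castSucc
    · have h1 : F.l ω = F.l ω' := congrArg (·.1) e2
      have h2 : F.Z ω = F.Z ω' := congrArg (·.2.1) e2
      unfold slam
      rw [h1, h2, hT2]
  · -- the condition
    simp only [Prod.mk.injEq] at ee ⊢
    obtain ⟨e2, e3⟩ := ee
    have hT1 : F.T1 (w₀ + (v + U) * z) ω = F.T1 (w₀ + (v + U) * z) ω' := e3
    have hT2 := T1_of_slam F (w := w₀ + v * z) (by
      have : v * z ≤ (v + U) * z := Nat.mul_le_mul_right _ (by omega)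
      omega) hJvU hT1
    refine ⟨?_, ?_⟩
    · rw [hc]
      simp only [Prod.mk.injEq]
      exact ⟨e2, hT2⟩
    · funext i
      have hi : (i : ℕ) = 0 := by omega
      unfold nd
      rw [hi, hh0, hh0, hγ]
      simp only [if_true]
      have h3 : ∀ ω, ⌊(2 : ℝ) ^ (w₀ + v * z + U * z) * (F.t ω - (F.T1 (w₀ + v * z) ω : ℝ) /
          2 ^ (w₀ + v * z))⌋ = ((F.T1 (w₀ + (v + U) * z) ω : ℕ) : ℤ) -
          ((2 ^ (U * z) * F.T1 (w₀ + v * z) ω : ℕ) : ℤ) := by
        intro ω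
        have h4 : (2 : ℝ) ^ (w₀ + v * z + U * z) * (F.t ω - (F.T1 (w₀ + v * z) ω : ℝ) /
            2 ^ (w₀ + v * z)) = (F.T ω : ℝ) / ((2 ^ (J - (w₀ + (v + U) * z)) : ℕ) : ℝ) -
            (((2 ^ (U * z) * F.T1 (w₀ + v * z) ω : ℕ) : ℤ) : ℝ) := by
          unfold Fam.t
          have h5 : (2 : ℝ) ^ J = 2 ^ (J - (w₀ + (v + U) * z)) * 2 ^ (w₀ + v * z + U * z) := by
            rw [← pow_add]
            congr 1
            have : (v + U) * z = v * z + U * z := by ring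
            omega
          rw [mul_sub, h5]
          push_cast
          rw [pow_add 2 (w₀ + v * z)]
          field_simp
        rw [h4, Int.floor_sub_intCast, Int.floor_div_natCast, Int.floor_natCast]
        rfl
      rw [h3, h3, hT1, hT2]

/-- **The digits of the height of the drop-out system**, from the rows of the fat chain given the
exact time. -/
theorem rat_dd (N K K'' : ℕ) (p : ℕ → Prop) [DecidablePred p] (C₁ C₂ ρ a : ℝ) (hC₁ : 0 ≤ C₁)
    (hC₂ : 0 ≤ C₂) (hρ1 : ρ ≤ 1) : ∃ (c : ℕ) (C₃ T₀ : ℝ), 1 ≤ C₃ ∧ 2 ≤ T₀ ∧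
    ∀ U : ℕ, 1 ≤ U → ∃ κ : ℝ, 0 < κ ∧ ∃ z₀ : ℕ,
    ∀ {m J : ℕ} {F : Fam m J} (C B : CDat F) (T : TDat F) (e : ℕ → Fin m)
      (w₀ z M : ℕ) (g h : ℕ → ℕ → ℕ) (C₁' S Q ε : ℝ) (A E : F.Ω → Prop) (σ : ℕ → ℝ) (v : ℕ),
      z₀ ≤ z → v + U ≤ M →
      Hyp C B T p e (N + 1) K w₀ z M g h C₁' S Q ε A → 0 ≤ S → T₀ ≤ Q → 0 ≤ ε →
      Q ^ c * ε ≤ 1 / 2 ^ (U * z) → 0 < Pe F.p E → (∀ ω, E ω → A ω) →
      ((dd C B T p (N + 1) w₀ z g).ndX (dx C p e (N + 1) w₀ z) (Nat.count p (N + 1)) w₀ z M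
        (dg p g)).Ok0 (Nat.count p (N + 1)) K'' J w₀ z M σ κ C₁
        (Pool.Agent.H49.Ent.cond F.p E True) →
      (∀ P : ℕ, (P : ℝ) ≤ ρ * (U * z) →
        CH (Pool.Agent.H49.Ent.cond F.p E True)
          (fun ω => ⌊(2 : ℝ) ^ P * fh C e w₀ z g v ω (N + 1)⌋)
          (fun ω => (C.lab w₀ z v ω,
            ((fun j : Fin N => ⌊(2 : ℝ) ^ (U * z) * fh C e w₀ z g v ω (j + 1)⌋), F.T ω))) ≤
          (1 - a) * (P * Real.log 2) + C₂ * z) →
      ((dd C B T p (N + 1) w₀ z g).ndX (dx C p e (N + 1) w₀ z) (Nat.count p (N + 1)) w₀ z M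
        (dg p g)).RatN (Nat.count p (N + 1)) z U a C₃ ρ v
        (Pool.Agent.H49.Ent.cond F.p E True) := by
  classical
  by_cases hn : 1 ≤ Nat.count p (N + 1)
  swap
  · refine ⟨0, 1, 2, le_rfl, le_rfl, fun U _ => ⟨1, one_pos, 0, ?_⟩⟩
    intro m J F C B T e w₀ z M g h C₁' S Q ε A E σ v _ _ H
    exact absurd (H.stc.ix_pos (j := N + 1) (by omega)) hn
  obtain ⟨c₁, T₁, hT₁, hpsi⟩ := psi_near N K
  obtain ⟨c₂, T₂, hT₂, hrh⟩ := rh_near (N + 1) K
  obtain ⟨Km, hKm⟩ : ∃ Km, Km = max K'' ((K + 1) * (K + 2) ^ (N + 2) * (K + 1)) := ⟨_, rfl⟩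
  obtain ⟨C₄, hC₄, hvr⟩ := var_cd N K
  obtain ⟨C₃, hC₃, hrat⟩ := rat_nf (Nat.count p (N + 1)) N Km C₁ (C₂ + C₄) 1 ρ a hn hC₁
    (by linarith) zero_le_one hρ1
  refine ⟨c₁ + c₂ + 1, C₃, T₁ + T₂, hC₃, by linarith, fun U hU => ?_⟩
  obtain ⟨κa, hκa, za, hrat⟩ := hrat U hU
  obtain ⟨κb, hκb, zb, hvr⟩ := hvr U hU
  refine ⟨min κa κb, lt_min hκa hκb, max za zb, ?_⟩
  intro m J F C B T e w₀ z M g h C₁' S Q ε A E σ v hz hvU H hS hQ hε hεQ hE hEA hOk hNF
  have hv : v ≤ M := by omega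
  have hza : za ≤ z := (le_max_left _ _).trans hz
  have hzb : zb ≤ z := (le_max_right _ _).trans hz
  have hz0 : (0 : ℝ) ≤ z := Nat.cast_nonneg z
  have hκa' : min κa κb * (z : ℝ) ≤ κa * z := mul_le_mul_of_nonneg_right (min_le_left _ _) hz0
  have hκb' : min κa κb * (z : ℝ) ≤ κb * z := mul_le_mul_of_nonneg_right (min_le_right _ _) hz0
  have hQ1 : 1 ≤ Q := by linarith
  have hQ0 : 0 ≤ Q := by linarith
  have hsupp : ∀ ω, 0 < Pool.Agent.H49.Ent.cond F.p E True ω → A ω := fun ω hω =>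
    hEA ω (cond_supp hω)
  have hp2 : (1 : ℝ) / 2 ^ (U * z) ≤ 1 := by
    rw [div_le_one (by positivity)]
    exact one_le_pow₀ (by norm_num)
  have hε1 : ε ≤ 1 := by
    refine le_trans ?_ (hεQ.trans hp2)
    have : 1 * ε ≤ Q ^ (c₁ + c₂ + 1) * ε := mul_le_mul_of_nonneg_right (one_le_pow₀ hQ1) hε
    linarith
  have hc1 : Q ^ c₁ * ε ≤ 1 / 2 ^ (U * z) :=
    (mul_le_mul_of_nonneg_right (pow_up hQ1 (by omega)) hε).trans hεQ
  have hc2 : Q ^ (c₂ + 1) * ε ≤ 1 / 2 ^ (U * z) :=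
    (mul_le_mul_of_nonneg_right (pow_up hQ1 (by omega)) hε).trans hεQ
  have hOk' : ((dd C B T p (N + 1) w₀ z g).ndX (dx C p e (N + 1) w₀ z) (Nat.count p (N + 1))
      w₀ z M (dg p g)).Ok0 (Nat.count p (N + 1)) Km J w₀ z M σ κa C₁
      (Pool.Agent.H49.Ent.cond F.p E True) :=
    { hOk with
      P_deg := fun k x i => (hOk.P_deg k x i).trans (by rw [hKm]; exact le_max_left _ _)
      R_deg := fun l i => (hOk.R_deg l i).trans (by rw [hKm]; exact le_max_left _ _)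
      time := by
        have := hOk.time
        linarith
      full := fun k hk => by
        have := hOk.full k hk
        linarith }
  have hbox : ∀ ω, A ω → ∀ j, 1 ≤ j → j ≤ N + 1 → |fh C e w₀ z g v ω j| ≤ 1 := by
    intro ω hω j h1 h2
    have h3 := H.fat.pos v hv ω hω j h1 h2
    unfold fh
    rw [abs_mul, abs_of_pos (by positivity)]
    rwa [le_div_iff₀ (by positivity), mul_comm] at h3
  refine hrat J w₀ z M v σ ((dd C B T p (N + 1) w₀ z g).ndX (dx C p e (N + 1) w₀ z)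
    (Nat.count p (N + 1)) w₀ z M (dg p g)) (Pool.Agent.H49.Ent.cond F.p E True) _
    (C.lab w₀ z v) (fun ω j => fh C e w₀ z g v ω (j + 1))
    (fun ω => fh C e w₀ z g v ω (N + 1) / 2) (psi C B T p N w₀ z g v) hza hvU hOk'
    (fun ω ω' _ _ hl => labC hl)
    (fun x j => ((psi_pol H hv x j).2).trans (by rw [hKm]; exact le_max_right _ _))
    (fun x j => (psi_pol H hv x j).1)
    (fun ω hω j => hbox ω (hsupp ω hω) _ (by omega) (by have := j.2; omega))
    (fun ω hω j => (hpsi C B T p e w₀ z M g h C₁' S Q ε A H hS (by linarith) hε hε1 v hv ω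
      (hsupp ω hω) j).trans hc1)
    (fun ω hω => ?_) (fun P hP => ?_) (fun P hP => ?_)
  · -- the height
    have h1 := hrh C B T p e w₀ z M g h C₁' S Q ε A H hS (by linarith) hε hε1 v hv ω
      (hsupp ω hω) (Nat.count p (N + 1)) hn le_rfl
    rw [H.stc.st_last] at h1
    have h2 : ((dd C B T p (N + 1) w₀ z g).ndX (dx C p e (N + 1) w₀ z) (Nat.count p (N + 1))
        w₀ z M (dg p g)).g v (Nat.count p (N + 1)) = g v (N + 1) - 1 := by
      rw [ndX_g _ _ _ _ _ _ _ le_rfl, g0_pos hn]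
      unfold dg
      rw [H.stc.st_last]
    have h3 : ((dd C B T p (N + 1) w₀ z g).ndX (dx C p e (N + 1) w₀ z) (Nat.count p (N + 1))
        w₀ z M (dg p g)).rh v ω (Nat.count p (N + 1)) =
        dx C p e (N + 1) w₀ z ω (Nat.count p (N + 1)) - eval (dx C p e (N + 1) w₀ z ω)
          ((dd C B T p (N + 1) w₀ z g).Ph w₀ z v ω (Nat.count p (N + 1))) := by
      unfold NDat.rh
      rw [ndX_P _ _ _ _ _ _ _ hv le_rfl ω]
      rfl
    have h4 := H.g_pos v hv (N + 1) (by omega) le_rfl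
    obtain ⟨b, hb⟩ : ∃ b, g v (N + 1) = b + 1 := ⟨g v (N + 1) - 1, by omega⟩
    have h5 : fh C e w₀ z g v ω (N + 1) / 2 = 2 ^ b * (cx F e ω (N + 1) -
        eval (cx F e ω) (C.Ph w₀ z v ω (N + 1))) := by
      unfold fh
      rw [hb, pow_succ, Hyp.cx_pos F e ω (by omega)]
      ring
    rw [h2, h3, h5, hb, Nat.add_sub_cancel, ← mul_sub, abs_mul, abs_of_pos (by positivity)]
    have h6 := H.ratio v hv (N + 1) (by omega) le_rfl
    rw [hb] at h6
    have h7 : (2 : ℝ) ^ b ≤ 2 ^ (b + 1) := pow_le_pow_right₀ (by norm_num) (Nat.le_succ b)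
    calc (2 : ℝ) ^ b * |_| ≤ (Q * 2 ^ g 0 (N + 1)) * (Q ^ c₂ * ε / 2 ^ g 0 (N + 1)) :=
          mul_le_mul (h7.trans h6) h1 (abs_nonneg _) (by positivity)
      _ = Q ^ (c₂ + 1) * ε := by
          rw [pow_succ]
          field_simp
      _ ≤ 1 / 2 ^ (U * z) := hc2
  · -- the rows
    refine (CH_mono_left (isLaw_cond F.isLaw hE).nonneg fun ω ω' _ _ ee => ?_).trans
      ((hNF P hP).trans (by nlinarith))
    simp only [Prod.mk.injEq] at ee
    have h1 : ∀ x : ℝ, ⌊(2 : ℝ) ^ P * (x / 2)⌋ = ⌊(2 : ℝ) ^ P * x⌋ / 2 := by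
      intro x
      have h2 : (2 : ℝ) ^ P * (x / 2) = (2 ^ P * x) / ((2 : ℕ) : ℝ) := by
        push_cast
        ring
      rw [h2, Int.floor_div_natCast]
      rfl
    rw [h1, h1, ee.1]
  · have hPU : P ≤ U * z := by
      have h4 : (P : ℝ) ≤ U * z := hP.trans (by
        have : 0 ≤ (U : ℝ) * z := by positivity
        nlinarith)
      exact_mod_cast h4
    have hvar := hvr C e w₀ z M g C₁' A E v hzb hvU H.top H.fat hE hEA (by
      have := hOk.time
      refine le_trans ?_ this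
      linarith) P hPU
    refine (CH_mono_left (isLaw_cond F.isLaw hE).nonneg fun ω ω' _ _ ee => ?_).trans
      (hvar.trans (by nlinarith))
    simp only [Prod.mk.injEq] at ee ⊢
    have h1 : ∀ x : ℝ, ⌊(2 : ℝ) ^ P * (x / 2)⌋ = ⌊(2 : ℝ) ^ P * x⌋ / 2 := by
      intro x
      have h2 : (2 : ℝ) ^ P * (x / 2) = (2 ^ P * x) / ((2 : ℕ) : ℝ) := by
        push_cast
        ring
      rw [h2, Int.floor_div_natCast]
      rfl
    refine ⟨?_, ee.1.2.1, ee.1.2.2⟩
    rw [h1, h1, ee.1.1]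

end Pool.STAT.RR

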