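import Pool.Agent.H75.GEN.IsoJ

/-!
# Chains on smaller re-centred balls, with the form of the charts

`mch_isoR`: as `mch_iso` (helper75), the charts are the ones of the balls up to constants.
-/

set_option autoImplicit false

namespace Pool.ISR

open Finset Real MvPolynomial
open Pool.Agent.H49.Ent Pool.Agent.H32.Dense Pool.STK Pool.KA Pool.KSAT Pool.K2S Pool.PB Pool.S6C
open Pool.GEN Pool.CHT Pool.ISO
open Pool.FLF (Fam.sub)
open Pool.ISN

variable {m J : ℕ}

/-- **Chains on smaller re-centred balls**, from the balls of a fine mesh: `mch_iso`; the charts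
are the ones of the balls up to constants. -/
theorem mch_isoR (m r D : ℕ) (hD : 1 ≤ D) : ∃ (C₁ : ℝ) (C : ℕ), 1 ≤ C₁ ∧
    ∀ (J : ℕ) (F : Fam m J) (c : ℕ → Fin m) (r₀ N N₂ : ℕ) (w a ip : ℕ → ℕ)
      (e e₂ δ μ h Bb u : ℕ) (lm : ℕ → ℕ) (g gg : ℕ → ℕ → ℕ) (A : F.Ω → Prop)
      (G : ℕ → PtT F → ℕ → MvPolynomial (Option (Fin m)) ℝ)
      (H : ℕ → LnT F → ℕ → MvPolynomial (Option (Fin m)) ℝ) (θ : ℝ) (Nr : ℕ → Prop)
      (R R' : ℕ → ℕ → Prop), Set.InjOn c (Set.Iio r) → r₀ ≤ r →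
      MCh F c r (fun _ => D) N R w w e g (fun _ => δ) A G H →
      (∀ s < N, Nr s → ChOK F c r₀ (fun _ => D) (w s) (w s) e₂ (g s) A (G s) (H s)) → e₂ ≤ e →
      (∀ s s', s ≤ s' → s' < N → R s s') → (∀ s s', s ≤ s' → s' < N → w s ≤ w s') →
      (∀ s, s + 1 < N → w (s + 1) ≤ w s + h) →
      (∀ s s', s ≤ s' → s' < N → ∀ l < r, g s l + (w s' - w s) ≤ g s' l + μ) →
      Monotone lm → (∀ p < N₂, ip p < N ∧ w (ip p) ≤ a p ∧ w (ip p) ≤ J) →
      (∀ p < N₂, ∀ p' < N₂, R' p p' → a p ≤ a p' ∧ ip p ≤ ip p') →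
      (∀ p < N₂, a p = w (ip p) ∨ r * Bb + r * u + 2 ≤ a p - w (ip p)) →
      (∀ p < N₂, ∀ l < r, gg p l + C + (l + 1) * u + lm l * C ≤
        g (ip p) l + (a p - w (ip p))) →
      (∀ p < N₂, ∀ l < r, g (ip p) l + (a p - w (ip p)) ≤ gg p l + lm (l + 1)) →
      (∀ p < N₂, ∀ l < r, e + g (ip p) l + (a p - w (ip p)) + C ≤ J) →
      C * (lm r + 1) + δ + h + μ + N ≤ Bb → 0 ≤ θ → 0 < Pe F.p A →
      (∀ B : F.Ω → Prop, Sub B A → Pe F.p A ≤ 2 ^ (3 * N₂ + 3) * Pe F.p B →
        ∀ h : 0 < Pe F.p B, (Fam.sub F B h).Tm θ) →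
      (∀ p < N₂, C₁ * (θ + 1) ≤ ((J : ℝ) - w (ip p)) * Real.log 2) →
      Real.exp (C₁ * (θ + 1)) ≤ 2 ^ u →
      ∃ (B : F.Ω → Prop) (G' : ℕ → PtT F → ℕ → MvPolynomial (Option (Fin m)) ℝ)
        (H' : ℕ → LnT F → ℕ → MvPolynomial (Option (Fin m)) ℝ), Sub B A ∧
        Pe F.p A ≤ 2 ^ (3 * N₂) * Pe F.p B ∧
        MCh F c r (fun _ => D) N₂ R' a (fun p => w (ip p)) (e + C * (lm r + 1)) gg
          (fun _ => r * Bb + r * u + 2) B G' H' ∧
        (∀ p < N₂, Nr (ip p) → ChOK F c r₀ (fun _ => D) (a p) (w (ip p))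
          (e₂ + C * (lm r + 1)) (gg p) B (G' p) (H' p)) ∧
        ∀ p y l, ∃ κ : ℝ, G' p y l = G (ip p) y l + MvPolynomial.C κ := by
  classical
  obtain ⟨C₁, c₁, hC₁, hdeep⟩ := pt_deep m r D hD
  obtain ⟨c₂, D₂, hD₂, hcut⟩ := chok_cut r D
  obtain ⟨c₃, hnest⟩ := nest r D
  obtain ⟨c₄, D₄, hD₄, hdil⟩ := nbx_dil r (fun _ => D)
  obtain ⟨C, hCdef⟩ : ∃ C, C = c₁ + c₂ + D₂ + 1 + c₃ + c₄ + 2 * D₄ + 1 := ⟨_, rfl⟩
  refine ⟨C₁, C, hC₁, ?_⟩
  intro J F c r₀ N N₂ w a ip e e₂ δ μ h Bb u lm g gg A G H θ Nr R R' hc hr₀ hM hMn he hR hw hh hs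
    hlm hip hR' hdp hg1 hg2 hJ hB hθ hA hTm hN hu
  have hlD₂ : ∀ l, lm l * D₂ ≤ lm l * C := fun l => Nat.mul_le_mul_left _ (by omega)
  have hCl : C * (lm r + 1) = C * lm r + C := by ring
  have hCl1 : lm r * (D₂ + 1) ≤ C * lm r := by
    rw [Nat.mul_comm]
    exact Nat.mul_le_mul_right _ (by omega)
  have hCl2 : c₃ * (lm r + 1) + lm r ≤ C * (lm r + 1) := by
    have : (c₃ + 1) * (lm r + 1) ≤ C * (lm r + 1) := Nat.mul_le_mul_right _ (by omega)
    have e1 : (c₃ + 1) * (lm r + 1) = c₃ * (lm r + 1) + (lm r + 1) := by ring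
    omega
  have hCl3 : c₄ + (lm r + 2) * D₄ + 1 ≤ C * (lm r + 1) := by
    have : (c₄ + 2 * D₄ + 1) * (lm r + 1) ≤ C * (lm r + 1) :=
      Nat.mul_le_mul_right _ (by omega)
    nlinarith
  have hlmr : lm r ≤ C * lm r := Nat.le_mul_of_pos_left _ (by omega)
  have hBr : ∀ l < r, (l + 1) * Bb ≤ r * Bb := fun l hl => Nat.mul_le_mul_right _ (by omega)
  have hur : ∀ l < r, (l + 1) * u ≤ r * u := fun l hl => Nat.mul_le_mul_right _ (by omega)
  have hlml : ∀ l < r, lm (l + 1) ≤ lm r := fun l hl => hlm (by omega)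
  -- the polynomials
  obtain ⟨G', hG'⟩ : ∃ G' : ℕ → PtT F → ℕ → MvPolynomial (Option (Fin m)) ℝ, G' = fun p =>
      if a p = w (ip p) then G (ip p)
      else fun y i => Gno (c i) J J (fun y => G (ip p) y i) y := ⟨_, rfl⟩
  obtain ⟨H', hH'⟩ : ∃ H' : ℕ → LnT F → ℕ → MvPolynomial (Option (Fin m)) ℝ, H' = fun p =>
      if a p = w (ip p) then H (ip p)
      else fun s i => Hno (c i) (fun s => H (ip p) s i) s := ⟨_, rfl⟩
  -- one point
  obtain ⟨Ψ, hΨ⟩ : ∃ Ψ : ℕ → Unit → (F.Ω → Prop) → Prop, Ψ = fun p _ B =>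
      ChOK F c r (fun _ => D) (a p) (w (ip p)) (e + C * (lm r + 1)) (gg p) B (G' p) (H' p) ∧
      (Nr (ip p) → ChOK F c r₀ (fun _ => D) (a p) (w (ip p)) (e₂ + C * (lm r + 1)) (gg p) B
        (G' p) (H' p)) ∧
      (a p ≠ w (ip p) → ∀ ω, B ω → ∀ i < r, ∀ b : Option (Fin m) → ℝ,
        |b none - F.t ω| ≤ 1 / 2 ^ (w (ip p) + (a p - w (ip p) - r * Bb - 1)) →
          (∀ l < i, |(b (some (c l)) - eval b (G (ip p) (ptr F J ω) l)) -
            (F.x ω (c l) - eval (bt F ω) (G (ip p) (ptr F J ω) l))| ≤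
              1 / 2 ^ (g (ip p) l + (a p - w (ip p) - r * Bb - 1) + 1)) →
          |eval b (G' p (ptr F J ω) i) - eval b (H' p (slam F (w (ip p)) ω) i)| ≤
              1 / 2 ^ (g (ip p) i + (a p - w (ip p) - r * Bb - 1) - (i + 1) * u)) := ⟨_, rfl⟩
  have hΨm : ∀ l x B B', Sub B' B → Ψ l x B → Ψ l x B' := by
    rw [hΨ]
    rintro l x B B' hBB ⟨h1, h2, h3⟩
    exact ⟨h1.sub hBB, fun h => (h2 h).sub hBB, fun h ω hω => h3 h ω (hBB ω hω)⟩
  obtain ⟨B, hBA, hPB, x, hx⟩ := iter_ex (Pe_nonneg F.isLaw) 3 N₂ (B₀ := A) hΨm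
    (κ := 1 / 2 ^ (3 * N₂)) (by positivity) (by rw [one_div, inv_mul_cancel₀ (by positivity)])
    (by
      intro p hp B' hB' hPB'
      obtain ⟨k1, k2, k3⟩ := hip p hp
      have hB'0 : 0 < Pe F.p B' := lt_of_lt_of_le (by positivity) hPB'
      by_cases hap : a p = w (ip p)
      · refine ⟨B', fun _ h => h, by nlinarith, (), ?_⟩
        rw [hΨ]
        have e1 : G' p = G (ip p) := by rw [hG']; exact if_pos hap
        have e2 : H' p = H (ip p) := by rw [hH']; exact if_pos hap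
        show ChOK F c r (fun _ => D) (a p) (w (ip p)) (e + C * (lm r + 1)) (gg p) B' (G' p)
          (H' p) ∧ (Nr (ip p) → ChOK F c r₀ (fun _ => D) (a p) (w (ip p))
            (e₂ + C * (lm r + 1)) (gg p) B' (G' p) (H' p)) ∧ _
        rw [e1, e2, hap]
        refine ⟨?_, fun hn => ?_, fun h => absurd rfl h⟩
        · exact (hcut le_rfl hc hlm ((hM.ok _ k1).sub hB') (fun l hl => by
            have h1 := hg1 p hp l hl
            have h2 := hlD₂ l
            omega) (fun l hl => by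
            have h1 := hg2 p hp l hl
            omega)).mono le_rfl (fun _ => le_rfl) le_rfl (by omega)
        · have h3 : lm r₀ * (D₂ + 1) ≤ lm r * (D₂ + 1) := Nat.mul_le_mul_right _ (hlm hr₀)
          exact (hcut hr₀ (hc.mono fun x hx => lt_of_lt_of_le hx hr₀) hlm
            ((hMn _ k1 hn).sub hB') (fun l hl => by
            have h1 := hg1 p hp l (by omega)
            have h2 := hlD₂ l
            omega) (fun l hl => by
            have h1 := hg2 p hp l (by omega)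
            omega)).mono le_rfl (fun _ => le_rfl) le_rfl (by omega)
      · have h0 := (hdp p hp).resolve_left hap
        obtain ⟨B'', q1, q2, q3, q4, q5⟩ := hdeep J F c r₀ (w (ip p)) e e₂ (a p - w (ip p))
          (a p - w (ip p) - r * Bb - 1) u (g (ip p)) B' (G (ip p)) (H (ip p)) θ (Nr (ip p)) hc
          hr₀ k3 (fun l hl => by have := hJ p hp l hl; omega) he (by omega) (by omega) hθ hB'0
          (fun B₁ hB₁ hP₁ h => hTm B₁ (fun ω h => hB' ω (hB₁ ω h)) (by
            rw [pow_add, mul_assoc]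
            have h4 : (1 : ℝ) / 2 ^ (3 * N₂) * Pe F.p A ≤ 2 ^ 3 * Pe F.p B₁ := by
              refine hPB'.trans (hP₁.trans (le_of_eq ?_))
              norm_num
            rw [one_div_mul_eq_div, div_le_iff₀ (by positivity)] at h4
            linarith) h) (hN p hp) hu ((hM.ok _ k1).sub hB')
          (fun hn => (hMn _ k1 hn).sub hB')
        refine ⟨B'', q1, by norm_num; linarith, (), ?_⟩
        rw [hΨ]
        have e1 : G' p = fun y i => Gno (c i) J J (fun y => G (ip p) y i) y := by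
          rw [hG']; exact if_neg hap
        have e2 : H' p = fun s i => Hno (c i) (fun s => H (ip p) s i) s := by
          rw [hH']; exact if_neg hap
        show ChOK F c r (fun _ => D) (a p) (w (ip p)) (e + C * (lm r + 1)) (gg p) B'' (G' p)
          (H' p) ∧ (Nr (ip p) → ChOK F c r₀ (fun _ => D) (a p) (w (ip p))
            (e₂ + C * (lm r + 1)) (gg p) B'' (G' p) (H' p)) ∧ _
        rw [e1, e2]
        have ea : w (ip p) + (a p - w (ip p)) = a p := by omega
        rw [ea] at q3 q4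
        refine ⟨?_, fun hn => ?_, fun _ => q5⟩
        · exact (hcut le_rfl hc hlm q3 (fun l hl => by
            have h1 := hg1 p hp l hl
            have h2 := hlD₂ l
            show gg p l + c₂ + lm l * D₂ ≤ g (ip p) l + (a p - w (ip p)) - (l + 1) * u
            omega) (fun l hl => by
            have h1 := hg2 p hp l hl
            show g (ip p) l + (a p - w (ip p)) - (l + 1) * u ≤ gg p l + lm (l + 1)
            omega)).mono le_rfl (fun _ => le_rfl) le_rfl (by omega)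
        · have h3 : lm r₀ * (D₂ + 1) ≤ lm r * (D₂ + 1) := Nat.mul_le_mul_right _ (hlm hr₀)
          exact (hcut hr₀ (hc.mono fun x hx => lt_of_lt_of_le hx hr₀) hlm (q4 hn)
            (fun l hl => by
            have h1 := hg1 p hp l (by omega)
            have h2 := hlD₂ l
            show gg p l + c₂ + lm l * D₂ ≤ g (ip p) l + (a p - w (ip p)) - (l + 1) * u
            omega) (fun l hl => by
            have h1 := hg2 p hp l (by omega)
            show g (ip p) l + (a p - w (ip p)) - (l + 1) * u ≤ gg p l + lm (l + 1)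
            omega)).mono le_rfl (fun _ => le_rfl) le_rfl (by omega))
  rw [hΨ] at hx
  -- the labels of a point and of its ball
  have hcon : ∀ p ω l y, eval y (G' p (ptr F J ω) l) - eval (bt F ω) (G' p (ptr F J ω) l) =
      eval y (G (ip p) (ptr F J ω) l) - eval (bt F ω) (G (ip p) (ptr F J ω) l) := by
    intro p ω l y
    by_cases hap : a p = w (ip p)
    · rw [show G' p = G (ip p) by rw [hG']; exact if_pos hap]
    · rw [show G' p = fun y i => Gno (c i) J J (fun y => G (ip p) y i) y by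
        rw [hG']; exact if_neg hap]
      unfold Gno
      simp only [map_add, eval_C]
      ring
  have hpos : ∀ p < N₂, ∀ ω, B ω → ∀ l < r, |bt F ω (some (c l)) -
      eval (bt F ω) (G' p (ptr F J ω) l)| ≤ 1 / 2 ^ gg p l := fun p hp ω hω l hl =>
    (hx p hp).1.pos ω hω l hl
  have hposj : ∀ s < N, ∀ ω, B ω → ∀ l < r, |bt F ω (some (c l)) -
      eval (bt F ω) (G s (ptr F J ω) l)| ≤ 1 / 2 ^ g s l := fun s hs' ω hω l hl =>
    (hM.ok s hs').pos ω (hBA ω hω) l hl
  have hn : ∀ p < N₂, ∀ ω, B ω → ∀ i ≤ r, ∀ b,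
      NBx c (G' p (ptr F J ω)) (gg p) (a p) (F.t ω) i b → ∀ s ≤ ip p,
      (∀ l < i, |(b (some (c l)) - eval b (G s (ptr F J ω) l)) -
        (F.x ω (c l) - eval (bt F ω) (G s (ptr F J ω) l))| ≤
          2 ^ (i * Bb) / 2 ^ (g s l + (a p - w s))) ∧
      (i < r → |rdif (G (ip p) (ptr F J ω) i) (G s (ptr F J ω) i) (bt F ω) b| ≤
        2 ^ ((i + 1) * Bb) / 2 ^ (g s i + (a p - w s))) := by
    intro p hp ω hω i hi b hb s hsp
    obtain ⟨k1, k2, k3⟩ := hip p hp
    have hmsh := msh_of hM hR hw hh hs k1 (hBA ω hω)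
    have e1 : ∀ s ≤ ip p, min s (N - 1) = s := fun s hs => min_eq_left (by omega)
    have h1 := hnest hmsh hc (P' := G' p (ptr F J ω)) (gg := gg p) (a' := a p) (lam := lm r)
      (B := Bb) (b := b) k1 k2 (by omega) (fun l hl y => by
        show _ = eval y (G (min (ip p) (N - 1)) (ptr F J ω) l) -
          eval (bt F ω) (G (min (ip p) (N - 1)) (ptr F J ω) l)
        rw [e1 _ le_rfl]
        exact hcon p ω l y) (hpos p hp ω hω) (fun l hl => by
        have h2 := hg2 p hp l hl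
        have h3 := hlml l hl
        omega) hb.1 i hi (fun l hl => hb.2 l hl)
    refine ⟨fun l hl => ?_, fun hir => ?_⟩
    · have h2 := h1.1 l hl s hsp
      simp only [e1 s hsp] at h2
      exact h2
    · have h2 := h1.2 hir s hsp
      simp only [e1 s hsp, e1 _ le_rfl] at h2
      exact h2
  have hdb : ∀ p < N₂, ∀ ω, B ω → ∀ i ≤ r, ∀ b,
      NBx c (G' p (ptr F J ω)) (gg p) (a p) (F.t ω) i b → ∀ l < i,
      |b (some (c l)) - eval b (G (ip p) (ptr F J ω) l)| ≤
        2 ^ (lm r + 2) / 2 ^ g (ip p) l := by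
    intro p hp ω hω i hi b hb l hl
    obtain ⟨k1, k2, k3⟩ := hip p hp
    have hlr : l < r := by omega
    have h1 := abs_le.1 (hb.2 l hl)
    have h2 := abs_le.1 (hpos p hp ω hω l hlr)
    have h3 := abs_le.1 (hposj _ k1 ω hω l hlr)
    have h4 := hcon p ω l b
    have h5 : (1 : ℝ) / 2 ^ gg p l ≤ 2 ^ lm r / 2 ^ g (ip p) l :=
      one_pdiv (by have := hg2 p hp l hlr; have := hlml l hlr; omega)
    have h6 : (1 : ℝ) / 2 ^ g (ip p) l ≤ 2 ^ lm r / 2 ^ g (ip p) l := one_pdiv (by omega)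
    have h7 : (2 : ℝ) ^ (lm r + 2) / 2 ^ g (ip p) l = 4 * (2 ^ lm r / 2 ^ g (ip p) l) := by
      rw [pow_add]; ring
    have h8 : (0 : ℝ) < 2 ^ lm r / 2 ^ g (ip p) l := by positivity
    rw [h7, abs_le]
    constructor <;> linarith only [h1.1, h1.2, h2.1, h2.2, h3.1, h3.2, h4, h5, h6, h8]
  refine ⟨B, G', H', hBA, hPB, ⟨fun p hp => (hx p hp).1, ?_, ?_, ?_⟩,
    fun p hp hn => (hx p hp).2.1 hn, fun p y l => ?_⟩
  · intro p' hp' p hp hRp l hl ω hω b hb
    obtain ⟨hap, hpp⟩ := hR' p hp p' hp' hRp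
    obtain ⟨k1, k2, k3⟩ := hip p hp
    obtain ⟨k1', k2', k3'⟩ := hip p' hp'
    have h1 := abs_le.1 (((hn p' hp' ω hω l hl.le b hb (ip p) hpp).2 hl).trans
      (pdiv (c := r * Bb) (d := gg p l) (by
        have := hBr l hl
        have := hg1 p hp l hl
        omega)))
    have h2 := abs_le.1 ((hpos p' hp' ω hω l hl).trans (one_pdiv (c := r * Bb) (d := gg p l) (by
        have := hBr l hl
        have := hg1 p hp l hl
        have := hg2 p' hp' l hl
        have := hs (ip p) (ip p') hpp k1' l hl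
        have := hw (ip p) (ip p') hpp k1'
        have := hlml l hl
        have : Bb ≤ (l + 1) * Bb := Nat.le_mul_of_pos_left _ (by omega)
        omega)))
    have h3 := abs_le.1 ((hpos p hp ω hω l hl).trans (one_pdiv (c := r * Bb) (d := gg p l)
      (by omega)))
    have h4 := hcon p ω l b
    have h5 := hcon p' ω l b
    have h6 : (4 : ℝ) * (2 ^ (r * Bb) / 2 ^ gg p l) ≤ 2 ^ (r * Bb + r * u + 2) / 2 ^ gg p l := by
      have e1 : (4 : ℝ) * (2 ^ (r * Bb) / 2 ^ gg p l) = 2 ^ (r * Bb + 2) / 2 ^ gg p l := by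
        rw [pow_add]; ring
      rw [e1]
      exact pdiv (by omega)
    have h7 : (0 : ℝ) < 2 ^ (r * Bb) / 2 ^ gg p l := by positivity
    unfold rdif at h1
    rw [abs_le]
    constructor <;> linarith only [h1.1, h1.2, h2.1, h2.2, h3.1, h3.2, h4, h5, h6, h7]
  · intro p' hp' p hp hRp l hl ω hω b hb
    obtain ⟨hap, hpp⟩ := hR' p hp p' hp' hRp
    obtain ⟨k1, k2, k3⟩ := hip p hp
    obtain ⟨k1', k2', k3'⟩ := hip p' hp'
    have hg1' := hg1 p hp l hl
    have hBl := hBr l hl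
    have hB1 : Bb ≤ (l + 1) * Bb := Nat.le_mul_of_pos_left _ (by omega)
    by_cases hpw : a p = w (ip p)
    · have e1 : G' p = G (ip p) := by rw [hG']; exact if_pos hpw
      have e2 : H' p = H (ip p) := by rw [hH']; exact if_pos hpw
      rw [e1, e2]
      have h1 := hdil (c := c) (i := l) (G := G (ip p') (ptr F J ω))
        (Q := G (ip p) (ptr F J ω) l - H (ip p) (slam F (w (ip p)) ω) l) (g := g (ip p'))
        (a := w (ip p')) (t := F.t ω) (M := 2 ^ δ / 2 ^ g (ip p) l) (lm r + 2) hl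
        (hc.mono fun x hx => lt_trans hx hl) ((hM.ok _ k1').degG _) ((hM.ok _ k1').depG _)
        (fun y y' hn hy => by
          rw [map_sub, map_sub, (hM.ok _ k1).depG _ l y y' hn hy,
            (hM.ok _ k1).depH _ l y y' hn hy])
        ((totalDegree_sub _ _).trans (max_le ((hM.ok _ k1).degG _ l) ((hM.ok _ k1).degH _ l)))
        (by positivity) (fun b hb => by
          rw [map_sub]
          exact hM.two _ k1' _ k1 (hR _ _ hpp k1') l hl ω (hBA ω hω) b hb) b
        (hb.1.trans (inv_mono k2')) (hdb p' hp' ω hω l hl.le b hb)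
      rw [map_sub] at h1
      refine h1.trans ?_
      rw [mul_div_assoc', ← pow_add]
      exact pdiv (by omega)
    · have h0 := (hdp p hp).resolve_left hpw
      refine ((hx p hp).2.2 hpw ω hω l hl b (hb.1.trans (inv_mono (by omega)))
        fun l' hl' => ?_).trans (one_pdiv (by have := hur l hl; omega))
      refine ((hn p' hp' ω hω l hl.le b hb (ip p) hpp).1 l' hl').trans ?_
      have h2 := pdiv (a := l * Bb) (b := g (ip p) l' + (a p' - w (ip p))) (c := 0)
        (d := g (ip p) l' + (a p - w (ip p) - r * Bb - 1) + 1) (by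
          have : l * Bb ≤ r * Bb := Nat.mul_le_mul_right _ hl.le
          omega)
      rwa [pow_zero] at h2
  · intro p hp l hl ω hω b hb
    obtain ⟨k1, k2, k3⟩ := hip p hp
    have hBl := hBr l hl
    have hB1 : Bb ≤ (l + 1) * Bb := Nat.le_mul_of_pos_left _ (by omega)
    have h1 := hdil (c := c) (i := l) (G := G (ip p) (ptr F J ω))
      (Q := G (ip p) (ptr F J ω) l - MvPolynomial.C (F.x ω (c l))) (g := g (ip p))
      (a := w (ip p)) (t := F.t ω) (M := 2 ^ δ) (lm r + 2) hl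
      (hc.mono fun x hx => lt_trans hx hl) ((hM.ok _ k1).degG _) ((hM.ok _ k1).depG _)
      (fun y y' hn hy => by
        rw [map_sub, map_sub, (hM.ok _ k1).depG _ l y y' hn hy, eval_C, eval_C])
      ((totalDegree_sub _ _).trans (max_le ((hM.ok _ k1).degG _ l) (by
        rw [totalDegree_C]; exact Nat.zero_le _)))
      (by positivity) (fun b hb => by
        rw [map_sub, eval_C]
        exact hM.siz _ k1 l hl ω (hBA ω hω) b hb) b
      (hb.1.trans (inv_mono k2)) (hdb p hp ω hω l hl.le b hb)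
    rw [map_sub, eval_C, ← pow_add] at h1
    have h2 : (2 : ℝ) ^ (c₄ + (lm r + 2) * D₄ + δ) ≤ 2 ^ (r * Bb + r * u) :=
      pow_le_pow_right₀ (by norm_num) (by omega)
    have h3 := abs_le.1 (h1.trans h2)
    have h4 := abs_le.1 ((hpos p hp ω hω l hl).trans (inv_mono (Nat.zero_le _)))
    have h5 := abs_le.1 ((hposj _ k1 ω hω l hl).trans (inv_mono (Nat.zero_le _)))
    have h6 := hcon p ω l b
    have h7 : (2 : ℝ) ^ (r * Bb + r * u + 2) = 4 * 2 ^ (r * Bb + r * u) := by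
      rw [pow_add _ _ 2]; ring
    have h8 : (1 : ℝ) ≤ 2 ^ (r * Bb + r * u) := one_le_pow₀ (by norm_num)
    rw [pow_zero, div_one] at h4 h5
    rw [h7, abs_le]
    constructor <;> linarith only [h3.1, h3.2, h4.1, h4.2, h5.1, h5.2, h6, h8]
  · by_cases hap : a p = w (ip p)
    · exact ⟨0, by rw [show G' p = G (ip p) by rw [hG']; exact if_pos hap, map_zero, add_zero]⟩
    · exact ⟨_, by rw [show G' p = fun y i => Gno (c i) J J (fun y => G (ip p) y i) y by
        rw [hG']; exact if_neg hap]; rfl⟩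

end Pool.ISR
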