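import Pool.Agent.H6.MIC.NfR

/-!
# The rows of the last coordinate between two labels

`Lv`: one label. `row_two`: the row of the last coordinate over a label, from the exactness of the
base over a finer label and from the rate of the last coordinate.
-/

set_option autoImplicit false

namespace Pool.STAT.RR

open Finset MvPolynomial
open Pool.Agent.H49.Ent Pool.Agent.H32.Dense Pool.STK Pool.KS3 Pool.STAT.CLO
open Pool.MIC6
open Pool.BFL (Pl CB Pb P2 MC alt)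

/-- **One label**: the values `s`, the polynomials `G` of the values, the precisions `g`. -/
structure Lv {Ω S : Type} (n K J Y : ℕ) (L₀ : ℝ) (q : Ω → ℝ) (X : Ω → ℕ → ℝ) (T : Ω → ℕ)
    (s : Ω → S) (G : S → ℕ → PN) (g : ℕ → ℕ) : Prop where
  tri : ∀ x, TriN (G x)
  deg : ∀ x j, (G x j).totalDegree ≤ K
  pos : ∀ ω, 0 < q ω → ∀ l, 1 ≤ l → l ≤ n → |X ω l - eval (X ω) (G (s ω) l)| ≤ 1 / 2 ^ g l
  near : ∀ ω ω', 0 < q ω → 0 < q ω' → s ω = s ω' → T ω = T ω' → ∀ l, 1 ≤ l → l ≤ n →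
    (∀ k : Fin (n - 1), (k : ℕ) + 1 < l →
      ⌊(2 : ℝ) ^ J * X ω (k + 1)⌋ = ⌊(2 : ℝ) ^ J * X ω' (k + 1)⌋) →
    |eval (X ω) (G (s ω) l) - eval (X ω') (G (s ω') l)| ≤ L₀ / 2 ^ (g l + Y)
  siz : ∀ l, 1 ≤ l → l < n → g l + Y ≤ J

section

variable {Ω S : Type} (n J d : ℕ) (X : Ω → ℕ → ℝ) (s : Ω → S) (G : S → ℕ → PN) (g : ℕ → ℕ)

/-- The base to `J` digits. -/
noncomputable def vjl (ω : Ω) (l : Fin (n - 1)) : ℤ := ⌊(2 : ℝ) ^ J * X ω (l + 1)⌋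

/-- The natural digits of the base over a label. -/
noncomputable def vdl (ω : Ω) (l : Fin (n - 1)) : ℤ :=
  ⌊(2 : ℝ) ^ (g (l + 1) + d) * (X ω (l + 1) - eval (X ω) (G (s ω) (l + 1)))⌋

/-- The natural digits of the last coordinate over a label. -/
noncomputable def ndl (ω : Ω) : ℤ :=
  ⌊(2 : ℝ) ^ (g n + d) * (X ω n - eval (X ω) (G (s ω) n))⌋

end

section

variable {Ω S : Type} [Fintype Ω] {n K J Y : ℕ} {L₀ e : ℝ} {q : Ω → ℝ} {X : Ω → ℕ → ℝ}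
  {T : Ω → ℕ} {s : Ω → S} {G : S → ℕ → PN} {g : ℕ → ℕ}

/-- **The base to `J` digits given natural digits.** -/
theorem Lv.ch_vj (h : Lv n K J Y L₀ q X T s G g) (hq : IsLaw q) (hL : 0 ≤ L₀) {d : ℕ}
    (hd : d ≤ Y) {W : Type} {y : Ω → W}
    (hy : Det q y (fun ω => (vdl n d X s G g ω, (s ω, T ω)))) :
    CH q (vjl n J X) y ≤ ∑ l ∈ range (n - 1),
      (((J : ℝ) - (g (l + 1) + d : ℕ)) * Real.log 2 + Real.log (5 + 2 * L₀)) := by
  have key := ch_vec hq (vjl n J X) y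
    (fun l _ => (2 : ℝ) ^ J * ((1 + L₀) / 2 ^ (g (l + 1) + d)) + 1)
    (fun l ω ω' hω hω' hyy hk => by
      have e := hy ω ω' hω hω' hyy
      simp only [Prod.mk.injEq] at e
      obtain ⟨e1, e2, e3⟩ := e
      have h1 := floor_near (congrFun e1 l)
      have h2 := h.near ω ω' hω hω' e2 e3 (l + 1) (by omega) (by omega)
        (fun k hk' => hk k (by
          show (k : ℕ) < l
          omega))
      have h3 : L₀ / 2 ^ (g (l + 1) + Y) ≤ L₀ / 2 ^ (g (l + 1) + d) :=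
        div_le_div_of_nonneg_left hL (by positivity)
          (pow_le_pow_right₀ one_le_two (by omega))
      have h5 := h2.trans h3
      have h4 : |X ω (l + 1) - X ω' (l + 1)| ≤ 1 / 2 ^ (g (l + 1) + d) +
          L₀ / 2 ^ (g (l + 1) + d) := by
        have e : X ω (l + 1) - X ω' (l + 1) =
            ((X ω (l + 1) - eval (X ω) (G (s ω) (l + 1))) -
              (X ω' (l + 1) - eval (X ω') (G (s ω') (l + 1)))) +
            (eval (X ω) (G (s ω) (l + 1)) - eval (X ω') (G (s ω') (l + 1))) := by ring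
        rw [e]
        exact (abs_add_le _ _).trans (add_le_add h1 h5)
      rw [← add_div] at h4
      exact hgt_diff h4)
  refine key.trans (Finset.sum_le_sum fun l hl => ?_)
  have hl' := mem_range.1 hl
  rw [Ex_const hq.sum_one]
  exact log_cell hL (by
    have := h.siz (l + 1) (by omega) (by omega)
    omega)

/-- **Natural digits are full.** -/
theorem Lv.full (h : Lv n K J Y L₀ q X T s G g) (hq : IsLaw q) (hL : 0 ≤ L₀) {d : ℕ}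
    (hd : d ≤ Y) {Γ : Type} {c : Ω → Γ} (hs : Det q (fun ω => (c ω, T ω)) s)
    (hx : (∑ l ∈ range (n - 1), ((J : ℝ) - g (l + 1))) * Real.log 2 - e ≤
      CH q (vjl n J X) (fun ω => (c ω, T ω))) :
    ((n - 1 : ℕ) : ℝ) * (d * Real.log 2) - e - ((n - 1 : ℕ) : ℝ) * Real.log (5 + 2 * L₀) ≤
      CH q (vdl n d X s G g) (fun ω => (c ω, T ω)) := by
  have h1 := CH_le_add hq.nonneg (vjl n J X) (vdl n d X s G g) (fun ω => (c ω, T ω))
  have h2 := h.ch_vj hq hL hd (y := fun ω => (vdl n d X s G g ω, (c ω, T ω)))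
    (fun ω ω' hω hω' e => by
      simp only [Prod.mk.injEq] at e ⊢
      exact ⟨e.1, hs ω ω' hω hω' (Prod.ext e.2.1 e.2.2), e.2.2⟩)
  rw [Finset.sum_add_distrib, Finset.sum_const, Finset.card_range, nsmul_eq_mul,
    ← Finset.sum_mul] at h2
  have h4 : ∑ l ∈ range (n - 1), ((J : ℝ) - (g (l + 1) + d : ℕ)) =
      ∑ l ∈ range (n - 1), ((J : ℝ) - g (l + 1)) - ((n - 1 : ℕ) : ℝ) * d := by
    have e : ∀ l ∈ range (n - 1), (J : ℝ) - (g (l + 1) + d : ℕ) =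
        ((J : ℝ) - g (l + 1)) - d := fun l _ => by
      push_cast
      ring
    rw [Finset.sum_congr rfl e, Finset.sum_sub_distrib, Finset.sum_const, Finset.card_range,
      nsmul_eq_mul]
  rw [h4, sub_mul] at h2
  linarith

/-- **The natural digits of the target from the digits of its position.** -/
theorem Lv.rate (h : Lv n K J Y L₀ q X T s G g) (hq : IsLaw q) (hL : 0 ≤ L₀) (hn : 1 ≤ n)
    {r p : ℕ} (hr : r ≤ p) (hp : p ≤ Y) :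
    CH q (ndl n p X s G g) (fun ω => (ndl n r X s G g ω, (vjl n J X ω, (s ω, T ω)))) ≤
      CH q (fun ω => ⌊(2 : ℝ) ^ (g n + p) * X ω n⌋)
        (fun ω => (⌊(2 : ℝ) ^ (g n + r) * X ω n⌋, (vjl n J X ω, T ω))) +
      2 * Real.log (5 + 2 * L₀) := by
  obtain ⟨xQ, hxQ⟩ : ∃ xQ : Ω → ℤ, xQ = fun ω => ⌊(2 : ℝ) ^ (g n + p) * X ω n⌋ :=
    ⟨_, rfl⟩
  obtain ⟨xP, hxP⟩ : ∃ xP : Ω → ℤ, xP = fun ω => ⌊(2 : ℝ) ^ (g n + r) * X ω n⌋ :=
    ⟨_, rfl⟩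
  rw [← hxQ]
  have hxP' : (fun ω => (⌊(2 : ℝ) ^ (g n + r) * X ω n⌋, (vjl n J X ω, T ω))) =
      fun ω => (xP ω, (vjl n J X ω, T ω)) := by rw [hxP]
  rw [hxP']
  obtain ⟨y, hy⟩ : ∃ y : Ω → ℤ × ((Fin (n - 1) → ℤ) × (S × ℕ)),
      y = fun ω => (ndl n r X s G g ω, (vjl n J X ω, (s ω, T ω))) := ⟨_, rfl⟩
  rw [← hy]
  have hpos : ∀ k : ℕ, (0 : ℝ) < 2 ^ k := fun k => by positivity
  have hΨ : ∀ ω ω', 0 < q ω → 0 < q ω' → y ω = y ω' → ∀ k ≤ Y,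
      |eval (X ω) (G (s ω) n) - eval (X ω') (G (s ω') n)| ≤ L₀ / 2 ^ (g n + k) := by
    intro ω ω' a b e k hk
    rw [hy] at e
    simp only [Prod.mk.injEq] at e
    obtain ⟨-, e2, e3, e4⟩ := e
    refine (h.near ω ω' a b e3 e4 n hn le_rfl fun k _ => congrFun e2 k).trans ?_
    exact div_le_div_of_nonneg_left hL (hpos _) (pow_le_pow_right₀ one_le_two (by omega))
  have hbd : ∀ (k : ℕ) (x x' : ℝ), |x - x'| ≤ 1 / 2 ^ k + L₀ / 2 ^ k →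
      |((⌊(2 : ℝ) ^ k * x⌋ - ⌊(2 : ℝ) ^ k * x'⌋ : ℤ) : ℝ)| ≤ 2 + L₀ := by
    intro k x x' hx
    refine (hgt_diff hx).trans (le_of_eq ?_)
    have := hpos k
    field_simp
    ring
  have s1 : CH q (ndl n p X s G g) (fun ω => (xQ ω, y ω)) ≤ Real.log (5 + 2 * L₀) := by
    refine ch_few hq _ _ fun ω ω' a b e => ?_
    have e1 := (Prod.ext_iff.1 e).1
    have e2 := (Prod.ext_iff.1 e).2
    rw [hxQ] at e1
    refine hbd _ _ _ ?_
    have h1 := floor_near e1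
    have h2 := hΨ ω ω' a b e2 p hp
    have e : (X ω n - eval (X ω) (G (s ω) n)) - (X ω' n - eval (X ω') (G (s ω') n)) =
        (X ω n - X ω' n) - (eval (X ω) (G (s ω) n) - eval (X ω') (G (s ω') n)) := by ring
    rw [e]
    exact (abs_sub _ _).trans (add_le_add h1 h2)
  have s2 : CH q xP y ≤ Real.log (5 + 2 * L₀) := by
    refine ch_few hq _ _ fun ω ω' a b e => ?_
    have h1 := hΨ ω ω' a b e r (hr.trans hp)
    rw [hy] at e
    have e1 := floor_near (Prod.ext_iff.1 e).1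
    rw [hxP]
    refine hbd _ _ _ ?_
    have e : X ω n - X ω' n = ((X ω n - eval (X ω) (G (s ω) n)) -
        (X ω' n - eval (X ω') (G (s ω') n))) +
        (eval (X ω) (G (s ω) n) - eval (X ω') (G (s ω') n)) := by ring
    rw [e]
    exact (abs_add_le _ _).trans (add_le_add e1 h1)
  have s3 := CH_le_add hq.nonneg (ndl n p X s G g) xQ y
  have s4 := CH_le_add hq.nonneg xQ xP y
  have s5 : CH q xQ (fun ω => (xP ω, y ω)) ≤ CH q xQ (fun ω => (xP ω, (vjl n J X ω, T ω))) := by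
    refine CH_mono_cond hq.nonneg fun ω ω' _ _ e => ?_
    rw [hy] at e
    simp only [Prod.mk.injEq] at e ⊢
    exact ⟨e.1, e.2.2.1, e.2.2.2.2⟩
  linarith

omit [Fintype Ω] in
theorem det_ndl {r p : ℕ} (hr : r ≤ p) : Det q (ndl n p X s G g) (ndl n r X s G g) := by
  obtain ⟨k, rfl⟩ := Nat.exists_eq_add_of_le hr
  intro ω ω' _ _ e
  have h : ∀ ω : Ω, ndl n r X s G g ω = ndl n (r + k) X s G g ω / 2 ^ k := fun ω => by
    unfold ndl
    rw [← add_assoc]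
    exact Pool.RM.floor_div_pow _ _ _
  rw [h ω, h ω', e]

end

/-- **The count for two labels.** -/
theorem cnt_two (n K : ℕ) (hn : 1 ≤ n) : ∃ C : ℕ, 1 ≤ C ∧ ∀ {Ω S₀ S₁ Γ : Type} [Fintype Ω]
    {q : Ω → ℝ} {X : Ω → ℕ → ℝ} {T : Ω → ℕ} {s₀ : Ω → S₀} {s₁ : Ω → S₁} {c : Ω → Γ}
    {G₀ : S₀ → ℕ → PN} {G₁ : S₁ → ℕ → PN} {g g' : ℕ → ℕ} {J Y : ℕ} {L₀ e : ℝ}, IsLaw q →
    (∀ ω, 0 < q ω → X ω 0 = (T ω : ℝ) / 2 ^ J) →
    Lv n K J Y L₀ q X T s₀ G₀ g → Lv n K J Y L₀ q X T s₁ G₁ g' → 0 ≤ L₀ → 0 ≤ e →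
    Det q (fun ω => (c ω, T ω)) s₀ → Det q (fun ω => (c ω, T ω)) s₁ →
    (∑ l ∈ range (n - 1), ((J : ℝ) - g' (l + 1))) * Real.log 2 - e ≤
      CH q (vjl n J X) (fun ω => (c ω, T ω)) →
    ∀ {S L d p : ℕ},
    (∀ l, 1 ≤ l → l ≤ n → g l ≤ g' l ∧ g' l ≤ g l + S) →
    1 ≤ L → L ≤ Y → n * (S + 1 + C * L) + S ≤ d →
    CH q (fun ω => (vdl n d X s₀ G₀ g ω, ndl n p X s₀ G₀ g ω)) (fun ω => (c ω, T ω)) ≤
      ∑ l ∈ range (n - 1), (((g (l + 1) + d : ℕ) : ℝ) - g' (l + 1)) * Real.log 2 +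
      max 0 (((g n + p : ℕ) : ℝ) - g' n) * Real.log 2 + n * Real.log 9 +
      n * (n * ((e + ((n - 1 : ℕ) : ℝ) * Real.log (5 + 2 * L₀)) / (L * Real.log 2) + C / L) *
        ((d + p : ℕ) * Real.log 2 + Real.log 9)) := by
  obtain ⟨C, hC, hent⟩ := entA n K
  refine ⟨C, hC, ?_⟩
  intro Ω S₀ S₁ Γ _ q X T s₀ s₁ c G₀ G₁ g g' J Y L₀ e hq hX h₀ h₁ hL₀ he hs hs' hx S L d p hg hL
    hLY hd
  have hLR : (0 : ℝ) < L := by exact_mod_cast hL
  have hl2 : 0 < Real.log 2 := Real.log_pos one_lt_two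
  have hl9 : 0 < Real.log 9 := Real.log_pos (by norm_num)
  have hfull := h₁.full hq hL₀ hLY hs' hx
  obtain ⟨e0, he0⟩ : ∃ e0 : ℝ, e0 = e + ((n - 1 : ℕ) : ℝ) * Real.log (5 + 2 * L₀) := ⟨_, rfl⟩
  rw [← he0]
  obtain ⟨γ, hγ⟩ : ∃ γ : Ω → S₀ × (S₁ × (Γ × ℕ)),
      γ = fun ω => (s₀ ω, (s₁ ω, (c ω, T ω))) := ⟨_, rfl⟩
  have hd1 : Det q (fun ω => (c ω, T ω)) γ := by
    intro ω ω' a b e
    rw [hγ]
    exact Prod.ext (hs ω ω' a b e) (Prod.ext (hs' ω ω' a b e) e)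
  have hT : TwoL n K S q X γ (fun x => (x.2.2.2 : ℝ) / 2 ^ J) (fun x => G₀ x.1)
      (fun x => G₁ x.2.1) g g' := by
    subst hγ
    exact ⟨hX, fun x => h₀.tri x.1, fun x => h₁.tri x.2.1, fun x l => h₀.deg x.1 l,
      fun x l => h₁.deg x.2.1 l, fun l l1 l2 => (hg l l1 l2).1, fun l l1 l2 => (hg l l1 l2).2,
      h₀.pos, h₁.pos⟩
  have e1 : (fun ω (l : Fin (n - 1)) => ⌊(2 : ℝ) ^ L *
      xi g' ((fun x : S₀ × (S₁ × (Γ × ℕ)) => G₁ x.2.1) (γ ω)) (X ω)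
        (n - 1) l⌋) = vdl n L X s₁ G₁ g' := by
    funext ω l
    rw [hγ]
    show ⌊(2 : ℝ) ^ L * (2 ^ g' (l + 1) * (X ω (l + 1) - eval (X ω) (G₁ (s₁ ω) (l + 1))))⌋ = _
    rw [← mul_assoc, ← pow_add, add_comm L]
    rfl
  have hcnt := hent hq hT hL (δ := e0 / (L * Real.log 2)) (d := d) (u := dep n d p)
    (by
      rw [e1]
      have h1 : CH q (vdl n L X s₁ G₁ g') (fun ω => (c ω, T ω)) ≤
          CH q (vdl n L X s₁ G₁ g') γ := CH_mono_cond hq.nonneg hd1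
      refine le_trans (le_of_eq ?_) (le_trans hfull h1)
      rw [sub_sub, ← he0]
      field_simp) hd (fun l _ l2 => by
      unfold dep
      rw [if_pos l2])
  have h2 : CH q (fun ω => (vdl n d X s₀ G₀ g ω, ndl n p X s₀ G₀ g ω)) (fun ω => (c ω, T ω)) ≤
      CH q (dgC X γ (fun x => G₀ x.1) g (dep n d p) n) γ := by
    have h3 : CH q (fun ω => (vdl n d X s₀ G₀ g ω, ndl n p X s₀ G₀ g ω))
        (fun ω => (c ω, T ω)) ≤
        CH q (fun ω => (vdl n d X s₀ G₀ g ω, ndl n p X s₀ G₀ g ω)) γ :=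
      CH_mono_cond hq.nonneg hd1
    refine h3.trans (CH_mono_left hq.nonneg fun ω ω' _ _ e => ?_)
    have e2 := (Prod.ext_iff.1 e).1
    refine Prod.ext ?_ ?_
    · funext l
      have e3 := congrFun e2 ⟨l, by omega⟩
      unfold dgC at e3
      rw [hγ] at e3
      have e4 : dep n d p ((l : ℕ) + 1) = d := by
        unfold dep
        rw [if_pos (by omega)]
      simp only [e4] at e3
      exact e3
    · have e3 := congrFun e2 ⟨n - 1, by omega⟩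
      unfold dgC at e3
      rw [hγ] at e3
      have e4 : dep n d p n = p := by
        unfold dep
        rw [if_neg (by omega)]
      simp only [Nat.sub_add_cancel hn, e4] at e3
      exact e3
  refine h2.trans (hcnt.trans ?_)
  refine sum_dep hn hl2 hl9 (fun l l1 l2 => (hg l l1 l2).2) (by omega) ?_
  have h5 : 0 ≤ e0 := by
    rw [he0]
    have : 0 ≤ Real.log (5 + 2 * L₀) := Real.log_nonneg (by linarith)
    positivity
  positivity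

/-- **The row between two labels.** `s₀` the coarse label, `c` (with the time) determines both
labels. -/
theorem row_two (n K : ℕ) (hn : 1 ≤ n) (Λ : ℕ) {L₀ : ℝ} (hL₀ : 0 ≤ L₀) :
    ∃ B₀ : ℕ, 1 ≤ B₀ ∧ ∀ B ≥ B₀, ∀ M : ℕ, ∃ (κ₀ : ℝ) (z₀ : ℕ), 0 < κ₀ ∧
    ∀ {Ω S₀ S₁ Γ : Type} [Fintype Ω] {q : Ω → ℝ} {X : Ω → ℕ → ℝ} {T : Ω → ℕ} {s₀ : Ω → S₀}
      {s₁ : Ω → S₁} {c : Ω → Γ} {G₀ : S₀ → ℕ → PN} {G₁ : S₁ → ℕ → PN} {g g' : ℕ → ℕ} {J Y z s : ℕ}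
      {κ C₁ : ℝ}, IsLaw q → (∀ ω, 0 < q ω → X ω 0 = (T ω : ℝ) / 2 ^ J) →
      z₀ ≤ z → 0 ≤ κ → κ ≤ κ₀ → 0 ≤ C₁ → 1 ≤ s → s ≤ M → B * (s * z) ≤ Y →
      Lv n K J Y L₀ q X T s₀ G₀ g → Lv n K J Y L₀ q X T s₁ G₁ g' →
      Det q (fun ω => (c ω, T ω)) s₀ → Det q (fun ω => (c ω, T ω)) s₁ →
      (∑ l ∈ range (n - 1), ((J : ℝ) - g' (l + 1))) * Real.log 2 - κ * z ≤
        CH q (vjl n J X) (fun ω => (c ω, T ω)) →
      (∀ l, 1 ≤ l → l ≤ n → g l ≤ g' l ∧ g' l ≤ g l + Λ * (s * z)) →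
      (s : ℝ) * z ≤ (g' n : ℝ) - g n + C₁ * z →
        CH q (ndl n (s * z) X s₀ G₀ g) (fun ω => (ndl n 0 X s₀ G₀ g ω,
          (vdl n (B * (s * z)) X s₀ G₀ g ω, (s₀ ω, T ω)))) ≤
        CH q (fun ω => ⌊(2 : ℝ) ^ (g n + s * z) * X ω n⌋)
          (fun ω => (⌊(2 : ℝ) ^ (g n + 0) * X ω n⌋, (vjl n J X ω, T ω))) + (C₁ + 1) * z := by
  obtain ⟨C, hC, hcnt⟩ := cnt_two n K hn
  refine ⟨n * Λ + n + n * C + Λ + 1, by omega, ?_⟩
  intro B hB M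
  have hl2 : 0 < Real.log 2 := Real.log_pos one_lt_two
  have hl21 : Real.log 2 ≤ 1 := by
    have := Real.log_two_lt_d9
    linarith
  have hl9 : 0 < Real.log 9 := Real.log_pos (by norm_num)
  obtain ⟨ℓ, hℓ⟩ : ∃ ℓ : ℝ, ℓ = Real.log (5 + 2 * L₀) := ⟨_, rfl⟩
  have hℓ0 : 0 ≤ ℓ := by
    rw [hℓ]
    exact Real.log_nonneg (by linarith)
  obtain ⟨C', hC'⟩ : ∃ C' : ℝ, C' = ((n - 1 : ℕ) : ℝ) * ℓ / Real.log 2 + C := ⟨_, rfl⟩
  have hC'0 : 0 ≤ C' := by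
    rw [hC']
    positivity
  obtain ⟨E, hE⟩ : ∃ E : ℝ, E = ((B + 1) * M : ℕ) + Real.log 9 := ⟨_, rfl⟩
  have hE0 : 0 ≤ E := by
    rw [hE]
    positivity
  obtain ⟨V, hV⟩ : ∃ V : ℝ, V = (n : ℝ) * (n * E) := ⟨_, rfl⟩
  have hV0 : 0 ≤ V := by
    rw [hV]
    positivity
  obtain ⟨κ₀, hκ₀⟩ : ∃ κ₀ : ℝ, κ₀ = Real.log 2 / (8 * (V + 1)) := ⟨_, rfl⟩
  obtain ⟨z₀, hz₀⟩ := exists_nat_ge (4 * (V * C' + (n + 2) * ℓ + n * Real.log 9) + 1)
  refine ⟨κ₀, z₀, by rw [hκ₀]; positivity, ?_⟩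
  intro Ω S₀ S₁ Γ _ q X T s₀ s₁ c G₀ G₁ g g' J Y z s κ C₁ hq hX hz hκ hκ1 hC₁ hs hsM hY h₀ h₁ d₀ d₁
    hx hg hgn
  have hzR : (z₀ : ℝ) ≤ z := by exact_mod_cast hz
  have hvc : 0 ≤ V * C' + (n + 2) * ℓ + n * Real.log 9 := by positivity
  have hz1R : (1 : ℝ) ≤ z := by linarith
  have hz1 : 1 ≤ z := by exact_mod_cast hz1R
  have hzp : (0 : ℝ) < z := by linarith
  have hsz : 1 ≤ s * z := Nat.mul_pos hs hz1
  have hzsz : z ≤ s * z := Nat.le_mul_of_pos_left z hs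
  have hszM : s * z ≤ M * z := Nat.mul_le_mul_right z hsM
  obtain ⟨d, hd⟩ : ∃ d, d = B * (s * z) := ⟨_, rfl⟩
  rw [← hd] at hY ⊢
  have hB1 : 1 ≤ B := by omega
  have hszd : s * z ≤ d := by
    rw [hd]
    exact Nat.le_mul_of_pos_left _ hB1
  have hcond : n * (Λ * (s * z) + 1 + C * z) + Λ * (s * z) ≤ d := by
    rw [hd]
    calc n * (Λ * (s * z) + 1 + C * z) + Λ * (s * z) ≤
          n * (Λ * (s * z) + s * z + C * (s * z)) + Λ * (s * z) := by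
          refine Nat.add_le_add_right (Nat.mul_le_mul_left n ?_) _
          have := Nat.mul_le_mul_left C hzsz
          omega
      _ = (n * Λ + n + n * C + Λ) * (s * z) := by ring
      _ ≤ B * (s * z) := Nat.mul_le_mul_right _ (by omega)
  have t1 := hcnt hq hX h₀ h₁ hL₀ (mul_nonneg hκ hzp.le) d₀ d₁ hx hg hz1
    (hzsz.trans (hszd.trans hY)) (d := d) (p := s * z) hcond
  have t2 := nf_abs hq.nonneg (ndl n (s * z) X s₀ G₀ g) (ndl n 0 X s₀ G₀ g) (vdl n d X s₀ G₀ g)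
    (vjl n J X) (fun ω => (s₀ ω, T ω)) (fun ω => (c ω, T ω)) (det_ndl (Nat.zero_le _))
  have t3 := h₀.rate hq hL₀ hn (Nat.zero_le _) (hszd.trans hY)
  have t4 := h₀.ch_vj hq hL₀ hY
    (y := fun ω => (vdl n d X s₀ G₀ g ω, (s₀ ω, T ω))) (fun _ _ _ _ e => e)
  have t5 : CH q (fun ω => (s₀ ω, T ω)) (fun ω => (c ω, T ω)) = 0 :=
    CH_eq_zero hq.nonneg fun ω ω' a b e => Prod.ext (d₀ ω ω' a b e) (Prod.ext_iff.1 e).2
  have t7 : max 0 (((g n + s * z : ℕ) : ℝ) - g' n) * Real.log 2 ≤ C₁ * z := by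
    have h3 : max 0 (((g n + s * z : ℕ) : ℝ) - g' n) ≤ C₁ * z := by
      refine max_le (by positivity) ?_
      push_cast
      linarith
    calc max 0 (((g n + s * z : ℕ) : ℝ) - g' n) * Real.log 2 ≤
          C₁ * z * Real.log 2 := mul_le_mul_of_nonneg_right h3 hl2.le
      _ ≤ C₁ * z * 1 := mul_le_mul_of_nonneg_left hl21 (by positivity)
      _ = C₁ * z := mul_one _
  rw [← hℓ] at t1 t3 t4
  have t8 := sum_base (m := n - 1) (J := J) (g := g)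
    (g' := g') (d := d) (a := Real.log 2) (b := ℓ)
  have t9 := row_err (s := s) (d := d) hℓ0 (Nat.cast_nonneg C) hC' hE hV hκ₀ hκ hκ1 hz1 (by
    rw [hd]
    have h1 := Nat.mul_le_mul_left B hszM
    calc B * (s * z) + s * z ≤ B * (M * z) + M * z := Nat.add_le_add h1 hszM
      _ = (B + 1) * M * z := by ring) (hz₀.trans hzR)
  linarith

end Pool.STAT.RR
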