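import Pool.Agent.H80.STAT.RowC
import Pool.Agent.H80.STAT.NfJ
import Pool.Agent.H75.STAT.StaR
import Pool.Agent.H68.STAT.Fam2

/-!
# The rows of the last coordinate over a chain

`rowN_ch`: the rows over a chain of exact labels, from the exactness of the base given the labels
of the chain and from the rate. `rowN_of`: the rows over a chain from the rows of a cell.
-/

set_option autoImplicit false

namespace Pool.STAT.RR

open Finset MvPolynomial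
open Pool.Agent.H49.Ent Pool.Agent.H32.Dense Pool.STK Pool.KS3 Pool.KA Pool.KSAT Pool.K2S Pool.PB
  Pool.GEN
open Pool.STAT.CLO Pool.STAT.CDat Pool.STAT.DPP

variable {m J : ℕ} {F : Fam m J}

/-- The label of a level of a chain. -/
theorem lv_chain {C : CDat F} {e : ℕ → Fin m} {N K w₀ z M k y : ℕ} {g : ℕ → ℕ → ℕ} {C₁ L : ℝ}
    {A E : F.Ω → Prop} (hC : C.Cnd e (N + 1) K w₀ z M g C₁ A) (hEA : ∀ ω, E ω → A ω) (hk : k ≤ M)
    (hN : C.Near e (N + 1) w₀ z g k y L A) (hs : ∀ i, 1 ≤ i → i ≤ N → g k i + y ≤ J) :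
    Lv (N + 1) K J y L (Pool.Agent.H49.Ent.cond F.p E True) (cx F e) F.T (C.lab w₀ z k)
      ((C.nd e (N + 1) w₀ z M g).P k) (g k) := by
  have hA : ∀ ω, 0 < Pool.Agent.H49.Ent.cond F.p E True ω → A ω := fun ω hω =>
    hEA ω (cond_supp hω)
  have hP : ∀ (ω : F.Ω) (l : ℕ), l ≤ N + 1 →
      (C.nd e (N + 1) w₀ z M g).P k (C.lab w₀ z k ω) l = C.Ph w₀ z k ω l := fun ω l hl =>
    ndX_P C (cx F e) (N + 1) w₀ z M g hk hl ω
  refine ⟨fun x i => ?_, fun x i => ?_, fun ω hω l l1 l2 => ?_, fun ω ω' hω hω' es eT l l1 l2 hj => ?_,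
    fun l l1 l2 => hs l l1 (by omega)⟩
  · change (if i = 0 then MvPolynomial.C ((x.2 : ℝ) / 2 ^ (w₀ + k * z)) else
      if i ≤ N + 1 ∧ k ≤ M then
        match x.1 k with
        | some v => C.G k v i
        | none => 0
      else 0).vars ⊆ range i
    by_cases h0 : i = 0
    · rw [if_pos h0, vars_C]
      exact Finset.empty_subset _
    · rw [if_neg h0]
      by_cases h1 : i ≤ N + 1 ∧ k ≤ M
      · rw [if_pos h1]
        cases x.1 k with
        | none => simp only [vars_0]; exact Finset.empty_subset _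
        | some v => exact hC.tri k h1.2 v i (by omega) h1.1
      · rw [if_neg h1, vars_0]
        exact Finset.empty_subset _
  · change (if i = 0 then MvPolynomial.C ((x.2 : ℝ) / 2 ^ (w₀ + k * z)) else
      if i ≤ N + 1 ∧ k ≤ M then
        match x.1 k with
        | some v => C.G k v i
        | none => 0
      else 0).totalDegree ≤ K
    by_cases h0 : i = 0
    · rw [if_pos h0, totalDegree_C]
      exact Nat.zero_le K
    · rw [if_neg h0]
      by_cases h1 : i ≤ N + 1 ∧ k ≤ M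
      · rw [if_pos h1]
        cases x.1 k with
        | none => simp only [totalDegree_zero]; exact Nat.zero_le K
        | some v => exact hC.deg k h1.2 v i (by omega) h1.1
      · rw [if_neg h1, totalDegree_zero]
        exact Nat.zero_le K
  · rw [hP ω l l2]
    have h1 := hC.pos k hk ω (hA ω hω) l l1 l2
    have h2 : cx F e ω l = F.x ω (e l) := if_neg (by omega)
    rw [h2]
    exact h1
  · rw [hP ω l l2, hP ω' l l2]
    have e1 : C.Ph w₀ z k ω' l = C.Ph w₀ z k ω l := by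
      rw [← hP ω' l l2, ← hP ω l l2, es]
    rw [e1]
    refine hN ω ω' (hA ω hω) (hA ω' hω') es eT l l1 l2 fun j j1 j2 => ?_
    have h1 := hj ⟨j - 1, by omega⟩ (by
      show j - 1 + 1 < l
      omega)
    have h2 : ∀ ω : F.Ω, ⌊(2 : ℝ) ^ J * cx F e ω ((j - 1) + 1)⌋ = F.X J ω (e j) := fun ω => by
      rw [Nat.sub_add_cancel j1]
      show ⌊(2 : ℝ) ^ J * (if j = 0 then F.t ω else F.x ω (e j))⌋ = _
      rw [if_neg (by omega)]
      rfl
    simp only [h2] at h1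
    exact h1

/-- **The class inputs of the rows over a chain**, for the law conditioned on `E`: exactness of the
base given the labels, behind the numbers of the chain, and the rate of the last coordinate. -/
structure RowI {m J : ℕ} (F : Fam m J) (C : CDat F) (e : ℕ → Fin m) (N w₀ z M U : ℕ)
    (g : ℕ → ℕ → ℕ) (κ a : ℝ) (E : F.Ω → Prop) : Prop where
  ex : ∀ k ≤ M, (∑ i ∈ range N, ((J : ℝ) - g k (i + 1))) * Real.log 2 - κ * z ≤
    CH (Pool.Agent.H49.Ent.cond F.p E True) (fun ω (i : Fin N) => F.X J ω (e (i + 1)))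
      (fun ω => (C.lab w₀ z k ω, F.T ω))
  rate : ∀ k ≤ M, ∀ P ≤ U * z, CH (Pool.Agent.H49.Ent.cond F.p E True)
      (fun ω => F.X (g k (N + 1) + P) ω (e (N + 1)))
      (fun ω => (F.X (g k (N + 1)) ω (e (N + 1)),
        ((fun i : Fin N => F.X J ω (e (i + 1))), F.T ω))) ≤
    (1 - a) * (P * Real.log 2) + z

/-- **The rows over a chain of exact labels.** -/
theorem rowN_ch (N K Λ : ℕ) {L : ℝ} (hL : 0 ≤ L) : ∃ B₀ : ℕ, 1 ≤ B₀ ∧ ∀ B ≥ B₀, ∀ M : ℕ,
    ∃ (κ₀ : ℝ) (z₀ : ℕ), 0 < κ₀ ∧ ∀ {m J : ℕ} {F : Fam m J} {C : CDat F} {e : ℕ → Fin m}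
      {w₀ z U v : ℕ} {g : ℕ → ℕ → ℕ} {a κ C₁ C₁' : ℝ} {A E : F.Ω → Prop},
      0 < Pe F.p E → (∀ ω, E ω → A ω) → z₀ ≤ z → 0 ≤ κ → κ ≤ κ₀ → 0 ≤ C₁ → 0 ≤ a → a ≤ 1 →
      w₀ + M * z ≤ J → C.Cnd e (N + 1) K w₀ z M g C₁' A →
      (∀ k ≤ M, C.Near e (N + 1) w₀ z g k (U * z) L A) →
      (∀ k ≤ M, ∀ i, 1 ≤ i → i ≤ N → g k i + U * z ≤ J) →
      (∀ k s : ℕ, 1 ≤ s → k + s ≤ M → ∀ i, 1 ≤ i → i ≤ N + 1 →
        g k i ≤ g (k + s) i ∧ g (k + s) i ≤ g k i + Λ * (s * z)) →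
      (∀ k s : ℕ, 1 ≤ s → k + s ≤ M →
        (s : ℝ) * z ≤ (g (k + s) (N + 1) : ℝ) - g k (N + 1) + C₁ * z) →
      RowI F C e N w₀ z M U g κ a E → v + U ≤ M →
      RowN F C e N w₀ z U g (1 / (2 * B)) a (C₁ + 6) v E := by
  obtain ⟨B₀, hB₀, hrow⟩ := row_two (N + 1) K (by omega) Λ hL
  refine ⟨B₀, hB₀, fun B hB M => ?_⟩
  obtain ⟨κ₀, z₀, hκ₀, hrow⟩ := hrow B hB M
  refine ⟨κ₀, max z₀ 1, hκ₀, ?_⟩
  intro m J F C e w₀ z U v g a κ C₁ C₁' A E hE hEA hz hκ hκ1 hC₁ ha ha1 hMJ hC hN hs hg hgn hR hv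
  have hz0 : z₀ ≤ z := (le_max_left _ _).trans hz
  have hz1 : 1 ≤ z := (le_max_right _ _).trans hz
  have hzR : (1 : ℝ) ≤ z := by exact_mod_cast hz1
  have hB1 : 1 ≤ B := hB₀.trans hB
  have hq := isLaw_cond F.isLaw hE
  have hP : ∀ k ≤ M, ∀ (ω : F.Ω) (l : ℕ), l ≤ N + 1 →
      (C.nd e (N + 1) w₀ z M g).P k (C.lab w₀ z k ω) l = C.Ph w₀ z k ω l := fun k hk ω l hl =>
    ndX_P C (cx F e) (N + 1) w₀ z M g hk hl ω
  have hX : ∀ ω, 0 < Pool.Agent.H49.Ent.cond F.p E True ω → cx F e ω 0 = (F.T ω : ℝ) / 2 ^ J :=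
    fun ω _ => rfl
  have hcx : ∀ (p i : ℕ), 1 ≤ i → ∀ ω : F.Ω, ⌊(2 : ℝ) ^ p * cx F e ω i⌋ = F.X p ω (e i) := by
    intro p i hi ω
    show ⌊(2 : ℝ) ^ p * (if i = 0 then F.t ω else F.x ω (e i))⌋ = _
    rw [if_neg (by omega)]
    rfl
  have hvj : vjl (N + 1) J (cx F e) = fun ω (i : Fin N) => F.X J ω (e (i + 1)) := by
    funext ω i
    exact hcx J (i + 1) (by omega) ω
  have hvM : v ≤ M := by omega
  intro P hPU
  have key := nf_rat (m := N) hq hB1 hz1 ha ha1 (by linarith : 0 ≤ C₁ + 2) (U := U)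
    (C.lab w₀ z v) (fun ω (i : Fin N) => fh C e w₀ z g v ω (i + 1))
    (fun ω => fh C e w₀ z g v ω (N + 1)) F.T (fun ω hω => by
      have h1 := hC.pos v hvM ω (hEA ω (cond_supp hω)) (N + 1) (by omega) le_rfl
      unfold fh
      rw [abs_mul, abs_of_pos (by positivity)]
      rwa [le_div_iff₀ (by positivity), mul_comm] at h1) (fun V hV1 hV => by
      have hVU : V ≤ U := by nlinarith
      have h1 := hrow (c := C.lab w₀ z (v + V)) (s := V) hq hX hz0 hκ hκ1 hC₁ hV1 (by omega)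
        (Y := U * z) (by
          rw [← mul_assoc]
          exact Nat.mul_le_mul_right z hV)
        (lv_chain hC hEA hvM (hN v hvM) (hs v hvM))
        (lv_chain hC hEA (k := v + V) (by omega) (hN _ (by omega)) (hs _ (by omega)))
        (fun ω ω' _ _ h => lab_lab C (Nat.le_add_right v V) (by
          have : (v + V) * z ≤ M * z := Nat.mul_le_mul_right z (by omega)
          omega) (Prod.ext_iff.1 h).1)
        (fun ω ω' _ _ h => (Prod.ext_iff.1 h).1) (by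
          rw [hvj]
          exact hR.ex (v + V) (by omega))
        (fun l l1 l2 => hg v V hV1 (by omega) l l1 l2) (hgn v V hV1 (by omega))
      have h2 := hR.rate v hvM (V * z) (Nat.mul_le_mul_right z hVU)
      have e1 : (fun ω => ⌊(2 : ℝ) ^ (g v (N + 1) + V * z) * cx F e ω (N + 1)⌋) =
          fun ω => F.X (g v (N + 1) + V * z) ω (e (N + 1)) := funext (hcx _ _ (by omega))
      have e2 : (fun ω => (⌊(2 : ℝ) ^ (g v (N + 1) + 0) * cx F e ω (N + 1)⌋,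
          (vjl (N + 1) J (cx F e) ω, F.T ω))) =
          fun ω => (F.X (g v (N + 1)) ω (e (N + 1)),
            ((fun i : Fin N => F.X J ω (e (i + 1))), F.T ω)) := by
        funext ω
        rw [Nat.add_zero (g v (N + 1)), hcx _ _ (by omega), hvj]
      rw [e1, e2] at h1
      have e3 : ∀ (r : ℕ), (fun ω => ⌊(2 : ℝ) ^ r * fh C e w₀ z g v ω (N + 1)⌋) =
          ndl (N + 1) r (cx F e) (C.lab w₀ z v) ((C.nd e (N + 1) w₀ z M g).P v) (g v) := by
        intro r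
        funext ω
        unfold fh ndl
        rw [hP v hvM ω (N + 1) le_rfl, ← mul_assoc, ← pow_add, add_comm r]
        show _ = ⌊(2 : ℝ) ^ (g v (N + 1) + r) * ((if N + 1 = 0 then F.t ω else
          F.x ω (e (N + 1))) - _)⌋
        rw [if_neg (by omega)]
      have e4 : ∀ (r : ℕ), (fun ω (i : Fin N) => ⌊(2 : ℝ) ^ r * fh C e w₀ z g v ω (i + 1)⌋) =
          vdl (N + 1) r (cx F e) (C.lab w₀ z v) ((C.nd e (N + 1) w₀ z M g).P v) (g v) := by
        intro r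
        funext ω i
        unfold fh vdl
        have hi : (i : ℕ) + 1 ≤ N + 1 := by omega
        rw [hP v hvM ω (i + 1) hi, ← mul_assoc, ← pow_add, add_comm r]
        show _ = ⌊(2 : ℝ) ^ (g v (i + 1) + r) * ((if (i : ℕ) + 1 = 0 then F.t ω else
          F.x ω (e (i + 1))) - _)⌋
        rw [if_neg (by omega)]
      have e5 := e3 0
      simp only [pow_zero, one_mul] at e5
      have e6 : (fun ω => (⌊fh C e w₀ z g v ω (N + 1)⌋,
          ((fun i : Fin N => ⌊(2 : ℝ) ^ (B * (V * z)) * fh C e w₀ z g v ω (i + 1)⌋),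
            (C.lab w₀ z v ω, F.T ω)))) =
          fun ω => (ndl (N + 1) 0 (cx F e) (C.lab w₀ z v) ((C.nd e (N + 1) w₀ z M g).P v) (g v) ω,
            (vdl (N + 1) (B * (V * z)) (cx F e) (C.lab w₀ z v)
              ((C.nd e (N + 1) w₀ z M g).P v) (g v) ω, (C.lab w₀ z v ω, F.T ω))) := by
        funext ω
        rw [← congrFun e5 ω, ← congrFun (e4 (B * (V * z))) ω]
      rw [e3 (V * z), e6]
      refine h1.trans ?_
      have e7 : (1 - a) * (((V * z : ℕ) : ℝ) * Real.log 2) = (1 - a) * (V * z) * Real.log 2 := by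
        push_cast
        ring
      rw [e7] at h2
      linarith) P hPU
  refine (le_trans ?_ key).trans ?_
  · exact CH_mono_cond hq.nonneg fun ω ω' _ _ h => h
  · linarith

/-- **The rows over a chain from the rows of a cell.** -/
theorem rowN_of (N K B : ℕ) (h C₁ : ℝ) (hB : 1 ≤ B) (hh0 : 0 ≤ h) (hh1 : h ≤ 1) (hC₁ : 1 ≤ C₁) :
    ∃ C₃ : ℝ, 1 ≤ C₃ ∧ ∀ {m J : ℕ} {F : Fam m J} {C : CDat F} {e : ℕ → Fin m}
      {C₂ : CDat2 F (N + 1)} {pa : Ln2 F → ℕ → Polynomial ℝ} {g₂ : ℕ → ℕ → ℕ → ℕ}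
      {w₀ z M a₀ w₁ M₂ v j U : ℕ} {g : ℕ → ℕ → ℕ} {lam gam : ℕ → ℝ} {κ C₁' : ℝ}
      {A E : F.Ω → Prop}, (∀ ω, E ω → A ω) → 1 ≤ z → v ≤ M → v ≤ M₂ → j ≤ M₂ →
      C.Cnd e (N + 1) K w₀ z M g C₁' A →
      (C₂.nd2 (cx F e) pa w₁ z M₂ g₂).Ok2 (N + 1) K J a₀ w₁ z M₂ lam gam κ C₁
        (Pool.Agent.H49.Ent.cond F.p E True) →
      RowJ (C₂.nd2 (cx F e) pa w₁ z M₂ g₂) N v j B U z h C₁
        (Pool.Agent.H49.Ent.cond F.p E True) →
      (∀ l, 1 ≤ l → l ≤ N + 1 → |(g v l : ℝ) - g₂ v j l| ≤ C₁ * z) →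
      (∀ ω, E ω → ∀ l, 1 ≤ l → l ≤ N + 1 → ∀ b : ℕ → ℝ,
        |b 0 - F.t ω| ≤ 1 / 2 ^ (a₀ + v * z) →
        (∀ i, 1 ≤ i → i < l → |b i - eval b (C.Ph w₀ z v ω i)| ≤ 1 / 2 ^ g v i) →
        |eval b (C.Ph w₀ z v ω l) - eval b (C₂.Ps2 v j ω l)| ≤
          Real.exp (C₁ * z) / 2 ^ g v l) →
      RowN F C e N w₀ z U g (1 / (2 * B)) h C₃ v E := by
  obtain ⟨C₃, hC₃, hnf⟩ := nf_netJ N K B h C₁ hB hh0 hh1 hC₁
  refine ⟨C₃, hC₃, ?_⟩
  intro m J F C e C₂ pa g₂ w₀ z M a₀ w₁ M₂ v j U g lam gam κ C₁' A E hEA hz hvM hv hj hC hOk hrow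
    hgg hnear P hP
  have hsup : ∀ ω, 0 < Pool.Agent.H49.Ent.cond F.p E True ω → E ω := fun ω hω => cond_supp hω
  have e1 : ∀ l, 1 ≤ l → (C₂.nd2 (cx F e) pa w₁ z M₂ g₂).g v j l = g₂ v j l := fun l l1 =>
    CDat2.nd2_g C₂ (cx F e) pa w₁ z M₂ g₂ l1
  have e2 : ∀ (ω : F.Ω) (l : ℕ), 1 ≤ l → l ≤ N + 1 →
      (C₂.nd2 (cx F e) pa w₁ z M₂ g₂).Ψ v j ω l = C₂.Ps2 v j ω l := fun ω l l1 l2 =>
    CDat2.nd2_Ψ C₂ (cx F e) pa w₁ z M₂ g₂ hv hj l1 l2 ω
  have h1 := hnf (C₂.nd2 (cx F e) pa w₁ z M₂ g₂) (Pool.Agent.H49.Ent.cond F.p E True) J a₀ w₁ z M₂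
    v j U lam gam κ _ (C.lab w₀ z v) (fun ω => C.Ph w₀ z v ω) (g v) hOk hz hv hj hrow
    (fun ω ω' _ _ h => by
      funext l
      show C.Ph w₀ z v ω l = C.Ph w₀ z v ω' l
      have h2 : C.lab w₀ z v ω = C.lab w₀ z v ω' := (Prod.ext_iff.1 h).1
      by_cases hl : l ≤ N + 1
      · rw [← ndX_P C (cx F e) (N + 1) w₀ z M g hvM hl ω,
          ← ndX_P C (cx F e) (N + 1) w₀ z M g hvM hl ω']
        exact congrArg (fun x => (C.nd e (N + 1) w₀ z M g).P v x l) h2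
      · unfold Ph
        rw [if_neg (by omega), if_neg (by omega)]
        have h3 : C.li v (slam F (w₀ + v * z) ω) = C.li v (slam F (w₀ + v * z) ω') := by
          have h4 : (C.lab w₀ z v ω).1 v = (C.lab w₀ z v ω').1 v := congrArg (fun x => x.1 v) h2
          have h5 : (C.lab w₀ z v ω).1 v = some (C.li v (slam F (w₀ + v * z) ω)) := if_pos le_rfl
          have h6 : (C.lab w₀ z v ω').1 v = some (C.li v (slam F (w₀ + v * z) ω')) := if_pos le_rfl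
          exact Option.some.inj (h5.symm.trans (h4.trans h6))
        rw [h3])
    (fun ω hω l l1 l2 => by
      have h3 : C.Ph w₀ z v ω l = C.G v (C.li v (slam F (w₀ + v * z) ω)) l := if_neg (by omega)
      rw [h3]
      exact ⟨hC.deg v hvM _ l l1 l2, hC.tri v hvM _ l l1 l2⟩)
    (fun l l1 l2 => by rw [e1 l l1]; exact hgg l l1 l2)
    (fun ω hω l l1 l2 => by
      have h3 := hC.pos v hvM ω (hEA ω (hsup ω hω)) l l1 (by omega)
      have h4 : cx F e ω l = F.x ω (e l) := if_neg (by omega)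
      show |cx F e ω l - _| ≤ _
      rw [h4]
      exact h3)
    (fun ω hω l l1 l2 b hb0 hb => by
      rw [e2 ω l l1 l2]
      exact hnear ω (hsup ω hω) l l1 l2 b hb0 hb) P hP
  have e3 : ∀ (ω : F.Ω) (l : ℕ), 1 ≤ l →
      hh (cx F e) (fun ω => C.Ph w₀ z v ω) (g v) ω l = fh C e w₀ z g v ω l := by
    intro ω l l1
    unfold hh fh
    have h4 : cx F e ω l = F.x ω (e l) := if_neg (by omega)
    rw [h4]
  have e4 : (fun ω => ⌊(2 : ℝ) ^ P * hh (cx F e) (fun ω => C.Ph w₀ z v ω) (g v) ω (N + 1)⌋) =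
      fun ω => ⌊(2 : ℝ) ^ P * fh C e w₀ z g v ω (N + 1)⌋ := by
    funext ω
    rw [e3 ω (N + 1) (by omega)]
  have e5 : (fun ω => (C.lab w₀ z v ω, ((fun i : Fin N => ⌊(2 : ℝ) ^ (U * z) *
      hh (cx F e) (fun ω => C.Ph w₀ z v ω) (g v) ω (i + 1)⌋), F.T ω))) =
      fun ω => (C.lab w₀ z v ω, ((fun i : Fin N => ⌊(2 : ℝ) ^ (U * z) *
        fh C e w₀ z g v ω (i + 1)⌋), F.T ω)) := by
    funext ω
    refine Prod.ext rfl (Prod.ext ?_ rfl)
    funext i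
    show ⌊_⌋ = ⌊_⌋
    rw [e3 ω (i + 1) (by omega)]
  rw [← e4, ← e5]
  exact h1

end Pool.STAT.RR
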