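import Pool.Agent.H80.STAT.RowD

/-!
# The rows over a chain from the rows of a cell, different meshes

`near3`: two systems which are near a third one on its boxes are near each other on the boxes of
the first one. `rowN_of2`: `rowN_of` for a cell with the mesh `z'`, `z ≤ z' ≤ z + 1`.
-/

set_option autoImplicit false

namespace Pool.STAT.RR

open Finset MvPolynomial
open Pool.Agent.H49.Ent Pool.Agent.H32.Dense Pool.STK Pool.KS3 Pool.KA Pool.KSAT Pool.K2S Pool.PB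
  Pool.GEN
open Pool.STAT.CLO Pool.STAT.CDat Pool.STAT.DPP

/-- **Near through a third system.** `Φ`: the raw system, `Ψ` and `Ψ'` are near `Φ` on its boxes.
Then `Ψ` and `Ψ'` are near on the boxes of `Ψ`. -/
theorem near3 (N K : ℕ) (C₁ : ℝ) (hC₁ : 0 ≤ C₁) : ∃ C₄ : ℝ, 1 ≤ C₄ ∧
    ∀ (t : ℝ) (Φ Ψ Ψ' : ℕ → PN) (g g' : ℕ → ℕ) (ρ z : ℕ), 1 ≤ z →
    (∀ l, 1 ≤ l → l ≤ N + 1 → (Φ l).totalDegree ≤ K ∧ (Φ l).vars ⊆ range l) →
    (∀ l, 1 ≤ l → l ≤ N + 1 → (Ψ l).totalDegree ≤ K ∧ (Ψ l).vars ⊆ range l) →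
    (∀ l, 1 ≤ l → l ≤ N + 1 → (Ψ' l).totalDegree ≤ K ∧ (Ψ' l).vars ⊆ range l) →
    (∀ l, 1 ≤ l → l ≤ N + 1 → |(g l : ℝ) - g' l| ≤ C₁ * z) →
    (∀ l, 1 ≤ l → l ≤ N + 1 → ∀ b : ℕ → ℝ, |b 0 - t| ≤ 1 / 2 ^ ρ →
      (∀ i, 1 ≤ i → i < l → |b i - eval b (Φ i)| ≤ 1 / 2 ^ g i) →
      |eval b (Φ l) - eval b (Ψ l)| ≤ Real.exp (C₁ * z) / 2 ^ g l) →
    (∀ l, 1 ≤ l → l ≤ N + 1 → ∀ b : ℕ → ℝ, |b 0 - t| ≤ 1 / 2 ^ ρ →
      (∀ i, 1 ≤ i → i < l → |b i - eval b (Φ i)| ≤ 1 / 2 ^ g i) →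
      |eval b (Φ l) - eval b (Ψ' l)| ≤ Real.exp (C₁ * z) / 2 ^ g l) →
    ∀ (b : ℕ → ℝ) (l : ℕ), 1 ≤ l → l ≤ N + 1 → |b 0 - t| ≤ 1 / 2 ^ ρ →
      (∀ i, 1 ≤ i → i < l → |b i - eval b (Ψ i)| ≤ 1 / 2 ^ g' i) →
      |eval b (Ψ l) - eval b (Ψ' l)| ≤ Real.exp (C₄ * z) / 2 ^ g' l := by
  obtain ⟨C₄, hC₄, hdil⟩ := dil_side N K C₁ hC₁
  refine ⟨C₄ + 1, by linarith, ?_⟩
  intro t Φ Ψ Ψ' g g' ρ z hz hΦ hΨ hΨ' hgg hn hn' b l l1 l2 hb0 hb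
  have h1 := hdil t Φ Ψ g g' ρ z hz hΦ hΨ hgg hn b l l1 l2 hb0 hb
  have h2 := h1 Ψ hΨ hn
  have h3 := h1 Ψ' hΨ' hn'
  have hzR : (1 : ℝ) ≤ z := by exact_mod_cast hz
  have e1 : Real.exp ((C₄ + 1) * z) = Real.exp (C₄ * z) * Real.exp z := by
    rw [← Real.exp_add]
    ring_nf
  have e2 : (2 : ℝ) ≤ Real.exp z := by
    have := Real.add_one_le_exp (z : ℝ)
    linarith
  have e3 : |eval b (Ψ l) - eval b (Ψ' l)| ≤
      |eval b (Φ l) - eval b (Ψ l)| + |eval b (Φ l) - eval b (Ψ' l)| := by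
    have h4 : eval b (Ψ l) - eval b (Ψ' l) =
        (eval b (Φ l) - eval b (Ψ' l)) - (eval b (Φ l) - eval b (Ψ l)) := by ring
    rw [h4, add_comm]
    exact abs_sub _ _
  refine e3.trans ((add_le_add h2 h3).trans ?_)
  rw [← add_div, e1]
  refine div_le_div_of_nonneg_right ?_ (by positivity)
  have := Real.exp_pos (C₄ * (z : ℝ))
  nlinarith

/-- More digits of the base. -/
theorem ch_more {Ω W : Type} [Fintype Ω] {q : Ω → ℝ} (hq : IsLaw q) {N u d : ℕ} (x : Ω → ℤ)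
    (f : Ω → Fin N → ℝ) (y : Ω → W) (T : Ω → ℕ) :
    CH q x (fun ω => (y ω, ((fun i => ⌊(2 : ℝ) ^ u * f ω i⌋), T ω))) ≤
      CH q x (fun ω => (y ω, ((fun i => ⌊(2 : ℝ) ^ (u + d) * f ω i⌋), T ω))) +
        N * (d * Real.log 2 + 2) := by
  classical
  obtain ⟨A, hA⟩ : ∃ A : Ω → Fin N → ℤ, A = fun ω i => ⌊(2 : ℝ) ^ u * f ω i⌋ := ⟨_, rfl⟩
  obtain ⟨B, hB⟩ : ∃ B : Ω → Fin N → ℤ, B = fun ω i => ⌊(2 : ℝ) ^ (u + d) * f ω i⌋ := ⟨_, rfl⟩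
  have e1 : (fun ω => (y ω, ((fun i => ⌊(2 : ℝ) ^ u * f ω i⌋), T ω))) =
      fun ω => (y ω, (A ω, T ω)) := by rw [hA]
  have e2 : (fun ω => (y ω, ((fun i => ⌊(2 : ℝ) ^ (u + d) * f ω i⌋), T ω))) =
      fun ω => (y ω, (B ω, T ω)) := by rw [hB]
  rw [e1, e2]
  have h1 := CH_le_add hq.nonneg x B (fun ω => (y ω, (A ω, T ω)))
  have h2 : CH q x (fun ω => (B ω, (y ω, (A ω, T ω)))) ≤ CH q x (fun ω => (y ω, (B ω, T ω))) :=
    CH_mono_cond hq.nonneg fun ω ω' _ _ h => by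
      simp only [Prod.mk.injEq] at h ⊢
      exact ⟨h.2.1, h.1, h.2.2.2⟩
  have h3 : CH q B (fun ω => (y ω, (A ω, T ω))) ≤ N * (d * Real.log 2 + 2) := by
    have key := Pool.MIC6.ch_vec hq B (fun ω => (y ω, (A ω, T ω))) (fun _ _ => (2 : ℝ) ^ d)
      (fun l ω ω' _ _ hyy _ => by
        have h4 := congrFun (Prod.ext_iff.1 (Prod.ext_iff.1 hyy).2).1 l
        rw [hA] at h4
        rw [hB]
        have h5 : ∀ ω : Ω, ⌊(2 : ℝ) ^ u * f ω l⌋ = ⌊(2 : ℝ) ^ (u + d) * f ω l⌋ / 2 ^ d :=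
          fun ω => Pool.RM.floor_div_pow _ _ _
        simp only [h5] at h4
        have h6 := Int.emod_add_mul_ediv ⌊(2 : ℝ) ^ (u + d) * f ω l⌋ (2 ^ d)
        have h7 := Int.emod_add_mul_ediv ⌊(2 : ℝ) ^ (u + d) * f ω' l⌋ (2 ^ d)
        have h8 : (0 : ℤ) < 2 ^ d := by positivity
        have h9 := Int.emod_nonneg ⌊(2 : ℝ) ^ (u + d) * f ω l⌋ h8.ne'
        have h10 := Int.emod_lt_of_pos ⌊(2 : ℝ) ^ (u + d) * f ω l⌋ h8
        have h11 := Int.emod_nonneg ⌊(2 : ℝ) ^ (u + d) * f ω' l⌋ h8.ne'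
        have h12 := Int.emod_lt_of_pos ⌊(2 : ℝ) ^ (u + d) * f ω' l⌋ h8
        rw [h4] at h6
        have h13 : |⌊(2 : ℝ) ^ (u + d) * f ω l⌋ - ⌊(2 : ℝ) ^ (u + d) * f ω' l⌋| ≤ 2 ^ d := by
          rw [abs_le]
          constructor <;> linarith
        exact_mod_cast h13)
    refine key.trans ?_
    have h14 : ∀ l ∈ range N, Pool.Agent.H32.Dense.Ex q (fun _ => Real.log (2 * (2 : ℝ) ^ d + 1)) ≤
        d * Real.log 2 + 2 := by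
      intro l _
      rw [Ex_const hq.sum_one]
      have h15 : (1 : ℝ) ≤ 2 ^ d := one_le_pow₀ one_le_two
      have h16 : Real.log (2 * (2 : ℝ) ^ d + 1) ≤ Real.log (3 * 2 ^ d) :=
        Real.log_le_log (by positivity) (by linarith)
      rw [Real.log_mul (by norm_num) (by positivity), Real.log_pow] at h16
      have h17 : Real.log 3 ≤ 3 - 1 := Real.log_le_sub_one_of_pos (by norm_num)
      linarith
    refine (Finset.sum_le_sum h14).trans (le_of_eq ?_)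
    rw [Finset.sum_const, Finset.card_range, nsmul_eq_mul]
  linarith

/-- **The rows over a chain from the rows of a cell**, the mesh of the cell is `z'`. -/
theorem rowN_of2 (N K B : ℕ) (h C₁ : ℝ) (hB : 1 ≤ B) (hh0 : 0 ≤ h) (hh1 : h ≤ 1) (hC₁ : 1 ≤ C₁) :
    ∃ C₃ : ℝ, 1 ≤ C₃ ∧ ∀ {m J : ℕ} {F : Fam m J} {C : CDat F} {e : ℕ → Fin m}
      {C₂ : CDat2 F (N + 1)} {pa : Ln2 F → ℕ → Polynomial ℝ} {g₂ : ℕ → ℕ → ℕ → ℕ}
      {w₀ z z' M a₀ w₁ M₂ v j U : ℕ} {g : ℕ → ℕ → ℕ} {lam gam : ℕ → ℝ} {κ C₁' : ℝ}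
      {A E : F.Ω → Prop}, (∀ ω, E ω → A ω) → 1 ≤ z → z ≤ z' → z' ≤ z + 1 → U ≤ z → v ≤ M →
      v ≤ M₂ → j ≤ M₂ →
      C.Cnd e (N + 1) K w₀ z M g C₁' A →
      (C₂.nd2 (cx F e) pa w₁ z' M₂ g₂).Ok2 (N + 1) K J a₀ w₁ z' M₂ lam gam κ C₁
        (Pool.Agent.H49.Ent.cond F.p E True) →
      RowJ (C₂.nd2 (cx F e) pa w₁ z' M₂ g₂) N v j B U z' h C₁
        (Pool.Agent.H49.Ent.cond F.p E True) →
      (∀ l, 1 ≤ l → l ≤ N + 1 → |(g v l : ℝ) - g₂ v j l| ≤ C₁ * z') →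
      (∀ ω, E ω → ∀ l, 1 ≤ l → l ≤ N + 1 → ∀ b : ℕ → ℝ,
        |b 0 - F.t ω| ≤ 1 / 2 ^ (a₀ + v * z') →
        (∀ i, 1 ≤ i → i < l → |b i - eval b (C.Ph w₀ z v ω i)| ≤ 1 / 2 ^ g v i) →
        |eval b (C.Ph w₀ z v ω l) - eval b (C₂.Ps2 v j ω l)| ≤
          Real.exp (C₁ * z') / 2 ^ g v l) →
      RowN F C e N w₀ z U g (1 / (2 * B)) h C₃ v E := by
  obtain ⟨C₃, hC₃, hnf⟩ := nf_netJ N K B h C₁ hB hh0 hh1 hC₁
  refine ⟨2 * C₃ + 3 * N, by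
    have : (0 : ℝ) ≤ N := Nat.cast_nonneg N
    linarith, ?_⟩
  intro m J F C e C₂ pa g₂ w₀ z z' M a₀ w₁ M₂ v j U g lam gam κ C₁' A E hEA hz hz1 hz2 hUz hvM hv hj
    hC hOk hrow hgg hnear P hP
  have hq := hOk.isLaw
  have hzR : (1 : ℝ) ≤ z := by exact_mod_cast hz
  have hz1R : (z : ℝ) ≤ z' := by exact_mod_cast hz1
  have hz2R : (z' : ℝ) ≤ z + 1 := by exact_mod_cast hz2
  have hUzR : (U : ℝ) ≤ z := by exact_mod_cast hUz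
  have hBR : (1 : ℝ) ≤ B := by exact_mod_cast hB
  have hsup : ∀ ω, 0 < Pool.Agent.H49.Ent.cond F.p E True ω → E ω := fun ω hω => cond_supp hω
  have e1 : ∀ l, 1 ≤ l → (C₂.nd2 (cx F e) pa w₁ z' M₂ g₂).g v j l = g₂ v j l := fun l l1 =>
    CDat2.nd2_g C₂ (cx F e) pa w₁ z' M₂ g₂ l1
  have e2 : ∀ (ω : F.Ω) (l : ℕ), 1 ≤ l → l ≤ N + 1 →
      (C₂.nd2 (cx F e) pa w₁ z' M₂ g₂).Ψ v j ω l = C₂.Ps2 v j ω l := fun ω l l1 l2 =>
    CDat2.nd2_Ψ C₂ (cx F e) pa w₁ z' M₂ g₂ hv hj l1 l2 ω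
  have hP' : (P : ℝ) ≤ 1 / (2 * B) * (U * z') := by
    refine hP.trans (mul_le_mul_of_nonneg_left (mul_le_mul_of_nonneg_left hz1R
      (Nat.cast_nonneg U)) (by positivity))
  have h1 := hnf (C₂.nd2 (cx F e) pa w₁ z' M₂ g₂) (Pool.Agent.H49.Ent.cond F.p E True) J a₀ w₁ z'
    M₂ v j U lam gam κ _ (C.lab w₀ z v) (fun ω => C.Ph w₀ z v ω) (g v) hOk (hz.trans hz1) hv hj
    hrow
    (fun ω ω' _ _ h => by
      funext l
      show C.Ph w₀ z v ω l = C.Ph w₀ z v ω' l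
      have h2 : C.lab w₀ z v ω = C.lab w₀ z v ω' := (Prod.ext_iff.1 h).1
      by_cases hl : l ≤ N + 1
      · rw [← ndX_P C (cx F e) (N + 1) w₀ z M g hvM hl ω,
          ← ndX_P C (cx F e) (N + 1) w₀ z M g hvM hl ω']
        exact congrArg (fun x => (C.nd e (N + 1) w₀ z M g).P v x l) h2
      · unfold Ph
        rw [if_neg (by omega), if_neg (by omega), lab_val C (le_refl v) h2])
    (fun ω hω l l1 l2 => by
      have h3 : C.Ph w₀ z v ω l = C.G v (C.li v (slam F (w₀ + v * z) ω)) l := if_neg (by omega)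
      rw [h3]
      exact ⟨hC.deg v hvM _ l l1 l2, hC.tri v hvM _ l l1 l2⟩)
    (fun l l1 l2 => by rw [e1 l l1]; exact hgg l l1 l2)
    (fun ω hω l l1 l2 => by
      have h3 := hC.pos v hvM ω (hEA ω (hsup ω hω)) l l1 (by omega)
      have h4 : cx F e ω l = F.x ω (e l) := if_neg (by omega)
      show |cx F e ω l - _| ≤ _
      rw [h4]
      exact h3)
    (fun ω hω l l1 l2 b hb0 hb => by
      rw [e2 ω l l1 l2]
      exact hnear ω (hsup ω hω) l l1 l2 b hb0 hb) P hP'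
  have e3 : ∀ (ω : F.Ω) (l : ℕ), 1 ≤ l →
      hh (cx F e) (fun ω => C.Ph w₀ z v ω) (g v) ω l = fh C e w₀ z g v ω l := by
    intro ω l l1
    unfold hh fh
    have h4 : cx F e ω l = F.x ω (e l) := if_neg (by omega)
    rw [h4]
  obtain ⟨d, hd⟩ : ∃ d, U * z' = U * z + d ∧ d ≤ U := by
    refine ⟨U * (z' - z), ?_, ?_⟩
    · rw [← Nat.mul_add, Nat.add_sub_cancel' hz1]
    · calc U * (z' - z) ≤ U * 1 := Nat.mul_le_mul_left U (by omega)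
        _ = U := Nat.mul_one U
  have e4 : (fun ω => ⌊(2 : ℝ) ^ P * hh (cx F e) (fun ω => C.Ph w₀ z v ω) (g v) ω (N + 1)⌋) =
      fun ω => ⌊(2 : ℝ) ^ P * fh C e w₀ z g v ω (N + 1)⌋ := by
    funext ω
    rw [e3 ω (N + 1) (by omega)]
  have e5 : (fun ω => (C.lab w₀ z v ω, ((fun i : Fin N => ⌊(2 : ℝ) ^ (U * z') *
      hh (cx F e) (fun ω => C.Ph w₀ z v ω) (g v) ω (i + 1)⌋), F.T ω))) =
      fun ω => (C.lab w₀ z v ω, ((fun i : Fin N => ⌊(2 : ℝ) ^ (U * z + d) *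
        fh C e w₀ z g v ω (i + 1)⌋), F.T ω)) := by
    funext ω
    refine Prod.ext rfl (Prod.ext ?_ rfl)
    funext i
    show ⌊_⌋ = ⌊_⌋
    rw [e3 ω (i + 1) (by omega), hd.1]
  have h2 : CH (Pool.Agent.H49.Ent.cond F.p E True)
      (fun ω => ⌊(2 : ℝ) ^ P * fh C e w₀ z g v ω (N + 1)⌋)
      (fun ω => (C.lab w₀ z v ω, ((fun i : Fin N => ⌊(2 : ℝ) ^ (U * z + d) *
        fh C e w₀ z g v ω (i + 1)⌋), F.T ω))) ≤ (1 - h) * (P * Real.log 2) + C₃ * z' := by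
    rw [← e4, ← e5]
    exact h1
  have h3 := ch_more hq (N := N) (u := U * z) (d := d)
    (fun ω => ⌊(2 : ℝ) ^ P * fh C e w₀ z g v ω (N + 1)⌋)
    (fun ω (i : Fin N) => fh C e w₀ z g v ω (i + 1)) (C.lab w₀ z v) F.T
  refine (h3.trans (add_le_add h2 le_rfl)).trans ?_
  have hdR : (d : ℝ) ≤ z := by
    have : (d : ℝ) ≤ U := by exact_mod_cast hd.2
    linarith
  have hl : Real.log 2 ≤ 1 := by linarith [Real.log_two_lt_d9]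
  have hl0 : 0 ≤ Real.log 2 := (Real.log_pos one_lt_two).le
  have h4 : (d : ℝ) * Real.log 2 ≤ z := by
    have : (d : ℝ) * Real.log 2 ≤ d * 1 := mul_le_mul_of_nonneg_left hl (Nat.cast_nonneg d)
    linarith
  have h5 : (N : ℝ) * (d * Real.log 2 + 2) ≤ N * (3 * z) :=
    mul_le_mul_of_nonneg_left (by linarith) (Nat.cast_nonneg N)
  have h6 : C₃ * (z' : ℝ) ≤ C₃ * (2 * z) := mul_le_mul_of_nonneg_left (by linarith) (by linarith)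
  have h7 : (2 * C₃ + 3 * N) * (z : ℝ) = C₃ * (2 * z) + N * (3 * z) := by ring
  rw [h7]
  linarith

end Pool.STAT.RR
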