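import Pool.Agent.H80.STAT.RowE
import Pool.Agent.H80.STAT.Node
import Pool.Agent.H6.MIC.NfD

/-!
# The rows over the fat chain from the facts at a grid

`rowN_node`: the rows of the last coordinate over the closed labels of a path, from the axioms and
the rows of the cell of a grid which has the end of the path as a node.
-/

set_option autoImplicit false

namespace Pool.STAT

open Finset MvPolynomial
open Pool.Agent.H49.Ent Pool.Agent.H32.Dense Pool.STK Pool.KS3 Pool.KA Pool.KSAT Pool.K2S Pool.PB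
  Pool.GEN
open Pool.STAT.CLO Pool.STAT.CDat Pool.STAT.DPP Pool.STAT.GRD

/-- Larger constants. -/
theorem NDat2.Ok2.mono_KC {D : NDat2} {n K K' J a₀ w₀ z M : ℕ} {lam gam : ℕ → ℝ} {κ C₁ C₁' : ℝ}
    {q : D.Ω → ℝ} (h : D.Ok2 n K J a₀ w₀ z M lam gam κ C₁ q) (hK : K ≤ K') (hC : C₁ ≤ C₁') :
    D.Ok2 n K' J a₀ w₀ z M lam gam κ C₁' q := by
  have h1 : C₁ * (z : ℝ) ≤ C₁' * z := mul_le_mul_of_nonneg_right hC (Nat.cast_nonneg z)
  exact
    { h with
      pa_deg := fun x l => (h.pa_deg x l).trans hK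
      i_few := fun i hi j hj => (h.i_few i hi j hj).trans h1
      ij_few := fun i hi j hj => (h.ij_few i hi j hj).trans h1
      P_deg := fun i j x l => (h.P_deg i j x l).trans hK
      G_deg := fun i j x l => (h.G_deg i j x l).trans hK
      net := fun i hi j hj C hC0 Y y hy hn => by
        refine (h.net i hi j hj C hC0 Y y hy hn).trans ?_
        have h2 : C₁ * (C + 1) ≤ C₁' * (C + 1) := mul_le_mul_of_nonneg_right hC (by linarith)
        exact mul_le_mul_of_nonneg_right h2 (Nat.cast_nonneg z)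
      hom := fun i hi j hj l l1 l2 => (h.hom i hi j hj l l1 l2).trans h1
      g_ge := fun i hi j hj l l1 l2 => (h.g_ge i hi j hj l l1 l2).trans (by linarith) }

namespace RR

theorem RowJ.mono {D : NDat2} {N v j B U z : ℕ} {h C₁ C₁' : ℝ} {q : D.Ω → ℝ}
    (hr : RowJ D N v j B U z h C₁ q) (hC : C₁ ≤ C₁') : RowJ D N v j B U z h C₁' q := by
  intro V hV1 hV
  have h1 : C₁ * (z : ℝ) ≤ C₁' * z := mul_le_mul_of_nonneg_right hC (Nat.cast_nonneg z)
  have h2 := hr V hV1 hV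
  linarith

/-- **The rows over the fat chain from the facts at a grid.** -/
theorem rowN_node (N K' Kst s₁ B : ℕ) (h C₁ : ℝ) (hB : 1 ≤ B) (hh0 : 0 ≤ h) (hh1 : h ≤ 1)
    (hC₁ : 1 ≤ C₁) :
    ∃ (c : ℕ) (C₃ : ℝ), 1 ≤ c ∧ 1 ≤ C₃ ∧ ∀ {m J : ℕ} {F : Fam m J} {C : CDat F} {co : ℕ → Fin m}
      {D : GDat F} {Rt : ℕ → ℕ → Type} {ρ : (i j : ℕ) → LnT F → Rt i j} {Kr : ℕ} {sh : ℕ → ℕ}
      {ee : ℕ → ℕ → ℕ} {gD : ℕ → ℕ → ℕ → ℕ} {w₀ z z' M a₀ w₁ M₂ v j U u t R jj j' : ℕ}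
      {g : ℕ → ℕ → ℕ} {lam gam : ℕ → ℝ} {κ C₁' : ℝ} {A B' E : F.Ω → Prop} {π π' : Path F},
      (∀ ω, E ω → A ω) → (∀ ω, E ω → B' ω) → 1 ≤ z → z ≤ z' → z' ≤ z + 1 → U ≤ z → v ≤ M →
      v + U ≤ M₂ → j ≤ M₂ →
      C.Cnd (fun i => co (i - 1)) (N + 1) Kst w₀ z M g C₁' A →
      D.Ok co (N + 1) Kr K' s₁ sh a₀ w₁ z' M₂ ee gD B' →
      (D.nd co (N + 1) sh w₁ z' M₂ gD ρ).Ok2 (N + 1) K' J a₀ w₁ z' M₂ lam gam κ C₁
        (Pool.Agent.H49.Ent.cond F.p E True) →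
      Pool.MIC6.NF0 (D.nd co (N + 1) sh w₁ z' M₂ gD ρ) (N + 1) z' M₂ B h C₁
        (Pool.Agent.H49.Ent.cond F.p E True) →
      π.Ok → π'.Ok → Fnr π π' (N + 1) u jj j' A → Fnr π' π' (N + 1) u j' j' A →
      (∀ ω, A ω → π.Er (N + 1) jj u t (g v) ω (C.Ph w₀ z v ω)) →
      π.a jj = w₀ + v * z → π'.a j' = a₀ + v * z' → a₀ + v * z' ≤ w₀ + v * z + R →
      (∀ l, 1 ≤ l → l ≤ N + 1 → gD v j (l - 1) = π'.g j' l ∧ sh l ≤ z' ∧
        g v l ≤ gD v j (l - 1) ∧ gD v j (l - 1) ≤ g v l + R) →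
      (∀ ω l, 1 ≤ l → l ≤ N + 1 → Gx co (N + 1) (D.G v j) (ptr F J ω) l =
        π'.G j' (ptr F J ω) l) →
      c * (t + u + R + 1) ≤ z' →
      RowN F C (fun i => co (i - 1)) N w₀ z U g (1 / (2 * B)) h C₃ v E := by
  obtain ⟨Km, hKm⟩ : ∃ Km, Km = max K' Kst := ⟨_, rfl⟩
  have k1 : K' ≤ Km := by rw [hKm]; exact le_max_left _ _
  have k2 : Kst ≤ Km := by rw [hKm]; exact le_max_right _ _
  obtain ⟨C₂, hC₂⟩ : ∃ C₂, C₂ = max C₁ 2 := ⟨_, rfl⟩
  have c1 : C₁ ≤ C₂ := by rw [hC₂]; exact le_max_left _ _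
  have c2 : 2 ≤ C₂ := by rw [hC₂]; exact le_max_right _ _
  obtain ⟨c, hc, hnode⟩ := near_node (N + 1) K' s₁ Km
  obtain ⟨C₃, hC₃, hrow⟩ := rowN_of2 N Km B h C₂ hB hh0 hh1 (hC₁.trans c1)
  refine ⟨c, C₃, hc, hC₃, ?_⟩
  intro m J F C co D Rt ρ Kr sh ee gD w₀ z z' M a₀ w₁ M₂ v j U u t R jj j' g lam gam κ C₁' A B' E
    π π' hEA hEB hz hz1 hz2 hUz hvM hvU hj hC hD hOk hNF ho ho' hf hf' hEr ha ha' haR hg hG hct
  have hz'R : (1 : ℝ) ≤ z' := by exact_mod_cast hz.trans hz1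
  have hRz : R ≤ z' := by
    refine le_trans ?_ hct
    calc R ≤ 1 * (t + u + R + 1) := by omega
      _ ≤ c * (t + u + R + 1) := Nat.mul_le_mul_right _ hc
  have hRzR : (R : ℝ) ≤ z' := by exact_mod_cast hRz
  have htop := hOk.top
  have hvM2 : v ≤ M₂ := by omega
  have haJ : a₀ + v * z' ≤ J := by
    have h1 : v * z' ≤ (M₂ + 1) * z' := Nat.mul_le_mul_right z' (by omega)
    omega
  have hC' : C.Cnd (fun i => co (i - 1)) (N + 1) Km w₀ z M g C₁' A :=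
    { hC with
      deg := fun k hk x i i1 i2 => (hC.deg k hk x i i1 i2).trans k2
      Rdeg := fun l i i1 i2 => (hC.Rdeg l i i1 i2).trans k2 }
  have hout := hD.out v hvM2 j hj
  refine hrow (e := fun i => co (i - 1)) (C₂ := D.cd (N + 1) ρ) (pa := pc co)
    (g₂ := fun i j l => gD i j (l - 1) - sh l) (M₂ := M₂) (a₀ := a₀) (j := j) hEA hz hz1 hz2 hUz
    hvM hvM2 hj hC' (hOk.mono_KC k1 c1) ((rowJ_of (M := M₂) hvU hB fun r V hV => ?_).mono c1)
    (fun l l1 l2 => ?_) (fun ω hω l l1 l2 b hb0 hb => ?_)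
  · have h1 := hNF v hvM2 j hj r V (by omega)
    exact h1
  · obtain ⟨g1, g2, g3, g4⟩ := hg l l1 l2
    have g2R : (sh l : ℝ) ≤ z' := by exact_mod_cast g2
    have g3R : (g v l : ℝ) ≤ gD v j (l - 1) := by exact_mod_cast g3
    have g4R : (gD v j (l - 1) : ℝ) ≤ g v l + R := by exact_mod_cast g4
    have h1 : ((gD v j (l - 1) - sh l : ℕ) : ℝ) ≤ gD v j (l - 1) := by
      exact_mod_cast Nat.sub_le _ _
    have h2 : (gD v j (l - 1) : ℝ) ≤ ((gD v j (l - 1) - sh l : ℕ) : ℝ) + sh l := by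
      exact_mod_cast le_tsub_add
    have h3 : 2 * (z' : ℝ) ≤ C₂ * z' := mul_le_mul_of_nonneg_right c2 (by linarith)
    show |(g v l : ℝ) - ((gD v j (l - 1) - sh l : ℕ) : ℝ)| ≤ C₂ * z'
    rw [abs_le]
    constructor <;> linarith
  · have h1 := hnode (R := R) (Φ := C.Ph w₀ z v ω) (g₁ := g v)
      (PS := D.PS v j (D.zS v j (ptr F J ω))) (Gx := Gx co (N + 1) (D.G v j) (ptr F J ω))
      (g' := fun l => gD v j (l - 1)) ho ho' hf hf' (hEA ω hω) (by rw [ha']; exact haJ)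
      (hEr ω (hEA ω hω)) (by rw [ha']; exact hout.nrS ω (hEB ω hω)) (by
        unfold Gx sy
        rw [if_pos rfl, tx_eq]) (fun l l1 l2 => hG ω l l1 l2) (fun l l1 l2 => (hg l l1 l2).1)
      (fun i hi => by
        rcases Nat.eq_zero_or_pos i with rfl | i1
        · show (if 0 = 0 then _ else _ : PN).vars ⊆ _
          rw [if_pos rfl, vars_C]
          exact Finset.empty_subset _
        · have h3 : C.Ph w₀ z v ω i = C.G v (C.li v (slam F (w₀ + v * z) ω)) i :=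
            if_neg (by omega)
          rw [h3]
          exact hC'.tri v hvM _ i i1 hi)
      (fun i _ _ => hout.Stri _ i)
      (fun i hi => by
        rcases Nat.eq_zero_or_pos i with rfl | i1
        · show (if 0 = 0 then _ else _ : PN).totalDegree ≤ _
          rw [if_pos rfl, totalDegree_C]
          exact Nat.zero_le _
        · have h3 : C.Ph w₀ z v ω i = C.G v (C.li v (slam F (w₀ + v * z) ω)) i :=
            if_neg (by omega)
          rw [h3]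
          exact hC'.deg v hvM _ i i1 hi)
      (fun i _ _ => (hout.Sdeg _ i).trans k1)
      (by
        show (if 0 = 0 then _ else _ : PN) = _
        rw [if_pos rfl, ha])
      (fun l l1 l2 => (hg l l1 l2).2.2.1) (fun l l1 l2 => (hg l l1 l2).2.2.2)
      (by rw [ha', ha]; exact haR) l l1 l2 b (by rw [ha']; exact hb0) hb
    refine h1.trans (div_le_div_of_nonneg_right ?_ (by positivity))
    have h2 : (2 : ℝ) ^ (c * (t + u + R + 1)) ≤ 2 ^ z' := pow_le_pow_right₀ (by norm_num) hct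
    refine h2.trans ?_
    have h3 : (2 : ℝ) ^ z' = Real.exp (z' * Real.log 2) := by
      rw [mul_comm, Real.exp_mul, Real.exp_log (by norm_num), Real.rpow_natCast]
    rw [h3]
    refine Real.exp_le_exp.2 ?_
    have h4 : Real.log 2 ≤ 1 := by linarith [Real.log_two_lt_d9]
    have h5 : (z' : ℝ) * Real.log 2 ≤ z' * 1 := mul_le_mul_of_nonneg_left h4 (by linarith)
    have h6 : 2 * (z' : ℝ) ≤ C₂ * z' := mul_le_mul_of_nonneg_right c2 (by linarith)
    linarith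

end RR

end Pool.STAT
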