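import Pool.Agent.H80.STAT.RowR3
import Pool.Agent.H12.STAT.N5R

/-!
# The digits of the height of a system, from the rows of a larger system given the exact time

* `time_free`: the digits of the time below the window of the level are independent of all which
  is determined by the line and the window.
* `rat_nf`: 12's `RatN` for a system `D`, from the rows of a larger system (which are given the
  exact time), if the labels of `D` determine the labels of the larger system and its base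
  coordinates are almost polynomials of the coordinates of `D`.
-/

set_option autoImplicit false

namespace Pool.STAT

open Finset MvPolynomial
open Pool.Agent.H49.Ent Pool.Agent.H32.Dense Pool.STK Pool.KS3
open Pool.BFL (Pl CB Pb P2 MC alt)

namespace RR

theorem div_close {a b k : ℕ} (hk : 0 < k) (h : a / k = b / k) : |((a : ℤ) : ℝ) - (b : ℤ)| ≤ k := by
  have h1 := Nat.div_add_mod a k
  have h2 := Nat.div_add_mod b k
  have h3 := Nat.mod_lt a hk
  have h4 := Nat.mod_lt b hk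
  rw [h] at h1
  have h5 : (a : ℝ) = k * (b / k : ℕ) + (a % k : ℕ) := by exact_mod_cast h1.symm
  have h6 : (b : ℝ) = k * (b / k : ℕ) + (b % k : ℕ) := by exact_mod_cast h2.symm
  have h7 : ((a % k : ℕ) : ℝ) < k := by exact_mod_cast h3
  have h8 : ((b % k : ℕ) : ℝ) < k := by exact_mod_cast h4
  have h9 : (0 : ℝ) ≤ ((a % k : ℕ) : ℝ) := Nat.cast_nonneg _
  have h10 : (0 : ℝ) ≤ ((b % k : ℕ) : ℝ) := Nat.cast_nonneg _
  push_cast
  rw [abs_le]
  constructor <;> linarith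

/-- The time given the line and the near digits. -/
theorem time_cell {Ω Λ : Type} [Fintype Ω] {q : Ω → ℝ} (hp : IsLaw q) (T : Ω → ℕ) (ln : Ω → Λ)
    {J w y : ℕ} (hJ : w + y ≤ J) {ε : ℝ} (hln : Det q ln (fun ω => T ω / 2 ^ (J - w)))
    (htime : ((J - w : ℕ) : ℝ) * Real.log 2 - ε ≤ CH q T ln) :
    ((J - (w + y) : ℕ) : ℝ) * Real.log 2 - ε - 2 ≤
      CH q T (fun ω => (ln ω, T ω / 2 ^ (J - (w + y)))) := by
  classical
  have hqn := hp.nonneg
  have l2 : 0 < Real.log 2 := Real.log_pos (by norm_num)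
  obtain ⟨τ, hτ⟩ : ∃ τ : Ω → ℕ, τ = fun ω => T ω / 2 ^ (J - (w + y)) := ⟨_, rfl⟩
  have hkey : ∀ ω, T ω / 2 ^ (J - (w + y)) = τ ω := fun ω => by rw [hτ]
  simp only [hkey]
  have c2 : CH q τ ln ≤ y * Real.log 2 + 2 := by
    have h1 := CH_le_int hqn hp.sum_one (fun ω => ((τ ω : ℕ) : ℤ)) ln
      (fun _ => ((2 ^ y : ℕ) : ℝ)) (fun ω ω' hω hω' e => by
        have h4 : T ω / 2 ^ (J - w) = T ω' / 2 ^ (J - w) := hln ω ω' hω hω' e
        have h2 := div_close (a := τ ω) (b := τ ω') (k := 2 ^ y) (by positivity) (by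
          rw [hτ]
          simp only [Nat.div_div_eq_div_mul]
          rw [← pow_add]
          have : J - (w + y) + y = J - w := by omega
          rw [this]
          exact h4)
        push_cast at h2 ⊢
        exact h2)
    have h2 : CH q τ ln ≤ CH q (fun ω => ((τ ω : ℕ) : ℤ)) ln :=
      CH_mono_left hqn fun ω ω' _ _ e => by
        simp only [Prod.mk.injEq] at e
        exact_mod_cast e.1
    rw [Ex_const hp.sum_one] at h1
    refine h2.trans (h1.trans ?_)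
    have h3 : (1 : ℝ) ≤ 2 ^ y := one_le_pow₀ (by norm_num)
    push_cast
    refine (Real.log_le_log (by positivity)
      (by linarith : 2 * (2 : ℝ) ^ y + 1 ≤ 2 ^ y * 7)).trans ?_
    rw [Real.log_mul (by positivity) (by norm_num), Real.log_pow]
    have := log7
    linarith
  have h1 := CH_le_add hqn T τ ln
  have h2 : CH q T (fun ω => (τ ω, ln ω)) = CH q T (fun ω => (ln ω, τ ω)) :=
    CH_congr hqn (fun ω ω' _ _ e => (Prod.ext_iff.1 e).1) (fun ω ω' _ _ e => (Prod.ext_iff.1 e).1)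
      (fun ω ω' _ _ e => by
        simp only [Prod.mk.injEq] at e ⊢
        exact ⟨e.2, e.1⟩) (fun ω ω' _ _ e => by
        simp only [Prod.mk.injEq] at e ⊢
        exact ⟨e.2, e.1⟩)
  have h3 : ((J - w : ℕ) : ℝ) = ((J - (w + y) : ℕ) : ℝ) + y := by
    have : J - w = J - (w + y) + y := by omega
    rw [this]
    push_cast
    ring
  rw [h3] at htime
  linarith

/-- **The exact time is free.** -/
theorem time_free {Ω A B S Λ : Type} [Fintype Ω] {q : Ω → ℝ} (hp : IsLaw q) (N : Ω → A)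
    (b : Ω → B) (s : Ω → S) (T : Ω → ℕ) (ln : Ω → Λ) {J w y : ℕ} (hJ : w + y ≤ J) {ε E : ℝ}
    (hln : Det q ln (fun ω => T ω / 2 ^ (J - w)))
    (htime : ((J - w : ℕ) : ℝ) * Real.log 2 - ε ≤ CH q T ln)
    (hE : CH q (fun ω => (N ω, (b ω, s ω))) (fun ω => (ln ω, T ω / 2 ^ (J - (w + y)))) ≤ E) :
    CH q N (fun ω => (s ω, (b ω, T ω / 2 ^ (J - (w + y))))) ≤
      CH q N (fun ω => (s ω, (b ω, T ω))) + (ε + E + 4) := by
  classical
  have hqn := hp.nonneg
  have l2 : 0 < Real.log 2 := Real.log_pos (by norm_num)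
  obtain ⟨τ, hτ⟩ : ∃ τ : Ω → ℕ, τ = fun ω => T ω / 2 ^ (J - (w + y)) := ⟨_, rfl⟩
  have hτd : Det q T τ := fun ω ω' _ _ e => by rw [hτ]; simp only [e]
  have hkey : ∀ ω, T ω / 2 ^ (J - (w + y)) = τ ω := fun ω => by rw [hτ]
  simp only [hkey] at hE ⊢
  -- the number of values of the time given its near digits
  have c1 : CH q T τ ≤ ((J - (w + y) : ℕ) : ℝ) * Real.log 2 + 2 := by
    have h1 := CH_le_int hqn hp.sum_one (fun ω => ((T ω : ℕ) : ℤ)) τ
      (fun _ => ((2 ^ (J - (w + y)) : ℕ) : ℝ)) (fun ω ω' _ _ e => by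
        have h2 := div_close (a := T ω) (b := T ω') (k := 2 ^ (J - (w + y))) (by positivity) (by
          rw [hτ] at e
          exact e)
        push_cast at h2 ⊢
        exact h2)
    have h2 : CH q T τ ≤ CH q (fun ω => ((T ω : ℕ) : ℤ)) τ :=
      CH_mono_left hqn fun ω ω' _ _ e => by
        simp only [Prod.mk.injEq] at e
        exact_mod_cast e.1
    rw [Ex_const hp.sum_one] at h1
    refine h2.trans (h1.trans ?_)
    have h3 : (1 : ℝ) ≤ 2 ^ (J - (w + y)) := one_le_pow₀ (by norm_num)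
    push_cast
    refine (Real.log_le_log (by positivity)
      (by linarith : 2 * (2 : ℝ) ^ (J - (w + y)) + 1 ≤ 2 ^ (J - (w + y)) * 7)).trans ?_
    rw [Real.log_mul (by positivity) (by norm_num), Real.log_pow]
    have := log7
    linarith
  -- the time given the line and the near digits
  have c3 : ((J - (w + y) : ℕ) : ℝ) * Real.log 2 - ε - 2 ≤ CH q T (fun ω => (ln ω, τ ω)) := by
    have h1 := time_cell hp T ln hJ hln htime
    simp only [hkey] at h1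
    exact h1
  -- the time given all
  have c4 : CH q T (fun ω => (ln ω, τ ω)) - E ≤
      CH q T (fun ω => (N ω, (s ω, (b ω, τ ω)))) := by
    have h1 := CH_chain hqn T (fun ω => (N ω, (b ω, s ω))) (fun ω => (ln ω, τ ω))
    have h2 := CH_chain hqn (fun ω => (N ω, (b ω, s ω))) T (fun ω => (ln ω, τ ω))
    have h3 : CH q (fun ω => (T ω, (N ω, (b ω, s ω)))) (fun ω => (ln ω, τ ω)) =
        CH q (fun ω => ((N ω, (b ω, s ω)), T ω)) (fun ω => (ln ω, τ ω)) :=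
      CH_congr hqn (fun ω ω' _ _ e => by
        simp only [Prod.mk.injEq] at e ⊢
        tauto) (fun ω ω' _ _ e => by
        simp only [Prod.mk.injEq] at e ⊢
        tauto) (fun _ _ _ _ e => e) (fun _ _ _ _ e => e)
    have h4 := CH_nonneg hqn (fun ω => (N ω, (b ω, s ω))) (fun ω => (T ω, (ln ω, τ ω)))
    have h5 : CH q T (fun ω => ((N ω, (b ω, s ω)), (ln ω, τ ω))) ≤
        CH q T (fun ω => (N ω, (s ω, (b ω, τ ω)))) :=
      CH_mono_cond hqn fun ω ω' _ _ e => by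
        simp only [Prod.mk.injEq] at e ⊢
        tauto
    linarith
  have c5 : CH q T (fun ω => (s ω, (b ω, τ ω))) ≤ CH q T τ :=
    CH_mono_cond hqn fun ω ω' _ _ e => by
      simp only [Prod.mk.injEq] at e
      exact e.2.2
  have e1 := CH_chain hqn T N (fun ω => (s ω, (b ω, τ ω)))
  have e2 := CH_chain hqn N T (fun ω => (s ω, (b ω, τ ω)))
  have e3 : CH q (fun ω => (T ω, N ω)) (fun ω => (s ω, (b ω, τ ω))) =
      CH q (fun ω => (N ω, T ω)) (fun ω => (s ω, (b ω, τ ω))) :=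
    CH_congr hqn (fun ω ω' _ _ e => by
      simp only [Prod.mk.injEq] at e ⊢
      tauto) (fun ω ω' _ _ e => by
      simp only [Prod.mk.injEq] at e ⊢
      tauto) (fun _ _ _ _ e => e) (fun _ _ _ _ e => e)
  have e4 : CH q N (fun ω => (T ω, (s ω, (b ω, τ ω)))) = CH q N (fun ω => (s ω, (b ω, T ω))) :=
    CH_congr hqn (fun ω ω' _ _ e => (Prod.ext_iff.1 e).1) (fun ω ω' _ _ e => (Prod.ext_iff.1 e).1)
      (fun ω ω' _ _ e => by
        simp only [Prod.mk.injEq] at e ⊢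
        tauto) (fun ω ω' hω hω' e => by
        simp only [Prod.mk.injEq] at e ⊢
        exact ⟨e.2.2, e.1, e.2.1, hτd ω ω' hω hω' e.2.2⟩)
  linarith

/-- The near digits of the time are known from the label and the digits of the coordinates. -/
theorem time_near {D : NDat} {n K J w₀ z M U : ℕ} {σ : ℕ → ℝ} {κ C₁ : ℝ} {q : D.Ω → ℝ}
    (h : D.Ok0 n K J w₀ z M σ κ C₁ q) (hn : 1 ≤ n) (hC₁ : 0 ≤ C₁) {v : ℕ} (hv : v + U ≤ M) :
    CH q (fun ω => D.T ω / 2 ^ (J - (w₀ + (v + U) * z)))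
      (fun ω => (D.c v ω, (D.bd z U v ω : Fin n → ℤ))) ≤ C₁ * z + 2 := by
  classical
  have hp := h.isLaw
  have hqn := hp.nonneg
  have htop := h.top
  have hJ : w₀ + (v + U) * z ≤ J := by
    have : (v + U) * z ≤ (M + 1) * z := Nat.mul_le_mul_right _ (by omega)
    omega
  obtain ⟨k, hk⟩ : ∃ k : ℕ, k = J - (w₀ + (v + U) * z) := ⟨_, rfl⟩
  have l2 : 0 < Real.log 2 := Real.log_pos (by norm_num)
  have l2' : Real.log 2 ≤ 1 := by linarith [Real.log_two_lt_d9]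
  have hex : (1 : ℝ) ≤ Real.exp (C₁ * z) := Real.one_le_exp (by positivity)
  have hkey : ∀ ω, 0 < q ω → ∀ ω', 0 < q ω' → D.c v ω = D.c v ω' →
      (D.bd z U v ω : Fin n → ℤ) = D.bd z U v ω' →
      |(((D.T ω / 2 ^ k : ℕ) : ℤ) : ℝ) - (((D.T ω' / 2 ^ k : ℕ) : ℤ) : ℝ)| ≤
        Real.exp (C₁ * z) + 1 := by
    intro ω _ ω' _ hc hb
    have h1 := congrFun hb ⟨0, hn⟩
    rw [← nd_bd, ← nd_bd] at h1
    unfold nd at h1
    simp only at h1
    have h2 := Cnt12.cell_near (by positivity) h1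
    have h3 : ht D.X (D.c v) (D.P v) ω' 0 - ht D.X (D.c v) (D.P v) ω 0 = D.X ω' 0 - D.X ω 0 := by
      unfold ht
      rw [hc]
      have h4 : eval (D.X ω) (D.P v (D.c v ω') 0) = eval (D.X ω') (D.P v (D.c v ω') 0) :=
        eval_congr_vars fun i hi => by
          have := h.P_tri v (D.c v ω') 0 hi
          simp at this
      rw [h4]
      ring
    rw [abs_sub_comm, h3, h.X_zero, h.X_zero] at h2
    have h5 := (abs_le.1 (h.hom v (by omega) 0 (Nat.zero_le n))).1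
    rw [h.g_zero, h.σ_zero, one_mul] at h5
    have hJk : J = k + (w₀ + (v + U) * z) := by omega
    have h6 : |(D.T ω' : ℝ) - D.T ω| ≤ 2 ^ k * Real.exp (C₁ * z) := by
      have h7 : (D.T ω' : ℝ) - D.T ω = 2 ^ J * ((D.T ω' : ℝ) / 2 ^ J - D.T ω / 2 ^ J) := by
        field_simp
      rw [h7, abs_mul, abs_of_pos (by positivity)]
      calc (2 : ℝ) ^ J * |_| ≤ 2 ^ J * (1 / 2 ^ (D.g v 0 + U * z)) :=
            mul_le_mul_of_nonneg_left h2 (by positivity)
        _ ≤ 2 ^ k * Real.exp (C₁ * z) := by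
            rw [mul_one_div, Cnt12.pow_two_exp, Cnt12.pow_two_exp, Cnt12.pow_two_exp,
              ← Real.exp_sub, ← Real.exp_add]
            refine Real.exp_le_exp.2 ?_
            have h8 : (J : ℝ) = k + (w₀ + (v + U) * z) := by exact_mod_cast hJk
            have h9 : (J : ℝ) - ((D.g v 0 + U * z : ℕ) : ℝ) ≤ k + C₁ * z := by
              push_cast
              nlinarith
            have h10 : ((J : ℝ) - ((D.g v 0 + U * z : ℕ) : ℝ)) * Real.log 2 ≤
                (k + C₁ * z) * Real.log 2 := mul_le_mul_of_nonneg_right h9 l2.le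
            have h11 : C₁ * z * Real.log 2 ≤ C₁ * z * 1 :=
              mul_le_mul_of_nonneg_left l2' (by positivity)
            nlinarith
    have a1 := Nat.div_add_mod (D.T ω) (2 ^ k)
    have a2 := Nat.div_add_mod (D.T ω') (2 ^ k)
    have a3 := Nat.mod_lt (D.T ω) (show 0 < 2 ^ k by positivity)
    have a4 := Nat.mod_lt (D.T ω') (show 0 < 2 ^ k by positivity)
    have b1 : (D.T ω : ℝ) = 2 ^ k * (D.T ω / 2 ^ k : ℕ) + (D.T ω % 2 ^ k : ℕ) := by
      exact_mod_cast a1.symm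
    have b2 : (D.T ω' : ℝ) = 2 ^ k * (D.T ω' / 2 ^ k : ℕ) + (D.T ω' % 2 ^ k : ℕ) := by
      exact_mod_cast a2.symm
    have b3 : ((D.T ω % 2 ^ k : ℕ) : ℝ) < 2 ^ k := by exact_mod_cast a3
    have b4 : ((D.T ω' % 2 ^ k : ℕ) : ℝ) < 2 ^ k := by exact_mod_cast a4
    have b5 : (0 : ℝ) ≤ ((D.T ω % 2 ^ k : ℕ) : ℝ) := Nat.cast_nonneg _
    have b6 : (0 : ℝ) ≤ ((D.T ω' % 2 ^ k : ℕ) : ℝ) := Nat.cast_nonneg _
    have hk0 : (0 : ℝ) < 2 ^ k := by positivity
    have c1 := abs_le.1 h6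
    rw [Int.cast_natCast, Int.cast_natCast]
    obtain ⟨x, hx⟩ : ∃ x : ℝ, x = ((D.T ω / 2 ^ k : ℕ) : ℝ) := ⟨_, rfl⟩
    obtain ⟨y, hy⟩ : ∃ y : ℝ, y = ((D.T ω' / 2 ^ k : ℕ) : ℝ) := ⟨_, rfl⟩
    rw [← hx] at b1 ⊢
    rw [← hy] at b2 ⊢
    have d1 : 2 ^ k * (x - y) ≤ 2 ^ k * (Real.exp (C₁ * z) + 1) := by nlinarith
    have d2 : 2 ^ k * (y - x) ≤ 2 ^ k * (Real.exp (C₁ * z) + 1) := by nlinarith
    have d3 := le_of_mul_le_mul_left d1 hk0
    have d4 := le_of_mul_le_mul_left d2 hk0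
    rw [abs_le]
    constructor <;> linarith
  have h1 := CH_le_int hqn hp.sum_one (fun ω => ((D.T ω / 2 ^ k : ℕ) : ℤ))
    (fun ω => (D.c v ω, (D.bd z U v ω : Fin n → ℤ))) (fun _ => Real.exp (C₁ * z) + 1)
    (fun ω ω' hω hω' e => by
      simp only [Prod.mk.injEq] at e
      have := hkey ω hω ω' hω' e.1 e.2
      push_cast at this ⊢
      exact this)
  have h2 : CH q (fun ω => D.T ω / 2 ^ (J - (w₀ + (v + U) * z)))
      (fun ω => (D.c v ω, (D.bd z U v ω : Fin n → ℤ))) ≤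
      CH q (fun ω => ((D.T ω / 2 ^ k : ℕ) : ℤ))
        (fun ω => (D.c v ω, (D.bd z U v ω : Fin n → ℤ))) :=
    CH_mono_left hqn fun ω ω' _ _ e => by
      simp only [Prod.mk.injEq] at e
      rw [← hk]
      exact_mod_cast e.1
  rw [Ex_const hp.sum_one] at h1
  refine h2.trans (h1.trans ?_)
  refine (Real.log_le_log (by positivity)
    (by linarith : 2 * (Real.exp (C₁ * z) + 1) + 1 ≤ Real.exp (C₁ * z) * 7)).trans ?_
  rw [Real.log_mul (by positivity) (by norm_num), Real.log_exp]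
  have := log7
  linarith

/-- **The digits of the height of `D`**, from the rows `hNF` of a larger system given the exact
time. `s` is its label, `hf` are its natural base coordinates, `hN` is its natural height. -/
theorem rat_nf (n m K : ℕ) (C₁ C₂ L ρ a : ℝ) (hn : 1 ≤ n) (hC₁ : 0 ≤ C₁) (hC₂ : 0 ≤ C₂)
    (hL : 0 ≤ L)
    (hρ1 : ρ ≤ 1) : ∃ C₃ : ℝ, 1 ≤ C₃ ∧
    ∀ U : ℕ, 1 ≤ U → ∃ κ : ℝ, 0 < κ ∧ ∃ z₀ : ℕ,
    ∀ (J w₀ z M v : ℕ) (σ : ℕ → ℝ) (D : NDat) (q : D.Ω → ℝ) (Γf : Type) (s : D.Ω → Γf)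
      (hf : D.Ω → Fin m → ℝ) (hN : D.Ω → ℝ) (Ψ : D.Γ → Fin m → PN),
      z₀ ≤ z → v + U ≤ M → D.Ok0 n K J w₀ z M σ κ C₁ q →
      Det q (D.c v) s →
      (∀ x j, (Ψ x j).totalDegree ≤ K) → (∀ x j, (Ψ x j).vars ⊆ range n) →
      (∀ ω, 0 < q ω → ∀ j, |hf ω j| ≤ 1) →
      (∀ ω, 0 < q ω → ∀ j, |hf ω j - eval (D.X ω) (Ψ (D.c v ω) j)| ≤ L / 2 ^ (U * z)) →
      (∀ ω, 0 < q ω → |2 ^ D.g v n * D.rh v ω n - hN ω| ≤ L / 2 ^ (U * z)) →
      (∀ P : ℕ, (P : ℝ) ≤ ρ * (U * z) →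
        CH q (fun ω => ⌊(2 : ℝ) ^ P * hN ω⌋)
          (fun ω => (s ω, ((fun j => ⌊(2 : ℝ) ^ (U * z) * hf ω j⌋), D.T ω))) ≤
          (1 - a) * (P * Real.log 2) + C₂ * z) →
      (∀ P : ℕ, (P : ℝ) ≤ ρ * (U * z) →
        CH q (fun ω => (⌊(2 : ℝ) ^ P * hN ω⌋,
            ((fun j => ⌊(2 : ℝ) ^ (U * z) * hf ω j⌋), s ω)))
          (fun ω => (D.ln ω, D.T ω / 2 ^ (J - (w₀ + (v + U) * z)))) ≤ C₂ * z) →
      D.RatN n z U a C₃ ρ v q := by
  classical
  obtain ⟨C₄, hC₄, hD⟩ := domR n K m L hL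
  obtain ⟨Q, hQ⟩ : ∃ Q : ℝ, Q = Real.log (2 * (1 + 2 * L + 1) + 1) := ⟨_, rfl⟩
  have hQ0 : 0 ≤ Q := by
    rw [hQ]
    exact Real.log_nonneg (by linarith)
  refine ⟨C₄ + 2 * C₂ + Q + C₁ + 7, by linarith, fun U hU => ?_⟩
  obtain ⟨κb, hκb, zb, hD⟩ := hD U hU
  refine ⟨min κb 1, lt_min hκb one_pos, max zb 1, ?_⟩
  intro J w₀ z M v σ D q Γf s hf hN Ψ hz hvU hOk hdet hΨd hΨv hf1 hfΨ hH hNF hvar P hP
  have hv : v ≤ M := by omega
  have hzb : zb ≤ z := (le_max_left _ _).trans hz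
  have hz1 : 1 ≤ z := (le_max_right _ _).trans hz
  have hzR : (1 : ℝ) ≤ z := by exact_mod_cast hz1
  have hp := hOk.isLaw
  have hqn := hp.nonneg
  have htop := hOk.top
  have hJ : w₀ + (v + U) * z ≤ J := by
    have : (v + U) * z ≤ (M + 1) * z := Nat.mul_le_mul_right _ (by omega)
    omega
  have hPU : P ≤ U * z := by
    have h4 : (P : ℝ) ≤ U * z := hP.trans (by
      have : 0 ≤ (U : ℝ) * z := by positivity
      nlinarith)
    exact_mod_cast h4
  have hlv : Lvl q D.X n K (D.c v) (D.P v) (D.g v) := ⟨hOk.P_deg v, hOk.P_tri v, hOk.hgt v hv⟩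
  have hfull : n * (z * Real.log 2) - κb * z ≤
      CH q (nd n (D.g v) z (ht D.X (D.c v) (D.P v))) (D.c v) := by
    have h1 := hOk.full v hv
    have h2 : min κb 1 * (z : ℝ) ≤ κb * z :=
      mul_le_mul_of_nonneg_right (min_le_left _ _) (by positivity)
    have h3 : CH q (nd n (D.g v) z (ht D.X (D.c v) (D.P v))) (D.c v) =
        CH q (fun ω (i : Fin n) => ⌊(2 : ℝ) ^ (D.g v i + z) * D.rh v ω i⌋) (D.c v) := rfl
    rw [h3]
    linarith
  have hd := hD D.Ω D.Γ q z D.X (D.c v) (D.P v) (D.g v) hf Ψ hzb hp hlv hΨd hΨv hf1 hfΨ hfull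
  simp only [nd_bd] at hd
  have ht := time_near hOk hn hC₁ hvU
  have hfree := time_free hp (fun ω => ⌊(2 : ℝ) ^ P * hN ω⌋)
    (fun ω (j : Fin m) => ⌊(2 : ℝ) ^ (U * z) * hf ω j⌋) s D.T D.ln hJ hOk.ln_w hOk.time
    (hvar P hP)
  have hrate := hNF P hP
  -- the digits
  have e0 : (fun ω : D.Ω => ⌊(2 : ℝ) ^ (D.g v n + P) * D.rh v ω n⌋) =
      fun ω => ⌊(2 : ℝ) ^ P * (2 ^ D.g v n * D.rh v ω n)⌋ := by
    funext ω
    rw [← mul_assoc, ← pow_add, add_comm (D.g v n)]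
  rw [e0]
  have e1 := near_dig (P₁ := P) hp one_pos (h := fun ω => 2 ^ D.g v n * D.rh v ω n) (h' := hN)
    (fun ω hω => by
      rw [one_mul, ← mul_sub, abs_mul, abs_of_pos (by positivity)]
      calc (2 : ℝ) ^ P * |_| ≤ 2 ^ (U * z) * (L / 2 ^ (U * z)) :=
            mul_le_mul (pow_le_pow_right₀ (by norm_num) hPU) (hH ω hω) (abs_nonneg _)
              (by positivity)
        _ = L := by field_simp)
    (fun ω => (D.c v ω, (D.bd z U v ω : Fin n → ℤ)))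
  rw [← hQ] at e1
  have e2 := CH_le_add hqn (fun ω => ⌊(2 : ℝ) ^ P * hN ω⌋)
    (fun ω (j : Fin m) => ⌊(2 : ℝ) ^ (U * z) * hf ω j⌋)
    (fun ω => (D.c v ω, (D.bd z U v ω : Fin n → ℤ)))
  have e3 := CH_le_add hqn (fun ω => ⌊(2 : ℝ) ^ P * hN ω⌋)
    (fun ω => D.T ω / 2 ^ (J - (w₀ + (v + U) * z)))
    (fun ω => ((fun (j : Fin m) => ⌊(2 : ℝ) ^ (U * z) * hf ω j⌋),
      (D.c v ω, (D.bd z U v ω : Fin n → ℤ))))
  have e4 : CH q (fun ω => D.T ω / 2 ^ (J - (w₀ + (v + U) * z)))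
      (fun ω => ((fun (j : Fin m) => ⌊(2 : ℝ) ^ (U * z) * hf ω j⌋),
        (D.c v ω, (D.bd z U v ω : Fin n → ℤ)))) ≤
      CH q (fun ω => D.T ω / 2 ^ (J - (w₀ + (v + U) * z)))
        (fun ω => (D.c v ω, (D.bd z U v ω : Fin n → ℤ))) :=
    CH_mono_cond hqn fun ω ω' _ _ e => by
      simp only [Prod.mk.injEq] at e ⊢
      exact e.2
  have e5 : CH q (fun ω => ⌊(2 : ℝ) ^ P * hN ω⌋)
      (fun ω => (D.T ω / 2 ^ (J - (w₀ + (v + U) * z)),
        ((fun (j : Fin m) => ⌊(2 : ℝ) ^ (U * z) * hf ω j⌋),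
          (D.c v ω, (D.bd z U v ω : Fin n → ℤ))))) ≤
      CH q (fun ω => ⌊(2 : ℝ) ^ P * hN ω⌋)
        (fun ω => (s ω, ((fun (j : Fin m) => ⌊(2 : ℝ) ^ (U * z) * hf ω j⌋),
          D.T ω / 2 ^ (J - (w₀ + (v + U) * z))))) :=
    CH_mono_cond hqn fun ω ω' hω hω' e => by
      simp only [Prod.mk.injEq] at e ⊢
      exact ⟨hdet ω ω' hω hω' e.2.2.1, e.2.1, e.1⟩
  have e6 : Q ≤ Q * z := le_mul_of_one_le_right hQ0 hzR
  have e7 : min κb 1 * (z : ℝ) ≤ 1 * z :=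
    mul_le_mul_of_nonneg_right (min_le_right _ _) (by positivity)
  have e8 : (C₄ + 2 * C₂ + Q + C₁ + 7) * (z : ℝ) =
      C₄ * z + 2 * (C₂ * z) + Q * z + C₁ * z + 7 * z := by ring
  rw [e8]
  linarith

/-- **The shape of `NDat2.NF`** (`i = v`, `j = 0`, `r = 0`) gives the input of `rat_nf`. -/
theorem nf_rat {Ω S : Type} [Fintype Ω] {q : Ω → ℝ} (hp : IsLaw q) {m B U z : ℕ} {h C₁ : ℝ}
    (hB : 1 ≤ B) (hz : 1 ≤ z) (hh0 : 0 ≤ h) (hh1 : h ≤ 1) (hC₁ : 0 ≤ C₁) (s : Ω → S)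
    (hf : Ω → Fin m → ℝ) (hN : Ω → ℝ) (T : Ω → ℕ) (hN1 : ∀ ω, 0 < q ω → |hN ω| ≤ 1)
    (hNF : ∀ V : ℕ, 1 ≤ V → B * V ≤ U → CH q (fun ω => ⌊(2 : ℝ) ^ (V * z) * hN ω⌋)
      (fun ω => (⌊hN ω⌋, ((fun j => ⌊(2 : ℝ) ^ (B * (V * z)) * hf ω j⌋), (s ω, T ω)))) ≤
      (1 - h) * (V * z) * Real.log 2 + C₁ * z) (P : ℕ) (hP : (P : ℝ) ≤ 1 / (2 * B) * (U * z)) :
    CH q (fun ω => ⌊(2 : ℝ) ^ P * hN ω⌋)
      (fun ω => (s ω, ((fun j => ⌊(2 : ℝ) ^ (U * z) * hf ω j⌋), T ω))) ≤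
      (1 - h) * (P * Real.log 2) + (C₁ + 4) * z := by
  classical
  have hqn := hp.nonneg
  have l2 : 0 < Real.log 2 := Real.log_pos (by norm_num)
  have l2' : Real.log 2 ≤ 1 := by linarith [Real.log_two_lt_d9]
  have hzR : (1 : ℝ) ≤ z := by exact_mod_cast hz
  have hBR : (1 : ℝ) ≤ B := by exact_mod_cast hB
  have hP0 : (0 : ℝ) ≤ P := Nat.cast_nonneg P
  have hPB : (P : ℝ) * (2 * B) ≤ U * z := by
    have h1 := mul_le_mul_of_nonneg_right hP (by positivity : (0 : ℝ) ≤ 2 * B)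
    have h2 : 1 / (2 * (B : ℝ)) * (U * z) * (2 * B) = U * z := by field_simp
    linarith
  rcases Nat.lt_or_ge U (2 * B) with hU | hU
  · -- few levels
    have h1 := crudeR hp (h := hN) hN1
      (fun ω => (s ω, ((fun j => ⌊(2 : ℝ) ^ (U * z) * hf ω j⌋), T ω))) P
    refine h1.trans ?_
    have h2 : (P : ℝ) ≤ z := by
      have h3 : (U : ℝ) ≤ 2 * B := by exact_mod_cast hU.le
      have h4 : (U : ℝ) * z ≤ 2 * B * z := mul_le_mul_of_nonneg_right h3 (by positivity)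
      have h5 : (2 * (B : ℝ)) * P ≤ 2 * B * z := by linarith
      exact le_of_mul_le_mul_left h5 (by positivity)
    have h3 : h * (P * Real.log 2) ≤ z := by
      have h4 : (P : ℝ) * Real.log 2 ≤ z * 1 := mul_le_mul h2 l2' l2.le (by positivity)
      have h5 : 0 ≤ (P : ℝ) * Real.log 2 := by positivity
      nlinarith
    have h4 : 0 ≤ C₁ * (z : ℝ) := by positivity
    nlinarith
  · obtain ⟨V, hV⟩ : ∃ V : ℕ, V = P / z + 1 := ⟨_, rfl⟩
    have hd1 : (P : ℝ) ≤ (V : ℝ) * z := by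
      have h1 := Nat.lt_mul_div_succ P (by omega : 0 < z)
      have h2 : ((P : ℕ) : ℝ) < ((z * (P / z + 1) : ℕ) : ℝ) := by exact_mod_cast h1
      rw [hV]
      push_cast at h2 ⊢
      linarith
    have hPV : P ≤ V * z := by exact_mod_cast hd1
    have hd2 : (V : ℝ) * z ≤ P + z := by
      have h1 := Nat.div_mul_le_self P z
      have h2 : ((P / z : ℕ) : ℝ) * z ≤ P := by exact_mod_cast h1
      rw [hV]
      push_cast
      linarith
    have hBV : B * V ≤ U := by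
      have h1 : ((B * V : ℕ) : ℝ) * z ≤ (U : ℝ) * z := by
        have h2 : (2 * (B : ℝ)) ≤ U := by exact_mod_cast hU
        have h3 : (2 * (B : ℝ)) * z ≤ U * z := mul_le_mul_of_nonneg_right h2 (by positivity)
        push_cast
        have h4 : (B : ℝ) * (V * z) ≤ B * (P + z) :=
          mul_le_mul_of_nonneg_left hd2 (by positivity)
        nlinarith
      have h2 := le_of_mul_le_mul_right h1 (by positivity)
      exact_mod_cast h2
    have hV1 : 1 ≤ V := by rw [hV]; exact Nat.le_add_left 1 _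
    have h1 := hNF V hV1 hBV
    -- the integer part
    have h2 := CH_le_add hqn (fun ω => ⌊(2 : ℝ) ^ (V * z) * hN ω⌋) (fun ω => ⌊hN ω⌋)
      (fun ω => ((fun j => ⌊(2 : ℝ) ^ (B * (V * z)) * hf ω j⌋), (s ω, T ω)))
    have h3 : CH q (fun ω => ⌊hN ω⌋)
        (fun ω => ((fun j => ⌊(2 : ℝ) ^ (B * (V * z)) * hf ω j⌋), (s ω, T ω))) ≤ 2 := by
      have h4 := crudeR hp (h := hN) hN1
        (fun ω => ((fun j => ⌊(2 : ℝ) ^ (B * (V * z)) * hf ω j⌋), (s ω, T ω))) 0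
      simpa using h4
    have h4 : CH q (fun ω => ⌊(2 : ℝ) ^ P * hN ω⌋)
        (fun ω => (s ω, ((fun j => ⌊(2 : ℝ) ^ (U * z) * hf ω j⌋), T ω))) ≤
        CH q (fun ω => ⌊(2 : ℝ) ^ (V * z) * hN ω⌋)
          (fun ω => ((fun j => ⌊(2 : ℝ) ^ (B * (V * z)) * hf ω j⌋), (s ω, T ω))) := by
      refine (CH_mono_left hqn fun ω ω' _ _ e => ?_).trans
        (CH_mono_cond hqn fun ω ω' _ _ e => ?_)
      · simp only [Prod.mk.injEq] at e
        rw [Pool.BFL.floor_coarse hPV, Pool.BFL.floor_coarse hPV, e.1]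
      · simp only [Prod.mk.injEq] at e ⊢
        refine ⟨?_, e.1, e.2.2⟩
        funext j
        have h7 : B * (V * z) ≤ U * z := by
          calc B * (V * z) = B * V * z := by ring
            _ ≤ U * z := Nat.mul_le_mul_right _ hBV
        have h8 := congrFun e.2.1 j
        rw [Pool.BFL.floor_coarse h7, Pool.BFL.floor_coarse h7, h8]
    have h5 : (1 - h) * (V * z) * Real.log 2 ≤ (1 - h) * (P * Real.log 2) + z := by
      have h6 : (1 - h) * (V * z) * Real.log 2 ≤ (1 - h) * (P + z) * Real.log 2 :=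
        mul_le_mul_of_nonneg_right (mul_le_mul_of_nonneg_left hd2 (by linarith)) l2.le
      have h7 : (1 - h) * ((z : ℝ) * Real.log 2) ≤ 1 * (z * 1) := by
        refine mul_le_mul (by linarith) ?_ (by positivity) (by norm_num)
        exact mul_le_mul_of_nonneg_left l2' (by positivity)
      nlinarith
    linarith

end RR

end Pool.STAT

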