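import Pool.Agent.H99.STAT.Cmrw
import Pool.Agent.H90.STAT.Near
import Pool.Agent.H90.STAT.Ful
import Pool.Agent.H12.STAT.Ent
import Pool.Agent.H6.STAT.Ratw
import Pool.Agent.H19.STAT.Abs2

/-!
# Rows which are not full: the count from a system with more coordinates

No ladders and no slopes: the levels are triangular systems of polynomials of bounded degree with
natural boxes of any sides.

* `cmr0`: polynomials of the label of one level which are small at the points are small on the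
  natural box (99's `cmrw_of` for one level).
* `entA`: the natural digits of the base and of the height over the label of the level `v`, given
  the label of a finer level.
-/

set_option autoImplicit false

namespace Pool.STAT

open Finset MvPolynomial
open Pool.Agent.H49.Ent Pool.Agent.H32.Dense Pool.STK Pool.KS3
open Pool.BFL (Pl CB Pb P2 MC alt)

namespace RR

/-- The height over a label. -/
noncomputable def ht {Ω Γ : Type} (X : Ω → ℕ → ℝ) (c : Ω → Γ) (P : Γ → ℕ → PN) (ω : Ω)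
    (i : ℕ) : ℝ := X ω i - eval (X ω) (P (c ω) i)

/-- The natural digits, to `y` digits. -/
noncomputable def nd {Ω : Type} (n : ℕ) (g : ℕ → ℕ) (y : ℕ) (h : Ω → ℕ → ℝ) (ω : Ω)
    (i : Fin n) : ℤ := ⌊(2 : ℝ) ^ (g i + y) * h ω i⌋

/-- **A level**: triangular systems, heights up to the coordinate `n`. -/
structure Lvl {Ω Γ : Type} (q : Ω → ℝ) (X : Ω → ℕ → ℝ) (n K : ℕ) (c : Ω → Γ) (P : Γ → ℕ → PN)
    (g : ℕ → ℕ) : Prop where
  deg : ∀ x i, (P x i).totalDegree ≤ K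
  tri : ∀ x, TriN (P x)
  hgt : ∀ ω, 0 < q ω → ∀ i ≤ n, |ht X c P ω i| ≤ 1 / 2 ^ g i

open CmrRow in
/-- **Row CMRW for one level.** -/
theorem cmr0 (n K K' : ℕ) (η : ℝ) (hη : 0 < η) (hη1 : η ≤ 1) : ∃ κ₀ : ℝ, 0 < κ₀ ∧ ∃ z₀ : ℕ,
    ∀ (Ω Γ : Type) [Fintype Ω] (q : Ω → ℝ) (z : ℕ) (κ : ℝ) (X : Ω → ℕ → ℝ) (c : Ω → Γ)
      (P : Γ → ℕ → PN) (g : ℕ → ℕ), z₀ ≤ z → κ ≤ κ₀ → IsLaw q → Lvl q X n K c P g →
      n * (z * Real.log 2) - κ * z ≤ CH q (nd n g z (ht X c P)) c →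
    ∀ (φ : Γ → PN) (Gd : Ω → Prop) (S₀ : Γ → ℝ),
      (∀ x, (φ x).totalDegree ≤ K') → (∀ x, (φ x).vars ⊆ range n) → (∀ x, 0 < S₀ x) →
      Pb q (fun ω => ¬ Gd ω) ≤ η / 8 →
      (∀ ω, Gd ω → |eval (X ω) (φ (c ω))| ≤ S₀ (c ω)) →
      Pb q (fun ω => ¬ ∀ b : ℕ → ℝ, Bx g (P (c ω)) n b →
        |eval b (φ (c ω))| ≤ Real.exp z * S₀ (c ω)) ≤ η := by
  classical
  obtain ⟨Kn, hKn⟩ := dgb_thm n K (fun _ => 1) rfl (fun _ => le_rfl)
  obtain ⟨CR, hCR, hren⟩ := Pool.Agent.H33.BFL.ren_thm n (K' * Kn) 1 le_rfl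
  have hl2 : 0 < Real.log 2 := Real.log_pos (by norm_num)
  have hl21 : Real.log 2 ≤ 1 := by
    have := Real.log_two_lt_d9
    linarith
  have hn0 : (0 : ℝ) ≤ n := Nat.cast_nonneg n
  have hCR0 : 0 < CR := by linarith
  set κ₀ : ℝ := η * Real.log 2 / (4 * CR) with hκ₀
  have hκ0 : 0 < κ₀ := by positivity
  refine ⟨κ₀, hκ0, ⌈2 * CR * (2 * n * Real.log 2 + 1) / (η * Real.log 2)⌉₊ + 1, ?_⟩
  intro Ω Γ _ q z κ X c P g hz hκ hp hL hfull φ Gd S₀ hφ hφv hS₀ hGd hb
  have hz0 : (0 : ℝ) ≤ z := Nat.cast_nonneg z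
  have hz1 : 2 * CR * (2 * n * Real.log 2 + 1) ≤ z * (η * Real.log 2) := by
    have h1 : 2 * CR * (2 * n * Real.log 2 + 1) / (η * Real.log 2) ≤ z := by
      refine (Nat.le_ceil _).trans ?_
      exact_mod_cast (by omega :
        ⌈2 * CR * (2 * n * Real.log 2 + 1) / (η * Real.log 2)⌉₊ ≤ z)
    rwa [div_le_iff₀ (by positivity)] at h1
  set θ : ℝ := 2 * n * Real.log 2 + κ₀ * z with hθ
  have hθ0 : 0 ≤ θ := by positivity
  have hexp : CR * (θ + 1) / η ≤ z * Real.log 2 := by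
    rw [div_le_iff₀ hη]
    have e1 : CR * κ₀ = η * Real.log 2 / 4 := by
      rw [hκ₀]
      field_simp
    have e2 : CR * (θ + 1) = CR * (2 * n * Real.log 2 + 1) + CR * κ₀ * z := by
      rw [hθ]
      ring
    rw [e2, e1]
    have e3 : 0 ≤ η * Real.log 2 * z := by positivity
    nlinarith
  -- the data
  set f : Ω → Fin n → ℤ := nd n g z (ht X c P) with hf
  have hf1 : ∀ ω, 0 < q ω → ∀ i : Fin n, -(2 : ℤ) ^ z ≤ f ω i ∧ f ω i ≤ 2 ^ z := by
    intro ω hω i
    have h1 := hL.hgt ω hω i i.2.le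
    have h2 : |(2 : ℝ) ^ (g i + z) * ht X c P ω i| ≤ 2 ^ z := by
      rw [abs_mul, abs_of_pos (by positivity), pow_add, mul_comm ((2 : ℝ) ^ g i), mul_assoc]
      have h3 : (2 : ℝ) ^ g i * |ht X c P ω i| ≤ 1 := by
        rw [le_div_iff₀ (by positivity)] at h1
        linarith
      nlinarith [show (0 : ℝ) < 2 ^ z by positivity]
    rw [abs_le] at h2
    constructor
    · have h3 : ((-(2 : ℤ) ^ z : ℤ) : ℝ) ≤ (2 : ℝ) ^ (g i + z) * ht X c P ω i := by
        push_cast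
        exact h2.1
      exact Int.le_floor.2 h3
    · have h3 : (f ω i : ℝ) ≤ 2 ^ z := (Int.floor_le _).trans h2.2
      exact_mod_cast h3
  set Y : Ω → Fin n → ℕ := fun ω i => if 0 < q ω then (f ω i + 2 ^ z).toNat else 0 with hY
  have hYlt : ∀ ω i, Y ω i < 2 ^ (z + 2) := by
    intro ω i
    have hpos : 0 < 2 ^ (z + 2) := by positivity
    simp only [hY]
    split_ifs with h
    · have h1 := hf1 ω h i
      have h2 : (2 : ℕ) ^ (z + 2) = 2 ^ z * 4 := by rw [pow_add]; norm_num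
      have h3 : (0 : ℤ) < 2 ^ z := by positivity
      have h4 : (((2 : ℕ) ^ (z + 2) : ℕ) : ℤ) = 2 ^ z * 4 := by rw [h2]; push_cast; ring
      have h5 : f ω i + 2 ^ z < ((2 ^ (z + 2) : ℕ) : ℤ) := by
        rw [h4]
        linarith [h1.2]
      omega
    · exact hpos
  have hYf : ∀ ω, 0 < q ω → ∀ i, (Y ω i : ℤ) = f ω i + 2 ^ z := by
    intro ω hω i
    simp only [hY]
    rw [if_pos hω, Int.toNat_of_nonneg]
    linarith [(hf1 ω hω i).1]
  set Pn : Γ → Pl n := fun x => pu n (bind₁ (nuc g (P x)) (φ x)) with hPn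
  have hPdeg : ∀ x, (Pn x).totalDegree ≤ K' * Kn := by
    intro x
    refine deg_pu n ?_
    exact deg_aeval (fun i hi => (hKn (P x) g (hL.tri x)
      (fun i _ => hL.deg x i) i (Finset.mem_range.1 (hφv x hi)).le).2.2.2) (hφ x)
  have hent : n * (((z + 2 : ℕ) : ℝ) * Real.log 2) - θ ≤ CH q Y c := by
    have h2 : CH q Y c = CH q f c := by
      refine CH_congr hp.nonneg ?_ ?_ (fun _ _ _ _ h => h) (fun _ _ _ _ h => h)
      · intro ω ω' a b h
        have h3 := (Prod.ext_iff.1 h).1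
        funext i
        have h4 : Y ω i = Y ω' i := congrFun h3 i
        have h5 := hYf ω a i
        have h6 := hYf ω' b i
        rw [h4] at h5
        linarith
      · intro ω ω' a b h
        have h3 := (Prod.ext_iff.1 h).1
        funext i
        have h4 : f ω i = f ω' i := congrFun h3 i
        have h5 := hYf ω a i
        have h6 := hYf ω' b i
        rw [h4] at h5
        exact_mod_cast h5.trans h6.symm
    rw [h2]
    have h3 : κ * z ≤ κ₀ * z := mul_le_mul_of_nonneg_right hκ hz0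
    have h4 : (n : ℝ) * (((z + 2 : ℕ) : ℝ) * Real.log 2) - θ =
        n * (z * Real.log 2) - κ₀ * z := by
      rw [hθ]
      push_cast
      ring
    rw [h4]
    linarith
  have hfin := hren Ω Γ q (z + 2) Y c Pn (fun ω => Gd ω ∧ 0 < q ω) S₀ θ η hp hYlt
    hPdeg hθ0 hη hη1 hent ?_ hS₀ ?_ ?_
  · refine (Pool.Agent.H39.BFL.Pb_mono hp.nonneg fun ω hω hnot hall => ?_).trans hfin
    apply hnot
    intro b hbx
    have h1 := eval_nat AdxRow.adx_thm (hL.tri (c ω)) g (hφv (c ω)) b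
    rw [← h1]
    refine (hall _ ?_).trans (mul_le_mul_of_nonneg_right (Real.exp_le_exp.2 (hexp.trans ?_))
      (hS₀ _).le)
    · intro i
      have h2 := hbx i i.2
      have h3 : |(2 : ℝ) ^ g i * (b i - eval b (P (c ω) i))| ≤ 1 := by
        rw [abs_mul, abs_of_pos (by positivity)]
        rw [le_div_iff₀ (by positivity)] at h2
        linarith
      rw [abs_le] at h3 ⊢
      constructor <;> linarith [h3.1, h3.2]
    · nlinarith
  · refine le_trans (Pool.Agent.H39.BFL.Pb_mono hp.nonneg fun ω hω hnot hG => ?_)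
      (hGd.trans (by linarith))
    exact hnot ⟨hG, hω⟩
  · refine hexp.trans (mul_le_mul_of_nonneg_right ?_ hl2.le)
    push_cast
    linarith
  · rintro ω ⟨hG, hω⟩
    refine ⟨fun i : Fin n => ((2 : ℝ) ^ g i *
      (X ω i - eval (X ω) (P (c ω) i)) + 1) / 4, fun i => ?_, ?_⟩
    · have h1 : (Y ω i : ℝ) = (f ω i : ℝ) + 2 ^ z := by exact_mod_cast hYf ω hω i
      rw [h1]
      have h2 := Int.floor_le ((2 : ℝ) ^ (g i + z) * ht X c P ω i)
      have h3 := Int.lt_floor_add_one ((2 : ℝ) ^ (g i + z) * ht X c P ω i)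
      have h3' : f ω i = ⌊(2 : ℝ) ^ (g i + z) * ht X c P ω i⌋ := rfl
      rw [← h3'] at h2 h3
      have h4 : ht X c P ω i = X ω i - eval (X ω) (P (c ω) i) := rfl
      simp only
      rw [← h4]
      have h5 : (2 : ℝ) ^ (z + 2) = 2 ^ z * 4 := by rw [pow_add]; norm_num
      have hz2 : (0 : ℝ) < 2 ^ z := by positivity
      have h6 : ((2 : ℝ) ^ g i * ht X c P ω i + 1) / 4 - ((f ω i : ℝ) + 2 ^ z) / 2 ^ (z + 2) =
          ((2 : ℝ) ^ (g i + z) * ht X c P ω i - f ω i) / 2 ^ (z + 2) := by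
        rw [h5, pow_add]
        field_simp
        ring
      rw [h6, abs_div, abs_of_pos (show (0 : ℝ) < 2 ^ (z + 2) by positivity)]
      refine div_le_div_of_nonneg_right ?_ (by positivity)
      rw [abs_le]
      constructor <;> linarith
    · rw [hPn]
      have h1 := eval_nat AdxRow.adx_thm (hL.tri (c ω)) g (hφv (c ω)) (X ω)
      rw [h1]
      exact hb ω hG

/-! ### Variation in natural coordinates -/

open CLO NEAR in
/-- The variation of a polynomial which is bounded on the natural box. -/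
theorem lip_nat (n K : ℕ) : ∃ C : ℝ, 1 ≤ C ∧ ∀ (Φ : ℕ → PN) (g : ℕ → ℕ) (F : PN) (i : ℕ)
    (S : ℝ), TriN Φ → (∀ j, (Φ j).totalDegree ≤ K) → i ≤ n → F.vars ⊆ range i →
    F.totalDegree ≤ K → 0 ≤ S → (∀ b : ℕ → ℝ, Bx g Φ n b → |eval b F| ≤ S) →
    ∀ (b b' : ℕ → ℝ) (δ : ℝ), (∀ j < i, |nc g Φ b j| ≤ 1) → (∀ j < i, |nc g Φ b' j| ≤ 1) →
      0 ≤ δ → (∀ j < i, |nc g Φ b' j - nc g Φ b j| ≤ δ) → |eval b' F - eval b F| ≤ C * S * δ := by
  obtain ⟨C, hC, h⟩ := n1_of_box n K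
  have hn0 : (0 : ℝ) ≤ n := Nat.cast_nonneg n
  refine ⟨n * ((K * (K + 1) ^ (n + 1) : ℕ) * C) + 1, ?_, ?_⟩
  · have : 0 ≤ (n : ℝ) * ((K * (K + 1) ^ (n + 1) : ℕ) * C) := by positivity
    linarith
  · intro Φ g F i S hΦ hK hi hv hF hS hb b b' δ h1 h2 hδ h3
    obtain ⟨h4, h5⟩ := nat_deg hΦ hK g hi hv hF
    have h6 := h Φ g F n S hΦ hK le_rfl (hv.trans (Finset.range_mono hi)) hF hb
    rw [eval_nat hΦ g b F, eval_nat hΦ g b' F]
    have h7 := var_le (ρ := 1) le_rfl h4 h5 h1 h2 h3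
    refine h7.trans ?_
    have hi' : (i : ℝ) ≤ n := by exact_mod_cast hi
    have h8 : ((K * (K + 1) ^ (n + 1) : ℕ) : ℝ) * n1 (bind₁ (nuc g Φ) F) * 1 ^ (K * (K + 1) ^ (n + 1)) * δ ≤
        (K * (K + 1) ^ (n + 1) : ℕ) * (C * S) * δ := by
      rw [one_pow, mul_one]
      exact mul_le_mul_of_nonneg_right (mul_le_mul_of_nonneg_left h6 (Nat.cast_nonneg _)) hδ
    have h9 : 0 ≤ ((K * (K + 1) ^ (n + 1) : ℕ) : ℝ) * (C * S) * δ := by positivity
    calc _ ≤ (i : ℝ) * ((K * (K + 1) ^ (n + 1) : ℕ) * (C * S) * δ) :=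
          mul_le_mul_of_nonneg_left h8 (Nat.cast_nonneg i)
      _ ≤ n * ((K * (K + 1) ^ (n + 1) : ℕ) * (C * S) * δ) := mul_le_mul_of_nonneg_right hi' h9
      _ = (n * ((K * (K + 1) ^ (n + 1) : ℕ) * C)) * S * δ := by ring
      _ ≤ (n * ((K * (K + 1) ^ (n + 1) : ℕ) * C) + 1) * S * δ := by
        have : 0 ≤ S * δ := by positivity
        nlinarith

/-! ### Entropy -/

section ent

variable {Ω S U : Type} [Fintype Ω] {q : Ω → ℝ}

/-- The coordinates before `m`. -/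
def msk {n : ℕ} (Y : Ω → Fin n → ℤ) (m : ℕ) (ω : Ω) (j : Fin n) : ℤ :=
  if (j : ℕ) < m then Y ω j else 0

/-- The chain rule for a vector. -/
theorem ch_tri (hq : ∀ ω, 0 ≤ q ω) {n : ℕ} (Y : Ω → Fin n → ℤ) (W : Ω → U) (b : ℕ → ℝ)
    (hb : ∀ i : Fin n, CH q (fun ω => Y ω i) (fun ω => (msk Y i ω, W ω)) ≤ b i) :
    CH q Y W ≤ ∑ i ∈ range n, b i := by
  have H : ∀ m ≤ n, CH q (msk Y m) W ≤ ∑ i ∈ range m, b i := by
    intro m
    induction m with
    | zero =>
      intro _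
      rw [Finset.sum_range_zero]
      refine le_of_eq (CH_eq_zero hq fun ω ω' _ _ _ => ?_)
      rfl
    | succ m ih =>
      intro hm
      have hm' : m < n := hm
      have h1 := ih hm'.le
      have h2 := hb ⟨m, hm'⟩
      have h3 := CH_chain hq (fun ω => Y ω ⟨m, hm'⟩) (msk Y m) W
      have h4 : CH q (msk Y (m + 1)) W ≤ CH q (fun ω => (Y ω ⟨m, hm'⟩, msk Y m ω)) W := by
        refine CH_mono_left hq fun ω ω' _ _ e => ?_
        simp only [Prod.mk.injEq] at e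
        funext j
        have e2 := congrFun e.1.2 j
        unfold msk at e2 ⊢
        by_cases hj : (j : ℕ) < m
        · simp only [hj, if_true] at e2
          have h6 : (j : ℕ) < m + 1 := by omega
          simp only [h6, if_true]
          exact e2
        · by_cases hj2 : (j : ℕ) = m
          · have h6 : (j : ℕ) < m + 1 := by omega
            have h7 : j = ⟨m, hm'⟩ := Fin.ext hj2
            simp only [h6, if_true]
            rw [h7]
            exact e.1.1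
          · have h6 : ¬ (j : ℕ) < m + 1 := by omega
            simp only [h6, if_false]
      rw [Finset.sum_range_succ]
      simp only at h2
      linarith
  have h1 := H n le_rfl
  have h2 : msk Y n = Y := by
    funext ω j
    exact if_pos j.2
  rw [h2] at h1
  exact h1

end ent

/-! ### The label of a finer level -/

open CLO in
/-- Two points with the same label of the finer level `Φ`, `g'`, and the same natural digits over
the coarse level `Φ - F`, `g`. -/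
theorem near_tri (n K : ℕ) : ∃ C : ℝ, 1 ≤ C ∧ ∀ (Φ F : ℕ → PN) (g g' : ℕ → ℕ) (S : ℝ)
    (Y i : ℕ) (x x' : ℕ → ℝ), TriN Φ → (∀ j, (Φ j).totalDegree ≤ K) →
    (∀ j, (F j).totalDegree ≤ K) → (∀ j, (F j).vars ⊆ range j) → 0 ≤ S → i ≤ n →
    (∀ j ≤ n, g j ≤ g' j) →
    (∀ j ≤ n, ∀ b : ℕ → ℝ, Bx g' Φ n b → |eval b (F j)| ≤ S / 2 ^ g j) →
    (∀ j < i, |x j - eval x (Φ j)| ≤ 1 / 2 ^ g' j) →
    (∀ j < i, |x' j - eval x' (Φ j)| ≤ 1 / 2 ^ g' j) →
    (∀ j < i, |(x' j - eval x' (Φ j) + eval x' (F j)) - (x j - eval x (Φ j) + eval x (F j))| ≤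
      1 / 2 ^ (g j + Y)) →
    |eval x' (F i) - eval x (F i)| ≤
      (1 + C * S) ^ (i + 1) * 2 ^ (∑ j ∈ range i, (g' j - g j)) / 2 ^ (g i + Y) := by
  obtain ⟨C, hC, hlip⟩ := lip_nat n K
  refine ⟨C, hC, ?_⟩
  intro Φ F g g' S Y i x x' hΦ hK hFK hFv hS hi hg hF hx hx' hh
  have hR1 : 1 ≤ 1 + C * S := by
    have : 0 ≤ C * S := by positivity
    linarith
  have hR0 : 0 ≤ 1 + C * S := by linarith
  have hn1 : ∀ {y : ℕ → ℝ}, (∀ j < i, |y j - eval y (Φ j)| ≤ 1 / 2 ^ g' j) →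
      ∀ j < i, |nc g' Φ y j| ≤ 1 := fun {y} hy j hj => nc_le.2 (hy j hj)
  -- the natural coordinates
  have key : ∀ l ≤ i, ∀ j < l, |nc g' Φ x' j - nc g' Φ x j| ≤
      (1 + C * S) ^ l * 2 ^ (∑ j ∈ range l, (g' j - g j)) / 2 ^ Y := by
    intro l
    induction l with
    | zero => exact fun _ j hj => absurd hj (Nat.not_lt_zero j)
    | succ l ih =>
      intro hl j hj
      have ih := ih (by omega)
      have hδ0 : 0 ≤ (1 + C * S) ^ l * 2 ^ (∑ j ∈ range l, (g' j - g j)) / (2 : ℝ) ^ Y := by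
        positivity
      have hstep : (1 + C * S) ^ l * 2 ^ (∑ j ∈ range l, (g' j - g j)) / (2 : ℝ) ^ Y ≤
          (1 + C * S) ^ (l + 1) * 2 ^ (∑ j ∈ range (l + 1), (g' j - g j)) / 2 ^ Y := by
        refine div_le_div_of_nonneg_right ?_ (by positivity)
        rw [pow_succ, Finset.sum_range_succ, pow_add]
        have h1 : (1 : ℝ) ≤ 2 ^ (g' l - g l) := one_le_pow₀ (by norm_num)
        calc (1 + C * S) ^ l * 2 ^ (∑ j ∈ range l, (g' j - g j)) =
            ((1 + C * S) ^ l * 1) * (2 ^ (∑ j ∈ range l, (g' j - g j)) * 1) := by ring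
          _ ≤ ((1 + C * S) ^ l * (1 + C * S)) *
              (2 ^ (∑ j ∈ range l, (g' j - g j)) * 2 ^ (g' l - g l)) :=
            mul_le_mul (mul_le_mul_of_nonneg_left hR1 (by positivity))
              (mul_le_mul_of_nonneg_left h1 (by positivity)) (by positivity) (by positivity)
      rcases Nat.lt_succ_iff_lt_or_eq.1 hj with hj' | hj'
      · exact (ih j hj').trans hstep
      · subst hj'
        have h1 := hlip Φ g' (F j) j (S / 2 ^ g j) hΦ hK (by omega) (hFv j) (hFK j)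
          (by positivity) (hF j (by omega)) x x' _
          (fun j' hj' => hn1 hx j' (by omega)) (fun j' hj' => hn1 hx' j' (by omega)) hδ0 ih
        have h2 := hh j (by omega)
        have h3 : nc g' Φ x' j - nc g' Φ x j = 2 ^ g' j *
            (((x' j - eval x' (Φ j) + eval x' (F j)) - (x j - eval x (Φ j) + eval x (F j))) -
              (eval x' (F j) - eval x (F j))) := by
          unfold nc
          ring
        have hgj : (2 : ℝ) ^ g' j = 2 ^ (g' j - g j) * 2 ^ g j := by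
          rw [← pow_add]
          congr 1
          have := hg j (by omega)
          omega
        set E : ℝ := 2 ^ (∑ j ∈ range j, (g' j - g j)) with hE
        have hE1 : 1 ≤ E := one_le_pow₀ (by norm_num)
        have hRj : 1 ≤ (1 + C * S) ^ j := one_le_pow₀ hR1
        rw [h3, abs_mul, abs_of_pos (by positivity)]
        calc (2 : ℝ) ^ g' j * |_| ≤ 2 ^ g' j * (1 / 2 ^ (g j + Y) +
              C * (S / 2 ^ g j) * ((1 + C * S) ^ j * E / 2 ^ Y)) :=
              mul_le_mul_of_nonneg_left ((abs_sub _ _).trans (add_le_add h2 h1)) (by positivity)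
          _ = 2 ^ (g' j - g j) * (1 + C * S * ((1 + C * S) ^ j * E)) / 2 ^ Y := by
            rw [hgj, pow_add]
            field_simp
          _ ≤ 2 ^ (g' j - g j) * ((1 + C * S) ^ j * E + C * S * ((1 + C * S) ^ j * E)) /
              2 ^ Y := by
            refine div_le_div_of_nonneg_right (mul_le_mul_of_nonneg_left ?_ (by positivity))
              (by positivity)
            have : 1 ≤ (1 + C * S) ^ j * E := one_le_mul_of_one_le_of_one_le hRj hE1
            linarith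
          _ = _ := by
            rw [Finset.sum_range_succ, pow_add (2 : ℝ), ← hE]
            ring
  have h1 := hlip Φ g' (F i) i (S / 2 ^ g i) hΦ hK hi (hFv i) (hFK i)
    (by positivity) (hF i hi) x x' _ (hn1 hx) (hn1 hx') (by positivity) (key i le_rfl)
  refine h1.trans ?_
  set E : ℝ := 2 ^ (∑ j ∈ range i, (g' j - g j)) with hE
  have e1 : C * (S / 2 ^ g i) * ((1 + C * S) ^ i * E / 2 ^ Y) =
      (C * S) * ((1 + C * S) ^ i * E) / 2 ^ (g i + Y) := by
    rw [pow_add]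
    field_simp
  rw [e1]
  refine div_le_div_of_nonneg_right ?_ (by positivity)
  have h2 : 0 ≤ (1 + C * S) ^ i * E := by positivity
  rw [pow_succ]
  nlinarith

/-- Almost sure events. -/
theorem pb_zero {Ω : Type} [Fintype Ω] {q : Ω → ℝ} (hq : ∀ ω, 0 ≤ q ω) :
    Pb q (fun ω => ¬ 0 < q ω) = 0 := by
  classical
  unfold Pb
  refine Finset.sum_eq_zero fun ω _ => ?_
  by_cases h : 0 < q ω
  · rw [if_neg (not_not.2 h)]
  · rw [if_pos h]
    exact le_antisymm (not_lt.1 h) (hq ω)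

/-- Two values of a height. -/
theorem two_le {a b c : ℝ} (ha : |a| ≤ c) (hb : |b| ≤ c) : |a - b| ≤ 2 * c := by
  rw [two_mul]
  exact (abs_sub _ _).trans (add_le_add ha hb)

theorem log9 : Real.log 9 ≤ 3 := by
  rw [Real.log_le_iff_le_exp (by norm_num)]
  have := Real.exp_one_gt_d9
  have h9 : Real.exp 3 = Real.exp 1 * Real.exp 1 * Real.exp 1 := by
    rw [← Real.exp_add, ← Real.exp_add]
    norm_num
  rw [h9]
  nlinarith

theorem log7 : Real.log 7 ≤ 2 := by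
  rw [Real.log_le_iff_le_exp (by norm_num)]
  have := Real.exp_one_gt_d9
  have h9 : Real.exp 2 = Real.exp 1 * Real.exp 1 := by
    rw [← Real.exp_add]
    norm_num
  rw [h9]
  nlinarith

/-- The price of the exceptional event. -/
theorem crude_log {U z y : ℕ} (hz : 1 ≤ z) (hy : y ≤ U * z) :
    1 / ((U : ℝ) + 2) * Real.log (2 * (2 * 2 ^ y + 1) + 1) ≤ z := by
  have l2 : 0 < Real.log 2 := Real.log_pos (by norm_num)
  have l2' : Real.log 2 ≤ 1 := by linarith [Real.log_two_lt_d9]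
  have hzR : (1 : ℝ) ≤ z := by exact_mod_cast hz
  have hU0 : (0 : ℝ) ≤ U := Nat.cast_nonneg U
  have h6 : Real.log (2 * (2 * 2 ^ y + 1) + 1) ≤ (y : ℝ) * Real.log 2 + 2 := by
    have h7 : (1 : ℝ) ≤ 2 ^ y := one_le_pow₀ (by norm_num)
    refine (Real.log_le_log (by positivity)
      (by linarith : 2 * (2 * (2 : ℝ) ^ y + 1) + 1 ≤ 2 ^ y * 7)).trans ?_
    rw [Real.log_mul (by positivity) (by norm_num), Real.log_pow]
    have := log7
    linarith
  have h7 : (y : ℝ) ≤ U * z := by exact_mod_cast hy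
  have h8 : (y : ℝ) * Real.log 2 ≤ U * z := by
    have : (y : ℝ) * Real.log 2 ≤ y * 1 :=
      mul_le_mul_of_nonneg_left l2' (Nat.cast_nonneg y)
    linarith
  rw [one_div, inv_mul_le_iff₀ (by positivity)]
  nlinarith

/-- The constants of `near_tri`. -/
theorem near_num {n i : ℕ} {C : ℝ} {z Y : ℕ} {g g' : ℕ → ℕ} (hC : 1 ≤ C) (hz : 1 ≤ z)
    (hi : i ≤ n) (hg : ∀ j ≤ n, g j ≤ g' j)
    (hU2 : ((∑ j ∈ range (n + 1), (g' j - g j) : ℕ) : ℝ) * Real.log 2 +
      (n + 1) * (2 * C + 1) * z ≤ Y * Real.log 2) :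
    (1 + C * (2 * Real.exp z)) ^ (i + 1) * 2 ^ (∑ j ∈ range i, (g' j - g j)) /
        (2 : ℝ) ^ (g i + Y) ≤ 1 / 2 ^ g' i := by
  have hzR : (1 : ℝ) ≤ z := by exact_mod_cast hz
  have hn0 : (0 : ℝ) ≤ n := Nat.cast_nonneg n
  rw [div_le_div_iff₀ (by positivity) (by positivity), one_mul]
  have h4 : (1 + C * (2 * Real.exp z)) ≤ Real.exp ((2 * C + 1) * z) := by
    have h5 : 1 + 2 * C ≤ Real.exp (2 * C * z) := by
      have h6 := Real.add_one_le_exp (2 * C)
      have h7 : Real.exp (2 * C) ≤ Real.exp (2 * C * z) :=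
        Real.exp_le_exp.2 (by nlinarith)
      linarith
    have h6 : (1 : ℝ) ≤ Real.exp z := Real.one_le_exp (by positivity)
    calc 1 + C * (2 * Real.exp z) ≤ (1 + 2 * C) * Real.exp z := by nlinarith
      _ ≤ Real.exp (2 * C * z) * Real.exp z :=
        mul_le_mul_of_nonneg_right h5 (Real.exp_pos _).le
      _ = _ := by
        rw [← Real.exp_add]
        congr 1
        ring
  have h5 : (1 + C * (2 * Real.exp z)) ^ (i + 1) ≤
      Real.exp ((n + 1) * (2 * C + 1) * z) := by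
    calc _ ≤ Real.exp ((2 * C + 1) * z) ^ (i + 1) :=
          pow_le_pow_left₀ (by positivity) h4 _
      _ = Real.exp (((i + 1 : ℕ) : ℝ) * ((2 * C + 1) * z)) := by rw [← Real.exp_nat_mul]
      _ ≤ _ := by
        refine Real.exp_le_exp.2 ?_
        have : ((i + 1 : ℕ) : ℝ) ≤ n + 1 := by exact_mod_cast (by omega : i + 1 ≤ n + 1)
        have h6 : 0 ≤ (2 * C + 1) * (z : ℝ) := by positivity
        nlinarith
  have h6 : (2 : ℝ) ^ (∑ j ∈ range i, (g' j - g j)) * 2 ^ g' i =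
      2 ^ (∑ j ∈ range (i + 1), (g' j - g j)) * 2 ^ g i := by
    rw [Finset.sum_range_succ, ← pow_add, ← pow_add]
    congr 1
    have := hg i hi
    omega
  have h7 : (2 : ℝ) ^ (∑ j ∈ range (i + 1), (g' j - g j)) ≤
      2 ^ (∑ j ∈ range (n + 1), (g' j - g j)) := by
    refine pow_le_pow_right₀ (by norm_num) ?_
    exact Finset.sum_le_sum_of_subset (Finset.range_mono (by omega))
  have h8 : Real.exp ((n + 1) * (2 * C + 1) * z) *
      2 ^ (∑ j ∈ range (n + 1), (g' j - g j)) ≤ 2 ^ Y := by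
    rw [Cnt12.pow_two_exp, Cnt12.pow_two_exp, ← Real.exp_add]
    refine Real.exp_le_exp.2 ?_
    linarith
  calc (1 + C * (2 * Real.exp z)) ^ (i + 1) * 2 ^ (∑ j ∈ range i, (g' j - g j)) *
        2 ^ g' i = (1 + C * (2 * Real.exp z)) ^ (i + 1) *
          (2 ^ (∑ j ∈ range i, (g' j - g j)) * 2 ^ g' i) := by ring
    _ = (1 + C * (2 * Real.exp z)) ^ (i + 1) *
          2 ^ (∑ j ∈ range (i + 1), (g' j - g j)) * 2 ^ g i := by
        rw [h6]
        ring
    _ ≤ Real.exp ((n + 1) * (2 * C + 1) * z) *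
          2 ^ (∑ j ∈ range (n + 1), (g' j - g j)) * 2 ^ g i :=
        mul_le_mul_of_nonneg_right (mul_le_mul h5 h7 (by positivity) (by positivity))
          (by positivity)
    _ ≤ 2 ^ Y * 2 ^ g i := mul_le_mul_of_nonneg_right h8 (by positivity)
    _ = 2 ^ (g i + Y) := by
        rw [← pow_add]
        congr 1
        omega

/-- A typical sample for the levels `P`, `g` and `P'`, `g'`. -/
def Good {Ω Γ' : Type} (n : ℕ) (g g' : ℕ → ℕ) (z : ℕ) (c' : Ω → Γ') (P' F : Γ' → ℕ → PN)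
    (ω : Ω) : Prop :=
  ∀ i : Fin (n + 1), ∀ b : ℕ → ℝ,
    Bx g' (P' (c' ω)) n b → |eval b (F (c' ω) i)| ≤ Real.exp z * (2 / 2 ^ g i)

/-- **Two samples** with the same finer label and the same digits of the coordinates before. -/
theorem two_ht (n K : ℕ) : ∃ C : ℝ, 1 ≤ C ∧
    ∀ (Ω Γ Γ' : Type) (q : Ω → ℝ) (z Y : ℕ) (X : Ω → ℕ → ℝ) (c : Ω → Γ)
      (P : Γ → ℕ → PN) (g : ℕ → ℕ) (c' : Ω → Γ') (P' F : Γ' → ℕ → PN) (g' : ℕ → ℕ),
      1 ≤ z → Lvl q X n K c' P' g' → (∀ x i, (F x i).totalDegree ≤ K) →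
      (∀ x i, (F x i).vars ⊆ range i) →
      (∀ ω, 0 < q ω → ∀ i, ht X c P ω i = ht X c' P' ω i + eval (X ω) (F (c' ω) i)) →
      (∀ i ≤ n, g i ≤ g' i) →
      ((∑ i ∈ range (n + 1), (g' i - g i) : ℕ) : ℝ) * Real.log 2 +
        (n + 1) * (2 * C + 1) * z ≤ Y * Real.log 2 →
      ∀ ω ω', 0 < q ω → 0 < q ω' → Good n g g' z c' P' F ω → c' ω = c' ω' → ∀ i ≤ n,
        (∀ j : Fin n, (j : ℕ) < i → nd n g Y (ht X c P) ω j = nd n g Y (ht X c P) ω' j) →
        |ht X c P ω i - ht X c P ω' i| ≤ 3 / 2 ^ g' i := by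
  obtain ⟨C, hC, hnear⟩ := near_tri n K
  refine ⟨C, hC, ?_⟩
  intro Ω Γ Γ' q z Y X c P g c' P' F g' hz hL' hFd hFv hFe hg hU2 ω ω' hω hω' hGω e i hi hd
  have h1 := hnear (P' (c' ω)) (F (c' ω)) g g' (2 * Real.exp z) Y i (X ω) (X ω')
    (hL'.tri _) (hL'.deg _) (hFd _) (hFv _) (by positivity) hi hg
    (fun j hj b hb => by
      have := hGω ⟨j, by omega⟩ b hb
      refine this.trans (le_of_eq ?_)
      simp only
      ring)
    (fun j hj => hL'.hgt ω hω j (by omega))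
    (fun j hj => by
      have := hL'.hgt ω' hω' j (by omega)
      unfold ht at this
      rw [← e] at this
      exact this)
    (fun j hj => by
      have h2 : X ω' j - eval (X ω') (P' (c' ω) j) + eval (X ω') (F (c' ω) j) =
          ht X c P ω' j := by
        rw [hFe ω' hω', e]
        rfl
      have h3 : X ω j - eval (X ω) (P' (c' ω) j) + eval (X ω) (F (c' ω) j) =
          ht X c P ω j := by
        rw [hFe ω hω]
        rfl
      rw [h2, h3]
      have h4 := hd ⟨j, by omega⟩ hj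
      unfold nd at h4
      simp only at h4
      rw [abs_sub_comm]
      exact Cnt12.cell_near (by positivity) h4)
  have h2 : |ht X c' P' ω i - ht X c' P' ω' i| ≤ 2 * (1 / 2 ^ g' i) :=
    two_le (hL'.hgt ω hω i hi) (hL'.hgt ω' hω' i hi)
  have h3 := near_num hC hz hi hg hU2
  have h4 : ht X c P ω i - ht X c P ω' i = (ht X c' P' ω i - ht X c' P' ω' i) -
      (eval (X ω') (F (c' ω) i) - eval (X ω) (F (c' ω) i)) := by
    rw [hFe ω hω, hFe ω' hω', ← e]
    ring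
  rw [h4]
  refine (abs_sub _ _).trans ((add_le_add h2 (h1.trans h3)).trans (le_of_eq ?_))
  ring

/-- Typical samples. -/
theorem pb_good (n K : ℕ) (η : ℝ) (hη : 0 < η) (hη1 : η ≤ 1) : ∃ κ : ℝ, 0 < κ ∧ ∃ z₀ : ℕ,
    ∀ (Ω Γ Γ' : Type) [Fintype Ω] (q : Ω → ℝ) (z : ℕ) (X : Ω → ℕ → ℝ) (c : Ω → Γ)
      (P : Γ → ℕ → PN) (g : ℕ → ℕ) (c' : Ω → Γ') (P' F : Γ' → ℕ → PN) (g' : ℕ → ℕ),
      z₀ ≤ z → IsLaw q → Lvl q X n K c P g → Lvl q X n K c' P' g' →
      (∀ x i, (F x i).totalDegree ≤ K) → (∀ x i, (F x i).vars ⊆ range i) →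
      (∀ ω, 0 < q ω → ∀ i, ht X c P ω i = ht X c' P' ω i + eval (X ω) (F (c' ω) i)) →
      (∀ i ≤ n, g i ≤ g' i) →
      n * (z * Real.log 2) - κ * z ≤ CH q (nd n g' z (ht X c' P')) c' →
      Pb q (fun ω => ¬ Good n g g' z c' P' F ω) ≤ η := by
  classical
  have hn0 : (0 : ℝ) ≤ n := Nat.cast_nonneg n
  obtain ⟨η₁, hη₁⟩ : ∃ η₁ : ℝ, η₁ = η / (n + 1) := ⟨_, rfl⟩
  have hη₁0 : 0 < η₁ := by rw [hη₁]; positivity
  have hη₁1 : η₁ ≤ 1 := by
    rw [hη₁, div_le_one (by positivity)]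
    linarith
  obtain ⟨κ, hκ, z₀, hcm⟩ := cmr0 n K K η₁ hη₁0 hη₁1
  refine ⟨κ, hκ, z₀, ?_⟩
  intro Ω Γ Γ' _ q z X c P g c' P' F g' hz hp hL hL' hFd hFv hFe hg hfull
  have hqn := hp.nonneg
  have h1 : ∀ i : Fin (n + 1), Pb q (fun ω => ¬ ∀ b : ℕ → ℝ,
      Bx g' (P' (c' ω)) n b → |eval b (F (c' ω) i)| ≤ Real.exp z * (2 / 2 ^ g i)) ≤ η₁ := by
    intro i
    refine hcm Ω Γ' q z κ X c' P' g' hz le_rfl hp hL' hfull (fun x => F x i)
      (fun ω => 0 < q ω) (fun _ => 2 / 2 ^ g i) (fun x => hFd x i)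
      (fun x => (hFv x i).trans (Finset.range_mono (by omega))) (fun _ => by positivity)
      ?_ ?_
    · rw [pb_zero hqn]
      positivity
    · intro ω hω
      have h2 : eval (X ω) (F (c' ω) i) = ht X c P ω i - ht X c' P' ω i := by
        rw [hFe ω hω]
        ring
      rw [h2]
      have h3 := hL.hgt ω hω i (by omega)
      have h4 := hL'.hgt ω hω i (by omega)
      have h5 : (1 : ℝ) / 2 ^ g' i ≤ 1 / 2 ^ g i :=
        one_div_le_one_div_of_le (by positivity)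
          (pow_le_pow_right₀ (by norm_num) (hg i (by omega)))
      refine (abs_sub _ _).trans ?_
      have h6 : (2 : ℝ) / 2 ^ (g i) = 1 / 2 ^ (g i) + 1 / 2 ^ (g i) := by ring
      rw [h6]
      exact add_le_add h3 (h4.trans h5)
  refine (Pool.Agent.H39.BFL.Pb_mono hqn (A' := fun ω => ∃ i : Fin (n + 1), ¬ ∀ b : ℕ → ℝ,
    Bx g' (P' (c' ω)) n b → |eval b (F (c' ω) i)| ≤ Real.exp z * (2 / 2 ^ g i))
    fun ω _ h => ?_).trans ((Pool.Agent.H39.BFL.Pb_ex hqn _ η₁ h1).trans (le_of_eq ?_))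
  · unfold Good at h
    push Not at h ⊢
    exact h
  · rw [Fintype.card_fin, hη₁]
    push_cast
    field_simp

section entA

open Cnt12

variable {Ω Γ Γ' : Type} [Fintype Ω] {q : Ω → ℝ} {n K z U : ℕ} {X : Ω → ℕ → ℝ} {c : Ω → Γ}
  {P : Γ → ℕ → PN} {g : ℕ → ℕ} {c' : Ω → Γ'} {P' : Γ' → ℕ → PN} {g' : ℕ → ℕ}

/-- The base. -/
theorem entA_base (hp : IsLaw q) (hz : 1 ≤ z) (hL : Lvl q X n K c P g) (hg : ∀ i ≤ n, g i ≤ g' i)
    (hgU : ∀ i ≤ n, g' i - g i ≤ U * z) {G : Ω → Prop}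
    (hbG : Pb q (fun ω => ¬ G ω) ≤ 1 / ((U : ℝ) + 2))
    (hvar : ∀ ω ω', 0 < q ω → 0 < q ω' → G ω → c' ω = c' ω' → ∀ i ≤ n,
      (∀ j : Fin n, (j : ℕ) < i →
        nd n g (U * z) (ht X c P) ω j = nd n g (U * z) (ht X c P) ω' j) →
      |ht X c P ω i - ht X c P ω' i| ≤ 3 / 2 ^ g' i) :
    CH q (nd n g (U * z) (ht X c P)) c' ≤
      ∑ i ∈ range n, (((U * z : ℕ) : ℝ) - ((g' i : ℝ) - g i)) * Real.log 2 + n * (5 * z) := by
  classical
  have hzR : (1 : ℝ) ≤ z := by exact_mod_cast hz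
  have hqn := hp.nonneg
  refine (ch_tri hqn _ _ (fun i => (((U * z : ℕ) : ℝ) - ((g' i : ℝ) - g i)) * Real.log 2 +
    5 * z) fun i => ?_).trans ?_
  · have s1 := ch_ev hp (fun ω => nd n g (U * z) (ht X c P) ω i)
      (fun ω => (msk (nd n g (U * z) (ht X c P)) i ω, c' ω)) G
    have s2 := ch_int hp (fun ω => nd n g (U * z) (ht X c P) ω i)
      (fun ω => (msk (nd n g (U * z) (ht X c P)) i ω, c' ω)) G
      (a := 3 * 2 ^ (U * z - (g' i - g i)) + 1) (b := 2 * 2 ^ (U * z) + 1)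
      (η := 1 / ((U : ℝ) + 2)) (by positivity) (by positivity) hbG ?_ ?_
    · have s3 := crude_log (U := U) hz (le_refl (U * z))
      have hgi := hgU i i.2.le
      have hgi' := hg i i.2.le
      have s4 : Real.log (2 * (3 * 2 ^ (U * z - (g' i - g i)) + 1) + 1) ≤
          (((U * z : ℕ) : ℝ) - ((g' i : ℝ) - g i)) * Real.log 2 + 3 := by
        have h7 : (1 : ℝ) ≤ 2 ^ (U * z - (g' i - g i)) := one_le_pow₀ (by norm_num)
        refine (Real.log_le_log (by positivity) (by linarith :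
          2 * (3 * (2 : ℝ) ^ (U * z - (g' i - g i)) + 1) + 1 ≤
            2 ^ (U * z - (g' i - g i)) * 9)).trans ?_
        rw [Real.log_mul (by positivity) (by norm_num), Real.log_pow, Nat.cast_sub hgi,
          Nat.cast_sub hgi']
        have := log9
        linarith
      linarith
    · intro ω ω' hω hω' hGω hGω' e
      simp only [Prod.mk.injEq] at e
      have h1 := hvar ω ω' hω hω' hGω e.2 i i.2.le (fun j hj => by
        have h2 := congrFun e.1 j
        unfold msk at h2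
        rw [if_pos hj, if_pos hj] at h2
        exact h2)
      have h2 := floor_near (a := (2 : ℝ) ^ (g i + U * z)) (by positivity) h1
      refine h2.trans (le_of_eq ?_)
      congr 1
      have h3 : (2 : ℝ) ^ (g i + U * z) = 2 ^ (U * z - (g' i - g i)) * 2 ^ g' i := by
        rw [← pow_add]
        congr 1
        have h4 := hgU i i.2.le
        have h5 := hg i i.2.le
        omega
      rw [h3]
      field_simp
    · intro ω ω' hω hω'
      have h2 := floor_near (a := (2 : ℝ) ^ (g i + U * z)) (by positivity)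
        (two_le (hL.hgt ω hω i i.2.le) (hL.hgt ω' hω' i i.2.le))
      refine h2.trans (le_of_eq ?_)
      rw [pow_add]
      field_simp
  · rw [Finset.sum_add_distrib, Finset.sum_const, card_range, nsmul_eq_mul]

/-- The height. -/
theorem entA_height (hp : IsLaw q) (hz : 1 ≤ z) (hL : Lvl q X n K c P g)
    (hg : ∀ i ≤ n, g i ≤ g' i)
    (hgU : ∀ i ≤ n, g' i - g i ≤ U * z) {G : Ω → Prop}
    (hbG : Pb q (fun ω => ¬ G ω) ≤ 1 / ((U : ℝ) + 2))
    (hvar : ∀ ω ω', 0 < q ω → 0 < q ω' → G ω → c' ω = c' ω' → ∀ i ≤ n,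
      (∀ j : Fin n, (j : ℕ) < i →
        nd n g (U * z) (ht X c P) ω j = nd n g (U * z) (ht X c P) ω' j) →
      |ht X c P ω i - ht X c P ω' i| ≤ 3 / 2 ^ g' i)
    (P₁ : ℕ) (hP₁ : P₁ ≤ g' n - g n) :
    CH q (fun ω => ⌊(2 : ℝ) ^ P₁ * (2 ^ g n * ht X c P ω n)⌋)
      (fun ω => (c' ω, nd n g (U * z) (ht X c P) ω)) ≤ 5 * z := by
  classical
  have hzR : (1 : ℝ) ≤ z := by exact_mod_cast hz
  have hPU : P₁ ≤ U * z := hP₁.trans (hgU n le_rfl)
  have s1 := ch_ev hp (fun ω => ⌊(2 : ℝ) ^ P₁ * (2 ^ g n * ht X c P ω n)⌋)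
    (fun ω => (c' ω, nd n g (U * z) (ht X c P) ω)) G
  have s2 := ch_int hp (fun ω => ⌊(2 : ℝ) ^ P₁ * (2 ^ g n * ht X c P ω n)⌋)
    (fun ω => (c' ω, nd n g (U * z) (ht X c P) ω)) G
    (a := 4) (b := 2 * 2 ^ P₁ + 1) (η := 1 / ((U : ℝ) + 2)) (by positivity) (by positivity)
    hbG ?_ ?_
  · have s3 := crude_log (U := U) hz hPU
    have s4 : Real.log (2 * 4 + 1) ≤ 3 := by
      have h := log9
      norm_num at h ⊢
      exact h
    refine s1.trans ((add_le_add (le_refl (1 : ℝ))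
      (s2.trans (add_le_add s4 s3))).trans ?_)
    linarith
  · intro ω ω' hω hω' hGω hGω' e
    simp only [Prod.mk.injEq] at e
    have h1 := hvar ω ω' hω hω' hGω e.1 n le_rfl (fun j _ => congrFun e.2 j)
    have h2 := floor_near (a := (2 : ℝ) ^ P₁ * 2 ^ g n) (by positivity) h1
    have h3 : (2 : ℝ) ^ P₁ * 2 ^ g n * (3 / 2 ^ g' n) + 1 ≤ 4 := by
      have h4 : (2 : ℝ) ^ P₁ * 2 ^ g n ≤ 2 ^ g' n := by
        rw [← pow_add]
        refine pow_le_pow_right₀ (by norm_num) ?_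
        have := hg n le_rfl
        omega
      have h5 : (2 : ℝ) ^ P₁ * 2 ^ g n * (3 / 2 ^ g' n) ≤ 2 ^ g' n * (3 / 2 ^ g' n) :=
        mul_le_mul_of_nonneg_right h4 (by positivity)
      have h6 : (2 : ℝ) ^ g' n * (3 / 2 ^ g' n) = 3 := by field_simp
      linarith
    have h4 := h2.trans h3
    simp only [mul_assoc] at h4 ⊢
    exact h4
  · intro ω ω' hω hω'
    have h2 := floor_near (a := (2 : ℝ) ^ P₁ * 2 ^ g n) (by positivity)
      (two_le (hL.hgt ω hω n le_rfl) (hL.hgt ω' hω' n le_rfl))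
    have h3 : (2 : ℝ) ^ P₁ * 2 ^ g n * (2 * (1 / 2 ^ g n)) + 1 = 2 * 2 ^ P₁ + 1 := by
      field_simp
    rw [h3] at h2
    simp only [mul_assoc] at h2 ⊢
    exact h2

end entA

/-- **(A) without slopes.** The natural digits of the base and of the height over the label of a
level, given the label of a finer level. -/
theorem entA (n K : ℕ) : ∃ C₃ : ℝ, 1 ≤ C₃ ∧ ∀ U : ℕ, 1 ≤ U → ∃ κ : ℝ, 0 < κ ∧ ∃ z₀ : ℕ,
    ∀ (Ω Γ Γ' : Type) [Fintype Ω] (q : Ω → ℝ) (z : ℕ) (X : Ω → ℕ → ℝ) (c : Ω → Γ)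
      (P : Γ → ℕ → PN) (g : ℕ → ℕ) (c' : Ω → Γ') (P' : Γ' → ℕ → PN) (g' : ℕ → ℕ),
      z₀ ≤ z → IsLaw q → Det q c' c → Lvl q X n K c P g → Lvl q X n K c' P' g' →
      (∀ i ≤ n, g i ≤ g' i) →
      ((∑ i ∈ range (n + 1), (g' i - g i) : ℕ) : ℝ) * Real.log 2 + C₃ * z ≤
        (U * z : ℕ) * Real.log 2 →
      n * (z * Real.log 2) - κ * z ≤ CH q (nd n g' z (ht X c' P')) c' →
      CH q (nd n g (U * z) (ht X c P)) c' ≤
        ∑ i ∈ range n, (((U * z : ℕ) : ℝ) - ((g' i : ℝ) - g i)) * Real.log 2 + C₃ * z ∧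
      ∀ P₁ : ℕ, P₁ ≤ g' n - g n →
        CH q (fun ω => ⌊(2 : ℝ) ^ P₁ * (2 ^ g n * ht X c P ω n)⌋)
          (fun ω => (c' ω, nd n g (U * z) (ht X c P) ω)) ≤ C₃ * z := by
  classical
  obtain ⟨C, hC, htwo⟩ := two_ht n K
  have hn0 : (0 : ℝ) ≤ n := Nat.cast_nonneg n
  refine ⟨(n + 1) * (2 * C + 1) + 5 * (n + 1), by nlinarith, fun U hU => ?_⟩
  have hU0 : (1 : ℝ) ≤ U := by exact_mod_cast hU
  obtain ⟨κ, hκ, z₀, hgd⟩ := pb_good n K (1 / ((U : ℝ) + 2)) (by positivity) (by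
    rw [div_le_one (by positivity)]
    linarith)
  refine ⟨κ, hκ, max z₀ 1, ?_⟩
  intro Ω Γ Γ' _ q z X c P g c' P' g' hz hp hdet hL hL' hg hU2 hfull
  have hz0 : z₀ ≤ z := (le_max_left _ _).trans hz
  have hz1 : 1 ≤ z := (le_max_right _ _).trans hz
  have hzR : (1 : ℝ) ≤ z := by exact_mod_cast hz1
  have l2 : 0 < Real.log 2 := Real.log_pos (by norm_num)
  -- the label of the coarse level is a function of the label of the finer level
  obtain ⟨ω₀, hω₀⟩ : ∃ ω, 0 < q ω := by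
    by_contra hc
    push Not at hc
    have h1 := hp.sum_one
    have h2 : ∑ ω, q ω ≤ 0 := Finset.sum_nonpos fun ω _ => hc ω
    linarith
  have : Nonempty Γ := ⟨c ω₀⟩
  obtain ⟨f, hf⟩ := det_fun hdet
  obtain ⟨F, hF⟩ : ∃ F : Γ' → ℕ → PN, F = fun x i => P' x i - P (f x) i := ⟨_, rfl⟩
  have hFd : ∀ x i, (F x i).totalDegree ≤ K := by
    intro x i
    rw [hF]
    exact (totalDegree_sub _ _).trans (max_le (hL'.deg x i) (hL.deg _ i))
  have hFv : ∀ x i, (F x i).vars ⊆ range i := by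
    intro x i
    rw [hF]
    exact (vars_sub_subset (P' x i)).trans (Finset.union_subset (hL'.tri x i) (hL.tri _ i))
  have hFe : ∀ ω, 0 < q ω → ∀ i, ht X c P ω i = ht X c' P' ω i + eval (X ω) (F (c' ω) i) := by
    intro ω hω i
    rw [hF]
    unfold ht
    rw [map_sub, hf ω hω]
    ring
  have hbG := hgd Ω Γ Γ' q z X c P g c' P' F g' hz0 hp hL hL' hFd hFv hFe hg hfull
  have hgU : ∀ i ≤ n, g' i - g i ≤ U * z := by
    intro i hi
    have h1 : g' i - g i ≤ ∑ j ∈ range (n + 1), (g' j - g j) :=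
      Finset.single_le_sum (f := fun j => g' j - g j) (fun _ _ => Nat.zero_le _)
        (mem_range.2 (by omega))
    have h2 : ((∑ i ∈ range (n + 1), (g' i - g i) : ℕ) : ℝ) * Real.log 2 ≤
        (U * z : ℕ) * Real.log 2 := by
      have : 0 ≤ ((n + 1) * (2 * C + 1) + 5 * (n + 1)) * (z : ℝ) := by positivity
      linarith
    have h3 := le_of_mul_le_mul_right h2 l2
    have h4 : ∑ i ∈ range (n + 1), (g' i - g i) ≤ U * z := by exact_mod_cast h3
    exact h1.trans h4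
  have hvar := htwo Ω Γ Γ' q z (U * z) X c P g c' P' F g' hz1 hL' hFd hFv hFe hg (by
    have : 0 ≤ 5 * ((n : ℝ) + 1) * z := by positivity
    nlinarith)
  have hc0 : 0 ≤ ((n : ℝ) + 1) * (2 * C + 1) * z := by positivity
  refine ⟨(entA_base hp hz1 hL hg hgU hbG hvar).trans ?_, fun P₁ hP₁ =>
    (entA_height hp hz1 hL hg hgU hbG hvar P₁ hP₁).trans ?_⟩
  · have : (n : ℝ) * (5 * z) ≤ ((n + 1) * (2 * C + 1) + 5 * (n + 1)) * z := by nlinarith
    linarith
  · have : 0 ≤ (n : ℝ) * z := by positivity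
    nlinarith

end RR

end Pool.STAT
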