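import Pool.Agent.H80.STAT.RowR

/-!
# The count from a system with more coordinates

* `domR`: functions which are almost polynomials of the label of one level in the coordinates have
  few values given the label and the natural digits.
* `ratF`: the rows of the height given the label and the natural digits of the base, for systems
  without slopes.
* `ratR`: the same for a system with fewer coordinates whose labels determine the labels of the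
  larger system.
-/

set_option autoImplicit false

namespace Pool.STAT

open Finset MvPolynomial
open Pool.Agent.H49.Ent Pool.Agent.H32.Dense Pool.STK Pool.KS3
open Pool.BFL (Pl CB Pb P2 MC alt)

namespace RR

open Cnt12 CLO in
/-- **Few values.** -/
theorem domR (n K m : ℕ) (L : ℝ) (hL0 : 0 ≤ L) : ∃ C₃ : ℝ, 1 ≤ C₃ ∧ ∀ U : ℕ, 1 ≤ U →
    ∃ κ : ℝ, 0 < κ ∧ ∃ z₀ : ℕ, ∀ (Ω Γ : Type) [Fintype Ω] (q : Ω → ℝ) (z : ℕ)
      (X : Ω → ℕ → ℝ) (c : Ω → Γ) (P : Γ → ℕ → PN) (g : ℕ → ℕ) (hf : Ω → Fin m → ℝ)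
      (Ψ : Γ → Fin m → PN), z₀ ≤ z → IsLaw q → Lvl q X n K c P g →
      (∀ x j, (Ψ x j).totalDegree ≤ K) → (∀ x j, (Ψ x j).vars ⊆ range n) →
      (∀ ω, 0 < q ω → ∀ j, |hf ω j| ≤ 1) →
      (∀ ω, 0 < q ω → ∀ j, |hf ω j - eval (X ω) (Ψ (c ω) j)| ≤ L / 2 ^ (U * z)) →
      n * (z * Real.log 2) - κ * z ≤ CH q (nd n g z (ht X c P)) c →
      CH q (fun ω j => ⌊(2 : ℝ) ^ (U * z) * hf ω j⌋)
        (fun ω => (c ω, nd n g (U * z) (ht X c P) ω)) ≤ C₃ * z := by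
  classical
  obtain ⟨C, hC, hlip⟩ := lip_nat n K
  have hm0 : (0 : ℝ) ≤ m := Nat.cast_nonneg m
  obtain ⟨Q, hQ⟩ : ∃ Q : ℝ, Q = 2 * L + C * (1 + L) + 1 := ⟨_, rfl⟩
  have hQ0 : 1 ≤ Q := by
    rw [hQ]
    have : 0 ≤ C * (1 + L) := by positivity
    linarith
  refine ⟨m * (3 + 2 * Q) + 1, by nlinarith, fun U hU => ?_⟩
  have hU0 : (1 : ℝ) ≤ U := by exact_mod_cast hU
  obtain ⟨η, hη⟩ : ∃ η : ℝ, η = 1 / ((U : ℝ) + 2) := ⟨_, rfl⟩
  have hη0 : 0 < η := by rw [hη]; positivity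
  obtain ⟨κ, hκ, z₀, hcm⟩ := cmr0 n K K η hη0 (by
    rw [hη, div_le_one (by positivity)]
    linarith)
  refine ⟨κ, hκ, max z₀ 1, ?_⟩
  intro Ω Γ _ q z X c P g hf Ψ hz hp hL hΨd hΨv hf1 hfΨ hfull
  have hz0 : z₀ ≤ z := (le_max_left _ _).trans hz
  have hz1 : 1 ≤ z := (le_max_right _ _).trans hz
  have hzR : (1 : ℝ) ≤ z := by exact_mod_cast hz1
  have hqn := hp.nonneg
  have hpU : (1 : ℝ) ≤ 2 ^ (U * z) := one_le_pow₀ (by norm_num)
  refine (ch_fin hqn _ _).trans ?_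
  have key : ∀ j : Fin m, CH q (fun ω => ⌊(2 : ℝ) ^ (U * z) * hf ω j⌋)
      (fun ω => (c ω, nd n g (U * z) (ht X c P) ω)) ≤ (3 + 2 * Q) * z := by
    intro j
    obtain ⟨G, hG⟩ : ∃ G : Ω → Prop, G = fun ω => ∀ b : ℕ → ℝ, Bx g (P (c ω)) n b →
        |eval b (Ψ (c ω) j)| ≤ Real.exp z * (1 + L) := ⟨_, rfl⟩
    have hbG : Pb q (fun ω => ¬ G ω) ≤ η := by
      rw [hG]
      refine hcm Ω Γ q z κ X c P g hz0 le_rfl hp hL hfull (fun x => Ψ x j)
        (fun ω => 0 < q ω) (fun _ => 1 + L) (fun x => hΨd x j) (fun x => hΨv x j)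
        (fun _ => by positivity) ?_ ?_
      · rw [pb_zero hqn]
        positivity
      · intro ω hω
        have h1 := hf1 ω hω j
        have h2 := hfΨ ω hω j
        have h3 : L / 2 ^ (U * z) ≤ L := div_le_self hL0 hpU
        have h4 : eval (X ω) (Ψ (c ω) j) = hf ω j - (hf ω j - eval (X ω) (Ψ (c ω) j)) := by
          ring
        rw [h4]
        exact (abs_sub _ _).trans (add_le_add h1 (h2.trans h3))
    have s1 := ch_ev hp (fun ω => ⌊(2 : ℝ) ^ (U * z) * hf ω j⌋)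
      (fun ω => (c ω, nd n g (U * z) (ht X c P) ω)) G
    have s2 := ch_int hp (fun ω => ⌊(2 : ℝ) ^ (U * z) * hf ω j⌋)
      (fun ω => (c ω, nd n g (U * z) (ht X c P) ω)) G
      (a := Q * Real.exp z) (b := 2 * 2 ^ (U * z) + 1) (η := η)
      (by positivity) (by positivity) hbG ?_ ?_
    · have s3 := crude_log (U := U) hz1 (le_refl (U * z))
      rw [← hη] at s3
      have s4 : Real.log (2 * (Q * Real.exp z) + 1) ≤ z + 2 * Q := by
        have h1 : (1 : ℝ) ≤ Real.exp z := Real.one_le_exp (by positivity)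
        have h2 : 2 * (Q * Real.exp z) + 1 ≤ (2 * Q + 1) * Real.exp z := by nlinarith
        refine (Real.log_le_log (by positivity) h2).trans ?_
        rw [Real.log_mul (by positivity) (by positivity), Real.log_exp]
        have h3 := Real.log_le_sub_one_of_pos (show 0 < 2 * Q + 1 by positivity)
        linarith
      have h5 : 2 * Q ≤ 2 * Q * z := by nlinarith
      linarith
    · intro ω ω' hω hω' hGω hGω' e
      simp only [Prod.mk.injEq] at e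
      rw [hG] at hGω
      have h1 : |eval (X ω') (Ψ (c ω) j) - eval (X ω) (Ψ (c ω) j)| ≤
          C * (Real.exp z * (1 + L)) * (1 / 2 ^ (U * z)) := by
        refine hlip (P (c ω)) g (Ψ (c ω) j) n (Real.exp z * (1 + L)) (hL.tri _) (hL.deg _)
          le_rfl (hΨv _ j) (hΨd _ j) (by positivity) hGω (X ω) (X ω') (1 / 2 ^ (U * z))
          (fun i hi => nc_le.2 (hL.hgt ω hω i hi.le)) (fun i hi => nc_le.2 ?_)
          (by positivity) (fun i hi => ?_)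
        · have := hL.hgt ω' hω' i hi.le
          unfold ht at this
          rw [← e.1] at this
          exact this
        · have h2 := congrFun e.2 ⟨i, hi⟩
          unfold nd at h2
          simp only at h2
          have h3 := cell_near (by positivity) h2
          have h4 : nc g (P (c ω)) (X ω') i - nc g (P (c ω)) (X ω) i =
              2 ^ g i * (ht X c P ω' i - ht X c P ω i) := by
            unfold nc ht
            rw [← e.1]
            ring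
          rw [h4, abs_mul, abs_of_pos (by positivity), abs_sub_comm]
          calc (2 : ℝ) ^ g i * |_| ≤ 2 ^ g i * (1 / 2 ^ (g i + U * z)) :=
                mul_le_mul_of_nonneg_left h3 (by positivity)
            _ = 1 / 2 ^ (U * z) := by
                rw [pow_add]
                field_simp
      have h2 := hfΨ ω hω j
      have h3 := hfΨ ω' hω' j
      rw [← e.1] at h3
      have h4 : |hf ω j - hf ω' j| ≤ (2 * L + C * (1 + L) * Real.exp z) / 2 ^ (U * z) := by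
        have h5 : hf ω j - hf ω' j = (hf ω j - eval (X ω) (Ψ (c ω) j)) -
            (hf ω' j - eval (X ω') (Ψ (c ω) j)) -
            (eval (X ω') (Ψ (c ω) j) - eval (X ω) (Ψ (c ω) j)) := by ring
        rw [h5]
        refine (abs_sub _ _).trans ((add_le_add ((abs_sub _ _).trans
          (add_le_add h2 h3)) h1).trans (le_of_eq ?_))
        ring
      have h5 := floor_near (a := (2 : ℝ) ^ (U * z)) (by positivity) h4
      refine h5.trans ?_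
      have h6 : (2 : ℝ) ^ (U * z) * ((2 * L + C * (1 + L) * Real.exp z) / 2 ^ (U * z)) =
          2 * L + C * (1 + L) * Real.exp z := by field_simp
      rw [h6, hQ]
      have h7 : (1 : ℝ) ≤ Real.exp z := Real.one_le_exp (by positivity)
      nlinarith
    · intro ω ω' hω hω'
      have h2 := floor_near (a := (2 : ℝ) ^ (U * z)) (by positivity)
        (two_le (hf1 ω hω j) (hf1 ω' hω' j))
      refine h2.trans (le_of_eq ?_)
      ring
  calc ∑ j : Fin m, CH q (fun ω => ⌊(2 : ℝ) ^ (U * z) * hf ω j⌋)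
        (fun ω => (c ω, nd n g (U * z) (ht X c P) ω)) ≤ ∑ _j : Fin m, (3 + 2 * Q) * z :=
        Finset.sum_le_sum fun j _ => key j
    _ = m * ((3 + 2 * Q) * z) := by
        rw [Finset.sum_const, card_univ, Fintype.card_fin, nsmul_eq_mul]
    _ ≤ _ := by nlinarith

/-- **The data of the larger system**: levels `0, …, U` (from the level `v` on), the base are the
coordinates before `m`, `m` is the height. -/
structure Fat {Ω Γ : Type} [Fintype Ω] (q : Ω → ℝ) (m K U z : ℕ) (S C₁ κ : ℝ)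
    (X : Ω → ℕ → ℝ) (c : ℕ → Ω → Γ) (P : ℕ → Γ → ℕ → PN) (g : ℕ → ℕ → ℕ) : Prop where
  lvl : ∀ k ≤ U, Lvl q X m K (c k) (P k) (g k)
  det : ∀ k ≤ U, Det q (c k) (c 0)
  full : ∀ k ≤ U, m * (z * Real.log 2) - κ * z ≤ CH q (nd m (g k) z (ht X (c k) (P k))) (c k)
  mono : ∀ k ≤ U, ∀ i ≤ m, g 0 i ≤ g k i
  up : ∀ k ≤ U, ∀ i ≤ m, (g k i : ℝ) - g 0 i ≤ S * (k * z) + C₁ * z
  low : ∀ k ≤ U, (k : ℝ) * z - C₁ * z ≤ (g k m : ℝ) - g 0 m

/-- **The rows of the larger system.** -/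
structure FatR {Ω Γ 𝒱 : Type} [Fintype Ω] (q : Ω → ℝ) (m U z : ℕ) (a C₂ : ℝ)
    (X : Ω → ℕ → ℝ) (c : ℕ → Ω → Γ) (P : ℕ → Γ → ℕ → PN) (g : ℕ → ℕ → ℕ) (Vf : Ω → 𝒱)
    (tot : ℝ) : Prop where
  exact : ∀ k ≤ U, tot - ∑ i ∈ range m, (g k i : ℝ) * Real.log 2 - C₂ * z ≤ CH q Vf (c k)
  count : CH q Vf (fun ω => (c 0 ω, nd m (g 0) (U * z) (ht X (c 0) (P 0)) ω)) ≤
    tot - ∑ i ∈ range m, ((g 0 i : ℝ) + U * z) * Real.log 2 + C₂ * z
  rate : ∀ P₁ : ℕ, P₁ ≤ U * z →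
    CH q (fun ω => ⌊(2 : ℝ) ^ P₁ * (2 ^ g 0 m * ht X (c 0) (P 0) ω m)⌋)
      (fun ω => (Vf ω, (c 0 ω, nd m (g 0) (U * z) (ht X (c 0) (P 0)) ω))) ≤
      (1 - a) * (P₁ * Real.log 2) + C₂ * z

/-- Crude bound. -/
theorem crudeR {Ω T : Type} [Fintype Ω] {q : Ω → ℝ} (hp : IsLaw q) {h : Ω → ℝ}
    (h1 : ∀ ω, 0 < q ω → |h ω| ≤ 1) (W : Ω → T) (P₁ : ℕ) :
    CH q (fun ω => ⌊(2 : ℝ) ^ P₁ * h ω⌋) W ≤ P₁ * Real.log 2 + 2 := by
  have h2 := CH_le_int hp.nonneg hp.sum_one (fun ω => ⌊(2 : ℝ) ^ P₁ * h ω⌋) W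
    (fun _ => 2 * 2 ^ P₁ + 1) (fun ω ω' hω hω' _ => by
      have h3 := Cnt12.floor_near (a := (2 : ℝ) ^ P₁) (by positivity)
        (two_le (h1 ω hω) (h1 ω' hω'))
      refine h3.trans (le_of_eq ?_)
      ring)
  rw [Ex_const hp.sum_one] at h2
  refine h2.trans ?_
  have h7 : (1 : ℝ) ≤ 2 ^ P₁ := one_le_pow₀ (by norm_num)
  refine (Real.log_le_log (by positivity)
    (by linarith : 2 * (2 * (2 : ℝ) ^ P₁ + 1) + 1 ≤ 2 ^ P₁ * 7)).trans ?_
  rw [Real.log_mul (by positivity) (by norm_num), Real.log_pow]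
  have := log7
  linarith

/-- The finer level. -/
theorem level_num {m U U₁ z P₁ : ℕ} {S C₁ C₃ : ℝ} (hS : 0 ≤ S) (hC₁ : 0 ≤ C₁) (hz : 1 ≤ z)
    (hU₁ : 2 * ((m + 1) * (S * (C₁ + 2) + C₁) + 2 * C₃ + C₁ + 2) ≤ U₁) (hC₃ : 1 ≤ C₃)
    (hU : U₁ ≤ U) (hP : (P₁ : ℝ) ≤ 1 / (2 * ((m + 1) * (S + 1))) * (U * z)) :
    ∃ k ≤ U, (P₁ : ℝ) ≤ k * z - C₁ * z ∧
      (m + 1) * (S * (k * z) + C₁ * z) + 2 * C₃ * z ≤ U * z := by
  obtain ⟨ρ, hρ⟩ : ∃ ρ : ℝ, ρ = 1 / (2 * ((m + 1) * (S + 1))) := ⟨_, rfl⟩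
  rw [← hρ] at hP
  have hm0 : (0 : ℝ) ≤ m := Nat.cast_nonneg m
  have hzR : (1 : ℝ) ≤ z := by exact_mod_cast hz
  have hU0 : (0 : ℝ) ≤ U := Nat.cast_nonneg U
  have hUUR : (U₁ : ℝ) ≤ U := by exact_mod_cast hU
  have hmS : 1 ≤ ((m : ℝ) + 1) * (S + 1) := by nlinarith
  have hρ0 : 0 < ρ := by rw [hρ]; positivity
  have hd1 : (P₁ : ℝ) < (((P₁ / z : ℕ) : ℝ) + 1) * z := by
    have h1 := Nat.lt_mul_div_succ P₁ (by omega : 0 < z)
    have h2 : ((P₁ : ℕ) : ℝ) < ((z * (P₁ / z + 1) : ℕ) : ℝ) := by exact_mod_cast h1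
    push_cast at h2
    linarith
  have hd2 : ((P₁ / z : ℕ) : ℝ) ≤ ρ * U := by
    have h1 := Nat.div_mul_le_self P₁ z
    have h2 : ((P₁ / z : ℕ) : ℝ) * z ≤ P₁ := by exact_mod_cast h1
    have h3 : ((P₁ / z : ℕ) : ℝ) * z ≤ (ρ * U) * z := by linarith
    exact le_of_mul_le_mul_right h3 (by linarith)
  have hc1 : C₁ ≤ (⌈C₁⌉₊ : ℝ) := Nat.le_ceil _
  have hc2 : (⌈C₁⌉₊ : ℝ) < C₁ + 1 := Nat.ceil_lt_add_one hC₁
  obtain ⟨k, hk⟩ : ∃ k : ℕ, k = P₁ / z + ⌈C₁⌉₊ + 1 := ⟨_, rfl⟩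
  have hkR : (k : ℝ) = (P₁ / z : ℕ) + ⌈C₁⌉₊ + 1 := by
    rw [hk]
    push_cast
    ring
  have hkP : (P₁ : ℝ) ≤ k * z - C₁ * z := by
    have h2 : C₁ * z ≤ (⌈C₁⌉₊ : ℝ) * z := mul_le_mul_of_nonneg_right hc1 (by linarith)
    have h3 : (k : ℝ) * z = (((P₁ / z : ℕ) : ℝ) + 1) * z + ⌈C₁⌉₊ * z := by
      rw [hkR]
      ring
    linarith
  have hk2 : (k : ℝ) ≤ ρ * U + C₁ + 2 := by rw [hkR]; linarith
  have hρU : (m + 1) * S * (ρ * U) ≤ U / 2 := by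
    have h1 : ((m : ℝ) + 1) * S * ρ ≤ 1 / 2 := by
      rw [hρ, mul_one_div, div_le_iff₀ (by positivity)]
      nlinarith
    have h2 : ((m : ℝ) + 1) * S * (ρ * U) = ((m + 1) * S * ρ) * U := by ring
    rw [h2]
    nlinarith
  have hρU2 : ρ * U ≤ U / 2 := by
    have h1 : ρ ≤ 1 / 2 := by
      rw [hρ, div_le_div_iff₀ (by positivity) (by norm_num)]
      linarith
    nlinarith
  have h0 : 0 ≤ ((m : ℝ) + 1) * (S * (C₁ + 2) + C₁) := by positivity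
  refine ⟨k, ?_, hkP, ?_⟩
  · have h2 : (k : ℝ) ≤ U := by linarith
    exact_mod_cast h2
  · have h3 : (m + 1) * (S * k + C₁) ≤ U / 2 + (m + 1) * (S * (C₁ + 2) + C₁) := by
      have h4 : ((m : ℝ) + 1) * S * k ≤ (m + 1) * S * (ρ * U + C₁ + 2) :=
        mul_le_mul_of_nonneg_left hk2 (by positivity)
      linarith
    have h6 : (m + 1) * (S * k + C₁) + 2 * C₃ ≤ U := by linarith
    calc _ = ((m + 1) * (S * k + C₁) + 2 * C₃) * z := by ring
      _ ≤ _ := mul_le_mul_of_nonneg_right h6 (by positivity)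

/-- **(B) without slopes**: the rows of the height given the label and the digits of the base. -/
theorem ratF (m K : ℕ) (S C₁ C₂ a : ℝ) (hS : 0 ≤ S) (hC₁ : 0 ≤ C₁) (hC₂ : 0 ≤ C₂)
    (ha1 : a ≤ 1) : ∃ C₃ ρ : ℝ, 1 ≤ C₃ ∧ 0 < ρ ∧ ρ ≤ 1 ∧ ∀ U : ℕ, 1 ≤ U → ∃ κ : ℝ, 0 < κ ∧
    ∃ z₀ : ℕ, ∀ (Ω Γ 𝒱 : Type) [Fintype Ω] (q : Ω → ℝ) (z : ℕ) (X : Ω → ℕ → ℝ)
      (c : ℕ → Ω → Γ) (P : ℕ → Γ → ℕ → PN) (g : ℕ → ℕ → ℕ) (Vf : Ω → 𝒱) (tot : ℝ), z₀ ≤ z →
      IsLaw q → Fat q m K U z S C₁ κ X c P g → FatR q m U z a C₂ X c P g Vf tot →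
      ∀ P₁ : ℕ, (P₁ : ℝ) ≤ ρ * (U * z) →
        CH q (fun ω => ⌊(2 : ℝ) ^ P₁ * (2 ^ g 0 m * ht X (c 0) (P 0) ω m)⌋)
          (fun ω => (c 0 ω, nd m (g 0) (U * z) (ht X (c 0) (P 0)) ω)) ≤
          (1 - a) * (P₁ * Real.log 2) + C₃ * z := by
  classical
  obtain ⟨C₃, hC₃, hA⟩ := entA m K
  have hm0 : (0 : ℝ) ≤ m := Nat.cast_nonneg m
  obtain ⟨U₁, hU₁⟩ : ∃ U₁ : ℕ, 2 * ((m + 1) * (S * (C₁ + 2) + C₁) + 2 * C₃ + C₁ + 2) ≤ U₁ :=
    ⟨_, Nat.le_ceil _⟩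
  obtain ⟨ρ, hρ⟩ : ∃ ρ : ℝ, ρ = 1 / (2 * ((m + 1) * (S + 1))) := ⟨_, rfl⟩
  have hρ0 : 0 < ρ := by rw [hρ]; positivity
  have hmS : 1 ≤ ((m : ℝ) + 1) * (S + 1) := by nlinarith
  have hρ1 : ρ ≤ 1 := by
    rw [hρ, div_le_one (by positivity)]
    linarith
  have l2 : 0 < Real.log 2 := Real.log_pos (by norm_num)
  have l2' : Real.log 2 ≤ 1 := by linarith [Real.log_two_lt_d9]
  have l2'' : 1 ≤ 2 * Real.log 2 := by linarith [Real.log_two_gt_d9]
  have hU₁0 : (0 : ℝ) ≤ U₁ := Nat.cast_nonneg U₁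
  refine ⟨(3 * C₂ + 2 * C₃) + U₁ + 3, ρ, by linarith, hρ0, hρ1, fun U hU => ?_⟩
  obtain ⟨κ, hκ, z₀, hA⟩ := hA U hU
  refine ⟨κ, hκ, max z₀ 1, ?_⟩
  intro Ω Γ 𝒱 _ q z X c P g Vf tot hz hp hF hR P₁ hP₁
  have hz0 : z₀ ≤ z := (le_max_left _ _).trans hz
  have hz1 : 1 ≤ z := (le_max_right _ _).trans hz
  have hzR : (1 : ℝ) ≤ z := by exact_mod_cast hz1
  have hUR : (1 : ℝ) ≤ U := by exact_mod_cast hU
  have hPU : (P₁ : ℝ) ≤ U * z := hP₁.trans (by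
    have : 0 ≤ (U : ℝ) * z := by positivity
    nlinarith)
  rcases Nat.lt_or_ge U U₁ with hUU | hUU
  · -- few levels
    have h1 := crudeR hp (h := fun ω => 2 ^ g 0 m * ht X (c 0) (P 0) ω m) (fun ω hω => by
      have := (hF.lvl 0 (Nat.zero_le _)).hgt ω hω m le_rfl
      rw [abs_mul, abs_of_pos (by positivity)]
      rwa [le_div_iff₀ (by positivity), mul_comm] at this)
      (fun ω => (c 0 ω, nd m (g 0) (U * z) (ht X (c 0) (P 0)) ω)) P₁
    refine h1.trans ?_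
    have h2 : (U : ℝ) ≤ U₁ := by exact_mod_cast hUU.le
    have h3 : (P₁ : ℝ) * Real.log 2 ≤ U₁ * z := by
      have h4 : (P₁ : ℝ) * Real.log 2 ≤ P₁ * 1 :=
        mul_le_mul_of_nonneg_left l2' (Nat.cast_nonneg P₁)
      have h5 : (U : ℝ) * z ≤ U₁ * z := mul_le_mul_of_nonneg_right h2 (by positivity)
      linarith
    have h4 : a * (P₁ * Real.log 2) ≤ U₁ * z := by
      have h5 : 0 ≤ (P₁ : ℝ) * Real.log 2 := by positivity
      nlinarith
    have h6 : 0 ≤ (3 * C₂ + 2 * C₃) * (z : ℝ) := by positivity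
    nlinarith
  · obtain ⟨k, hkU, hkP, hkn⟩ := level_num hS hC₁ hz1 hU₁ hC₃ hUU (hρ ▸ hP₁)
    have hsum : ((∑ i ∈ range (m + 1), (g k i - g 0 i) : ℕ) : ℝ) ≤
        (m + 1) * (S * (k * z) + C₁ * z) := by
      push_cast
      calc ∑ i ∈ range (m + 1), ((g k i - g 0 i : ℕ) : ℝ) ≤
          ∑ _i ∈ range (m + 1), (S * (k * z) + C₁ * z) := by
            refine Finset.sum_le_sum fun i hi => ?_
            have hi' : i ≤ m := by
              have := mem_range.1 hi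
              omega
            rw [Nat.cast_sub (hF.mono k hkU i hi')]
            exact hF.up k hkU i hi'
        _ = _ := by
            rw [Finset.sum_const, card_range, nsmul_eq_mul]
            push_cast
            ring
    have hcond : ((∑ i ∈ range (m + 1), (g k i - g 0 i) : ℕ) : ℝ) * Real.log 2 + C₃ * z ≤
        (U * z : ℕ) * Real.log 2 := by
      have h1 : ((∑ i ∈ range (m + 1), (g k i - g 0 i) : ℕ) : ℝ) + 2 * C₃ * z ≤ U * z := by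
        linarith
      have h2 : C₃ * z ≤ 2 * C₃ * z * Real.log 2 := by
        have h3 : 0 ≤ C₃ * (z : ℝ) := by positivity
        nlinarith
      push_cast at h1 ⊢
      nlinarith
    obtain ⟨h2, h3⟩ := hA Ω Γ Γ q z X (c 0) (P 0) (g 0) (c k) (P k) (g k) hz0 hp
      (hF.det k hkU) (hF.lvl 0 (Nat.zero_le _)) (hF.lvl k hkU) (hF.mono k hkU) hcond
      (hF.full k hkU)
    have hP1 : P₁ ≤ g k m - g 0 m := by
      have h4 := hF.low k hkU
      have h5 := hF.mono k hkU m le_rfl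
      have h6 : (P₁ : ℝ) ≤ ((g k m - g 0 m : ℕ) : ℝ) := by
        rw [Nat.cast_sub h5]
        linarith
      exact_mod_cast h6
    have h3 := h3 P₁ hP1
    have h1 := hR.exact k hkU
    have h4 := hR.count
    have h5 := hR.rate P₁ (by exact_mod_cast hPU)
    have hsum2 : ∑ i ∈ range m, (g k i : ℝ) * Real.log 2 +
        ∑ i ∈ range m, (((U * z : ℕ) : ℝ) - ((g k i : ℝ) - g 0 i)) * Real.log 2 =
        ∑ i ∈ range m, ((g 0 i : ℝ) + U * z) * Real.log 2 := by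
      rw [← Finset.sum_add_distrib]
      refine Finset.sum_congr rfl fun i _ => ?_
      push_cast
      ring
    have h7 := RW6.transfer hp.nonneg Vf
      (fun ω => nd m (g 0) (U * z) (ht X (c 0) (P 0)) ω)
      (fun ω => ⌊(2 : ℝ) ^ P₁ * (2 ^ g 0 m * ht X (c 0) (P 0) ω m)⌋) (c 0) (c k)
      (hF.det k hkU)
      (X := tot - ∑ i ∈ range m, (g k i : ℝ) * Real.log 2 - C₂ * z)
      (Y := ∑ i ∈ range m, (((U * z : ℕ) : ℝ) - ((g k i : ℝ) - g 0 i)) * Real.log 2 + C₃ * z)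
      (R := C₃ * z) (S := (2 * C₂ + C₃) * z)
      (E := (1 - a) * (P₁ * Real.log 2) + C₂ * z) h1 h2 h3 (h4.trans (by linarith)) h5
    refine h7.trans ?_
    have h8 : 0 ≤ ((U₁ : ℝ) + 3) * z := by positivity
    linarith

end RR

end Pool.STAT
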