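import Pool.Agent.H80.STAT.RowR2

/-!
# The count of a system from the rows of a system with more coordinates

`ratR`: the conclusion of `RatwStmt` for the system `D` (static coordinates), from the levels and
the rows of a larger system (all coordinates, no slopes), if the labels of `D` determine the labels
of the larger system and its base coordinates are almost polynomials of the coordinates of `D`.
-/

set_option autoImplicit false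

namespace Pool.STAT

open Finset MvPolynomial
open Pool.Agent.H49.Ent Pool.Agent.H32.Dense Pool.STK Pool.KS3
open Pool.BFL (Pl CB Pb P2 MC alt)

namespace RR

/-- The digits of a nearby variable. -/
theorem near_dig {Ω T : Type} [Fintype Ω] {q : Ω → ℝ} (hp : IsLaw q) {h h' : Ω → ℝ} {L s : ℝ}
    {P₁ : ℕ} (hs : 0 < s)
    (h1 : ∀ ω, 0 < q ω → |(2 : ℝ) ^ P₁ * h ω - s * (2 ^ P₁ * h' ω)| ≤ L) (W : Ω → T) :
    CH q (fun ω => ⌊(2 : ℝ) ^ P₁ * h ω⌋) W ≤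
      CH q (fun ω => ⌊(2 : ℝ) ^ P₁ * h' ω⌋) W + Real.log (2 * (s + 2 * L + 1) + 1) := by
  have e1 := CH_le_add hp.nonneg (fun ω => ⌊(2 : ℝ) ^ P₁ * h ω⌋)
    (fun ω => ⌊(2 : ℝ) ^ P₁ * h' ω⌋) W
  have h2 := CH_le_int hp.nonneg hp.sum_one (fun ω => ⌊(2 : ℝ) ^ P₁ * h ω⌋)
    (fun ω => (⌊(2 : ℝ) ^ P₁ * h' ω⌋, W ω))
    (fun _ => s + 2 * L + 1) (fun ω ω' hω hω' e => by
      simp only [Prod.mk.injEq] at e
      have h3 := Ful.fl_eq e.1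
      have h4 : |(2 : ℝ) ^ P₁ * h ω - 2 ^ P₁ * h ω'| ≤ s + 2 * L := by
        have h5 : (2 : ℝ) ^ P₁ * h ω - 2 ^ P₁ * h ω' =
            ((2 : ℝ) ^ P₁ * h ω - s * (2 ^ P₁ * h' ω)) -
            ((2 : ℝ) ^ P₁ * h ω' - s * (2 ^ P₁ * h' ω')) +
            s * (2 ^ P₁ * h' ω - 2 ^ P₁ * h' ω') := by ring
        rw [h5]
        refine (abs_add_le _ _).trans ?_
        have h6 := (abs_sub ((2 : ℝ) ^ P₁ * h ω - s * (2 ^ P₁ * h' ω))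
          ((2 : ℝ) ^ P₁ * h ω' - s * (2 ^ P₁ * h' ω'))).trans (add_le_add (h1 ω hω) (h1 ω' hω'))
        have h7 : |s * (2 ^ P₁ * h' ω - 2 ^ P₁ * h' ω')| ≤ s * 1 := by
          rw [abs_mul, abs_of_pos hs]
          exact mul_le_mul_of_nonneg_left h3 hs.le
        linarith
      have := Ful.fl_le h4
      linarith)
  rw [Ex_const hp.sum_one] at h2
  linarith

/-- **Rows of a system with more coordinates.** `c`, `P`, `g`, `X`: the label of one level of the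
system with the base coordinates before `n`; `H` is its height in natural units. -/
theorem ratR (n m K Kf : ℕ) (S C₁ C₂ a L : ℝ) (hS : 0 ≤ S) (hC₁ : 0 ≤ C₁) (hC₂ : 0 ≤ C₂)
    (ha1 : a ≤ 1) (hL : 0 ≤ L) : ∃ C₃ ρ : ℝ, 1 ≤ C₃ ∧ 0 < ρ ∧ ρ ≤ 1 ∧
    ∀ U : ℕ, 1 ≤ U → ∃ κ : ℝ, 0 < κ ∧ ∃ z₀ : ℕ,
    ∀ (Ω Γ Γf 𝒱 : Type) [Fintype Ω] (q : Ω → ℝ) (z : ℕ)
      (X : Ω → ℕ → ℝ) (c : Ω → Γ) (P : Γ → ℕ → PN) (g : ℕ → ℕ) (H : Ω → ℝ)
      (Xf : Ω → ℕ → ℝ) (cf : ℕ → Ω → Γf) (Pf : ℕ → Γf → ℕ → PN) (gf : ℕ → ℕ → ℕ)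
      (Ψ : Γ → Fin m → PN) (Vf : Ω → 𝒱) (tot : ℝ), z₀ ≤ z → IsLaw q → Lvl q X n K c P g →
      n * (z * Real.log 2) - κ * z ≤ CH q (nd n g z (ht X c P)) c →
      Fat q m Kf U z S C₁ κ Xf cf Pf gf → FatR q m U z a C₂ Xf cf Pf gf Vf tot →
      Det q c (cf 0) →
      (∀ x j, (Ψ x j).totalDegree ≤ K) → (∀ x j, (Ψ x j).vars ⊆ range n) →
      (∀ ω, 0 < q ω → ∀ j : Fin m, |2 ^ gf 0 j * ht Xf (cf 0) (Pf 0) ω j -
        eval (X ω) (Ψ (c ω) j)| ≤ L / 2 ^ (U * z)) →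
      (∀ ω, 0 < q ω → |H ω - 2 ^ gf 0 m * ht Xf (cf 0) (Pf 0) ω m| ≤ L / 2 ^ (U * z)) →
      ∀ P₁ : ℕ, (P₁ : ℝ) ≤ ρ * (U * z) →
        CH q (fun ω => ⌊(2 : ℝ) ^ P₁ * H ω⌋)
          (fun ω => (c ω, nd n g (U * z) (ht X c P) ω)) ≤
          (1 - a) * (P₁ * Real.log 2) + C₃ * z := by
  classical
  obtain ⟨C₃, ρ, hC₃, hρ, hρ1, hR⟩ := ratF m Kf S C₁ C₂ a hS hC₁ hC₂ ha1
  obtain ⟨C₄, hC₄, hD⟩ := domR n K m L hL
  obtain ⟨Q, hQ⟩ : ∃ Q : ℝ, Q = Real.log (2 * (1 + 2 * L + 1) + 1) := ⟨_, rfl⟩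
  have hQ0 : 0 ≤ Q := by
    rw [hQ]
    exact Real.log_nonneg (by linarith)
  refine ⟨C₃ + C₄ + Q, ρ, by linarith, hρ, hρ1, fun U hU => ?_⟩
  obtain ⟨κa, hκa, za, hR⟩ := hR U hU
  obtain ⟨κb, hκb, zb, hD⟩ := hD U hU
  refine ⟨min κa κb, lt_min hκa hκb, max (max za zb) 1, ?_⟩
  intro Ω Γ Γf 𝒱 _ q z X c P g H Xf cf Pf gf Ψ Vf tot hz hp hlv hfull hF hFR hdet hΨd hΨv hdom
    hH P₁ hP₁
  have hza : za ≤ z := (le_max_left _ _).trans ((le_max_left _ _).trans hz)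
  have hzb : zb ≤ z := (le_max_right _ _).trans ((le_max_left _ _).trans hz)
  have hz1 : 1 ≤ z := (le_max_right _ _).trans hz
  have hzR : (1 : ℝ) ≤ z := by exact_mod_cast hz1
  have hqn := hp.nonneg
  have hmono : ∀ x : ℝ, x ≤ κa → x * z ≤ κa * z := fun x hx =>
    mul_le_mul_of_nonneg_right hx (by positivity)
  have hFa : Fat q m Kf U z S C₁ κa Xf cf Pf gf :=
    ⟨hF.lvl, hF.det, fun k hk => by
      have h1 := hF.full k hk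
      have h2 : min κa κb * (z : ℝ) ≤ κa * z :=
        mul_le_mul_of_nonneg_right (min_le_left _ _) (by positivity)
      linarith, hF.mono, hF.up, hF.low⟩
  have hr := hR Ω Γf 𝒱 q z Xf cf Pf gf Vf tot hza hp hFa hFR P₁ hP₁
  have hh1 : ∀ ω, 0 < q ω → ∀ j ≤ m, |2 ^ gf 0 j * ht Xf (cf 0) (Pf 0) ω j| ≤ 1 := by
    intro ω hω j hj
    have := (hF.lvl 0 (Nat.zero_le _)).hgt ω hω j hj
    rw [abs_mul, abs_of_pos (by positivity)]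
    rwa [le_div_iff₀ (by positivity), mul_comm] at this
  have hd := hD Ω Γ q z X c P g (fun ω (j : Fin m) => 2 ^ gf 0 j * ht Xf (cf 0) (Pf 0) ω j) Ψ
    hzb hp hlv hΨd hΨv (fun ω hω j => hh1 ω hω j j.2.le) hdom (by
      have h2 : min κa κb * (z : ℝ) ≤ κb * z :=
        mul_le_mul_of_nonneg_right (min_le_right _ _) (by positivity)
      linarith)
  -- the digits of the larger system
  have e1 := CH_le_add hqn (fun ω => ⌊(2 : ℝ) ^ P₁ * H ω⌋)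
    (fun ω (j : Fin m) => ⌊(2 : ℝ) ^ (U * z) * (2 ^ gf 0 j * ht Xf (cf 0) (Pf 0) ω j)⌋)
    (fun ω => (c ω, nd n g (U * z) (ht X c P) ω))
  have e2 : CH q (fun ω => ⌊(2 : ℝ) ^ P₁ * H ω⌋)
      (fun ω => ((fun (j : Fin m) =>
        ⌊(2 : ℝ) ^ (U * z) * (2 ^ gf 0 j * ht Xf (cf 0) (Pf 0) ω j)⌋),
        (c ω, nd n g (U * z) (ht X c P) ω))) ≤
      CH q (fun ω => ⌊(2 : ℝ) ^ P₁ * H ω⌋)
        (fun ω => (cf 0 ω, nd m (gf 0) (U * z) (ht Xf (cf 0) (Pf 0)) ω)) := by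
    refine CH_mono_cond hqn fun ω ω' hω hω' e => ?_
    simp only [Prod.mk.injEq] at e ⊢
    refine ⟨hdet ω ω' hω hω' e.2.1, ?_⟩
    funext j
    have h3 := congrFun e.1 j
    unfold nd
    rw [← mul_assoc, ← mul_assoc, ← pow_add, add_comm (U * z)] at h3
    exact h3
  have e3 := near_dig (P₁ := P₁) hp one_pos (h := H)
    (h' := fun ω => 2 ^ gf 0 m * ht Xf (cf 0) (Pf 0) ω m) (fun ω hω => by
      rw [one_mul, ← mul_sub, abs_mul, abs_of_pos (by positivity)]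
      have h3 : P₁ ≤ U * z := by
        have h4 : (P₁ : ℝ) ≤ U * z := hP₁.trans (by
          have : 0 ≤ (U : ℝ) * z := by positivity
          nlinarith)
        exact_mod_cast h4
      calc (2 : ℝ) ^ P₁ * |_| ≤ 2 ^ (U * z) * (L / 2 ^ (U * z)) :=
            mul_le_mul (pow_le_pow_right₀ (by norm_num) h3) (hH ω hω) (abs_nonneg _)
              (by positivity)
        _ = L := by field_simp)
    (fun ω => (cf 0 ω, nd m (gf 0) (U * z) (ht Xf (cf 0) (Pf 0)) ω))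
  rw [← hQ] at e3
  have e4 : Q ≤ Q * z := le_mul_of_one_le_right hQ0 hzR
  have e5 : (C₃ + C₄ + Q) * (z : ℝ) = C₃ * z + C₄ * z + Q * z := by ring
  rw [e5]
  linarith

/-- The natural digits of a system. -/
theorem nd_bd (D : NDat) (z U v : ℕ) {n : ℕ} (ω : D.Ω) :
    nd n (D.g v) (U * z) (ht D.X (D.c v) (D.P v)) ω = (D.bd z U v ω : Fin n → ℤ) := by
  funext i
  unfold nd NDat.bd NDat.pT
  rw [← mul_assoc, ← pow_add, add_comm (U * z)]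
  rfl

theorem lvl_ok {D : NDat} {n K J z M : ℕ} {σ : ℕ → ℝ} {κ C₁ : ℝ} {q : D.Ω → ℝ}
    (h : D.Ok n K J z M σ κ C₁ q) {v : ℕ} (hv : v ≤ M) :
    Lvl q D.X n K (D.c v) (D.P v) (D.g v) :=
  ⟨h.P_deg v, h.P_tri v, h.hgt v hv⟩

/-- **The count of the system `D`**, in the form of `RatwStmt`, from the rows of a larger
system. -/
theorem ratR_ok (n m K Kf : ℕ) (d : ℕ → ℕ) (S C₁ C₂ a L : ℝ) (hS : 0 ≤ S) (hC₁ : 0 ≤ C₁)
    (hC₂ : 0 ≤ C₂) (ha1 : a ≤ 1) (hL : 0 ≤ L) : ∃ C₃ ρ : ℝ, 1 ≤ C₃ ∧ 0 < ρ ∧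
    ρ ≤ 1 ∧ ∀ U : ℕ, 1 ≤ U → ∃ κ : ℝ, 0 < κ ∧ ∃ z₀ : ℕ,
    ∀ (J z M v : ℕ) (D : NDat) (q : D.Ω → ℝ) (Γf 𝒱 : Type)
      (Xf : D.Ω → ℕ → ℝ) (cf : ℕ → D.Ω → Γf) (Pf : ℕ → Γf → ℕ → PN) (gf : ℕ → ℕ → ℕ)
      (Ψ : D.Γ → Fin m → PN) (Vf : D.Ω → 𝒱) (tot : ℝ), z₀ ≤ z → v ≤ M →
      D.Ok n K J z M (fun i => d i) κ C₁ q →
      Fat q m Kf U z S C₁ κ Xf cf Pf gf → FatR q m U z a C₂ Xf cf Pf gf Vf tot →
      Det q (D.c v) (cf 0) →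
      (∀ x j, (Ψ x j).totalDegree ≤ K) → (∀ x j, (Ψ x j).vars ⊆ range n) →
      (∀ ω, 0 < q ω → ∀ j : Fin m, |2 ^ gf 0 j * ht Xf (cf 0) (Pf 0) ω j -
        eval (D.X ω) (Ψ (D.c v ω) j)| ≤ L / 2 ^ (U * z)) →
      (∀ ω, 0 < q ω → |2 ^ D.g v n * D.rh v ω n - 2 ^ gf 0 m * ht Xf (cf 0) (Pf 0) ω m| ≤
        L / 2 ^ (U * z)) →
      ∀ P₁ : ℕ, (P₁ : ℝ) ≤ ρ * (U * z) →
        CH q (fun ω => ⌊(2 : ℝ) ^ P₁ * D.pN d z v n ω⌋)
          (fun ω => (D.c v ω, (D.bd z U v ω : Fin n → ℤ))) ≤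
          (1 - a) * (P₁ * Real.log 2) + C₃ * z := by
  classical
  obtain ⟨C₃, ρ, hC₃, hρ, hρ1, hR⟩ := ratR n m K Kf S C₁ C₂ a L hS hC₁ hC₂ ha1 hL
  refine ⟨C₃ + C₁ + 2, ρ, by linarith, hρ, hρ1, fun U hU => ?_⟩
  obtain ⟨κ, hκ, z₀, hR⟩ := hR U hU
  refine ⟨κ, hκ, max z₀ 1, ?_⟩
  intro J z M v D q Γf 𝒱 Xf cf Pf gf Ψ Vf tot hz hv hOk hF hFR hdet hΨd hΨv hdom hH P₁ hP₁
  have hz0 : z₀ ≤ z := (le_max_left _ _).trans hz
  have hz1 : 1 ≤ z := (le_max_right _ _).trans hz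
  have hzR : (1 : ℝ) ≤ z := by exact_mod_cast hz1
  have hp := hOk.isLaw
  have l2 : 0 < Real.log 2 := Real.log_pos (by norm_num)
  have l2' : Real.log 2 ≤ 1 := by linarith [Real.log_two_lt_d9]
  have hfull : n * (z * Real.log 2) - κ * z ≤
      CH q (nd n (D.g v) z (ht D.X (D.c v) (D.P v))) (D.c v) := hOk.full v hv
  have h1 := hR D.Ω D.Γ Γf 𝒱 q z D.X (D.c v) (D.P v) (D.g v)
    (fun ω => 2 ^ D.g v n * D.rh v ω n) Xf cf Pf gf Ψ Vf tot hz0 hp (lvl_ok hOk hv) hfull hF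
    hFR hdet hΨd hΨv hdom hH P₁ hP₁
  simp only [nd_bd] at h1
  -- the units
  obtain ⟨s, hs⟩ : ∃ s : ℝ, s = 2 ^ (d n * (v * z)) / 2 ^ D.g v n := ⟨_, rfl⟩
  have hs0 : 0 < s := by rw [hs]; positivity
  have hs1 : s ≤ Real.exp (C₁ * z) := by
    rw [hs, Cnt12.pow_two_exp, Cnt12.pow_two_exp, ← Real.exp_sub]
    refine Real.exp_le_exp.2 ?_
    have h2 := (abs_le.1 (hOk.hom v hv n le_rfl)).1
    push_cast
    have h4 : (d n : ℝ) * (v * z) - D.g v n ≤ C₁ * z := by linarith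
    have h5 : ((d n : ℝ) * (v * z) - D.g v n) * Real.log 2 ≤ C₁ * z * Real.log 2 :=
      mul_le_mul_of_nonneg_right h4 l2.le
    have h6 : C₁ * z * Real.log 2 ≤ C₁ * z * 1 :=
      mul_le_mul_of_nonneg_left l2' (by positivity)
    nlinarith
  have h2 := near_dig (P₁ := P₁) hp hs0 (h := fun ω => D.pN d z v n ω)
    (h' := fun ω => 2 ^ D.g v n * D.rh v ω n) (fun ω _ => by
      have h3 : (2 : ℝ) ^ P₁ * D.pN d z v n ω - s * (2 ^ P₁ * (2 ^ D.g v n * D.rh v ω n)) =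
          0 := by
        rw [hs]
        unfold NDat.pN
        field_simp
        ring
      rw [h3, abs_zero])
    (fun ω => (D.c v ω, (D.bd z U v ω : Fin n → ℤ)))
  have h3 : Real.log (2 * (s + 2 * 0 + 1) + 1) ≤ C₁ * z + 2 := by
    have h4 : (1 : ℝ) ≤ Real.exp (C₁ * z) := Real.one_le_exp (by positivity)
    refine (Real.log_le_log (by positivity)
      (by linarith : 2 * (s + 2 * 0 + 1) + 1 ≤ Real.exp (C₁ * z) * 7)).trans ?_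
    rw [Real.log_mul (by positivity) (by norm_num), Real.log_exp]
    have := log7
    linarith
  have h4 : (C₃ + C₁ + 2) * (z : ℝ) = C₃ * z + C₁ * z + 2 * z := by ring
  rw [h4]
  linarith

end RR

end Pool.STAT
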