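import Pool.Agent.H80.STAT.RowR

/-!
# The count of `entA` over abstract data, the exact time being known

`entT`: `X 0` (the time) is determined by the given variable `y`; the coordinates `1, …, n` are the
base, `n + 1` is the target.
-/

set_option autoImplicit false

namespace Pool.STAT

open Finset MvPolynomial
open Pool.Agent.H49.Ent Pool.Agent.H32.Dense Pool.STK Pool.KS3

namespace RR

/-- Substitute `t` for the coordinate `0` and shift the others. -/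
noncomputable def sb (t : ℝ) (F : PN) : PN :=
  bind₁ (fun j => if j = 0 then C t else X (j - 1)) F

theorem eval_sb (x : ℕ → ℝ) (F : PN) : eval (fun j => x (j + 1)) (sb (x 0) F) = eval x F := by
  unfold sb
  rw [show eval (fun j => x (j + 1)) (bind₁ (fun j => if j = 0 then C (x 0) else X (j - 1)) F) =
    eval (fun j => eval (fun j => x (j + 1)) (if j = 0 then C (x 0) else X (j - 1) : PN)) F from ?_]
  · congr 1
    congr 1
    funext j
    rcases j with _ | j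
    · simp
    · simp
  · rw [eval, eval₂Hom_bind₁]
    rfl

theorem vars_sb (t : ℝ) {F : PN} {i : ℕ} (h : F.vars ⊆ range (i + 1)) :
    (sb t F).vars ⊆ range i := by
  classical
  intro j hj
  unfold sb at hj
  obtain ⟨k, hk, hjk⟩ := mem_vars_bind₁ _ _ hj
  have h1 := mem_range.1 (h hk)
  by_cases h0 : k = 0
  · rw [if_pos h0, vars_C] at hjk
    exact absurd hjk (by simp)
  · rw [if_neg h0, vars_X, mem_singleton] at hjk
    exact mem_range.2 (by omega)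

theorem deg_sb (t : ℝ) {F : PN} {i K : ℕ} (h : F.vars ⊆ range (i + 1)) (hK : F.totalDegree ≤ K) :
    (sb t F).totalDegree ≤ K := by
  have := deg_bind_le (χ := fun j => if j = 0 then C t else X (j - 1)) (K' := 1) h hK
    (fun j _ => by
      by_cases h0 : j = 0
      · simp only [if_pos h0, totalDegree_C]
        exact Nat.zero_le _
      · simp only [if_neg h0, totalDegree_X]
        exact le_rfl)
  rw [mul_one] at this
  exact this

open Classical in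
/-- The shifted system. -/
noncomputable def sys (n K : ℕ) (x : ℝ × (ℕ → PN)) (i : ℕ) : PN :=
  if i ≤ n ∧ (x.2 (i + 1)).totalDegree ≤ K ∧ (x.2 (i + 1)).vars ⊆ range (i + 1) then
    sb x.1 (x.2 (i + 1)) else 0

theorem sys_deg (n K : ℕ) (x : ℝ × (ℕ → PN)) (i : ℕ) : (sys n K x i).totalDegree ≤ K := by
  unfold sys
  split_ifs with h
  · exact deg_sb _ h.2.2 h.2.1
  · simp

theorem sys_tri (n K : ℕ) (x : ℝ × (ℕ → PN)) : TriN (sys n K x) := by
  intro i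
  unfold sys
  split_ifs with h
  · exact vars_sb _ h.2.2
  · simp

/-- **The count of `entA` over abstract data**: `y` determines the time `X 0` and both systems; the
coordinates `1, …, n` are the base, `n + 1` is the target. -/
theorem entT (n K : ℕ) : ∃ C₃ : ℝ, 1 ≤ C₃ ∧ ∀ U : ℕ, 1 ≤ U → ∃ κ : ℝ, 0 < κ ∧ ∃ z₀ : ℕ,
    ∀ (Ω T : Type) [Fintype Ω] (q : Ω → ℝ) (z : ℕ) (X : Ω → ℕ → ℝ) (y : Ω → T)
      (Φ Ψ : Ω → ℕ → PN) (g g' : ℕ → ℕ),
      z₀ ≤ z → IsLaw q → Det q y (fun ω => X ω 0) → Det q y Φ → Det q y Ψ →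
      (∀ ω, 0 < q ω → ∀ i ≤ n, (Φ ω (i + 1)).totalDegree ≤ K ∧
        (Φ ω (i + 1)).vars ⊆ range (i + 1)) →
      (∀ ω, 0 < q ω → ∀ i ≤ n, (Ψ ω (i + 1)).totalDegree ≤ K ∧
        (Ψ ω (i + 1)).vars ⊆ range (i + 1)) →
      (∀ ω, 0 < q ω → ∀ i ≤ n, |X ω (i + 1) - eval (X ω) (Φ ω (i + 1))| ≤ 1 / 2 ^ g (i + 1)) →
      (∀ ω, 0 < q ω → ∀ i ≤ n, |X ω (i + 1) - eval (X ω) (Ψ ω (i + 1))| ≤ 1 / 2 ^ g' (i + 1)) →
      (∀ i ≤ n, g (i + 1) ≤ g' (i + 1)) →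
      ((∑ i ∈ range (n + 1), (g' (i + 1) - g (i + 1)) : ℕ) : ℝ) * Real.log 2 + C₃ * z ≤
        (U * z : ℕ) * Real.log 2 →
      n * (z * Real.log 2) - κ * z ≤
        CH q (fun ω (i : Fin n) => ⌊(2 : ℝ) ^ (g' (i + 1) + z) *
          (X ω (i + 1) - eval (X ω) (Ψ ω (i + 1)))⌋) y →
      CH q (fun ω (i : Fin n) => ⌊(2 : ℝ) ^ (g (i + 1) + U * z) *
          (X ω (i + 1) - eval (X ω) (Φ ω (i + 1)))⌋) y ≤
        ∑ i ∈ range n, (((U * z : ℕ) : ℝ) - ((g' (i + 1) : ℝ) - g (i + 1))) * Real.log 2 +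
          C₃ * z ∧
      ∀ P₁ : ℕ, P₁ ≤ g' (n + 1) - g (n + 1) →
        CH q (fun ω => ⌊(2 : ℝ) ^ P₁ * (2 ^ g (n + 1) *
            (X ω (n + 1) - eval (X ω) (Φ ω (n + 1))))⌋)
          (fun ω => (y ω, fun (i : Fin n) => ⌊(2 : ℝ) ^ (g (i + 1) + U * z) *
            (X ω (i + 1) - eval (X ω) (Φ ω (i + 1)))⌋)) ≤ C₃ * z := by
  classical
  obtain ⟨C₃, hC₃, hent⟩ := entA n K
  refine ⟨C₃, hC₃, fun U hU => ?_⟩
  obtain ⟨κ, hκ, z₀, hent⟩ := hent U hU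
  refine ⟨κ, hκ, z₀, ?_⟩
  intro Ω T _ q z X y Φ Ψ g g' hz hp ht0 hdΦ hdΨ hΦ hΨ hbΦ hbΨ hg hU2 hfull
  have hqn := hp.nonneg
  obtain ⟨X', hX'⟩ : ∃ X' : Ω → ℕ → ℝ, X' = fun ω i => X ω (i + 1) := ⟨_, rfl⟩
  obtain ⟨c, hc⟩ : ∃ c : Ω → T × ℝ × (ℕ → PN) × (ℕ → PN),
    c = fun ω => (y ω, X ω 0, Φ ω, Ψ ω) := ⟨_, rfl⟩
  obtain ⟨P, hP⟩ : ∃ P : T × ℝ × (ℕ → PN) × (ℕ → PN) → ℕ → PN,
    P = fun x => sys n K (x.2.1, x.2.2.1) := ⟨_, rfl⟩
  obtain ⟨P', hP'⟩ : ∃ P' : T × ℝ × (ℕ → PN) × (ℕ → PN) → ℕ → PN,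
    P' = fun x => sys n K (x.2.1, x.2.2.2) := ⟨_, rfl⟩
  have hyc : Det q y c := by
    intro ω ω' hω hω' e
    rw [hc]
    have h1 := ht0 ω ω' hω hω' e
    have h2 := hdΦ ω ω' hω hω' e
    have h3 := hdΨ ω ω' hω hω' e
    simp only at h1
    simp only [Prod.mk.injEq]
    exact ⟨e, h1, h2, h3⟩
  have hcy : Det q c y := by
    intro ω ω' _ _ e
    rw [hc] at e
    simp only [Prod.mk.injEq] at e
    exact e.1
  have hh : ∀ ω, 0 < q ω → ∀ i ≤ n, ht X' c P ω i = X ω (i + 1) - eval (X ω) (Φ ω (i + 1)) := by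
    intro ω hω i hi
    unfold ht
    rw [hP, hc, hX']
    simp only
    unfold sys
    rw [if_pos ⟨hi, hΦ ω hω i hi⟩]
    simp only
    rw [eval_sb]
  have hh' : ∀ ω, 0 < q ω → ∀ i ≤ n,
      ht X' c P' ω i = X ω (i + 1) - eval (X ω) (Ψ ω (i + 1)) := by
    intro ω hω i hi
    unfold ht
    rw [hP', hc, hX']
    simp only
    unfold sys
    rw [if_pos ⟨hi, hΨ ω hω i hi⟩]
    simp only
    rw [eval_sb]
  have hL : Lvl q X' n K c P (fun i => g (i + 1)) := by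
    refine ⟨fun x i => ?_, fun x => ?_, fun ω hω i hi => ?_⟩
    · rw [hP]; exact sys_deg _ _ _ _
    · rw [hP]; exact sys_tri _ _ _
    · rw [hh ω hω i hi]; exact hbΦ ω hω i hi
  have hL' : Lvl q X' n K c P' (fun i => g' (i + 1)) := by
    refine ⟨fun x i => ?_, fun x => ?_, fun ω hω i hi => ?_⟩
    · rw [hP']; exact sys_deg _ _ _ _
    · rw [hP']; exact sys_tri _ _ _
    · rw [hh' ω hω i hi]; exact hbΨ ω hω i hi
  have hnd : ∀ ω, 0 < q ω → nd n (fun i => g (i + 1)) (U * z) (ht X' c P) ω =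
      fun (i : Fin n) => ⌊(2 : ℝ) ^ (g (i + 1) + U * z) *
        (X ω (i + 1) - eval (X ω) (Φ ω (i + 1)))⌋ := by
    intro ω hω
    funext i
    unfold nd
    rw [hh ω hω i i.2.le]
  have hnd' : ∀ ω, 0 < q ω → nd n (fun i => g' (i + 1)) z (ht X' c P') ω =
      fun (i : Fin n) => ⌊(2 : ℝ) ^ (g' (i + 1) + z) *
        (X ω (i + 1) - eval (X ω) (Ψ ω (i + 1)))⌋ := by
    intro ω hω
    funext i
    unfold nd
    rw [hh' ω hω i i.2.le]
  have hf' : n * (z * Real.log 2) - κ * z ≤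
      CH q (nd n (fun i => g' (i + 1)) z (ht X' c P')) c := by
    rw [show CH q (nd n (fun i => g' (i + 1)) z (ht X' c P')) c =
      CH q (fun ω (i : Fin n) => ⌊(2 : ℝ) ^ (g' (i + 1) + z) *
        (X ω (i + 1) - eval (X ω) (Ψ ω (i + 1)))⌋) y from
      CH_congr hqn (fun ω ω' hω hω' e => by
        rw [← hnd' ω hω, ← hnd' ω' hω']
        exact (Prod.ext_iff.1 e).1) (fun ω ω' hω hω' e => by
        rw [hnd' ω hω, hnd' ω' hω']
        exact (Prod.ext_iff.1 e).1) hcy hyc]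
    exact hfull
  obtain ⟨r1, r2⟩ := hent Ω _ _ q z X' c P (fun i => g (i + 1)) c P' (fun i => g' (i + 1)) hz hp
    (fun ω ω' _ _ e => e) hL hL' hg hU2 hf'
  refine ⟨?_, fun P₁ hP₁ => ?_⟩
  · rw [← show CH q (nd n (fun i => g (i + 1)) (U * z) (ht X' c P)) c =
      CH q (fun ω (i : Fin n) => ⌊(2 : ℝ) ^ (g (i + 1) + U * z) *
        (X ω (i + 1) - eval (X ω) (Φ ω (i + 1)))⌋) y from
      CH_congr hqn (fun ω ω' hω hω' e => by
        rw [← hnd ω hω, ← hnd ω' hω']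
        exact (Prod.ext_iff.1 e).1) (fun ω ω' hω hω' e => by
        rw [hnd ω hω, hnd ω' hω']
        exact (Prod.ext_iff.1 e).1) hcy hyc]
    exact r1
  · refine le_trans (le_of_eq ?_) (r2 P₁ hP₁)
    refine CH_congr hqn (fun ω ω' hω hω' e => ?_) (fun ω ω' hω hω' e => ?_)
      (fun ω ω' hω hω' e => ?_) (fun ω ω' hω hω' e => ?_)
    · rw [hh ω hω n le_rfl, hh ω' hω' n le_rfl]
      exact (Prod.ext_iff.1 e).1
    · have h1 := (Prod.ext_iff.1 e).1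
      simp only at h1
      rw [hh ω hω n le_rfl, hh ω' hω' n le_rfl] at h1
      exact h1
    · rw [hnd ω hω, hnd ω' hω']
      simp only [Prod.mk.injEq] at e ⊢
      exact ⟨hyc ω ω' hω hω' e.1, e.2⟩
    · rw [hnd ω hω, hnd ω' hω'] at e
      simp only [Prod.mk.injEq] at e ⊢
      exact ⟨hcy ω ω' hω hω' e.1, e.2⟩

end RR

end Pool.STAT

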