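import Pool.Agent.H80.STAT.RowR4
import Pool.Agent.H80.STAT.RowN5

/-!
# Rows over two labels which are near

`side`: the rows of the target over the line side of a label, from the rows over the point side.
The exact time is known; `lab` and the time determine the point side `s` up to few values; the two
systems are near on the natural box at the time of the sample.
-/

set_option autoImplicit false

namespace Pool.STAT

open Finset MvPolynomial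
open Pool.Agent.H49.Ent Pool.Agent.H32.Dense Pool.STK Pool.KS3

namespace RR

/-- The natural height over `Φ`. -/
noncomputable def hh {Ω : Type} (X : Ω → ℕ → ℝ) (Φ : Ω → ℕ → PN) (g : ℕ → ℕ) (ω : Ω)
    (l : ℕ) : ℝ := 2 ^ g l * (X ω l - eval (X ω) (Φ ω l))

/-- **The change of side, one pair of samples.** -/
theorem side_pair (N K : ℕ) : ∃ C : ℝ, 1 ≤ C ∧ ∀ (x x' : ℕ → ℝ) (Φ Ψ : ℕ → PN) (g : ℕ → ℕ)
    (S δ : ℝ), x 0 = x' 0 → 0 ≤ S → 0 ≤ δ →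
    (∀ l, 1 ≤ l → l ≤ N + 1 → (Φ l).totalDegree ≤ K ∧ (Φ l).vars ⊆ range l) →
    (∀ l, 1 ≤ l → l ≤ N + 1 → (Ψ l).totalDegree ≤ K ∧ (Ψ l).vars ⊆ range l) →
    (∀ l, 1 ≤ l → l ≤ N → |x l - eval x (Φ l)| ≤ 1 / 2 ^ g l) →
    (∀ l, 1 ≤ l → l ≤ N → |x' l - eval x' (Φ l)| ≤ 1 / 2 ^ g l) →
    (∀ l, 1 ≤ l → l ≤ N → |(x l - eval x (Φ l)) - (x' l - eval x' (Φ l))| ≤ δ / 2 ^ g l) →
    ∀ l, 1 ≤ l → l ≤ N + 1 →
    (∀ b : ℕ → ℝ, b 0 = x 0 → (∀ i, 1 ≤ i → i < l → |b i - eval b (Φ i)| ≤ 1 / 2 ^ g i) →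
      |eval b (Φ l) - eval b (Ψ l)| ≤ S / 2 ^ g l) →
    |(eval x (Φ l) - eval x (Ψ l)) - (eval x' (Φ l) - eval x' (Ψ l))| ≤ C * S * δ / 2 ^ g l := by
  classical
  obtain ⟨C, hC, hlip⟩ := lip_nat N K
  refine ⟨C, hC, ?_⟩
  intro x x' Φ Ψ g S δ h0 hS hδ hΦ hΨ hx hx' hd l hl1 hl hb
  obtain ⟨i, rfl⟩ : ∃ i, l = i + 1 := ⟨l - 1, by omega⟩
  -- the shifted system
  have hsys : ∀ j ≤ N, sys N K (x 0, Φ) j = sb (x 0) (Φ (j + 1)) := fun j hj =>
    if_pos ⟨hj, hΦ (j + 1) (by omega) (by omega)⟩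
  have hval : ∀ y : ℕ → ℝ, y 0 = x 0 → ∀ j < N,
      CLO.nc (fun j => g (j + 1)) (sys N K (x 0, Φ)) (fun j => y (j + 1)) j =
        2 ^ g (j + 1) * (y (j + 1) - eval y (Φ (j + 1))) := by
    intro y hy j hj
    unfold CLO.nc
    rw [hsys j hj.le, ← hy, eval_sb]
  have h1 := hlip (sys N K (x 0, Φ)) (fun j => g (j + 1)) (sb (x 0) (Φ (i + 1) - Ψ (i + 1))) i
    (S / 2 ^ g (i + 1)) (sys_tri N K _) (sys_deg N K _) (by omega)
    (vars_sb _ ((vars_sub_subset _).trans (Finset.union_subset (hΦ _ hl1 hl).2 (hΨ _ hl1 hl).2)))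
    (deg_sb _ (i := i) ((vars_sub_subset _).trans
      (Finset.union_subset (hΦ _ hl1 hl).2 (hΨ _ hl1 hl).2))
      ((totalDegree_sub _ _).trans (max_le (hΦ _ hl1 hl).1 (hΨ _ hl1 hl).1)))
    (by positivity) (fun b hB => by
      obtain ⟨b', hb'⟩ : ∃ b' : ℕ → ℝ, b' = fun j => if j = 0 then x 0 else b (j - 1) := ⟨_, rfl⟩
      have e1 : (fun j => b' (j + 1)) = b := by
        funext j
        rw [hb']
        simp
      have e2 : b' 0 = x 0 := by rw [hb']; simp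
      have e3 : ∀ F : PN, eval b (sb (x 0) F) = eval b' F := by
        intro F
        rw [← e2, ← e1, eval_sb]
      rw [e3, map_sub]
      refine hb b' e2 fun k hk1 hk => ?_
      obtain ⟨k, rfl⟩ : ∃ j, k = j + 1 := ⟨k - 1, by omega⟩
      have e4 := hB k (by omega)
      rw [hsys k (by omega), e3, ← e1] at e4
      exact e4)
    (fun j => x' (j + 1)) (fun j => x (j + 1)) δ
    (fun j hj => by
      rw [hval x' h0.symm j (by omega), abs_mul, abs_of_pos (by positivity)]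
      have := hx' (j + 1) (by omega) (by omega)
      rwa [le_div_iff₀ (by positivity), mul_comm] at this)
    (fun j hj => by
      rw [hval x rfl j (by omega), abs_mul, abs_of_pos (by positivity)]
      have := hx (j + 1) (by omega) (by omega)
      rwa [le_div_iff₀ (by positivity), mul_comm] at this)
    hδ (fun j hj => by
      rw [hval x rfl j (by omega), hval x' h0.symm j (by omega), ← mul_sub, abs_mul,
        abs_of_pos (by positivity)]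
      have := hd (j + 1) (by omega) (by omega)
      rwa [le_div_iff₀ (by positivity), mul_comm] at this)
  have e1 : eval (fun j => x (j + 1)) (sb (x 0) (Φ (i + 1) - Ψ (i + 1))) =
      eval x (Φ (i + 1)) - eval x (Ψ (i + 1)) := by
    rw [eval_sb, map_sub]
  have e2 : eval (fun j => x' (j + 1)) (sb (x 0) (Φ (i + 1) - Ψ (i + 1))) =
      eval x' (Φ (i + 1)) - eval x' (Ψ (i + 1)) := by
    rw [h0, eval_sb, map_sub]
  rw [e1, e2] at h1
  refine h1.trans (le_of_eq ?_)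
  ring

/-- **The change of side.** -/
theorem side (N K : ℕ) (C₁ : ℝ) (hC₁ : 0 ≤ C₁) : ∃ C₃ : ℝ, 1 ≤ C₃ ∧ ∀ {Ω Λ S : Type}
    [Fintype Ω] {q : Ω → ℝ} (_ : IsLaw q) (X : Ω → ℕ → ℝ) (T : Ω → ℕ) (lab : Ω → Λ)
    (s : Ω → S) (Φ Ψ : Ω → ℕ → PN) (g g' : ℕ → ℕ) (z U P : ℕ), 1 ≤ z → P ≤ U * z →
    Det q T (fun ω => X ω 0) → Det q (fun ω => (lab ω, T ω)) Φ →
    Det q (fun ω => (s ω, T ω)) Ψ →
    (∀ ω, 0 < q ω → ∀ l, 1 ≤ l → l ≤ N + 1 →
      (Φ ω l).totalDegree ≤ K ∧ (Φ ω l).vars ⊆ range l) →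
    (∀ ω, 0 < q ω → ∀ l, 1 ≤ l → l ≤ N + 1 →
      (Ψ ω l).totalDegree ≤ K ∧ (Ψ ω l).vars ⊆ range l) →
    (∀ l, 1 ≤ l → l ≤ N + 1 → |(g l : ℝ) - g' l| ≤ C₁ * z) →
    (∀ ω, 0 < q ω → ∀ l, 1 ≤ l → l ≤ N → |X ω l - eval (X ω) (Φ ω l)| ≤ 1 / 2 ^ g l) →
    (∀ ω, 0 < q ω → ∀ l, 1 ≤ l → l ≤ N + 1 → ∀ b : ℕ → ℝ, b 0 = X ω 0 →
      (∀ i, 1 ≤ i → i < l → |b i - eval b (Φ ω i)| ≤ 1 / 2 ^ g i) →
      |eval b (Φ ω l) - eval b (Ψ ω l)| ≤ Real.exp (C₁ * z) / 2 ^ g l) →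
    CH q s (fun ω => (lab ω, T ω)) ≤ C₁ * z →
    CH q (fun ω => ⌊(2 : ℝ) ^ P * hh X Φ g ω (N + 1)⌋)
      (fun ω => (lab ω, ((fun j : Fin N => ⌊(2 : ℝ) ^ (U * z) * hh X Φ g ω (j + 1)⌋), T ω))) ≤
    CH q (fun ω => ⌊(2 : ℝ) ^ P * hh X Ψ g' ω (N + 1)⌋)
      (fun ω => (s ω, ((fun j : Fin N => ⌊(2 : ℝ) ^ (U * z) * hh X Ψ g' ω (j + 1)⌋), T ω))) +
      C₃ * z := by
  classical
  obtain ⟨C, hC, hpair⟩ := side_pair N K
  have hN0 : (0 : ℝ) ≤ N := Nat.cast_nonneg N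
  refine ⟨C₁ + (N + 1) * (2 * C₁ + 7 * C), by nlinarith, ?_⟩
  intro Ω Λ S _ q hp X T lab s Φ Ψ g g' z U P hz hPU hX0 hΦd hΨd hΦ hΨ hgg hpos hnear hfew
  have hqn := hp.nonneg
  have hzR : (1 : ℝ) ≤ z := by exact_mod_cast hz
  have l2 : 0 < Real.log 2 := Real.log_pos (by norm_num)
  have l2' : Real.log 2 ≤ 1 := by linarith [Real.log_two_lt_d9]
  obtain ⟨e₁, he₁⟩ : ∃ e₁, e₁ = Real.exp (C₁ * z) := ⟨_, rfl⟩
  have he1 : 1 ≤ e₁ := by rw [he₁]; exact Real.one_le_exp (by positivity)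
  have hratio : ∀ l, 1 ≤ l → l ≤ N + 1 → (2 : ℝ) ^ g' l ≤ e₁ * 2 ^ g l ∧
      (2 : ℝ) ^ g l ≤ e₁ * 2 ^ g' l := by
    intro l h1 h2
    have h3 := abs_le.1 (hgg l h1 h2)
    rw [he₁]
    constructor
    · rw [Cnt12.pow_two_exp, Cnt12.pow_two_exp, ← Real.exp_add]
      refine Real.exp_le_exp.2 ?_
      have h4 : ((g' l : ℝ) - g l) * Real.log 2 ≤ C₁ * z * Real.log 2 :=
        mul_le_mul_of_nonneg_right (by linarith) l2.le
      have h5 : C₁ * z * Real.log 2 ≤ C₁ * z * 1 := mul_le_mul_of_nonneg_left l2' (by positivity)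
      nlinarith
    · rw [Cnt12.pow_two_exp, Cnt12.pow_two_exp, ← Real.exp_add]
      refine Real.exp_le_exp.2 ?_
      have h4 : ((g l : ℝ) - g' l) * Real.log 2 ≤ C₁ * z * Real.log 2 :=
        mul_le_mul_of_nonneg_right (by linarith) l2.le
      have h5 : C₁ * z * Real.log 2 ≤ C₁ * z * 1 := mul_le_mul_of_nonneg_left l2' (by positivity)
      nlinarith
  obtain ⟨dΦ, hdΦ⟩ : ∃ dΦ : Ω → Fin N → ℤ, dΦ = fun ω (j : Fin N) =>
    ⌊(2 : ℝ) ^ (U * z) * hh X Φ g ω (j + 1)⌋ := ⟨_, rfl⟩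
  obtain ⟨dΨ, hdΨ⟩ : ∃ dΨ : Ω → Fin N → ℤ, dΨ = fun ω (j : Fin N) =>
    ⌊(2 : ℝ) ^ (U * z) * hh X Ψ g' ω (j + 1)⌋ := ⟨_, rfl⟩
  have hkΦ : ∀ ω, (fun j : Fin N => ⌊(2 : ℝ) ^ (U * z) * hh X Φ g ω (j + 1)⌋) = dΦ ω :=
    fun ω => by rw [hdΦ]
  have hkΨ : ∀ ω, (fun j : Fin N => ⌊(2 : ℝ) ^ (U * z) * hh X Ψ g' ω (j + 1)⌋) = dΨ ω :=
    fun ω => by rw [hdΨ]
  simp only [hkΦ, hkΨ]
  -- the variation of the difference of the sides
  have hvar : ∀ ω ω', 0 < q ω → 0 < q ω' → s ω = s ω' → lab ω = lab ω' → dΦ ω = dΦ ω' →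
      T ω = T ω' → Φ ω = Φ ω' ∧ Ψ ω = Ψ ω' ∧ (∀ l, 1 ≤ l → l ≤ N →
        |(X ω l - eval (X ω) (Φ ω l)) - (X ω' l - eval (X ω') (Φ ω l))| ≤
          (1 / 2 ^ (U * z)) / 2 ^ g l) ∧ ∀ l, 1 ≤ l → l ≤ N + 1 →
        |(eval (X ω) (Φ ω l) - eval (X ω) (Ψ ω l)) -
          (eval (X ω') (Φ ω l) - eval (X ω') (Ψ ω l))| ≤
          C * e₁ * (1 / 2 ^ (U * z)) / 2 ^ g l := by
    intro ω ω' hω hω' e1 e2 e3 e4
    have hΦe : Φ ω = Φ ω' := hΦd ω ω' hω hω' (Prod.ext e2 e4)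
    have hΨe : Ψ ω = Ψ ω' := hΨd ω ω' hω hω' (Prod.ext e1 e4)
    have h1 : ∀ l, 1 ≤ l → l ≤ N →
        |(X ω l - eval (X ω) (Φ ω l)) - (X ω' l - eval (X ω') (Φ ω l))| ≤
          (1 / 2 ^ (U * z)) / 2 ^ g l := by
      intro l hl1 hl
      have h2 := congrFun e3 ⟨l - 1, by omega⟩
      rw [hdΦ] at h2
      simp only at h2
      have hl' : l - 1 + 1 = l := by omega
      rw [hl'] at h2
      unfold hh at h2
      rw [← hΦe] at h2
      rw [← mul_assoc, ← mul_assoc] at h2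
      have h3 := Cnt12.cell_near (by positivity) h2
      refine h3.trans (le_of_eq ?_)
      rw [div_div]
    refine ⟨hΦe, hΨe, h1, fun l hl1 hl => ?_⟩
    have h5 := hpair (X ω) (X ω') (Φ ω) (Ψ ω) g e₁ (1 / 2 ^ (U * z))
      (hX0 ω ω' hω hω' e4) (by linarith) (by positivity) (hΦ ω hω) (hΨ ω hω) (hpos ω hω)
      (fun l a1 a2 => by
        have := hpos ω' hω' l a1 a2
        rwa [← hΦe] at this) h1 l hl1 hl (fun b hb0 hb => by
        rw [he₁]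
        exact hnear ω hω l hl1 hl b hb0 hb)
    exact h5
  have hBd : Real.log (2 * (2 * C * (e₁ * e₁) + 1) + 1) ≤ (2 * C₁ + 7 * C) * z := by
    have h0 : 1 ≤ e₁ * e₁ := by nlinarith
    have h1 : 1 ≤ C * (e₁ * e₁) := by nlinarith
    have h2 : 2 * (2 * C * (e₁ * e₁) + 1) + 1 ≤ (7 * C) * (e₁ * e₁) := by nlinarith
    refine (Real.log_le_log (by positivity) h2).trans ?_
    rw [Real.log_mul (by positivity) (by positivity), he₁, ← Real.exp_add, Real.log_exp]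
    have h3 := Real.log_le_sub_one_of_pos (show 0 < 7 * C by positivity)
    have h4 : 7 * C ≤ 7 * C * z := le_mul_of_one_le_right (by positivity) hzR
    nlinarith
  have hpU : (0 : ℝ) < 2 ^ (U * z) := by positivity
  have hpP : (2 : ℝ) ^ P ≤ 2 ^ (U * z) := pow_le_pow_right₀ (by norm_num) hPU
  have hCe : e₁ + C * e₁ * e₁ ≤ 2 * C * (e₁ * e₁) := by
    have h1 : e₁ ≤ C * (e₁ * e₁) := by
      have : e₁ ≤ e₁ * e₁ := by nlinarith
      nlinarith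
    nlinarith
  -- the steps
  have sA := CH_le_add hqn (fun ω => ⌊(2 : ℝ) ^ P * hh X Φ g ω (N + 1)⌋) s
    (fun ω => (lab ω, (dΦ ω, T ω)))
  have sA1 : CH q s (fun ω => (lab ω, (dΦ ω, T ω))) ≤ CH q s (fun ω => (lab ω, T ω)) :=
    CH_mono_cond hqn fun ω ω' _ _ e => by
      simp only [Prod.mk.injEq] at e ⊢
      exact ⟨e.1, e.2.2⟩
  have sB := CH_le_add hqn (fun ω => ⌊(2 : ℝ) ^ P * hh X Φ g ω (N + 1)⌋) dΨ
    (fun ω => (s ω, (lab ω, (dΦ ω, T ω))))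
  have sB1 : CH q dΨ (fun ω => (s ω, (lab ω, (dΦ ω, T ω)))) ≤ N * ((2 * C₁ + 7 * C) * z) := by
    have h1 := Ful.ch_vec hp dΨ (fun ω => (s ω, (lab ω, (dΦ ω, T ω))))
      (fun _ => 2 * C * (e₁ * e₁) + 1) (fun j ω ω' hω hω' e _ => by
        simp only [Prod.mk.injEq] at e
        obtain ⟨_, hΨe, hv1, hv2⟩ := hvar ω ω' hω hω' e.1 e.2.1 e.2.2.1 e.2.2.2
        have hj1 : 1 ≤ (j : ℕ) + 1 := by omega
        have hj2 : (j : ℕ) + 1 ≤ N := by have := j.2; omega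
        have h2 := hv1 (j + 1) hj1 hj2
        have h3 := hv2 (j + 1) hj1 (by omega)
        rw [hdΨ]
        simp only
        refine Ful.fl_le ?_
        unfold hh
        rw [← hΨe, ← mul_sub, ← mul_sub, abs_mul, abs_mul, abs_of_pos hpU,
          abs_of_pos (by positivity : (0 : ℝ) < 2 ^ g' (j + 1))]
        have h4 : X ω (j + 1) - eval (X ω) (Ψ ω (j + 1)) -
            (X ω' (j + 1) - eval (X ω') (Ψ ω (j + 1))) =
            ((X ω (j + 1) - eval (X ω) (Φ ω (j + 1))) -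
              (X ω' (j + 1) - eval (X ω') (Φ ω (j + 1)))) +
            ((eval (X ω) (Φ ω (j + 1)) - eval (X ω) (Ψ ω (j + 1))) -
              (eval (X ω') (Φ ω (j + 1)) - eval (X ω') (Ψ ω (j + 1)))) := by ring
        rw [h4]
        have h5 := (abs_add_le ((X ω (j + 1) - eval (X ω) (Φ ω (j + 1))) -
              (X ω' (j + 1) - eval (X ω') (Φ ω (j + 1))))
            ((eval (X ω) (Φ ω (j + 1)) - eval (X ω) (Ψ ω (j + 1))) -
              (eval (X ω') (Φ ω (j + 1)) - eval (X ω') (Ψ ω (j + 1))))).trans (add_le_add h2 h3)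
        calc (2 : ℝ) ^ (U * z) * (2 ^ g' (j + 1) * |_|) ≤
            2 ^ (U * z) * ((e₁ * 2 ^ g (j + 1)) * (1 / 2 ^ (U * z) / 2 ^ g (j + 1) +
              C * e₁ * (1 / 2 ^ (U * z)) / 2 ^ g (j + 1))) := by
              refine mul_le_mul_of_nonneg_left ?_ hpU.le
              exact mul_le_mul (hratio (j + 1) hj1 (by omega)).1 h5 (abs_nonneg _)
                (by positivity)
          _ = e₁ + C * e₁ * e₁ := by field_simp
          _ ≤ 2 * C * (e₁ * e₁) := hCe)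
    refine h1.trans ?_
    rw [Finset.sum_const, card_range, nsmul_eq_mul]
    exact mul_le_mul_of_nonneg_left hBd hN0
  have sC := CH_le_add hqn (fun ω => ⌊(2 : ℝ) ^ P * hh X Φ g ω (N + 1)⌋)
    (fun ω => ⌊(2 : ℝ) ^ P * hh X Ψ g' ω (N + 1)⌋)
    (fun ω => (dΨ ω, (s ω, (lab ω, (dΦ ω, T ω)))))
  have sC1 : CH q (fun ω => ⌊(2 : ℝ) ^ P * hh X Ψ g' ω (N + 1)⌋)
      (fun ω => (dΨ ω, (s ω, (lab ω, (dΦ ω, T ω))))) ≤
      CH q (fun ω => ⌊(2 : ℝ) ^ P * hh X Ψ g' ω (N + 1)⌋) (fun ω => (s ω, (dΨ ω, T ω))) :=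
    CH_mono_cond hqn fun ω ω' _ _ e => by
      simp only [Prod.mk.injEq] at e ⊢
      exact ⟨e.2.1, e.1, e.2.2.2.2⟩
  have sC2 : CH q (fun ω => ⌊(2 : ℝ) ^ P * hh X Φ g ω (N + 1)⌋)
      (fun ω => (⌊(2 : ℝ) ^ P * hh X Ψ g' ω (N + 1)⌋,
        (dΨ ω, (s ω, (lab ω, (dΦ ω, T ω)))))) ≤ (2 * C₁ + 7 * C) * z := by
    have h1 := CH_le_int hqn hp.sum_one (fun ω => ⌊(2 : ℝ) ^ P * hh X Φ g ω (N + 1)⌋)
      (fun ω => (⌊(2 : ℝ) ^ P * hh X Ψ g' ω (N + 1)⌋,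
        (dΨ ω, (s ω, (lab ω, (dΦ ω, T ω)))))) (fun _ => 2 * C * (e₁ * e₁) + 1)
      (fun ω ω' hω hω' e => by
        simp only [Prod.mk.injEq] at e
        obtain ⟨hΦe, hΨe, _, hv2⟩ := hvar ω ω' hω hω' e.2.2.1 e.2.2.2.1 e.2.2.2.2.1
          e.2.2.2.2.2
        have h3 := hv2 (N + 1) (by omega) le_rfl
        have h2 := e.1
        unfold hh at h2
        rw [← hΨe, ← mul_assoc, ← mul_assoc] at h2
        have h4 := Cnt12.cell_near (by positivity) h2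
        refine Ful.fl_le ?_
        unfold hh
        rw [← hΦe, ← mul_sub, ← mul_sub, abs_mul, abs_mul,
          abs_of_pos (by positivity : (0 : ℝ) < 2 ^ P),
          abs_of_pos (by positivity : (0 : ℝ) < 2 ^ g (N + 1))]
        have h5 : X ω (N + 1) - eval (X ω) (Φ ω (N + 1)) -
            (X ω' (N + 1) - eval (X ω') (Φ ω (N + 1))) =
            ((X ω (N + 1) - eval (X ω) (Ψ ω (N + 1))) -
              (X ω' (N + 1) - eval (X ω') (Ψ ω (N + 1)))) -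
            ((eval (X ω) (Φ ω (N + 1)) - eval (X ω) (Ψ ω (N + 1))) -
              (eval (X ω') (Φ ω (N + 1)) - eval (X ω') (Ψ ω (N + 1)))) := by ring
        rw [h5]
        have h6 := (abs_sub ((X ω (N + 1) - eval (X ω) (Ψ ω (N + 1))) -
              (X ω' (N + 1) - eval (X ω') (Ψ ω (N + 1))))
            ((eval (X ω) (Φ ω (N + 1)) - eval (X ω) (Ψ ω (N + 1))) -
              (eval (X ω') (Φ ω (N + 1)) - eval (X ω') (Ψ ω (N + 1))))).trans (add_le_add h4 h3)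
        have h7 := (hratio (N + 1) (by omega) le_rfl).2
        calc (2 : ℝ) ^ P * (2 ^ g (N + 1) * |_|) ≤
            2 ^ P * (2 ^ g (N + 1) * (1 / (2 ^ P * 2 ^ g' (N + 1)) +
              C * e₁ * (1 / 2 ^ (U * z)) / 2 ^ g (N + 1))) := by
              refine mul_le_mul_of_nonneg_left ?_ (by positivity)
              exact mul_le_mul_of_nonneg_left h6 (by positivity)
          _ = 2 ^ g (N + 1) / 2 ^ g' (N + 1) + C * e₁ * (2 ^ P / 2 ^ (U * z)) := by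
              field_simp
          _ ≤ e₁ + C * e₁ * 1 := by
              refine add_le_add ?_ (mul_le_mul_of_nonneg_left ?_ (by positivity))
              · rw [div_le_iff₀ (by positivity)]
                exact h7
              · rw [div_le_one (by positivity)]
                exact hpP
          _ ≤ e₁ + C * e₁ * e₁ := by
              have : C * e₁ * 1 ≤ C * e₁ * e₁ := mul_le_mul_of_nonneg_left he1 (by positivity)
              linarith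
          _ ≤ 2 * C * (e₁ * e₁) := hCe)
    rw [Ex_const hp.sum_one] at h1
    exact h1.trans hBd
  have e9 : (C₁ + (N + 1) * (2 * C₁ + 7 * C)) * (z : ℝ) =
      C₁ * z + N * ((2 * C₁ + 7 * C) * z) + (2 * C₁ + 7 * C) * z := by ring
  rw [e9]
  linarith

end RR

end Pool.STAT

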